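import Pool.Agent.Lib.MP_fa224b_lc.C.FStmts

/-! The profinite group, its letters, its coding by reals, and the test words. -/

namespace Pool.Agent.Lib.MP_fa224b_lc.C

open MeasureTheory Encodable

/-- elementary matrix (the identity if `a = b`) -/
noncomputable def elem {R : Type} [Ring R] (a b : Fin 3) (r : R) : (Matrix (Fin 3) (Fin 3) R)ˣ :=
  if h : a = b then 1 else
    ⟨1 + Matrix.single a b r, 1 - Matrix.single a b r,
      by
        rw [add_mul, mul_sub, mul_sub, one_mul, one_mul, mul_one,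
          Matrix.single_mul_single_of_ne _ _ _ _ (Ne.symm h)]
        simp,
      by
        rw [sub_mul, mul_add, mul_add, one_mul, one_mul, mul_one,
          Matrix.single_mul_single_of_ne _ _ _ _ (Ne.symm h)]
        simp⟩

/-- number of positions of line `s = pair j k`, which spells `x y^(j+1) x x y^(j+1) x y^k` -/
def dim (s : ℕ) : ℕ := 2 * s.unpair.1 + 7 + s.unpair.2

/-- the step from position `u` to `u + 1` of line `s` is labelled `x` -/
def isX (s u : ℕ) : Prop :=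
  u = 0 ∨ u = s.unpair.1 + 2 ∨ u = s.unpair.1 + 3 ∨ u = 2 * s.unpair.1 + 5

instance (s u : ℕ) : Decidable (isX s u) := by unfold isX; infer_instance

abbrev Rg (s : ℕ) : Type := Matrix (Fin (dim s)) (Fin (dim s)) (ZMod 293)

def mX (s : ℕ) : Rg s := Matrix.of fun u w => if u.1 = w.1 + 1 ∧ isX s w.1 then 1 else 0
def mY (s : ℕ) : Rg s := Matrix.of fun u w => if u.1 = w.1 + 1 ∧ ¬ isX s w.1 then 1 else 0

/-- `j` codes a point of the graph of `z` -/
def InJ (z : B) (j : ℕ) : Prop := z j.unpair.1 = j.unpair.2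

instance (z : B) (j : ℕ) : Decidable (InJ z j) := by unfold InJ; infer_instance

def mT (z : B) (s : ℕ) : Rg s :=
  if InJ z s.unpair.1 then mX s * mY s ^ (s.unpair.1 + 1) * mX s else 0

/-- the four ring elements `1, X, Y, T` -/
def rel (z : B) (i : ℕ) (s : ℕ) : Rg s :=
  if i = 0 then 1 else if i = 1 then mX s else if i = 2 then mY s else mT z s

/-- the finite group of level `s` -/
def Gs (s : ℕ) : Type := (Matrix (Fin 3) (Fin 3) (Rg s))ˣ

noncomputable instance (s : ℕ) : Group (Gs s) :=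
  inferInstanceAs (Group (Matrix (Fin 3) (Fin 3) (Rg s))ˣ)
instance (s : ℕ) : Finite (Gs s) := inferInstanceAs (Finite (Matrix (Fin 3) (Fin 3) (Rg s))ˣ)
instance (s : ℕ) : TopologicalSpace (Gs s) := ⊥
instance (s : ℕ) : DiscreteTopology (Gs s) := ⟨rfl⟩
instance (s : ℕ) : IsTopologicalGroup (Gs s) where
  continuous_mul := continuous_of_discreteTopology
  continuous_inv := continuous_of_discreteTopology
instance (s : ℕ) : MeasurableSpace (Gs s) := ⊤
instance (s : ℕ) : DiscreteMeasurableSpace (Gs s) := ⟨fun _ => trivial⟩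
instance (s : ℕ) : BorelSpace (Gs s) := DiscreteMeasurableSpace.toBorelSpace

def Gs.mat {s : ℕ} (g : Gs s) : Matrix (Fin 3) (Fin 3) (Rg s) :=
  Units.val (α := Matrix (Fin 3) (Fin 3) (Rg s)) g

abbrev GG : Type := ∀ s, Gs s

/-- elementary matrix with entry `r` at all levels -/
noncomputable def E (a b : Fin 3) (r : ∀ s, Rg s) : GG := fun s => elem a b (r s)

/-- the five cyclic subgroups -/
noncomputable def gen (i : Fin 5) (c : ZMod 293) : GG :=
  match i with
  | 0 => E 0 1 fun _ => c • 1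
  | 1 => E 1 2 fun _ => c • 1
  | 2 => E 2 0 fun _ => c • 1
  | 3 => E 2 0 fun s => c • mX s
  | 4 => E 2 0 fun s => c • mY s

noncomputable def KK : Subgroup GG :=
  (Subgroup.closure (Set.range fun c : Fin 5 × ZMod 293 => gen c.1 c.2)).topologicalClosure

instance : CompactSpace KK :=
  isCompact_iff_compactSpace.1 (Subgroup.isClosed_topologicalClosure _).isCompact

instance : SecondCountableTopology KK := TopologicalSpace.Subtype.secondCountableTopology _

noncomputable def mu : Measure KK := Measure.haarMeasure ⊤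

/-- letter with side `sd` (0 left, 1 right), position `(a, b)`, ring element `i`, scalar `c` -/
def mkL (sd a b i c : ℕ) : ℕ := sd + 2 * (a + 3 * (b + 3 * (i + 4 * c)))

def lA (t : ℕ) : Fin 3 := ⟨t / 2 % 3, Nat.mod_lt _ (by norm_num)⟩
def lB (t : ℕ) : Fin 3 := ⟨t / 6 % 3, Nat.mod_lt _ (by norm_num)⟩
def lI (t : ℕ) : ℕ := t / 18 % 4
def lC (t : ℕ) : ℕ := t / 72
def lSide (t : ℕ) : Bool := decide (t % 2 = 0)
def lInv (t : ℕ) : ℕ := t % 72 + 72 * ((293 - t / 72) % 293)
def nL : ℕ := 72 * 293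

noncomputable def el0 (z : B) (t : ℕ) : GG :=
  E (lA t) (lB t) fun s => (lC t : ZMod 293) • rel z (lI t) s

open Classical in
noncomputable def el (z : B) (t : ℕ) : KK := if h : el0 z t ∈ KK then ⟨el0 z t, h⟩ else 1

noncomputable def mact (z : B) (t : ℕ) (y : KK) : KK :=
  if lSide t = true then el z t * y else y * el z t

/-- letters of the random walks -/
def wlab (sd : ℕ) (c : Fin 5 × ZMod 293) : ℕ :=
  match c.1 with
  | 0 => mkL sd 0 1 0 c.2.val
  | 1 => mkL sd 1 2 0 c.2.val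
  | 2 => mkL sd 2 0 0 c.2.val
  | 3 => mkL sd 2 0 1 c.2.val
  | 4 => mkL sd 2 0 2 c.2.val

noncomputable def wlist (sd : ℕ) : List ℕ :=
  (Finset.univ : Finset (Fin 5 × ZMod 293)).toList.map (wlab sd)

/-- entry `(a, b, u, v)` of level `s` -/
def entry (y : GG) (s a b u v : ℕ) : ℕ :=
  if h : a < 3 ∧ b < 3 ∧ u < dim s ∧ v < dim s then
    ((y s).mat ⟨a, h.1⟩ ⟨b, h.2.1⟩ ⟨u, h.2.2.1⟩ ⟨v, h.2.2.2⟩).val else 0

def code (y : KK) : B := fun n =>
  entry y.1 n.unpair.1 n.unpair.2.unpair.1 n.unpair.2.unpair.2.unpair.1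
    n.unpair.2.unpair.2.unpair.2.unpair.1 n.unpair.2.unpair.2.unpair.2.unpair.2

def iota (z : B) (y : KK) : B := join z (code y)

/-- row index of the elementary matrix of a monomial of length `n` -/
def rowN (n : ℕ) : ℕ := if n % 2 = 1 then 0 else 2

/-- word in right letters for the elementary matrix at `(rowN l.length, 1)` whose entry is the
product of the ring elements listed in `l` -/
def mword : List ℕ → List ℕ
  | [] => []
  | i :: l =>
    if l = [] then [mkL 1 0 1 i 1] else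
      [mkL 1 (rowN (l.length + 1)) (rowN l.length) i 1] ++ mword l ++
        ([mkL 1 (rowN (l.length + 1)) (rowN l.length) i 292] ++ winv lInv (mword l))

/-- the monomial `Y^(2 i) X Y^(j+1) X T` -/
def mono (j i : ℕ) : List ℕ := List.replicate (2 * i) 2 ++ (1 :: (List.replicate (j + 1) 2 ++ [1, 3]))

/-- test words -/
def tw (j m : ℕ) : List ℕ :=
  (List.range m).flatMap fun i => if m.testBit i = true then mword (mono j i) else []

/-- commutation rules of elementary matrices -/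
def StElem : Prop := ∀ (R : Type) [Ring R],
  (∀ (a b : Fin 3), elem a b (0 : R) = 1) ∧
  (∀ (a b : Fin 3) (r s : R), elem a b (r + s) = elem a b r * elem a b s) ∧
  (∀ (a b c : Fin 3) (r s : R), a ≠ b → b ≠ c → a ≠ c →
    elem a b r * elem b c s = elem b c s * elem a b r * elem a c (r * s) ∧
    elem a b r * elem b c s * elem a b (-r) * elem b c (-s) = elem a c (r * s) ∧
    elem a b r * elem a c s = elem a c s * elem a b r ∧
    elem b c r * elem a c s = elem a c s * elem b c r) ∧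
  (∀ (a b : Fin 3) (r s : R), a ≠ b → elem a b r = elem a b s → r = s)

/-- entries of the monomial `X Y^(j+1) X` -/
def StLine : Prop := ∀ (s j : ℕ) (u w : Fin (dim s)), (mX s * mY s ^ (j + 1) * mX s) u w =
  if j = s.unpair.1 ∧ ((w.1 = 0 ∧ u.1 = j + 3) ∨ (w.1 = j + 3 ∧ u.1 = 2 * j + 6)) then 1 else 0

def StMem : Prop := ∀ z t, el0 z t ∈ KK

def StHaar : Prop := IsProbabilityMeasure mu ∧ mu.IsMulLeftInvariant ∧ mu.IsMulRightInvariant

/-- the letters form a system of moves -/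
def StSys : Prop := ∀ z, ∃ σ : Sys KK, σ.act = mact z ∧ σ.S = List.range nL ∧ σ.L = wlist 0 ∧
  σ.R = wlist 1 ∧ σ.inv = lInv ∧ σ.side = lSide ∧ Primrec lInv ∧ Primrec lSide ∧
  ∀ t, MeasurePreserving (mact z t) mu mu

def StGapM : Prop := ∀ z, Gap mu (mact z) (wlist 0) (1 - 1 / 1250) ∧
  Gap mu (mact z) (wlist 1) (1 - 1 / 1250)

def StApproxM : Prop := ∀ z (σ : Sys KK), σ.act = mact z → Approx mu σ

def StCode : Prop := Continuous code ∧ Function.Injective code ∧ (∀ y n, code y n < 293) ∧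
  Measurable code ∧ Measurable fun q : B × KK => iota q.1 q.2

def StComp : Prop := ∀ z t y, TLe (iota z (mact z t y)) (iota z y)

def StTwComp : Prop := Primrec₂ tw ∧ ∀ j m, ∀ t ∈ tw j m, t < nL

/-- value of the word of a monomial -/
def StMword : Prop := ∀ (z : B) (l : List ℕ) (y : KK), l ≠ [] → (∀ i ∈ l, i < 4) →
  ((wact (mact z) (mword l) y : KK) : GG) =
    y.1 * E ⟨rowN l.length, by unfold rowN; split <;> omega⟩ 1 fun s => (l.map fun i => rel z i s).prod

def StTwVal : Prop := ∀ z j, (¬ InJ z j → ∀ m y, wact (mact z) (tw j m) y = y) ∧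
  (InJ z j → ∃ κ : (ℕ → Bool) → KK, Continuous κ ∧ Function.Injective κ ∧
    ∀ m y, wact (mact z) (tw j m) y = y * κ fun i => m.testBit i)

/-- the measure form of the theorem -/
def StCore : Prop := ∀ (z : B) (f : KK → B), AEMeasurable f mu →
  (∀ y y', TEq (iota z y) (iota z y') → TEq (f y) (f y')) → (∀ v, {y | f y = v}.Countable) →
  ∀ N : Set KK, mu N = 0 → ∃ y, y ∉ N ∧ TLe z (f y)

/-- a Borel choice of a real not computable from almost every point -/
def StDiag : Prop := ∀ (Ω : Type) [MeasurableSpace Ω] (μ : Measure Ω) [IsProbabilityMeasure μ]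
  (e : B → Ω → B), (Measurable fun q : B × Ω => e q.1 q.2) →
  ∃ dg : B → B, Measurable dg ∧ ∀ z, μ {y | TLe (dg z) (e z y)} = 0

/-- cylinder of a list (last entry first) -/
def ncyl (l : List ℕ) : Set B := {x | rp x l.length = l}

/-- the rational number with index `i` in the move `c` -/
def mv (c i : ℕ) : ℚ := ((decode c : Option (List ℚ)).getD []).getD i 0

/-- the value claimed after `n` rounds -/
def gval (a : ℚ) (x : B) : ℕ → ℚ
  | 0 => a
  | n + 1 => mv (x (2 * n)) (x (2 * n + 1))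

def LegI (ν : Measure B) (q : ℕ) (a : ℚ) (x : B) (n : ℕ) : Prop :=
  (∀ i, i < q → 0 ≤ mv (x (2 * n)) i ∧
    (mv (x (2 * n)) i : ℝ) ≤ ν.real (ncyl (i :: rp (odds x) n))) ∧
  gval a x n ≤ ∑ i ∈ Finset.range q, mv (x (2 * n)) i

def LegII (q : ℕ) (x : B) (n : ℕ) : Prop :=
  x (2 * n + 1) < q ∧ 0 < mv (x (2 * n)) (x (2 * n + 1))

/-- payoff set of the measure game -/
def NG (ν : Measure B) (q : ℕ) (a : ℚ) (A : Set B) : Set B :=
  {x | (∀ n, (∀ m, m < n → LegII q x m) → LegI ν q a x n) ∧ ((∀ n, LegII q x n) → odds x ∈ A)}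

def StNullI : Prop := ∀ (ν : Measure B) [IsProbabilityMeasure ν] (q : ℕ) (a : ℚ) (A : Set B)
  (σ : List ℕ → ℕ), (a : ℝ) ≤ 1 → (∀ τ, run σ τ ∈ NG ν q a A) →
  ∃ C, C ⊆ A ∧ MeasurableSet C ∧ (a : ℝ) ≤ ν.real C

def StNullII : Prop := ∀ (ν : Measure B) [IsProbabilityMeasure ν] (q : ℕ) (a : ℚ) (A : Set B)
  (τ : List ℕ → ℕ), 0 ≤ a → (∀ σ, run σ τ ∉ NG ν q a A) → ∀ δ : ℝ, 0 < δ →
  ∃ U, MeasurableSet U ∧ (∀ x ∈ A, (∀ n, x n < q) → x ∈ U) ∧ ν.real U ≤ a + δ

/-- determinacy gives measurability -/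
def StNull : Prop := ∀ (𝒜 : MeasurableSpace B), Adequate 𝒜 → ∀ (ν : @Measure B MeasurableSpace.pi)
  [IsProbabilityMeasure ν] (q : ℕ), ν {x | ∀ n, x n < q}ᶜ = 0 →
  ∀ A : Set B, @MeasurableSet B 𝒜 A → @NullMeasurableSet B MeasurableSpace.pi A ν

/-- Martin's pointed tree lemma -/
def StPoint : Prop := ∀ (𝒜 : MeasurableSpace B), Adequate 𝒜 → ∀ A : Set B,
  @MeasurableSet B 𝒜 A → (∀ z, ∃ x ∈ A, TLe z x) →
  ∃ s, (∀ b, RI (join s b) ∈ A) ∧ ∀ b, TLe b (RI (join s b))

/-- constant or splitting -/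
def StSplit : Prop := ∀ H : B → B → B, (TC fun x => H (evens x) (odds x)) → ∀ s : B,
  (∃ (b₀ : B) (n : ℕ), ∀ b, (∀ i < n, b i = b₀ i) → H s b = H s b₀) ∨
  ∀ d, ∃ b, TLe b (join s d) ∧ TLe d (join s (H s b))

def StMain : Prop := ∀ (𝒜 : MeasurableSpace B), Adequate 𝒜 → ∀ F : B → B,
  @Measurable B B 𝒜 MeasurableSpace.pi F → (∀ x y, TEq x y → TEq (F x) (F y)) →
  ∀ c, (∀ v, {x | TLe c x ∧ F x = v}.Countable) →
  (∃ c', ∀ x, TLe c' x → TLe x (F x)) ∧ ∃ c', ∀ w, TLe c' w → ∃ x, TEq (F x) w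

end Pool.Agent.Lib.MP_fa224b_lc.C
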