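import Pool.Agent.Lib.MP_fa224b_lc.C.Basic
import Pool.Agent.Lib.MP_fa224b_lc.C.MDefs

/-! Measurable functions on the profinite group are nearly finite state. -/

namespace Pool.Agent.Lib.MP_fa224b_lc.C

open MeasureTheory Encodable Filter Topology
open scoped ENNReal

namespace ApproxM

/-- finite tables are primitive recursive -/
theorem tbl (f : ℕ → ℕ → ℕ) (N : ℕ) :
    ∃ g : ℕ → ℕ → ℕ, Primrec₂ g ∧ ∀ t, t < N → ∀ k, k < N → g t k = f t k :=
  ⟨fun t k => (((List.range N).map fun t => (List.range N).map (f t)).getD t []).getD k 0,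
    (Primrec.list_getD 0).comp ((Primrec.list_getD []).comp (Primrec.const _) Primrec.fst)
      Primrec.snd, fun t ht k hk => by simp [ht, hk]⟩

theorem fac {K : Type} (q : K → ℕ) (C : Set K) (S : List ℕ) (N : ℕ) (hq : ∀ y, q y < N)
    (u : ℕ → K → ℕ) (h : ∀ t ∈ S, ∀ y ∈ C, ∀ y' ∈ C, q y = q y' → u t y = u t y') :
    ∃ g : ℕ → ℕ → ℕ, Primrec₂ g ∧ ∀ t ∈ S, ∀ y ∈ C, u t y = g t (q y) := by
  classical
  obtain ⟨g, h1, h2⟩ := tbl (fun t k => if h : ∃ y ∈ C, q y = k then u t h.choose else 0)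
    (N + S.sum + 1)
  refine ⟨g, h1, fun t ht y hy => ?_⟩
  have h3 : ∃ y' ∈ C, q y' = q y := ⟨y, hy, rfl⟩
  have h4 := List.le_sum_of_mem ht
  have h5 := hq y
  rw [h2 t (by omega) _ (by omega), dif_pos h3]
  exact h t ht y hy _ h3.choose_spec.1 h3.choose_spec.2.symm

/-- the theorem of Lusin for functions with natural values -/
theorem lusin {K : Type} [TopologicalSpace K] [MeasurableSpace K] [OpensMeasurableSpace K]
    (μ : Measure K) [IsFiniteMeasure μ] [μ.WeaklyRegular] (U : K → ℕ) (hU : Measurable U)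
    {ε : ℝ≥0∞} (hε : ε ≠ 0) : ∃ (N : ℕ) (C : ℕ → Set K), (∀ v, IsClosed (C v)) ∧
      (∀ v, ∀ y ∈ C v, U y = v) ∧ μ (⋃ v ∈ Set.Iio N, C v)ᶜ < ε := by
  obtain ⟨η, h1, h2⟩ := ENNReal.exists_pos_sum_of_countable' hε ℕ
  choose C h3 h4 h5 using fun v => (hU (measurableSet_singleton v)).exists_isClosed_sdiff_lt
    (measure_ne_top μ _) (h1 v).ne'
  have h6 : μ (⋂ N : ℕ, (⋃ v ∈ Set.Iio N, C v)ᶜ) < ε := by
    refine lt_of_le_of_lt ((measure_mono fun y hy => ?_).trans ((measure_iUnion_le _).trans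
      (ENNReal.tsum_le_tsum fun v => (h5 v).le))) h2
    exact Set.mem_iUnion.2 ⟨U y, rfl, fun h => Set.mem_iInter.1 hy (U y + 1)
      (Set.mem_biUnion (Nat.lt_succ_self _) h)⟩
  obtain ⟨N, hN⟩ := ((tendsto_measure_iInter_atTop (μ := μ)
    (s := fun N : ℕ => (⋃ v ∈ Set.Iio N, C v)ᶜ)
    (fun N => (MeasurableSet.biUnion (Set.to_countable _) fun v _ =>
      (h4 v).measurableSet).compl.nullMeasurableSet)
    (fun a b hab => Set.compl_subset_compl.2 (Set.biUnion_subset_biUnion_left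
      (Set.Iio_subset_Iio hab))) ⟨0, measure_ne_top _ _⟩).eventually_lt_const h6).exists
  exact ⟨N, C, h4, fun v y hy => h3 v hy, hN⟩

/-- finitely many disjoint closed sets are separated by finitely many coordinates -/
theorem sep (U : KK → ℕ) (N : ℕ) (C : ℕ → Set KK) (h1 : ∀ v, IsClosed (C v))
    (h2 : ∀ v, ∀ y ∈ C v, U y = v) : ∃ n : ℕ, ∀ y ∈ ⋃ v ∈ Set.Iio N, C v,
      ∀ y' ∈ ⋃ v ∈ Set.Iio N, C v, (∀ s, s < n → y.1 s = y'.1 s) → U y = U y' := by
  have h3 : IsClosed (⋃ v ∈ Set.Iio N, ⋃ v' ∈ Set.Iio N \ {v}, C v ×ˢ C v') :=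
    (Set.finite_Iio N).isClosed_biUnion fun v _ =>
      (Set.finite_Iio N).sdiff.isClosed_biUnion fun v' _ => (h1 v).prod (h1 v')
  obtain ⟨n, hn⟩ := h3.isCompact.elim_directed_family_closed
    (fun n : ℕ => ⋂ s ∈ Set.Iio n, {p : KK × KK | p.1.1 s = p.2.1 s})
    (fun n => isClosed_biInter fun s _ => isClosed_eq
      ((continuous_apply s).comp (continuous_subtype_val.comp continuous_fst))
      ((continuous_apply s).comp (continuous_subtype_val.comp continuous_snd)))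
    (Set.eq_empty_of_forall_notMem fun p hp => by
      simp only [Set.mem_inter_iff, Set.mem_iUnion, Set.mem_iInter] at hp
      obtain ⟨⟨v, -, v', hv, h4, h5⟩, h6⟩ := hp
      have e : p.1 = p.2 := Subtype.ext (funext fun s => h6 (s + 1) s (Nat.lt_succ_self s))
      exact hv.2 ((h2 v' _ h5).symm.trans (e ▸ h2 v _ h4)))
    (Antitone.directed_ge fun a b hab => Set.biInter_subset_biInter_left (Set.Iio_subset_Iio hab))
  refine ⟨n, fun y hy y' hy' h => by_contra fun h' => ?_⟩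
  simp only [Set.mem_iUnion] at hy hy'
  obtain ⟨v, hv, hy⟩ := hy
  obtain ⟨v', hv', hy'⟩ := hy'
  refine Set.eq_empty_iff_forall_notMem.1 hn (y, y') ⟨Set.mem_biUnion hv (Set.mem_biUnion
    (show v' ∈ Set.Iio N \ {v} from ⟨hv', fun e => h' ?_⟩) ⟨hy, hy'⟩), Set.mem_biInter h⟩
  rw [h2 v y hy, h2 v' y' hy']
  exact Eq.symm e

theorem measurable_enc {K : Type} [MeasurableSpace K] (u : ℕ → K → ℕ) (hu : ∀ t, Measurable (u t))
    (S : List ℕ) : Measurable fun y => encode (S.map fun t => u t y) := by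
  induction S with
  | nil => exact measurable_const
  | cons t S ih =>
    exact (measurable_of_countable fun p : ℕ × ℕ => Nat.succ (Nat.pair p.1 p.2)).comp
      ((hu t).prodMk ih)

theorem mact_congr (z : B) (t s : ℕ) {y y' : KK} (h : y.1 s = y'.1 s) :
    (mact z t y).1 s = (mact z t y').1 s := by
  unfold mact
  split
  · exact congrArg (fun g => (el z t).1 s * g) h
  · exact congrArg (fun g => g * (el z t).1 s) h

end ApproxM

open ApproxM in
theorem stApproxM (hH : StHaar) : StApproxM := by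
  intro z σ hσ u hu ε hε
  have := hH.1
  have : mu.Regular := inferInstanceAs (Measure.Regular (Measure.haarMeasure ⊤))
  obtain ⟨N, C, h1, h2, h3⟩ := lusin mu _ (measurable_enc u hu σ.S)
    (ENNReal.ofReal_pos.2 hε).ne'
  obtain ⟨n, hn⟩ := sep _ N C h1 h2
  obtain ⟨M, ⟨e⟩⟩ := Finite.exists_equiv_fin (∀ s : Fin n, Gs s)
  obtain ⟨q, hq⟩ : ∃ q : KK → ℕ, q = fun y => (e fun s => y.1 s).1 := ⟨_, rfl⟩
  have q1 : ∀ y, q y < M := fun y => hq ▸ Fin.isLt _
  have q2 : ∀ y y', q y = q y' ↔ ∀ s, s < n → y.1 s = y'.1 s := fun y y' => by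
    rw [hq, Fin.val_inj, e.injective.eq_iff, funext_iff]
    exact ⟨fun h s hs => h ⟨s, hs⟩, fun h s => h s s.2⟩
  obtain ⟨δ, d1, d2⟩ := fac q Set.univ σ.S M q1 (fun t y => q (σ.act t y)) fun t _ y _ y' _ h =>
    (q2 _ _).2 fun s hs => hσ ▸ mact_congr z t s ((q2 _ _).1 h s hs)
  obtain ⟨prog, p1, p2⟩ := fac q _ σ.S M q1 u fun t ht y hy y' hy' h =>
    List.map_inj_left.1 (encode_injective (hn y hy y' hy' ((q2 _ _).1 h))) t ht
  refine ⟨q, δ, prog, hq ▸ (measurable_of_countable fun g => (e g).1).comp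
    (measurable_pi_lambda _ fun s => (measurable_pi_apply s.1).comp measurable_subtype_coe),
    d1, p1, fun t ht y => d2 t ht y trivial, ENNReal.toReal_le_of_le_ofReal hε.le
      ((measure_mono fun y ⟨t, ht, h⟩ hy => h (p2 t ht y hy)).trans h3.le)⟩

end Pool.Agent.Lib.MP_fa224b_lc.C
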