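import Pool.Agent.Lib.MP_fa224b_lc.C.Basic
import Pool.Agent.Lib.MP_fa224b_lc.C.MDefs

/-! A functional is constant on a cylinder or has a splitting tree. -/

namespace Pool.Agent.Lib.MP_fa224b_lc.C

open Encodable Denumerable Nat.Partrec Nat.Partrec.Code Filter

namespace Split

theorem app {a b w : B} (ha : TLe a w) (hb : TLe b w) : TLe (fun n => a (b n)) w :=
  (PC.app (pc_point ha) (pc_point hb)).tle ⟨a, b, ⟨rfl, rfl⟩, ⟨rfl, rfl⟩, rfl⟩

theorem prim {p : ℕ → ℕ} (hp : Primrec p) (w : B) : TLe p w := (TC.prim hp.to_comp).tle w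

theorem post₂ {a b w : B} (ha : TLe a w) (hb : TLe b w) {p : ℕ → ℕ → ℕ} (hp : Primrec₂ p) :
    TLe (fun n => p (a n) (b n)) w := by
  have := (tc_evens.post₂ tc_odds hp.to_comp).tle (join a b)
  simp only [evens_join, odds_join] at this
  exact this.trans (ha.join hb)

theorem recn {h w : B} (hh : TLe h w) (a : ℕ) :
    TLe (fun n => (Nat.rec a (fun y IH => h (Nat.pair y IH)) n : ℕ)) w :=
  ((TC.id.recn a).tle h).trans hh

theorem find {g w : B} (hg : TLe g w) (h : ∀ n, ∃ m, g (Nat.pair n m) = 0) :
    TLe (fun n => Nat.find (h n)) w := by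
  refine TLe.trans (tle_iff.2 ⟨.rfind .orc, ?_⟩) hg
  funext n
  rw [ev_rfind]
  refine Part.eq_some_iff.2 ((mem_rf _ _).2 ⟨?_, fun m hm => ⟨_, Part.mem_some _,
    Nat.find_min (h n) hm⟩⟩)
  exact Part.mem_some_iff.2 (Nat.find_spec (h n)).symm

theorem u1 : Primrec fun p : ℕ => p.unpair.1 := Primrec.fst.comp Primrec.unpair
theorem u2 : Primrec fun p : ℕ => p.unpair.2 := Primrec.snd.comp Primrec.unpair

def Ext (l : List ℕ) (b : B) : Prop := ∀ i < l.length, b i = l.getD i 0

theorem ext_append {l a : List ℕ} {b : B} (h : Ext (l ++ a) b) : Ext l b := fun i hi => by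
  rw [h i (by simp; omega), List.getD_append _ _ _ _ hi]

theorem rp_congr {x y : B} {n : ℕ} (h : ∀ i < n, x i = y i) : rp x n = rp y n := by
  induction n with
  | zero => rfl
  | succ n ih => simp only [rp, h n (by omega), ih fun i hi => h i (by omega)]

/-- value of the computation on the cylinder of a list -/
def val (d : Code) (s : B) (l : List ℕ) (k m : ℕ) : ℕ :=
  encode (evaln k d (Nat.pair (encode (rp (join s fun i => l.getD i 0) l.length)) m))

theorem val_tle (d : Code) (s : B) :
    TLe (fun p => val d s (ofNat (List ℕ) p.unpair.1) p.unpair.2.unpair.1 p.unpair.2.unpair.2) s := by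
  have hl : Primrec fun p : ℕ => ofNat (List ℕ) p.unpair.1 := (Primrec.ofNat _).comp u1
  have h1 := app (tc_rp.tle s) (prim (Primrec.list_length.comp hl) s)
  let J : ℕ → ℕ → List ℕ := fun a p => ((List.range (ofNat (List ℕ) p.unpair.1).length).map
    fun i => if i % 2 = 0 then (ofNat (List ℕ) a).reverse.getD (i / 2) 0 else
      (ofNat (List ℕ) p.unpair.1).getD (i / 2) 0).reverse
  have hJ : Primrec₂ J := by
    refine Primrec.list_reverse.comp (Primrec.list_map (Primrec.list_range.comp
      (Primrec.list_length.comp (hl.comp Primrec.snd))) ?_)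
    exact Primrec.ite (pr_even.comp Primrec.snd) ((Primrec.list_getD 0).comp
      (Primrec.list_reverse.comp ((Primrec.ofNat _).comp (Primrec.fst.comp Primrec.fst)))
      (pr_half.comp Primrec.snd)) ((Primrec.list_getD 0).comp
      (hl.comp (Primrec.snd.comp Primrec.fst)) (pr_half.comp Primrec.snd))
  have h2 : Primrec₂ fun a p : ℕ => encode (evaln p.unpair.2.unpair.1 d
      (Nat.pair (encode (J a p)) p.unpair.2.unpair.2)) :=
    Primrec.encode.comp (primrec_evaln.comp (Primrec.pair (Primrec.pair
      ((u1.comp u2).comp Primrec.snd) (Primrec.const d))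
      (Primrec₂.natPair.comp (Primrec.encode.comp hJ) ((u2.comp u2).comp Primrec.snd))))
  have h3 := post₂ h1 (prim Primrec.id s) h2
  convert h3 using 2 with p
  unfold val
  congr 4
  simp only [J, ofNat_encode, id, rp_reverse]
  rw [← List.reverse_reverse (rp _ _), rp_reverse]
  congr 1
  refine List.map_congr_left fun i hi => ?_
  have hi' : i / 2 < (ofNat (List ℕ) p.unpair.1).length :=
    lt_of_le_of_lt (Nat.div_le_self _ _) (List.mem_range.1 hi)
  simp [join, List.getD_eq_getElem?_getD, hi']

theorem exists_code' {G : B → B} (hG : TC G) : ∃ d : Code, ∀ s : B,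
    (∀ l k m v b, val d s l k m = v + 1 → Ext l b → G (join s b) m = v) ∧
    ∀ b m, ∀ᶠ N in atTop, ∃ k, val d s ((List.range N).map b) k m = G (join s b) m + 1 := by
  obtain ⟨c, hc⟩ := hG
  obtain ⟨g, pg, sg⟩ := exists_sim c
  obtain ⟨d, hd⟩ := exists_code.1 pg
  have hd' : ∀ l x y, y ∈ eval d (Nat.pair (encode l) x) ↔ y ∈ g l x := by
    intro l x y
    rw [hd]
    have : Nat.pair (encode l) x = encode (l, x) := rfl
    simp only [this, encodek]
    simp
  have e : ∀ s l b, Ext l b → rp (join s fun i => l.getD i 0) l.length =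
      rp (join s b) l.length := fun s l b h => rp_congr fun i hi => by
    simp only [join, h (i / 2) (lt_of_le_of_lt (Nat.div_le_self _ _) hi)]
  refine ⟨d, fun s => ⟨fun l k m v b h hb => ?_, fun b m => ?_⟩⟩
  · unfold val at h
    rw [e s l b hb] at h
    have h' : evaln k d (Nat.pair (encode (rp (join s b) l.length)) m) = some v :=
      encode_injective (h.trans rfl)
    have := (sg _).1 _ _ _ ((hd' _ _ _).1 (evaln_sound h'))
    rw [hc _ _ rfl] at this
    exact (Part.mem_some_iff.1 this).symm
  · have h0 : G (join s b) m ∈ c.eval (lift (join s b)) m := by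
      rw [hc _ _ rfl]; exact Part.mem_some _
    filter_upwards [(sg _).2 _ _ h0] with N hN
    obtain ⟨k, hk⟩ := evaln_complete.1 ((hd' _ _ _).2 hN)
    refine ⟨k, ?_⟩
    unfold val
    rw [e s _ b fun i hi => by
      simp only [List.length_map, List.length_range] at hi
      simp [List.getD_eq_getElem?_getD, hi]]
    simp only [List.length_map, List.length_range]
    rw [Option.mem_def.1 hk]
    rfl

/-- the two extensions, the two stages and the argument coded by `c` -/
def nx (l c i : ℕ) : ℕ := encode (ofNat (List ℕ) l ++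
  ofNat (List ℕ) (if i = 0 then c.unpair.1.unpair.1.unpair.1 else c.unpair.1.unpair.2.unpair.1))
def stg (c i : ℕ) : ℕ :=
  if i = 0 then c.unpair.1.unpair.1.unpair.2 else c.unpair.1.unpair.2.unpair.2

theorem pr_nx {α : Type} [Primcodable α] {f g h : α → ℕ} (hf : Primrec f) (hg : Primrec g)
    (hh : Primrec h) : Primrec fun a => nx (f a) (g a) (h a) :=
  Primrec.encode.comp (Primrec.list_append.comp ((Primrec.ofNat _).comp hf)
    ((Primrec.ofNat _).comp (Primrec.ite (Primrec.eq.comp hh (Primrec.const 0))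
      (u1.comp (u1.comp (u1.comp hg))) (u1.comp (u2.comp (u1.comp hg))))))

theorem exists_split {G : B → B} (hG : TC G) (s : B)
    (hn : ∀ (b₀ : B) (n : ℕ), ∃ b, (∀ i < n, b i = b₀ i) ∧ G (join s b) ≠ G (join s b₀)) :
    ∃ sp A : B, TLe sp s ∧ TLe A s ∧ ∀ l,
      (∀ i, (ofNat (List ℕ) l).length < (ofNat (List ℕ) (nx l (sp l) i)).length) ∧
      (∀ b, Ext (ofNat (List ℕ) (nx l (sp l) 0)) b → G (join s b) (sp l).unpair.2 + 1 = A l) ∧
      ∀ b, Ext (ofNat (List ℕ) (nx l (sp l) 1)) b → G (join s b) (sp l).unpair.2 + 1 ≠ A l := by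
  obtain ⟨d, hd⟩ := exists_code' hG
  obtain ⟨hs, hc⟩ := hd s
  let V : ℕ → B := fun i p => val d s (ofNat (List ℕ) (nx p.unpair.1 p.unpair.2 i))
    (stg p.unpair.2 i) p.unpair.2.unpair.2
  have hV : ∀ i, TLe (V i) s := fun i => by
    have h1 : Primrec fun p : ℕ => stg p.unpair.2 i := by
      unfold stg
      split_ifs
      exacts [u2.comp (u1.comp (u1.comp u2)), u2.comp (u2.comp (u1.comp u2))]
    have := app (val_tle d s) (prim (Primrec₂.natPair.comp (pr_nx u1 u2 (Primrec.const i))
      (Primrec₂.natPair.comp h1 (u2.comp u2))) s)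
    simpa only [Nat.unpair_pair] using this
  have hp : Primrec₂ fun a b : ℕ => if a = 0 ∨ b = 0 ∨ a = b then 1 else 0 :=
    Primrec.ite ((Primrec.eq.comp Primrec.fst (Primrec.const 0)).or
      ((Primrec.eq.comp Primrec.snd (Primrec.const 0)).or
        (Primrec.eq.comp Primrec.fst Primrec.snd))) (Primrec.const 1) (Primrec.const 0)
  have hg := post₂ (hV 0) (hV 1) hp
  have hex : ∀ l, ∃ c, (fun n => if V 0 n = 0 ∨ V 1 n = 0 ∨ V 0 n = V 1 n then 1 else 0)
      (Nat.pair l c) = 0 := by
    intro l
    set L := ofNat (List ℕ) l with hL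
    obtain ⟨b, hb, hne⟩ := hn (fun i => L.getD i 0) L.length
    obtain ⟨m, hm⟩ := Function.ne_iff.1 hne
    have app' : ∀ (x : B) (N : ℕ), Ext L x → L.length ≤ N →
        L ++ ((List.range N).map x).drop L.length = (List.range N).map x := by
      intro x N hx hN
      conv_rhs => rw [← List.take_append_drop L.length ((List.range N).map x)]
      congr 1
      refine List.ext_getElem (by simp [hN]) fun i h1 h2 => ?_
      simp [hx i h1, List.getD_eq_getElem?_getD, h1]
    obtain ⟨N, ⟨⟨k0, h0⟩, ⟨k1, h1⟩⟩, hN⟩ := (((hc b m).and (hc (fun i => L.getD i 0) m)).and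
      (eventually_ge_atTop L.length)).exists
    refine ⟨Nat.pair (Nat.pair (Nat.pair (encode (((List.range N).map b).drop L.length)) k0)
      (Nat.pair (encode (((List.range N).map fun i => L.getD i 0).drop L.length)) k1)) m, ?_⟩
    simp only [V, nx, stg, Nat.unpair_pair, if_true, one_ne_zero, if_false, ofNat_encode, ← hL,
      app' b N hb hN, app' _ N (fun _ _ => rfl) hN, h0, h1]
    simpa using hm
  have hsp := find hg hex
  refine ⟨_, fun l => V 0 (Nat.pair l (Nat.find (hex l))), hsp,
    app (hV 0) (post₂ (prim Primrec.id s) hsp Primrec₂.natPair), fun l => ?_⟩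
  have h := Nat.find_spec (hex l)
  beta_reduce
  generalize Nat.find (hex l) = c at h ⊢
  simp only [ite_eq_right_iff, one_ne_zero, imp_false, not_or] at h
  obtain ⟨v0, e0⟩ := Nat.exists_eq_succ_of_ne_zero h.1
  obtain ⟨v1, e1⟩ := Nat.exists_eq_succ_of_ne_zero h.2.1
  have hv : v0 ≠ v1 := fun e => h.2.2 (by rw [e0, e1, e])
  rw [e0]
  simp only [V, Nat.unpair_pair] at e0 e1
  have s0 := fun b => hs _ _ _ _ b e0
  have s1 := fun b => hs _ _ _ _ b e1
  refine ⟨fun i => ?_, fun b hb => by rw [s0 b hb], fun b hb => by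
    rw [s1 b hb]; exact fun e => hv (Nat.succ_injective e).symm⟩
  simp only [nx, ofNat_encode, if_true, one_ne_zero, if_false] at s0 s1 ⊢
  rw [List.length_append, Nat.lt_add_right_iff_pos, List.length_pos_iff]
  split_ifs
  · intro e
    rw [e, List.append_nil] at s0
    exact hv ((s0 _ (ext_append fun _ _ => rfl)).symm.trans (s1 _ fun _ _ => rfl))
  · intro e
    rw [e, List.append_nil] at s1
    exact hv ((s0 _ fun _ _ => rfl).symm.trans (s1 _ (ext_append fun _ _ => rfl)))

end Split

open Split in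
theorem stSplit : StSplit := by
  intro H hH s
  by_cases hcst : ∃ (b₀ : B) (n : ℕ), ∀ b, (∀ i < n, b i = b₀ i) → H s b = H s b₀
  · exact Or.inl hcst
  push Not at hcst
  obtain ⟨sp, A, hsp, hA, h⟩ := exists_split hH s (by simpa using hcst)
  simp only [evens_join, odds_join] at h
  refine Or.inr fun d => ?_
  let bit : B := fun n => if d n.unpair.1 = n.unpair.2 then 0 else 1
  let L : B := fun n => Nat.rec 0 (fun y IH => nx IH (sp IH) (bit y)) n
  have step : ∀ (w β : B), TLe s w → TLe β w → (∀ n, β (Nat.pair n (L n)) = bit n) →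
      TLe L w := by
    intro w β h1 h2 h3
    have h4 := post₂ (post₂ (prim u2 w) (app (hsp.trans h1) (prim u2 w)) Primrec₂.natPair) h2
      (p := fun a i => nx a.unpair.1 a.unpair.2 i)
      (pr_nx (u1.comp Primrec.fst) (u2.comp Primrec.fst) Primrec.snd)
    convert recn h4 0 using 2 with n
    induction n with
    | zero => rfl
    | succ n ih =>
      simp only [Nat.unpair_pair] at ih ⊢
      rw [← ih, h3]
  have len : ∀ n, n ≤ (ofNat (List ℕ) (L n)).length := fun n => by
    induction n with
    | zero => exact Nat.zero_le _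
    | succ n ih => exact lt_of_le_of_lt ih ((h (L n)).1 (bit n))
  let b : B := fun i => (ofNat (List ℕ) (L (i + 1))).getD i 0
  have mono : ∀ n m i, i < (ofNat (List ℕ) (L n)).length →
      (ofNat (List ℕ) (L (n + m))).getD i 0 = (ofNat (List ℕ) (L n)).getD i 0 ∧
        i < (ofNat (List ℕ) (L (n + m))).length := by
    intro n m i hi
    induction m with
    | zero => exact ⟨rfl, hi⟩
    | succ m ih =>
      refine ⟨?_, ih.2.trans ((h (L (n + m))).1 (bit (n + m)))⟩
      change (ofNat (List ℕ) (nx (L (n + m)) _ _)).getD i 0 = _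
      rw [nx, ofNat_encode, List.getD_append _ _ _ _ ih.2, ih.1]
  have hb : ∀ n, Ext (ofNat (List ℕ) (L n)) b := fun n i hi => by
    rw [← (mono n (i + 1) i hi).1, add_comm, (mono (i + 1) n i (len (i + 1))).1]
  have sl : ∀ x, TLe s (join s x) := fun x => by simpa using tc_evens.tle (join s x)
  have sr : ∀ x, TLe x (join s x) := fun x => by simpa using tc_odds.tle (join s x)
  have pe : Primrec₂ fun a c : ℕ => if a = c then 0 else 1 :=
    Primrec.ite (Primrec.eq.comp Primrec.fst Primrec.snd) (Primrec.const 0) (Primrec.const 1)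
  refine ⟨b, ?_, ?_⟩
  · have h1 : TLe bit (join s d) := post₂ (app (sr d) (prim u1 _)) (prim u2 _) pe
    have h2 := step _ _ (sl d) (app h1 (prim u1 _)) fun n => by simp
    exact post₂ (app h2 (prim Primrec.succ _)) (prim Primrec.id _)
      (p := fun a i => (ofNat (List ℕ) a).getD i 0)
      ((Primrec.list_getD 0).comp ((Primrec.ofNat _).comp Primrec.fst) Primrec.snd)
  · let β : B := fun l => if H s b (sp l).unpair.2 + 1 = A l then 0 else 1
    have h1 : TLe β (join s (H s b)) :=
      post₂ (app (prim Primrec.succ _) (app (sr _) (app (prim u2 _) (hsp.trans (sl _)))))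
        (hA.trans (sl _)) pe
    have h2 : ∀ n, β (L n) = bit n := fun n => by
      have e : Ext (ofNat (List ℕ) (nx (L n) (sp (L n)) (bit n))) b := hb (n + 1)
      by_cases hd : d n.unpair.1 = n.unpair.2
      · simp only [bit, if_pos hd] at e ⊢
        exact if_pos ((h (L n)).2.1 b e)
      · simp only [bit, if_neg hd] at e ⊢
        exact if_neg ((h (L n)).2.2 b e)
    have h3 := step _ _ (sl _) (app h1 (prim u2 _)) fun n => by simpa using h2 n
    have h4 : TLe bit (join s (H s b)) := funext h2 ▸ app h1 h3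
    have h5 : ∀ n, ∃ m, bit (Nat.pair n m) = 0 := fun n => ⟨d n, by simp [bit]⟩
    convert find h4 h5 using 2 with n
    simpa [bit] using Nat.find_spec (h5 n)

end Pool.Agent.Lib.MP_fa224b_lc.C
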