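import Pool.Agent.Lib.MP_fa224b_lc.C.MDefs

/-! Statements for functions with null fibres along random joins. -/

namespace Pool.Agent.Lib.MP_fa224b_lc.C

open MeasureTheory ProbabilityTheory

/-- fair coin measure on Cantor space -/
noncomputable def coin : Measure (ℕ → Bool) :=
  Measure.infinitePi fun _ => uniformOn (Set.univ : Set Bool)

/-- a binary sequence as a real -/
def bits (a : ℕ → Bool) : B := fun n => (a n).toNat

abbrev ZZ : Type := ℕ → ZMod 293

instance : BorelSpace (ZMod 293) := DiscreteMeasurableSpace.toBorelSpace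

noncomputable def nu : Measure ZZ := Measure.infinitePi fun _ => uniformOn Set.univ

instance : IsProbabilityMeasure coin := by unfold coin; infer_instance
instance : IsProbabilityMeasure nu := by unfold nu; infer_instance

def vals (c : ZZ) : B := fun n => (c n).val

def dig (m i : ℕ) : ℕ := m / 293 ^ i % 293

/-- the word of left letters that belongs to a word of right letters -/
def lw (w : List ℕ) : List ℕ := (w.map fun t => t - 1).reverse

/-- test words in left letters -/
def tv (j m : ℕ) : List ℕ :=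
  (List.range m).flatMap fun i => (List.replicate (dig m i) (lw (mword (mono j i)))).flatten

def rowJ (j : ℕ) : Fin 3 := ⟨rowN j, by unfold rowN; split <;> omega⟩

/-- the elementary matrix whose entry has column `0` equal to `c i` at row `2 j + 6 + 2 i` -/
noncomputable def kap (j : ℕ) (c : ZZ) : GG := E (rowJ j) 1 fun s => Matrix.of fun u w =>
  if s.unpair.1 = j ∧ w.1 = 0 ∧ 2 * j + 6 ≤ u.1 ∧ u.1 % 2 = 0 then c ((u.1 - (2 * j + 6)) / 2) else 0

def StTvComp : Prop := Primrec₂ tv ∧ ∀ j m, ∀ t ∈ tv j m, t < nL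

def StTvVal : Prop := ∀ z j, (¬ InJ z j → ∀ m y, wact (mact z) (tv j m) y = y) ∧
  (InJ z j → ∃ κ : ZZ → KK, (∀ c, (κ c : GG) = kap j c) ∧ Continuous κ ∧
    ∀ m y, wact (mact z) (tv j m) y = κ (fun i => (dig m i : ZMod 293)) * y)

/-- coordinates along the cosets of the test subgroup -/
def StRep : Prop := ∀ (j : ℕ) (κ : ZZ → KK), (∀ c, (κ c : GG) = kap j c) → ∀ y : KK,
  ∃ (y₀ : KK) (d : ZZ), ∀ c, TEq (code (κ c * y)) (join (code y₀) (vals (c + d)))

def StMoveL : Prop := ∀ (K : Type) [Group K] [TopologicalSpace K] [IsTopologicalGroup K]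
  [CompactSpace K] [T2Space K] [SecondCountableTopology K] [MeasurableSpace K] [BorelSpace K]
  (μ : Measure K) [IsProbabilityMeasure μ] [μ.IsMulLeftInvariant] [μ.IsMulRightInvariant]
  (f g : K → B) (κ : ZZ → K), Measurable g → f =ᵐ[μ] g → Continuous κ →
  (∀ y, nu {c | f (κ c * y) = f y} = 0) →
  ∃ m : ℕ, 1 / 2 < μ.real {y | g (κ (fun i => (dig m i : ZMod 293)) * y) ≠ g y}

def StCoreU : Prop := ∀ (z : B) (f : KK → B), AEMeasurable f mu →
  (∀ y y', TEq (iota z y) (iota z y') → TEq (f y) (f y')) →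
  (∀ (j : ℕ) (κ : ZZ → KK), (∀ c, (κ c : GG) = kap j c) → ∀ y, nu {c | f (κ c * y) = f y} = 0) →
  ∀ N : Set KK, mu N = 0 → ∃ y, y ∉ N ∧ TLe z (f y)

/-- from coins to dice; `S` is a Turing invariant set -/
def StConv : Prop := ∀ (S : Set B) (z : B), (∀ x y, TEq x y → x ∈ S → y ∈ S) →
  NullMeasurableSet {c | join z (vals c) ∈ S} nu →
  (∀ r, coin {a | join (join z r) (bits a) ∈ S} = 0) → ∀ d, nu {c | join z (vals (c + d)) ∈ S} = 0

/-- zero-one law -/
def StZeroOne : Prop := ∀ (S : Set B) (z : B), (∀ x y, TEq x y → x ∈ S → y ∈ S) →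
  NullMeasurableSet {a | join z (bits a) ∈ S} coin → coin {a | join z (bits a) ∈ S} ≠ 0 →
  ∀ᵐ a ∂coin, join z (bits a) ∈ S

end Pool.Agent.Lib.MP_fa224b_lc.C
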