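import Pool.Agent.Lib.MP_fa224b_lc.C.Basic
import Pool.Agent.Lib.MP_fa224b_lc.C.UDefs

/-! Zero-one law for Turing invariant sets along random joins. -/

namespace Pool.Agent.Lib.MP_fa224b_lc.C

open MeasureTheory ProbabilityTheory Filter Topology

namespace ZeroOne

/-- reals that agree from some point on are reducible to each other -/
theorem tle_of_tail {x y : B} {N : ℕ} (h : ∀ n, N ≤ n → x n = y n) : TLe x y := by
  have hp : Primrec₂ fun a n : ℕ => if n < N then ((List.range N).map x).getD n 0 else a :=
    Primrec.ite (Primrec.nat_lt.comp Primrec.snd (Primrec.const N))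
      ((Primrec.list_getD 0).comp (Primrec.const _) Primrec.snd) Primrec.fst
  have := (TC.id.post₂ (TC.prim Computable.id) hp.to_comp).tle y
  convert this using 2 with n
  by_cases hn : n < N
  · simp [hn, List.getD_eq_getElem?_getD]
  · simp only [id, hn, if_false]
    exact h n (not_lt.1 hn)

theorem teq_of_tail (z : B) {a a' : ℕ → Bool} {N : ℕ} (h : ∀ n, N ≤ n → a n = a' n) :
    TEq (join z (bits a)) (join z (bits a')) := by
  have key : ∀ n, 2 * N ≤ n → join z (bits a) n = join z (bits a') n := fun n hn => by
    simp only [join, bits, h (n / 2) (by omega)]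
  exact ⟨tle_of_tail key, tle_of_tail fun n hn => (key n hn).symm⟩

theorem unif_map (b : Bool) :
    (uniformOn (Set.univ : Set Bool)).map (fun t => b + t) = uniformOn Set.univ := by
  refine Measure.ext_of_singleton fun t => ?_
  rw [Measure.map_apply (measurable_of_countable _) (measurableSet_singleton t)]
  have : (fun s => b + s) ⁻¹' {t} = {-b + t} := by
    ext s
    simp only [Set.mem_preimage, Set.mem_singleton_iff]
    exact ⟨fun h => by rw [← h, neg_add_cancel_left], fun h => by rw [h, add_neg_cancel_left]⟩
  rw [this, uniformOn_univ, uniformOn_univ, Measure.count_singleton, Measure.count_singleton]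

instance : coin.IsAddLeftInvariant := by
  refine ⟨fun g => ?_⟩
  have := Measure.infinitePi_map_pi (fun _ : ℕ => uniformOn (Set.univ : Set Bool))
    (f := fun i t => g i + t) fun _ => measurable_of_countable _
  simp only [unif_map] at this
  exact this

theorem dense_fin : Dense {g : ℕ → Bool | ∃ N, ∀ n, N ≤ n → g n = 0} := by
  intro g
  refine mem_closure_of_tendsto (f := fun N n => if n < N then g n else 0) (b := atTop)
    (tendsto_pi_nhds.2 fun n => tendsto_const_nhds.congr' ?_)
    (Eventually.of_forall fun N => ⟨N, fun n hn => if_neg (not_lt.2 hn)⟩)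
  filter_upwards [eventually_gt_atTop n] with N hN
  rw [if_pos hN]

end ZeroOne

theorem stZeroOne : StZeroOne := by
  intro S z hS hm h0
  have hc : EventuallyConst {a | join z (bits a) ∈ S} (ae coin) := by
    refine aeconst_of_dense_setOfPred_preimage_vadd_eq (M := ℕ → Bool) hm
      (ZeroOne.dense_fin.mono ?_)
    rintro g ⟨N, hN⟩
    have e : ∀ a : ℕ → Bool, TEq (join z (bits (g + a))) (join z (bits a)) := fun a =>
      ZeroOne.teq_of_tail z (N := N) fun n hn => by rw [Pi.add_apply, hN n hn, zero_add]
    ext a
    exact ⟨hS _ _ (e a), hS _ _ (e a).symm⟩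
  rcases eventuallyConst_set.1 hc with h | h
  · exact h
  · exact absurd (measure_eq_zero_iff_ae_notMem.2 h) h0

end Pool.Agent.Lib.MP_fa224b_lc.C
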