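import Pool.Agent.Lib.MP_fa224b_lc.C.VDefs
import Pool.Agent.Lib.MP_fa224b_lc.C.Split
import Pool.Agent.Lib.MP_fa224b_lc.C.ZeroOne
import Pool.Agent.Lib.MP_fa224b_lc.C.ApproxM

/-! Measurable maps are almost everywhere computable in a parameter. -/

namespace Pool.Agent.Lib.MP_fa224b_lc.C

open MeasureTheory Encodable Filter

namespace AeComp

theorem rp_inj {x y : B} {s t : ℕ} (h : rp y t = rp x s) : ∀ i < s, y i = x i := by
  have h1 := congrArg List.reverse h
  rw [rp_reverse, rp_reverse] at h1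
  obtain rfl : t = s := by simpa using congrArg List.length h1
  exact fun i hi => List.map_inj_left.1 h1 i (List.mem_range.2 hi)

/-- a function which is constant on finitely many closed sets is locally constant there -/
theorem loc {U : B → ℕ} {N : ℕ} {C : ℕ → Set B} (h1 : ∀ v, IsClosed (C v))
    (h2 : ∀ v, ∀ y ∈ C v, U y = v) (x : B) : ∃ s v, ∀ y ∈ ⋃ v ∈ Set.Iio N, C v, ∀ t,
      encode (rp y t) = encode (rp x s) → U y = v := by
  have h3 : IsClosed (⋃ v ∈ Set.Iio N \ {U x}, C v) :=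
    (Set.finite_Iio N).sdiff.isClosed_biUnion fun v _ => h1 v
  obtain ⟨I, u, a1, a2⟩ := isOpen_pi_iff.1 h3.isOpen_compl x fun h => by
    obtain ⟨v, hv, h4⟩ := Set.mem_iUnion₂.1 h
    exact hv.2 (h2 v x h4).symm
  refine ⟨I.sup id + 1, U x, fun y hy t e => ?_⟩
  obtain ⟨v, hv, h4⟩ := Set.mem_iUnion₂.1 hy
  by_contra h5
  refine a2 (fun i hi => ?_) (Set.mem_biUnion (show v ∈ Set.Iio N \ {U x} from
    ⟨hv, fun e' => h5 ((h2 v y h4).trans e')⟩) h4)
  rw [rp_inj (encode_injective e) i (Nat.lt_succ_of_le (Finset.le_sup (f := id) hi))]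
  exact (a1 i hi).2

end AeComp

open AeComp Split in
theorem stAeComp : StAeComp := by
  classical
  intro m _ θ hθ
  obtain ⟨η, h1, h2⟩ := ENNReal.exists_pos_sum_of_countable' one_ne_zero ℕ
  choose N C c1 c2 c3 using fun n => ApproxM.lusin m (fun x => θ x n)
    ((measurable_pi_apply n).comp hθ) (h1 n).ne'
  let P : ℕ → ℕ → ℕ → Prop := fun n c v =>
    ∀ y ∈ ⋃ v ∈ Set.Iio (N n), C n v, ∀ t, encode (rp y t) = c → θ y n = v
  let e : B := fun p => if h : ∃ v, P p.unpair.1 p.unpair.2 v then h.choose + 1 else 0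
  refine ⟨e, ?_⟩
  filter_upwards [ae_eventually_notMem (μ := m) (s := fun n => (⋃ v ∈ Set.Iio (N n), C n v)ᶜ)
    (ne_top_of_lt ((ENNReal.tsum_le_tsum fun n => (c3 n).le).trans_lt h2))] with x hx
  obtain ⟨n₀, hn⟩ := eventually_atTop.1 hx
  have l1 : TLe e (join e x) := by simpa using tc_evens.tle (join e x)
  have l2 : TLe x (join e x) := by simpa using tc_odds.tle (join e x)
  have t1 := app l1 (post₂ (prim u1 _) (app ((tc_rp.tle x).trans l2) (prim u2 _)) Primrec₂.natPair)
  have ex : ∀ n, ∃ s, 1 - e (Nat.pair n (encode (rp x s))) = 0 := fun n => by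
    obtain ⟨s, hs⟩ := loc (N := N n) (c1 n) (c2 n) x
    exact ⟨s, by simp only [e, Nat.unpair_pair]; rw [dif_pos hs]; omega⟩
  have t2 := find (app (prim (Primrec.nat_sub.comp (Primrec.const 1) Primrec.id) _) t1)
    fun n => by simpa only [Nat.unpair_pair, id] using ex n
  have t3 := app (prim Primrec.pred _) (app t1 (post₂ (prim Primrec.id _) t2 Primrec₂.natPair))
  refine (ZeroOne.tle_of_tail (N := n₀) fun n h => ?_).trans t3
  have key : ∀ s, 1 - e (Nat.pair n (encode (rp x s))) = 0 →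
      θ x n = (e (Nat.pair n (encode (rp x s)))).pred := fun s hs => by
    simp only [e, Nat.unpair_pair] at hs ⊢
    split_ifs at hs ⊢ with h3
    exact h3.choose_spec x (not_not.1 (hn n h)) s rfl
  simp only [Nat.unpair_pair, id]
  exact key _ (by
    generalize_proofs h3
    simpa only [Nat.unpair_pair, id] using Nat.find_spec h3)

end Pool.Agent.Lib.MP_fa224b_lc.C
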