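import Pool.Agent.Lib.MP_fa224b_lc.C.Basic

/-! The threshold theorem for the bad sets. -/

namespace Pool.Agent.Lib.MP_fa224b_lc.C

open MeasureTheory Filter Topology

namespace BadAux

set_option linter.unusedSectionVars false

variable {Ω : Type} [MeasurableSpace Ω] {μ : Measure Ω} [IsProbabilityMeasure μ]

theorem meets_eq (σ : Sys Ω) (Z : Set Ω) (U : Ω → Ω) (w : List ℕ) :
    {y | Meets σ Z (U y) w} =
      ⋃ i ∈ Finset.range (w.length + 1), (wact σ.act (w.take i) ∘ U) ⁻¹' Z := by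
  ext y
  simp only [Set.mem_ofPred_eq, meets_iff, Set.mem_iUnion, Finset.mem_range, Set.mem_preimage,
    Function.comp_apply, Nat.lt_succ_iff, exists_prop]

theorem meets_bd (σ : Sys Ω) (hσ : ∀ t ∈ σ.S, MeasurePreserving (σ.act t) μ μ) {Z : Set Ω}
    (hZ : MeasurableSet Z) {U : Ω → Ω} (hU : MeasurePreserving U μ μ) {w : List ℕ}
    (hw : ∀ t ∈ w, t ∈ σ.S) : MeasurableSet {y | Meets σ Z (U y) w} ∧
      μ.real {y | Meets σ Z (U y) w} ≤ (w.length + 1) * μ.real Z := by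
  have h : ∀ i, MeasurePreserving (wact σ.act (w.take i) ∘ U) μ μ := fun i =>
    (measurePreserving_wact fun t ht => hσ t (hw t (List.mem_of_mem_take ht))).comp hU
  rw [meets_eq]
  refine ⟨Finset.measurableSet_biUnion _ fun i _ => (h i).measurable hZ,
    (measureReal_biUnion_finset_le _ _).trans (le_of_eq ?_)⟩
  simp only [fun i => (h i).measureReal_preimage hZ.nullMeasurableSet, Finset.sum_const,
    Finset.card_range, nsmul_eq_mul, Nat.cast_add, Nat.cast_one]

theorem integral_cnt {α : Type} (A : List α) (p : α → Ω → Prop) {q : ℝ}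
    (h : ∀ a ∈ A, MeasurableSet {y | p a y} ∧ μ.real {y | p a y} ≤ q) :
    Integrable (fun y => (cnt A fun a => p a y : ℝ)) μ ∧
      ∫ y, (cnt A fun a => p a y : ℝ) ∂μ ≤ A.length * q := by
  classical
  induction A with
  | nil => simp
  | cons a A ih =>
    obtain ⟨i1, i2⟩ := ih fun b hb => h b (List.mem_cons_of_mem _ hb)
    obtain ⟨m1, m2⟩ := h a List.mem_cons_self
    have e : (fun y => (cnt (a :: A) fun b => p b y : ℝ)) =
        fun y => (cnt A fun b => p b y : ℝ) + {y | p a y}.indicator (1 : Ω → ℝ) y := by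
      funext y
      rw [cnt_cons]
      by_cases hp : p a y <;> simp [hp]
    have i3 : Integrable ({y | p a y}.indicator (1 : Ω → ℝ)) μ :=
      (integrable_const (1 : ℝ)).indicator m1
    rw [e]
    refine ⟨i1.add i3, ?_⟩
    rw [integral_add i1 i3, integral_indicator_one m1, List.length_cons]
    push_cast
    linarith

theorem markov {α : Type} {A : List α} (hA : 0 < A.length) (p : α → Ω → Prop) {q : ℝ}
    (h : ∀ a ∈ A, MeasurableSet {y | p a y} ∧ μ.real {y | p a y} ≤ q) :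
    μ.real {y | A.length ≤ 10 * cnt A fun a => p a y} ≤ 10 * q := by
  obtain ⟨i1, i2⟩ := integral_cnt A p h
  have h1 := mul_meas_ge_le_integral_of_nonneg (Eventually.of_forall fun y => Nat.cast_nonneg _) i1
    ((A.length : ℝ) / 10)
  have e : {y | A.length ≤ 10 * cnt A fun a => p a y} =
      {y | (A.length : ℝ) / 10 ≤ (cnt A fun a => p a y : ℝ)} := by
    ext y
    simp only [Set.mem_ofPred_eq]
    rw [div_le_iff₀ (by norm_num), mul_comm]
    exact_mod_cast Iff.rfl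
  have h2 : (0 : ℝ) < A.length := by exact_mod_cast hA
  rw [e]
  nlinarith

theorem geom {E : ℕ → Set Ω} {c : ℝ} (hc : 0 ≤ c) (h : ∀ k, μ.real (E k) ≤ c * (1 / 2) ^ k) :
    μ.real (⋃ k, E k) ≤ 2 * c := by
  refine ENNReal.toReal_le_of_le_ofReal (by positivity) ((measure_iUnion_le E).trans ?_)
  have h1 : ∀ k, μ (E k) ≤ ENNReal.ofReal (c * (1 / 2) ^ k) := fun k => by
    rw [← ofReal_measureReal]
    exact ENNReal.ofReal_le_ofReal (h k)
  refine (ENNReal.tsum_le_tsum h1).trans (le_of_eq ?_)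
  rw [← ENNReal.ofReal_tsum_of_nonneg (fun k => by positivity)
    (summable_geometric_two.mul_left c), tsum_mul_left, tsum_geometric_two, mul_comm]

/-- the common form of the two exceptional sets -/
theorem union_bd (σ : Sys Ω) (hσ : ∀ t ∈ σ.S, MeasurePreserving (σ.act t) μ μ) {r : ℕ}
    {A : List Adr} (hA : 0 < A.length) {Z : ℕ → Set Ω} {ε : ℝ} (hε : 0 ≤ ε)
    (hε' : ε * (1000 * (4 * r + 3)) ≤ 1)
    (hZ : ∀ k, MeasurableSet (Z k) ∧ μ.real (Z k) ≤ ε * (1 / 2) ^ k) (U : Adr → Ω → Ω)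
    (w : Adr → List ℕ) (hU : ∀ a ∈ A, MeasurePreserving (U a) μ μ ∧ (∀ t ∈ w a, t ∈ σ.S) ∧
      (w a).length = 2 * r) (c : ℕ → Prop) (hc : ∀ n, c n → A.length ≤ 10 * n) :
    MeasurableSet {y | ∃ k, c (cnt A fun a => Meets σ (Z k) (U a y) (w a))} ∧
      μ.real {y | ∃ k, c (cnt A fun a => Meets σ (Z k) (U a y) (w a))} ≤ 1 / 100 := by
  have h1 : ∀ k, ∀ a ∈ A, MeasurableSet {y | Meets σ (Z k) (U a y) (w a)} ∧
      μ.real {y | Meets σ (Z k) (U a y) (w a)} ≤ (2 * r + 1) * (ε * (1 / 2) ^ k) := by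
    intro k a ha
    obtain ⟨u1, u2, u3⟩ := hU a ha
    obtain ⟨m1, m2⟩ := meets_bd σ hσ (hZ k).1 u1 u2
    refine ⟨m1, m2.trans ?_⟩
    rw [u3]
    push_cast
    exact mul_le_mul_of_nonneg_left (hZ k).2 (by positivity)
  rw [Set.ofPred_exists]
  refine ⟨MeasurableSet.iUnion fun k => measurable_cnt A _ (fun a ha => (h1 k a ha).1)
    (MeasurableSet.of_discrete (s := {n | c n})), ?_⟩
  refine (geom (c := 10 * ((2 * r + 1) * ε)) (by positivity) fun k => ?_).trans (by nlinarith)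
  refine (measureReal_mono (fun y hy => hc _ hy)).trans ((markov hA _ (h1 k)).trans (le_of_eq ?_))
  ring

theorem exists_r (s : ℕ) {lam : ℝ} (h0 : 0 ≤ lam) (h1 : lam < 1) :
    ∃ r : ℕ, s * (4 * r + 3) * (lam ^ r * (100 * (4 * r + 3)) ^ 2) ≤ 1 / 2 := by
  have h2 := (tendsto_pow_const_mul_const_pow_of_abs_lt_one 3 (r := lam)
    (by rwa [abs_of_nonneg h0])).const_mul ((s : ℝ) * 3430000)
  rw [mul_zero] at h2
  obtain ⟨r, hr, hr1⟩ := ((h2.eventually (ge_mem_nhds (show (0 : ℝ) < 1 / 2 by norm_num))).and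
    (eventually_ge_atTop 1)).exists
  refine ⟨r, le_trans ?_ hr⟩
  have h3 : (1 : ℝ) ≤ r := by exact_mod_cast hr1
  have h4 : (4 * r + 3 : ℝ) ^ 3 ≤ (7 * r) ^ 3 := pow_le_pow_left₀ (by positivity) (by linarith) 3
  have h5 : (0 : ℝ) ≤ s * 10000 * lam ^ r := by positivity
  have h6 := mul_le_mul_of_nonneg_left h4 h5
  nlinarith

end BadAux

open BadAux in
theorem stBad (h : StBadStep) : StBad := by
  intro Ω _ μ _ σ lam h0 h1 hσ gL gR
  obtain ⟨r, hr⟩ := exists_r σ.S.length h0 h1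
  have hm : (0 : ℝ) < 1000 * (4 * r + 3) := by positivity
  refine ⟨r, 1 / (1000 * (4 * r + 3)), by positivity, fun B0 hB hB' => ?_⟩
  set ε : ℝ := 1 / (1000 * (4 * r + 3)) with hε
  have e0 : 0 ≤ ε := by positivity
  have e1 : ε * (1000 * (4 * r + 3)) = 1 := by rw [hε]; field_simp
  have hr0 : (0 : ℝ) ≤ r := Nat.cast_nonneg r
  have hZ : ∀ k, MeasurableSet (Bad σ r B0 k) ∧ μ.real (Bad σ r B0 k) ≤ ε * (1 / 2) ^ k := by
    intro k
    induction k with
    | zero => exact ⟨hB, by rw [pow_zero, mul_one]; exact hB'⟩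
    | succ k ih =>
      have p0 : (0 : ℝ) ≤ ε * (1 / 2) ^ k := by positivity
      have p1 : ε * (1 / 2) ^ k ≤ ε :=
        mul_le_of_le_one_right e0 (pow_le_one₀ (by norm_num) (by norm_num))
      obtain ⟨m1, m2⟩ := h Ω μ σ lam h0 hσ gL gR r B0 k _ ih.1 ih.2 (by nlinarith)
      refine ⟨m1, m2.trans ?_⟩
      have := mul_le_mul_of_nonneg_left hr p0
      rw [pow_succ (1 / 2 : ℝ) k]
      linarith
  have hS : ∀ a ∈ cloud σ.L σ.R r, (∀ t ∈ ent a, t ∈ σ.S) ∧ (ent a).length = 2 * r := by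
    intro a ha
    obtain ⟨a1, a2⟩ := mem_cloud.1 ha
    rw [mem_words] at a1 a2
    refine ⟨fun t ht => ?_, by rw [ent, List.length_append, a1.1, a2.1, two_mul]⟩
    rcases List.mem_append.1 ht with ht | ht
    · exact σ.R_sub t (a2.2 t ht)
    · exact σ.L_sub t (a1.2 t ht)
  have hA := length_cloud_pos σ r
  obtain ⟨c1, c2⟩ := union_bd σ hσ hA e0 e1.le hZ (fun _ y => y) ent
    (fun a ha => ⟨MeasurePreserving.id μ, hS a ha⟩) (fun n => (cloud σ.L σ.R r).length < 10 * n)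
    fun _ hn => hn.le
  obtain ⟨d1, d2⟩ := union_bd σ hσ hA e0 e1.le hZ (fun a => wact σ.act (ent a))
    (fun a => winv σ.inv (ent a))
    (fun a ha => ⟨measurePreserving_wact fun t ht => hσ t ((hS a ha).1 t ht),
      mem_winv σ (hS a ha).1, by rw [winv, List.length_reverse, List.length_map, (hS a ha).2]⟩)
    (fun n => 3 * (cloud σ.L σ.R r).length ≤ 10 * n) fun _ hn => by omega
  refine ⟨fun k => ⟨(hZ k).1, (hZ k).2.trans ?_⟩, c1, c2.trans (by norm_num), d1, d2⟩
  exact mul_le_of_le_one_left (by positivity) (by nlinarith)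

end Pool.Agent.Lib.MP_fa224b_lc.C
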