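import Pool.Agent.Lib.MP_fa224b_lc.C.Basic

/-! One step of the recursion for the bad sets. -/

namespace Pool.Agent.Lib.MP_fa224b_lc.C

open MeasureTheory

namespace BadStep

variable {α β γ Ω : Type}

theorem sum_product (A : List α) (B : List β) (f : α × β → ℕ) :
    ((A.product B).map f).sum = (A.map fun a => (B.map fun b => f (a, b)).sum).sum := by
  induction A with
  | nil => rfl
  | cons a A ih =>
    have e : (a :: A).product B = B.map (fun b => (a, b)) ++ A.product B := rfl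
    rw [e, List.map_append, List.sum_append, ih, List.map_map]
    rfl

theorem cnt_one (A : List α) (B : List β) (C : List γ) (F : β × γ → α → Prop) :
    cnt ((B.product C).product A) (fun c => F c.1 c.2) =
      cnt ((A.product B).product C) fun c => F (c.1.2, c.2) c.1.1 := by
  rw [cnt_product', cnt_product, sum_product]
  simp only [cnt_product]

theorem cnt_two (A : List α) (B : List β) (C : List γ) (F : α → β × γ → Prop) :
    cnt (A.product (B.product C)) (fun c => F c.1 c.2) =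
      cnt ((A.product C).product B) fun c => F c.1.1 (c.2, c.1.2) := by
  rw [cnt_product, cnt_product, sum_product]
  simp only [cnt_product']

theorem cnt_exists (l : List α) (P : ℕ → α → Prop) (m : ℕ) :
    cnt l (fun c => ∃ i, i < m ∧ P i c) ≤ ∑ i ∈ Finset.range m, cnt l (P i) := by
  induction m with
  | zero =>
    refine Nat.le_of_not_lt fun h => ?_
    obtain ⟨a, -, i, hi, -⟩ := cnt_pos.1 h
    omega
  | succ m ih =>
    rw [Finset.sum_range_succ]
    refine le_trans (cnt_mono fun a _ h => ?_) ((cnt_or_le l _ _).trans (Nat.add_le_add_right ih _))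
    obtain ⟨i, hi, h⟩ := h
    rcases Nat.lt_succ_iff_lt_or_eq.1 hi with h1 | rfl
    · exact Or.inl ⟨i, h1, h⟩
    · exact Or.inr h

theorem mul_cnt_le (l : List α) (g : α → ℕ) (K c : ℕ) :
    K * cnt l (fun a => K ≤ c * g a) ≤ c * (l.map g).sum := by
  induction l with
  | nil => simp
  | cons a l ih =>
    rw [cnt_cons, List.map_cons, List.sum_cons, mul_add, mul_add]
    split_ifs with h <;> omega

theorem real_exists [MeasurableSpace Ω] (μ : Measure Ω) [IsFiniteMeasure μ] (l : List α)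
    (E : α → Set Ω) (c : ℝ) (h : ∀ t ∈ l, μ.real (E t) ≤ c) :
    μ.real {y | ∃ t ∈ l, y ∈ E t} ≤ l.length * c := by
  induction l with
  | nil => simp
  | cons t l ih =>
    have e : {y | ∃ s ∈ t :: l, y ∈ E s} = E t ∪ {y | ∃ s ∈ l, y ∈ E s} := by
      ext y; simp
    have h1 := ih fun s hs => h s (List.mem_cons_of_mem _ hs)
    have h2 := h t List.mem_cons_self
    rw [e, List.length_cons]
    push_cast
    linarith [measureReal_union_le (μ := μ) (E t) {y | ∃ s ∈ l, y ∈ E s}]

theorem mem_L (σ : Sys Ω) {r : ℕ} {w : List ℕ} (h : w ∈ words σ.L r) : ∀ t ∈ w, t ∈ σ.S :=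
  fun t ht => σ.L_sub t ((mem_words.1 h).2 t ht)

theorem mem_R (σ : Sys Ω) {r : ℕ} {w : List ℕ} (h : w ∈ words σ.R r) : ∀ t ∈ w, t ∈ σ.S :=
  fun t ht => σ.R_sub t ((mem_words.1 h).2 t ht)

theorem mem_app {S u w : List ℕ} (hu : ∀ t ∈ u, t ∈ S) (hw : ∀ t ∈ w, t ∈ S) :
    ∀ t ∈ u ++ w, t ∈ S := fun t ht => (List.mem_append.1 ht).elim (hu t) (hw t)

theorem mem_take {S w : List ℕ} (i : ℕ) (hw : ∀ t ∈ w, t ∈ S) : ∀ t ∈ w.take i, t ∈ S :=
  fun t ht => hw t (List.mem_of_mem_take ht)

theorem mem_one {S : List ℕ} {t : ℕ} (ht : t ∈ S) (c : Prop) [Decidable c] :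
    ∀ s ∈ (if c then [t] else []), s ∈ S := by
  split_ifs <;> simp [ht]

theorem mem_one' {S : List ℕ} {t : ℕ} (ht : t ∈ S) (c : Prop) [Decidable c] :
    ∀ s ∈ (if c then [] else [t]), s ∈ S := by
  split_ifs <;> simp [ht]

theorem length_path (σ : Sys Ω) {r : ℕ} {a a' : Adr} (t : ℕ) (ha : a ∈ cloud σ.L σ.R r)
    (ha' : a' ∈ cloud σ.L σ.R r) : (path σ.inv σ.side a' t a).length = 4 * r + 1 := by
  rw [mem_cloud, mem_words, mem_words] at ha ha'
  unfold path winv
  split_ifs <;> simp [ha.1.1, ha.2.1, ha'.1.1, ha'.2.1] <;> omega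

theorem meas_meets [MeasurableSpace Ω] {μ : Measure Ω} (σ : Sys Ω)
    (hm : ∀ t ∈ σ.S, MeasurePreserving (σ.act t) μ μ) {Z : Set Ω} (hZ : MeasurableSet Z)
    {u w : List ℕ} (hu : ∀ t ∈ u, t ∈ σ.S) (hw : ∀ t ∈ w, t ∈ σ.S) :
    MeasurableSet {y | Meets σ Z (wact σ.act u y) w} := by
  have e : {y | Meets σ Z (wact σ.act u y) w} =
      ⋃ i ∈ Set.Iic w.length, wact σ.act (u ++ w.take i) ⁻¹' Z := by
    ext y
    simp [meets_iff, wact_append]
  rw [e]
  exact MeasurableSet.biUnion (Set.to_countable _) fun i _ =>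
    (measurePreserving_wact fun t ht => hm t (mem_app hu (mem_take i hw) t ht)).measurable hZ

/-- many pairs have their position number `i` in `Z` -/
def Ev' (σ : Sys Ω) (r : ℕ) (Z : Set Ω) (c : ℝ) (t i : ℕ) : Set Ω :=
  {y | c * (((cloud σ.L σ.R r).length : ℝ) * (cloud σ.L σ.R r).length) <
    cnt ((cloud σ.L σ.R r).product (cloud σ.L σ.R r)) fun q =>
      wact σ.act ((path σ.inv σ.side q.1 t q.2).take i) (wact σ.act (ent q.1) y) ∈ Z}

theorem prod_ne {A : List α} {B : List β} (hA : 0 < A.length) (hB : 0 < B.length) :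
    A.product B ≠ [] := by
  have e : (A.product B).length = A.length * B.length := List.length_product _ _
  exact List.length_pos_iff.1 (e ▸ mul_pos hA hB)

theorem real_Ev (hS : StSpread) [MeasurableSpace Ω] (μ : Measure Ω) [IsProbabilityMeasure μ]
    (σ : Sys Ω) {lam : ℝ} (h0 : 0 ≤ lam) (hm : ∀ t ∈ σ.S, MeasurePreserving (σ.act t) μ μ)
    (gL : Gap μ σ.act σ.L lam) (gR : Gap μ σ.act σ.R lam) (r : ℕ) {Z : Set Ω}
    (hZ : MeasurableSet Z) {p τ : ℝ} (hp : μ.real Z ≤ p) (hτ : 0 < τ) {t : ℕ} (ht : t ∈ σ.S)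
    (i : ℕ) : μ.real (Ev' σ r Z (p + τ) t i) ≤ lam ^ r * p / τ ^ 2 := by
  have pre : ∀ w : List ℕ, (∀ s ∈ w, s ∈ σ.S) → MeasurableSet (wact σ.act w ⁻¹' Z) ∧
      μ.real (wact σ.act w ⁻¹' Z) ≤ p := fun w hw => by
    have h := measurePreserving_wact (act := σ.act) (w := w) fun s hs => hm s (hw s hs)
    exact ⟨h.measurable hZ, (h.measureReal_preimage hZ.nullMeasurableSet).le.trans hp⟩
  set o : List ℕ := if σ.side t = true then [t] else [] with ho
  set o' : List ℕ := if σ.side t = true then [] else [t] with ho'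
  have mo : ∀ s ∈ o, s ∈ σ.S := mem_one ht _
  have mo' : ∀ s ∈ o', s ∈ σ.S := mem_one' ht _
  have hc : ∀ a a' : List ℕ, a ∈ words σ.L r → a' ∈ words σ.L r →
      (winv σ.inv a' ++ o ++ a).length = 2 * r + o.length := fun a a' h h' => by
    simp only [winv, List.length_append, List.length_reverse, List.length_map,
      (mem_words.1 h).1, (mem_words.1 h').1]
    omega
  have lp : ∀ W : List (List ℕ), (((cloud σ.L σ.R r).product W).length : ℝ) =
      (cloud σ.L σ.R r).length * W.length := fun W => by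
    rw [← Nat.cast_mul]
    exact congrArg _ (List.length_product _ _)
  have lc : ((cloud σ.L σ.R r).length : ℝ) = (words σ.L r).length * (words σ.R r).length := by
    exact_mod_cast length_cloud _ _ _
  by_cases hi : i ≤ 2 * r + o.length
  · refine le_trans (le_of_eq ?_) (hS Ω μ σ.act σ.R lam σ.R_ne h0
      (fun s hs => hm s (σ.R_sub s hs)) gR _ ((cloud σ.L σ.R r).product (words σ.L r))
      (fun ξ => wact σ.act (ξ.2 ++ (winv σ.inv ξ.2 ++ o ++ ξ.1.1).take i) ⁻¹' Z) (fun _ => id) r p τ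
      (prod_ne (length_cloud_pos σ r) (length_words_pos σ.L_ne r)) hτ fun ξ hξ => ?_)
    · congr 1
      ext y
      simp only [Ev', Set.mem_ofPred_eq]
      refine iff_of_eq (congrArg₂ (· < ·) ?_ (congrArg Nat.cast ?_))
      · rw [lp, mul_assoc ((cloud σ.L σ.R r).length : ℝ), ← lc]
      · refine (cnt_one (cloud σ.L σ.R r) (words σ.L r) (words σ.R r) fun a' a =>
          wact σ.act ((path σ.inv σ.side a' t a).take i) (wact σ.act (ent a') y) ∈ Z).trans
          (cnt_congr fun c hc' => ?_)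
        obtain ⟨⟨a, u⟩, v⟩ := c
        obtain ⟨h1, -⟩ := List.mem_product.1 hc'
        obtain ⟨h2, h3⟩ := List.mem_product.1 h1
        have h4 := hc a.1 u (mem_cloud.1 h2).1 h3
        simp only [path, ent, ← ho, ← ho', Set.mem_preimage, id]
        rw [List.take_append_of_le_length (h4 ▸ hi), wact_append, wact_append]
    · obtain ⟨a, u⟩ := ξ
      obtain ⟨h2, h3⟩ := List.mem_product.1 hξ
      have h := pre _ (mem_app (mem_L σ h3) (mem_take i (mem_app (mem_app
        (mem_winv σ (mem_L σ h3)) mo) (mem_L σ (mem_cloud.1 h2).1))))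
      exact ⟨h.1, h.2, MeasurePreserving.id μ⟩
  · refine le_trans (le_of_eq ?_) (hS Ω μ σ.act σ.L lam σ.L_ne h0
      (fun s hs => hm s (σ.L_sub s hs)) gL _ ((cloud σ.L σ.R r).product (words σ.R r))
      (fun ξ => wact σ.act ((winv σ.inv ξ.1.2 ++ o' ++ ξ.2).take (i - (2 * r + o.length))) ⁻¹' Z)
      (fun ξ => wact σ.act (ξ.1.2 ++ o)) r p τ
      (prod_ne (length_cloud_pos σ r) (length_words_pos σ.R_ne r)) hτ fun ξ hξ => ?_)
    · congr 1
      ext y
      simp only [Ev', Set.mem_ofPred_eq]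
      refine iff_of_eq (congrArg₂ (· < ·) ?_ (congrArg Nat.cast ?_))
      · rw [lp, mul_assoc ((cloud σ.L σ.R r).length : ℝ), mul_comm ((words σ.R r).length : ℝ),
          ← lc]
      · refine (cnt_two (cloud σ.L σ.R r) (words σ.L r) (words σ.R r) fun a' a =>
          wact σ.act ((path σ.inv σ.side a' t a).take i) (wact σ.act (ent a') y) ∈ Z).trans
          (cnt_congr fun c hc' => ?_)
        obtain ⟨⟨a, v⟩, u⟩ := c
        obtain ⟨h1, h3⟩ := List.mem_product.1 hc'
        obtain ⟨h2, -⟩ := List.mem_product.1 h1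
        have h4 := hc u a.1 h3 (mem_cloud.1 h2).1
        simp only [path, ent, ← ho, ← ho', Set.mem_preimage]
        rw [List.take_append, List.take_of_length_le (by omega), h4]
        simp only [wact_append, wact_winv σ (mem_L σ (mem_cloud.1 h2).1)]
    · obtain ⟨a, u⟩ := ξ
      obtain ⟨h2, h3⟩ := List.mem_product.1 hξ
      have h5 := mem_R σ (mem_cloud.1 h2).2
      have h := pre _ (mem_take (i - (2 * r + o.length))
        (mem_app (mem_app (mem_winv σ h5) mo') (mem_R σ h3)))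
      exact ⟨h.1, h.2, measurePreserving_wact fun s hs => hm s (mem_app h5 mo s hs)⟩

theorem bad_sub (σ : Sys Ω) (r : ℕ) (B0 : Set Ω) (k : ℕ) {c : ℝ}
    (hc : c * (100 * (4 * r + 3)) ≤ 3) : Bad σ r B0 (k + 1) ⊆
      {y | ∃ t ∈ σ.S, y ∈ {y | ∃ i ∈ List.range (4 * r + 3), y ∈ Ev' σ r (Bad σ r B0 k) c t i}} := by
  rintro y ⟨t, ht, h⟩
  refine ⟨t, ht, ?_⟩
  by_contra hn
  simp only [Set.mem_ofPred_eq, not_exists, not_and, List.mem_range, Ev', not_lt] at hn
  have hN := length_cloud_pos σ r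
  have h1 := mul_cnt_le (cloud σ.L σ.R r) (fun a => cnt (cloud σ.L σ.R r) fun a' =>
    Meets σ (Bad σ r B0 k) (wact σ.act (ent a') y) (path σ.inv σ.side a' t a))
    (3 * (cloud σ.L σ.R r).length) 10
  rw [← cnt_product' (cloud σ.L σ.R r) (cloud σ.L σ.R r) fun q =>
    Meets σ (Bad σ r B0 k) (wact σ.act (ent q.1) y) (path σ.inv σ.side q.1 t q.2)] at h1
  have h2 := (cnt_mono (p := fun q : Adr × Adr =>
    Meets σ (Bad σ r B0 k) (wact σ.act (ent q.1) y) (path σ.inv σ.side q.1 t q.2))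
    fun q hq hm => ?_).trans (cnt_exists ((cloud σ.L σ.R r).product (cloud σ.L σ.R r))
    (fun i q => wact σ.act ((path σ.inv σ.side q.1 t q.2).take i) (wact σ.act (ent q.1) y) ∈
      Bad σ r B0 k) (4 * r + 3))
  · have h3 := (Nat.cast_le (α := ℝ)).2 h2
    rw [Nat.cast_sum] at h3
    have h4 := h3.trans (Finset.sum_le_card_nsmul _ _ _ fun i hi => hn i (Finset.mem_range.1 hi))
    rw [Finset.card_range, nsmul_eq_mul] at h4
    have h5 := (Nat.cast_le (α := ℝ)).2 h1
    have h6 := (Nat.cast_lt (α := ℝ)).2 h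
    have h7 : (0 : ℝ) < (cloud σ.L σ.R r).length := Nat.cast_pos.2 hN
    push_cast at h4 h5 h6
    nlinarith [mul_le_mul_of_nonneg_right hc (mul_pos h7 h7).le, mul_lt_mul_of_pos_left h6 h7]
  · obtain ⟨a', a⟩ := q
    obtain ⟨h3, h4⟩ := List.mem_product.1 hq
    obtain ⟨i, hi, hm⟩ := (meets_iff _ _ _ _).1 hm
    rw [length_path σ t h4 h3] at hi
    exact ⟨i, by omega, hm⟩

end BadStep

open BadStep in
theorem stBadStep (hS : StSpread) : StBadStep := by
  intro Ω _ μ _ σ lam h0 hm gL gR r B0 k p hZ hp hp1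
  have hm0 : (0 : ℝ) < 100 * (4 * r + 3) := by positivity
  constructor
  · have e : Bad σ r B0 (k + 1) = ⋃ t ∈ {t | t ∈ σ.S}, {y | (cloud σ.L σ.R r).length <
        10 * cnt (cloud σ.L σ.R r) fun a => 3 * (cloud σ.L σ.R r).length ≤
          10 * cnt (cloud σ.L σ.R r) fun a' =>
            Meets σ (Bad σ r B0 k) (wact σ.act (ent a') y) (path σ.inv σ.side a' t a)} := by
      ext y
      simp [Bad]
    rw [e]
    refine MeasurableSet.biUnion (Set.to_countable _) fun t ht => measurableSet_lt measurable_const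
      (measurable_const.mul (measurable_cnt _ _ fun a ha => measurableSet_le measurable_const
        (measurable_const.mul (measurable_cnt _ _ fun a' ha' => ?_))))
    rw [mem_cloud] at ha ha'
    exact meas_meets σ hm hZ (mem_app (mem_R σ ha'.2) (mem_L σ ha'.1))
      (mem_app (mem_app (mem_app (mem_winv σ (mem_L σ ha'.1)) (mem_one ht _)) (mem_L σ ha.1))
        (mem_app (mem_app (mem_winv σ (mem_R σ ha'.2)) (mem_one' ht _)) (mem_R σ ha.2)))
  · refine (measureReal_mono (bad_sub σ r B0 k (c := p + (100 * (4 * (r : ℝ) + 3))⁻¹) ?_)).trans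
      ((real_exists μ _ _ _ fun t ht => real_exists μ _ _ _ fun i _ =>
        real_Ev hS μ σ h0 hm gL gR r hZ hp (inv_pos.2 hm0) ht i).trans (le_of_eq ?_))
    · rw [add_mul, inv_mul_cancel₀ hm0.ne']
      linarith
    · rw [List.length_range, inv_pow, div_inv_eq_mul]
      push_cast
      ring

end Pool.Agent.Lib.MP_fa224b_lc.C
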