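import Pool.Agent.Lib.MP_fa224b_lc.C.Basic
import Pool.Agent.Lib.MP_fa224b_lc.C.MDefs

/-! Multiplication by a letter is Turing computable. -/

namespace Pool.Agent.Lib.MP_fa224b_lc.C

namespace CompL

def p1 (n : ℕ) : ℕ := n.unpair.1
def p2 (n : ℕ) : ℕ := n.unpair.2.unpair.1
def p3 (n : ℕ) : ℕ := n.unpair.2.unpair.2.unpair.1
def p4 (n : ℕ) : ℕ := n.unpair.2.unpair.2.unpair.2.unpair.1
def p5 (n : ℕ) : ℕ := n.unpair.2.unpair.2.unpair.2.unpair.2
def e5 (s a b u v : ℕ) : ℕ := Nat.pair s (Nat.pair a (Nat.pair b (Nat.pair u v)))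

theorem pl : Primrec fun n : ℕ => n.unpair.1 := Primrec.fst.comp Primrec.unpair
theorem pr : Primrec fun n : ℕ => n.unpair.2 := Primrec.snd.comp Primrec.unpair
theorem pr1 : Primrec p1 := pl
theorem pr2 : Primrec p2 := pl.comp pr
theorem pr3 : Primrec p3 := pl.comp (pr.comp pr)
theorem pr4 : Primrec p4 := pl.comp (pr.comp (pr.comp pr))
theorem pr5 : Primrec p5 := pr.comp (pr.comp (pr.comp pr))

theorem pr_e5 {s a b u v : ℕ → ℕ} (hs : Primrec s) (ha : Primrec a) (hb : Primrec b)
    (hu : Primrec u) (hv : Primrec v) : Primrec fun n => e5 (s n) (a n) (b n) (u n) (v n) :=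
  Primrec₂.natPair.comp hs (Primrec₂.natPair.comp ha (Primrec₂.natPair.comp hb
    (Primrec₂.natPair.comp hu hv)))

theorem code_eq (y : KK) (n : ℕ) : code y n = entry y.1 (p1 n) (p2 n) (p3 n) (p4 n) (p5 n) := rfl

theorem code_e5 (y : KK) (s a b u v : ℕ) : code y (e5 s a b u v) = entry y.1 s a b u v := by
  simp [code, e5]

/-- the shift of a ring element -/
def dl (i s : ℕ) : ℕ := if i = 0 then 0 else if i < 3 then 1 else s.unpair.1 + 3

/-- the columns of a ring element that are not zero -/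
def nzc (i s w zv : ℕ) : Prop :=
  i = 0 ∨ (i = 1 ∧ isX s w) ∨ (i = 2 ∧ ¬ isX s w) ∨
    (3 ≤ i ∧ zv = s.unpair.1.unpair.2 ∧ (w = 0 ∨ w = s.unpair.1 + 3))

instance (i s w zv : ℕ) : Decidable (nzc i s w zv) := by unfold nzc; infer_instance

variable {α : Type} [Primcodable α]

theorem pr_dim {s : α → ℕ} (hs : Primrec s) : Primrec fun q => dim (s q) :=
  Primrec.nat_add.comp (Primrec.nat_add.comp (pr_double.comp (pl.comp hs)) (Primrec.const 7))
    (pr.comp hs)

theorem pr_dl (i : ℕ) {s : α → ℕ} (hs : Primrec s) : Primrec fun q => dl i (s q) := by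
  unfold dl
  split_ifs
  · exact Primrec.const 0
  · exact Primrec.const 1
  · exact Primrec.nat_add.comp (pl.comp hs) (Primrec.const 3)

theorem pr_isX {s w : α → ℕ} (hs : Primrec s) (hw : Primrec w) :
    PrimrecPred fun q => isX (s q) (w q) :=
  (Primrec.eq.comp hw (Primrec.const 0)).or
    ((Primrec.eq.comp hw (Primrec.nat_add.comp (pl.comp hs) (Primrec.const 2))).or
      ((Primrec.eq.comp hw (Primrec.nat_add.comp (pl.comp hs) (Primrec.const 3))).or
        (Primrec.eq.comp hw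
          (Primrec.nat_add.comp (pr_double.comp (pl.comp hs)) (Primrec.const 5)))))

theorem pr_col (i : ℕ) {s w zv : α → ℕ} (hs : Primrec s) (hw : Primrec w) (hz : Primrec zv) :
    PrimrecPred fun q => nzc i (s q) (w q) (zv q) :=
  (Primrec.eq.comp (Primrec.const i) (Primrec.const 0)).or
    (((Primrec.eq.comp (Primrec.const i) (Primrec.const 1)).and (pr_isX hs hw)).or
      (((Primrec.eq.comp (Primrec.const i) (Primrec.const 2)).and (pr_isX hs hw).not).or
        ((Primrec.nat_le.comp (Primrec.const 3) (Primrec.const i)).and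
          ((Primrec.eq.comp hz (pr.comp (pl.comp hs))).and
            ((Primrec.eq.comp hw (Primrec.const 0)).or
              (Primrec.eq.comp hw (Primrec.nat_add.comp (pl.comp hs) (Primrec.const 3))))))))

theorem rel_apply (hL : StLine) (z : B) (i s : ℕ) (u w : Fin (dim s)) : rel z i s u w =
    if u.1 = w.1 + dl i s ∧ nzc i s w.1 (z s.unpair.1.unpair.1) then 1 else 0 := by
  unfold rel dl nzc
  by_cases h0 : i = 0
  · simp [h0, Matrix.one_apply, Fin.ext_iff]
  by_cases h1 : i = 1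
  · simp [h1, mX]
  by_cases h2 : i = 2
  · simp [h2, mY]
  have h3 : 3 ≤ i := by omega
  have h4 : ¬ i < 3 := by omega
  simp only [h0, h1, h2, h3, h4, if_false, false_and, false_or, true_and, mT, InJ]
  by_cases h5 : z s.unpair.1.unpair.1 = s.unpair.1.unpair.2
  · rw [if_pos h5, hL]
    refine if_congr ?_ rfl rfl
    simp only [h5, true_and]
    omega
  · simp [h5]

theorem final (z : B) (y y' : KK) (n2 : ℕ → ℕ) (fl : ℕ → ℕ → ℕ) (h1 : Primrec n2)
    (h2 : Primrec₂ fl) (h : ∀ n, code y' n =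
      (code y n + fl n (z (p1 n).unpair.1.unpair.1) * code y (n2 n)) % 293) :
    TLe (iota z y') (iota z y) := by
  have t1 := (TC.prim Computable.id).post₂ (tc_evens.pre (pl.comp (pl.comp pr1)).to_comp) h2.to_comp
  have t2 := t1.post₂ (tc_odds.pre h1.to_comp) Primrec.nat_mul.to_comp
  have t3 := (tc_odds.post₂ t2 Primrec.nat_add.to_comp).post
    (Primrec.nat_mod.comp Primrec.id (Primrec.const 293)).to_comp
  have t4 := (tc_evens.join t3).tle (iota z y)
  simp only [iota, evens_join, odds_join, id] at t4 ⊢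
  rwa [funext h]

theorem cast_entry (y : GG) (s : ℕ) (a b : Fin 3) (u v : Fin (dim s)) :
    ((entry y s a b u v : ℕ) : ZMod 293) = (y s).mat a b u v := by
  simp [entry]

theorem entry_new {y y' : GG} {s a b u v k e : ℕ}
    (h0 : ¬ (a < 3 ∧ b < 3 ∧ u < dim s ∧ v < dim s) → k = 0)
    (h1 : ∀ h : a < 3 ∧ b < 3 ∧ u < dim s ∧ v < dim s,
      (y' s).mat ⟨a, h.1⟩ ⟨b, h.2.1⟩ ⟨u, h.2.2.1⟩ ⟨v, h.2.2.2⟩ =
        (y s).mat ⟨a, h.1⟩ ⟨b, h.2.1⟩ ⟨u, h.2.2.1⟩ ⟨v, h.2.2.2⟩ + k * e) :
    entry y' s a b u v = (entry y s a b u v + k * e) % 293 := by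
  unfold entry
  split_ifs with h
  · rw [h1 h, ← ZMod.val_natCast]
    simp
  · simp [h0 h]

theorem mat_left (z : B) (t : ℕ) (h : lA t ≠ lB t) (y : GG) (s : ℕ) : ((el0 z t * y) s).mat =
    (y s).mat + Matrix.single (lA t) (lB t) ((lC t : ZMod 293) • rel z (lI t) s) * (y s).mat := by
  have : ((el0 z t * y) s).mat = (el0 z t s).mat * (y s).mat := rfl
  rw [this, el0, E, elem, dif_neg h]
  simp only [Gs.mat, add_mul, one_mul]

theorem mat_right (z : B) (t : ℕ) (h : lA t ≠ lB t) (y : GG) (s : ℕ) : ((y * el0 z t) s).mat =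
    (y s).mat + (y s).mat * Matrix.single (lA t) (lB t) ((lC t : ZMod 293) • rel z (lI t) s) := by
  have : ((y * el0 z t) s).mat = (y s).mat * (el0 z t s).mat := rfl
  rw [this, el0, E, elem, dif_neg h]
  simp only [Gs.mat, mul_add, mul_one]

end CompL

open CompL in
theorem stComp (hM : StMem) (hL : StLine) : StComp := by
  intro z t y
  have he : (el z t).1 = el0 z t := by rw [el, dif_pos (hM z t)]
  by_cases h : lA t = lB t
  · have h1 : el z t = 1 := Subtype.ext (he.trans (funext fun s => by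
      rw [el0, E, elem, dif_pos h]; rfl))
    unfold mact
    rw [h1, one_mul, mul_one, ite_self]
    exact TLe.refl _
  have q1 := pr1.comp (Primrec.fst (α := ℕ) (β := ℕ))
  have q2 := pr2.comp (Primrec.fst (α := ℕ) (β := ℕ))
  have q3 := pr3.comp (Primrec.fst (α := ℕ) (β := ℕ))
  have q4 := pr4.comp (Primrec.fst (α := ℕ) (β := ℕ))
  have q5 := pr5.comp (Primrec.fst (α := ℕ) (β := ℕ))
  unfold mact
  split_ifs with hs
  · refine final z y _ (fun n => e5 (p1 n) (lB t) (p3 n) (p4 n - dl (lI t) (p1 n)) (p5 n))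
      (fun n zv => if p2 n = lA t ∧ p3 n < 3 ∧ p4 n < dim (p1 n) ∧ p5 n < dim (p1 n) ∧
        dl (lI t) (p1 n) ≤ p4 n ∧ nzc (lI t) (p1 n) (p4 n - dl (lI t) (p1 n)) zv then lC t else 0)
      (pr_e5 pr1 (Primrec.const _) pr3 (Primrec.nat_sub.comp pr4 (pr_dl _ pr1)) pr5)
      (Primrec.ite ((Primrec.eq.comp q2 (Primrec.const _)).and
        ((Primrec.nat_lt.comp q3 (Primrec.const 3)).and ((Primrec.nat_lt.comp q4 (pr_dim q1)).and
        ((Primrec.nat_lt.comp q5 (pr_dim q1)).and ((Primrec.nat_le.comp (pr_dl _ q1) q4).and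
        (pr_col _ q1 (Primrec.nat_sub.comp q4 (pr_dl _ q1)) Primrec.snd))))))
        (Primrec.const _) (Primrec.const 0)) fun n => ?_
    rw [code_e5, code_eq, code_eq, Subgroup.coe_mul, he]
    generalize p1 n = s, p2 n = a, p3 n = b, p4 n = u, p5 n = v
    refine entry_new (fun h0 => if_neg fun h1 => h0 ⟨h1.1.trans_lt (lA t).2, h1.2.1, h1.2.2.1,
      h1.2.2.2.1⟩) fun ⟨ha, hb, hu, hv⟩ => ?_
    rw [mat_left z t h, Matrix.add_apply, Matrix.add_apply]
    congr 1
    by_cases e : a = lA t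
    · subst e
      rw [Fin.eta, Matrix.single_mul_apply_same, Matrix.mul_apply]
      simp only [Matrix.smul_apply, rel_apply hL, smul_eq_mul]
      by_cases e1 : dl (lI t) s ≤ u
      · rw [Finset.sum_eq_single ⟨u - dl (lI t) s, by omega⟩ (fun w _ hw => by
          rw [if_neg fun h1 => hw (Fin.ext (by have := h1.1; simp only at this ⊢; omega))]
          simp) (by simp), ← cast_entry]
        have e2 : u = u - dl (lI t) s + dl (lI t) s := by omega
        simp [hb, hu, hv, e1, ← e2]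
      · rw [Finset.sum_eq_zero fun w _ => by
          rw [if_neg fun h1 => e1 (by have := h1.1; omega)]
          simp]
        simp [e1]
    · rw [Matrix.single_mul_apply_of_ne _ _ _ _ _ fun h1 => e (congrArg Fin.val h1)]
      simp [e]
  · refine final z y _ (fun n => e5 (p1 n) (p2 n) (lA t) (p4 n) (p5 n + dl (lI t) (p1 n)))
      (fun n zv => if p2 n < 3 ∧ p3 n = lB t ∧ p4 n < dim (p1 n) ∧ p5 n < dim (p1 n) ∧
        nzc (lI t) (p1 n) (p5 n) zv then lC t else 0)
      (pr_e5 pr1 pr2 (Primrec.const _) pr4 (Primrec.nat_add.comp pr5 (pr_dl _ pr1)))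
      (Primrec.ite ((Primrec.nat_lt.comp q2 (Primrec.const 3)).and
        ((Primrec.eq.comp q3 (Primrec.const _)).and ((Primrec.nat_lt.comp q4 (pr_dim q1)).and
        ((Primrec.nat_lt.comp q5 (pr_dim q1)).and (pr_col _ q1 q5 Primrec.snd)))))
        (Primrec.const _) (Primrec.const 0)) fun n => ?_
    rw [code_e5, code_eq, code_eq, Subgroup.coe_mul, he]
    generalize p1 n = s, p2 n = a, p3 n = b, p4 n = u, p5 n = v
    refine entry_new (fun h0 => if_neg fun h1 => h0 ⟨h1.1, h1.2.1.trans_lt (lB t).2, h1.2.2.1,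
      h1.2.2.2.1⟩) fun ⟨ha, hb, hu, hv⟩ => ?_
    rw [mat_right z t h, Matrix.add_apply, Matrix.add_apply]
    congr 1
    by_cases e : b = lB t
    · subst e
      rw [Fin.eta, Matrix.mul_single_apply_same, Matrix.mul_apply]
      simp only [Matrix.smul_apply, rel_apply hL, smul_eq_mul]
      by_cases e1 : v + dl (lI t) s < dim s
      · rw [Finset.sum_eq_single ⟨v + dl (lI t) s, e1⟩ (fun w _ hw => by
          rw [if_neg fun h1 => hw (Fin.ext h1.1)]
          simp) (by simp), ← cast_entry]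
        simp [ha, hu, hv, mul_comm]
      · rw [Finset.sum_eq_zero fun w _ => by
          rw [if_neg fun h1 => e1 (by have := h1.1; have := w.2; omega)]
          simp]
        simp [entry, e1]
    · rw [Matrix.mul_single_apply_of_ne _ _ _ _ _ fun h1 => e (congrArg Fin.val h1)]
      simp [e]

end Pool.Agent.Lib.MP_fa224b_lc.C
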