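import Pool.Agent.Lib.MP_fa224b_lc.C.Basic
import Pool.Agent.Lib.MP_fa224b_lc.C.UDefs
import Pool.Agent.Lib.MP_fa224b_lc.C.Split

/-! From fair coins to dice with 293 faces. -/

namespace Pool.Agent.Lib.MP_fa224b_lc.C

open MeasureTheory ProbabilityTheory Filter

namespace Conv

open Split

theorem le_ev {a b w : B} (h : TLe (join a b) w) : TLe a w := by
  simpa using (tc_evens.tle (join a b)).trans h

theorem le_od {a b w : B} (h : TLe (join a b) w) : TLe b w := by
  simpa using (tc_odds.tle (join a b)).trans h

theorem count_le {r w : B} (h : TLe r w) : TLe (Nat.count fun n => r n < 146) w := by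
  have h1 := recn (post₂ (app h (prim u1 w)) (prim u2 w)
    (p := fun a b => b + if a < 146 then 1 else 0) (Primrec.nat_add.comp Primrec.snd
      (Primrec.ite (Primrec.nat_lt.comp Primrec.fst (.const 146)) (.const 1) (.const 0)))) 0
  convert h1 using 2 with n
  induction n with
  | zero => rfl
  | succ n ih => simp only [Nat.count_succ, ih, Nat.unpair_pair]

theorem nth_le {r w : B} (h : TLe r w) (hi : {n | r n < 146}.Infinite) :
    TLe (Nat.nth fun n => r n < 146) w := by
  have h1 := post₂ (app h (prim u2 w)) (post₂ (app (count_le h) (prim u2 w)) (prim u1 w)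
    (p := fun a b => if a = b then 0 else 1)
    (Primrec.ite (Primrec.eq.comp Primrec.fst Primrec.snd) (.const 0) (.const 1)))
    (p := fun a b => if a < 146 then b else 1)
    (Primrec.ite (Primrec.nat_lt.comp Primrec.fst (.const 146)) Primrec.snd (.const 1))
  have h2 := find h1 fun k => ⟨Nat.nth (fun n => r n < 146) k, by
    simp only [Nat.unpair_pair, Nat.nth_mem_of_infinite hi k, Nat.count_nth_of_infinite hi,
      if_true]⟩
  convert h2 using 2 with k
  generalize_proofs hk
  have h3 := Nat.find_spec hk
  generalize Nat.find hk = m at h3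
  simp only [Nat.unpair_pair] at h3
  split_ifs at h3 with a b
  rw [← b, Nat.nth_count (p := fun n => r n < 146) a]

/-- a sequence of dice is equivalent to its halves and its free parities -/
theorem teq (z : B) {x r : B} (hx : ∀ n, x n < 293) (hr : ∀ n, x n / 2 = r n)
    (hi : {n | r n < 146}.Infinite) :
    TEq (join z x) (join (join z r) fun k => x (Nat.nth (fun n => r n < 146) k) % 2) := by
  constructor
  · have h0 := TLe.refl (join (join z r) fun k => x (Nat.nth (fun n => r n < 146) k) % 2)
    have h1 := le_od (le_ev h0)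
    refine (le_ev (le_ev h0)).join ?_
    have h2 := post₂ h1 (app (le_od h0) (count_le h1))
      (p := fun a b => 2 * a + if a < 146 then b else 0) (Primrec.nat_add.comp
        (pr_double.comp Primrec.fst)
        (Primrec.ite (Primrec.nat_lt.comp Primrec.fst (.const 146)) Primrec.snd (.const 0)))
    convert h2 using 2 with n
    have := hx n
    have := hr n
    split_ifs with a
    · rw [Nat.nth_count (p := fun n => r n < 146) a]; omega
    · omega
  · have h0 := TLe.refl (join z x)
    have h1 : TLe r (join z x) := funext hr ▸ app (prim pr_half _) (le_od h0)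
    exact ((le_ev h0).join h1).join (app (prim (p := fun n => n % 2)
      (Primrec.nat_mod.comp Primrec.id (.const 2)) _) (app (le_od h0) (nth_le h1 hi)))

theorem pres {α : Type} [Fintype α] [Nonempty α] [MeasurableSpace α] [DiscreteMeasurableSpace α]
    {f : ℕ → α → α} (hf : ∀ n, Function.Injective (f n)) :
    MeasurePreserving (fun (x : ℕ → α) n => f n (x n))
      (Measure.infinitePi fun _ => uniformOn Set.univ)
      (Measure.infinitePi fun _ => uniformOn Set.univ) := by
  have m : ∀ n, Measurable (f n) := fun n => .of_discrete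
  refine ⟨by fun_prop, ?_⟩
  rw [Measure.infinitePi_map_pi _ m]
  congr 1
  funext n
  ext s hs
  rw [Measure.map_apply (m n) hs, uniformOn_univ, uniformOn_univ,
    ← Measure.count_injective_image (hf n),
    Set.image_preimage_eq _ (Finite.injective_iff_surjective.1 (hf n))]

/-- exchange of the two faces of a pair -/
def sgN (b : Bool) (t : ℕ) : ℕ := if t = 292 then 292 else 2 * (t / 2) + (xor b (t % 2 = 1)).toNat

def sg (b : Bool) (t : ZMod 293) : ZMod 293 := sgN b t.val

theorem sg_val (b : Bool) (t : ZMod 293) : (sg b t).val = sgN b t.val := by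
  have := ZMod.val_lt t
  have := Bool.toNat_le (xor b (t.val % 2 = 1))
  refine ZMod.val_cast_of_lt ?_
  unfold sgN
  split_ifs <;> omega

theorem sg_half (b : Bool) (t : ZMod 293) : (sg b t).val / 2 = t.val / 2 := by
  have := Bool.toNat_le (xor b (t.val % 2 = 1))
  rw [sg_val, sgN]
  split_ifs <;> omega

theorem sg_par (b : Bool) {t : ZMod 293} (h : t.val / 2 < 146) :
    (sg b t).val % 2 = (xor b (t.val % 2 = 1)).toNat := by
  have := Bool.toNat_le (xor b (t.val % 2 = 1))
  rw [sg_val, sgN]
  split_ifs <;> omega

theorem sg_inj (b : Bool) : Function.Injective (sg b) := fun s t h => by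
  have h1 := sg_half b s
  rw [h, sg_half] at h1
  have h2 := ZMod.val_lt s
  have h3 := ZMod.val_lt t
  refine ZMod.val_injective _ ?_
  by_cases a : t.val / 2 < 146
  · have h4 := sg_par b (h1 ▸ a : s.val / 2 < 146)
    rw [h, sg_par b a] at h4
    by_cases c : t.val % 2 = 1 <;> by_cases d : s.val % 2 = 1 <;> cases b <;>
      simp [c, d] at h4 <;> omega
  · omega

theorem ae_inf : ∀ᵐ c ∂nu, {n | (c n).val / 2 < 146}.Infinite := by
  have key : ∀ N : ℕ, nu {c | ∀ n, N ≤ n → c n = 292} = 0 := fun N => by
    have l : (uniformOn (Set.univ : Set (ZMod 293)) {292}) < 1 := by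
      rw [uniformOn_univ, Measure.count_singleton, ZMod.card, one_div, ENNReal.inv_lt_one]
      norm_num
    refine le_zero_iff.1 (ge_of_tendsto' (ENNReal.tendsto_pow_atTop_nhds_zero_of_lt_one l)
      fun k => ?_)
    have e := Measure.infinitePi_pi (fun _ : ℕ => uniformOn (Set.univ : Set (ZMod 293)))
      (s := Finset.Ico N (N + k)) (t := fun _ => {292}) fun _ _ => .of_discrete
    rw [Finset.prod_const, Nat.card_Ico, Nat.add_sub_cancel_left] at e
    exact e ▸ measure_mono fun c hc n hn => hc n (Finset.mem_Ico.1 hn).1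
  refine measure_mono_null (fun c hc => ?_) (measure_iUnion_null key)
  obtain ⟨N, hN⟩ := (Set.not_infinite.1 hc).bddAbove
  refine Set.mem_iUnion.2 ⟨N + 1, fun n hn => ZMod.val_injective _ ?_⟩
  have h1 := ZMod.val_lt (c n)
  have h2 : ¬ (c n).val / 2 < 146 := fun h => by have := hN h; omega
  have h3 : (292 : ZMod 293).val = 292 := rfl
  omega

end Conv

open Conv in
theorem stConv : StConv := by
  intro S z hS hm h0 d
  suffices H : nu {c | join z (vals c) ∈ S} = 0 from
    (pres (f := fun n t => t + d n) fun n => add_left_injective _).quasiMeasurePreserving.preimage_null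
      H
  obtain ⟨T, t1, t2, t3⟩ := hm.exists_measurable_subset_ae_eq
  rw [← measure_congr t3]
  have m : Measurable fun q : ZZ × (ℕ → Bool) => fun n => sg (q.2 n) (q.1 n) :=
    measurable_pi_lambda _ fun n => (Measurable.of_discrete (f := fun p : Bool × ZMod 293 =>
      sg p.1 p.2)).comp (f := fun q : ZZ × (ℕ → Bool) => (q.2 n, q.1 n)) (by fun_prop)
  have h1 : ∀ᵐ c ∂nu, ∀ᵐ a ∂coin, (fun n => sg (a n) (c n)) ∉ T := by
    filter_upwards [ae_inf] with c hc
    have p1 : MeasurePreserving (fun (a : ℕ → Bool) k =>
        a (Nat.nth (fun n => (c n).val / 2 < 146) k)) coin coin :=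
      ⟨by fun_prop, Measure.map_infinitePi_infinitePi_of_inj (Nat.nth_injective hc)⟩
    have p2 : MeasurePreserving _ coin coin := pres (f := fun k b =>
      xor b ((c (Nat.nth (fun n => (c n).val / 2 < 146) k)).val % 2 = 1)) fun k a b h => by
        simpa using h
    refine measure_mono_null (fun a ha => ?_)
      ((p2.comp p1).quasiMeasurePreserving.preimage_null (h0 fun n => (c n).val / 2))
    have h2 := hS _ _ (teq z (x := vals fun n => sg (a n) (c n)) (fun n => ZMod.val_lt _)
      (fun n => sg_half _ _) hc) (t1 (not_not.1 ha))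
    convert h2 using 1
    refine Iff.of_eq (congrArg (fun b => join _ b ∈ S) (funext fun k => ?_))
    exact (sg_par _ (Nat.nth_mem_of_infinite hc k)).symm
  obtain ⟨a, ha⟩ := ((Measure.ae_ae_comm (m t2).compl).1 h1).exists
  have p3 : MeasurePreserving _ nu nu := pres (f := fun n => sg (a n)) fun n => sg_inj _
  rw [← p3.measure_preimage t2.nullMeasurableSet]
  exact measure_mono_null (fun c hc => not_not.2 hc) (ae_iff.1 ha)

end Pool.Agent.Lib.MP_fa224b_lc.C
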