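import Pool.Agent.Lib.MP_fa224b_lc.C.Basic
import Pool.Agent.Lib.MP_fa224b_lc.C.MDefs

/-! The measure form of the theorem. -/

namespace Pool.Agent.Lib.MP_fa224b_lc.C

open MeasureTheory

theorem stCore (h1 : StFT) (h2 : StSys) (h3 : StGapM) (h4 : StApproxM) (h5 : StComp)
    (h6 : StTwComp) (h7 : StTwVal) (h8 : StMove) (hA : StKitA) (hB : StKitB) (hH : StHaar) :
    StCore := by
  intro z f hf hinv hc N hN
  obtain ⟨hp, hl, hr⟩ := hH
  obtain ⟨σ, e1, e2, e3, e4, e5, e6, p1, p2, mp⟩ := h2 z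
  set g := hf.mk f with hg
  have gm : Measurable g := hf.measurable_mk
  have gae : mu {y | f y = g y}ᶜ = 0 := hf.ae_eq_mk
  set O : Set KK := (toMeasurable mu {y | f y = g y}ᶜ)ᶜ with hO
  have Om : MeasurableSet O := (measurableSet_toMeasurable _ _).compl
  have O0 : mu Oᶜ = 0 := by rw [hO, compl_compl, measure_toMeasurable]; exact gae
  have Oe : ∀ y ∈ O, f y = g y := fun y hy => by
    by_contra h
    exact hy (subset_toMeasurable _ _ h)
  have hOae : ∀ᵐ y ∂mu, y ∈ O := O0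
  have hT : ∀ t ∈ σ.S, ∀ᵐ y ∂mu, TLe (g (σ.act t y)) (g y) := by
    intro t ht
    have h' : ∀ᵐ y ∂mu, σ.act t y ∈ O := by
      rw [e1]; exact (mp t).quasiMeasurePreserving.ae hOae
    filter_upwards [hOae, h'] with y hy hy'
    rw [← Oe _ hy, ← Oe _ hy']
    refine (hinv _ _ ⟨?_, ?_⟩).1
    · rw [e1]; exact h5 z t y
    · have := h5 z (σ.inv t) (σ.act t y)
      rwa [← e1, σ.act_inv t ht] at this
  obtain ⟨N', hN', hE⟩ := h1 KK mu σ (1 - 1 / 1250) (by norm_num) (by norm_num)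
    (fun t _ => e1 ▸ mp t) (by rw [e1, e3]; exact (h3 z).1) (by rw [e1, e4]; exact (h3 z).2)
    (h4 z σ e1) (e5 ▸ p1) (e6 ▸ p2) g gm hT
  obtain ⟨y, hy⟩ : ∃ y, y ∉ N' ∪ (N ∪ Oᶜ) := by
    by_contra h
    push Not at h
    have h0 : mu.real (N ∪ Oᶜ) = 0 := by
      rw [measureReal_def, measure_union_null hN O0]; rfl
    have h1 : mu.real (Set.univ : Set KK) ≤ mu.real N' + mu.real (N ∪ Oᶜ) :=
      (measureReal_mono (fun y _ => h y) (measure_ne_top _ _)).trans (measureReal_union_le _ _)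
    rw [probReal_univ, h0] at h1
    linarith
  simp only [Set.mem_union, Set.mem_compl_iff, not_or, not_not] at hy
  obtain ⟨E, hce, hE⟩ := hE y hy.1
  refine ⟨y, hy.2.1, ?_⟩
  rw [Oe y hy.2.2]
  have hS : ∀ j m, ∀ t ∈ tw j m, t ∈ σ.S := fun j m t ht => by
    rw [e2]; exact List.mem_range.2 (h6.2 j m t ht)
  have hJ : ∀ j, InJ z j ↔ ∃ m, E (tw j m) := by
    intro j
    constructor
    · intro hj
      obtain ⟨κ, k1, k2, k3⟩ := (h7 z j).2 hj
      obtain ⟨m, hm⟩ := h8 KK mu g O κ gm Om O0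
        (fun v => (hc v).mono fun y hy => (Oe y hy.1).trans hy.2) k1 k2
      refine ⟨m, (hE _ (hS j m)).2 ?_⟩
      simpa only [e1, k3] using hm
    · rintro ⟨m, hm⟩
      by_contra hj
      exact (hE _ (hS j m)).1 (fun y' => by rw [e1]; exact (h7 z j).1 hj m y') hm
  have c1 : Computable fun q : (ℕ × ℕ) × ℕ => tw (Nat.pair q.1.1 q.1.2) q.2 :=
    (h6.1.comp (Primrec₂.natPair.comp (Primrec.fst.comp Primrec.fst)
      (Primrec.snd.comp Primrec.fst)) Primrec.snd).to_comp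
  have c2 := hA.2.2.2.2.2.1 _ _ _ _ (hA.2.2.2.2.1 _ _ _ _ _ hce c1)
  refine hB.2 _ _ ?_
  convert c2 using 2 with q
  simp only [← hJ]
  simp [InJ]

end Pool.Agent.Lib.MP_fa224b_lc.C
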