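import Pool.Agent.Lib.MP_fa224b_lc.C.Basic

/-! The rules for correct leaves. -/

namespace Pool.Agent.Lib.MP_fa224b_lc.C

namespace Corr

variable {P : Par} {x : B} {h : List Op} {l : List Adr} {n b t : ℕ} {a : Adr}

/-- the last rule of a derivation -/
theorem last (d : Der P x h l n b) :
    (h = [] ∧ l = [] ∧ b = x n) ∨
    (∃ (t : ℕ) (h' : List Op) (u : B) (s : ℕ), h = gate t :: h' ∧ l = [] ∧
      (∀ i, i ≤ s → Der P x h' [] i (u i)) ∧ st (P.prog t (P.qs h')) u s n = some b ∧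
      ∀ s', s' < s → st (P.prog t (P.qs h')) u s' n = Option.none) ∨
    (∃ (t : ℕ) (h' : List Op) (a : Adr) (l' : List Adr) (T : Adr → Prop), h = gate t :: h' ∧
      l = a :: l' ∧ P.A.length < 2 * cnt P.A T ∧ ∀ a', a' ∈ P.A → T a' →
        Der P x (gate 0 :: gates (path P.inv P.side a' t a) (sub a' :: h')) l' n b) ∨
    (∃ a h', h = sub a :: h' ∧ Der P x h' (a :: l) n b) ∨
    (∃ a h' l', h = enc :: h' ∧ l = a :: l' ∧ Der P x (gates (ent a) h') l' n b) ∨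
    ∃ (h' : List Op) (T : Adr → Prop), h = dec :: h' ∧ P.A.length < 2 * cnt P.A T ∧
      ∀ a', a' ∈ P.A → T a' →
        Der P x (gate 0 :: gates (winv P.inv (ent a')) (sub a' :: h')) l n b := by
  cases d with
  | base => exact .inl ⟨rfl, rfl, rfl⟩
  | app t h u s _ _ h1 h2 h3 => exact .inr (.inl ⟨t, h, u, s, rfl, rfl, h1, h2, h3⟩)
  | gat t h a l _ _ T h1 h2 => exact .inr (.inr (.inl ⟨t, h, a, l, T, rfl, rfl, h1, h2⟩))
  | sub a h _ _ _ h1 => exact .inr (.inr (.inr (.inl ⟨a, h, rfl, h1⟩)))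
  | enc a h l _ _ h1 => exact .inr (.inr (.inr (.inr (.inl ⟨a, h, l, rfl, rfl, h1⟩))))
  | dec h _ _ _ T h1 h2 => exact .inr (.inr (.inr (.inr (.inr ⟨h, T, rfl, h1, h2⟩))))

theorem of_nil (d : Der P x [] l n b) : b = x n := by
  rcases last d with ⟨-, -, e⟩ | ⟨_, _, _, _, e, -⟩ | ⟨_, _, _, _, _, e, -⟩ | ⟨_, _, e, -⟩ |
    ⟨_, _, _, e, -⟩ | ⟨_, _, e, -⟩
  · exact e
  all_goals cases e

theorem of_app (d : Der P x (gate t :: h) [] n b) : ∃ (u : B) (s : ℕ),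
    (∀ i, i ≤ s → Der P x h [] i (u i)) ∧ st (P.prog t (P.qs h)) u s n = some b ∧
      ∀ s', s' < s → st (P.prog t (P.qs h)) u s' n = Option.none := by
  rcases last d with ⟨e, -⟩ | ⟨_, _, u, s, e, -, h1⟩ | ⟨_, _, _, _, _, -, e, -⟩ | ⟨_, _, e, -⟩ |
    ⟨_, _, _, e, -⟩ | ⟨_, _, e, -⟩
  all_goals cases e
  exact ⟨u, s, h1⟩

theorem of_gat (d : Der P x (gate t :: h) (a :: l) n b) : ∃ T : Adr → Prop,
    P.A.length < 2 * cnt P.A T ∧ ∀ a', a' ∈ P.A → T a' →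
      Der P x (gate 0 :: gates (path P.inv P.side a' t a) (sub a' :: h)) l n b := by
  rcases last d with ⟨e, -⟩ | ⟨_, _, _, _, -, e, -⟩ | ⟨_, _, _, _, T, e, e', h1⟩ | ⟨_, _, e, -⟩ |
    ⟨_, _, _, e, -⟩ | ⟨_, _, e, -⟩
  all_goals cases e
  cases e'
  exact ⟨T, h1⟩

theorem of_sub (d : Der P x (sub a :: h) l n b) : Der P x h (a :: l) n b := by
  rcases last d with ⟨e, -⟩ | ⟨_, _, _, _, e, -⟩ | ⟨_, _, _, _, _, e, -⟩ | ⟨_, _, e, h1⟩ |
    ⟨_, _, _, e, -⟩ | ⟨_, _, e, -⟩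
  all_goals cases e
  exact h1

theorem of_enc (d : Der P x (enc :: h) (a :: l) n b) : Der P x (gates (ent a) h) l n b := by
  rcases last d with ⟨e, -⟩ | ⟨_, _, _, _, e, -⟩ | ⟨_, _, _, _, _, e, -⟩ | ⟨_, _, e, -⟩ |
    ⟨_, _, _, e, e', h1⟩ | ⟨_, _, e, -⟩
  all_goals cases e
  cases e'
  exact h1

theorem of_dec (d : Der P x (dec :: h) l n b) : ∃ T : Adr → Prop,
    P.A.length < 2 * cnt P.A T ∧ ∀ a', a' ∈ P.A → T a' →
      Der P x (gate 0 :: gates (winv P.inv (ent a')) (sub a' :: h)) l n b := by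
  rcases last d with ⟨e, -⟩ | ⟨_, _, _, _, e, -⟩ | ⟨_, _, _, _, _, e, -⟩ | ⟨_, _, e, -⟩ |
    ⟨_, _, _, e, -⟩ | ⟨_, T, e, h1⟩
  all_goals cases e
  exact ⟨T, h1⟩

theorem rp_congr {u v : B} {s : ℕ} (e : ∀ i, i < s → u i = v i) : rp u s = rp v s := by
  induction s with
  | zero => rfl
  | succ s ih => rw [rp, rp, e s s.lt_succ_self, ih fun i hi => e i (hi.trans s.lt_succ_self)]

theorem st_congr {u v : B} {k s : ℕ} (e : ∀ i, i ≤ s → u i = v i) : st k u s n = st k v s n := by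
  rw [st, st, rp_congr fun i hi => e i (hi.le.trans (Nat.unpair_left_le s))]

end Corr

open Corr in
theorem stCorr : StCorr := by
  refine fun P x => ⟨fun n b => ⟨of_nil, fun e => e ▸ .base n⟩, fun t h u v hu hv n b => ⟨fun d => ?_, ?_⟩,
    fun a h l v => forall₂_congr fun n b => iff_congr ⟨of_sub, .sub a h l n b⟩ Iff.rfl,
    fun a h l v => forall₂_congr fun n b => iff_congr ⟨of_enc, .enc a h l n b⟩ Iff.rfl,
    fun t h a l v hc n b => ⟨fun d => ?_, fun e => .gat t h a l n b _ hc fun a' _ h' => (h' n b).2 e⟩,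
    fun h l v hc n b => ⟨fun d => ?_, fun e => .dec h l n b _ hc fun a' _ h' => (h' n b).2 e⟩⟩
  · obtain ⟨u', s, h1, h2, h3⟩ := of_app d
    have e : ∀ i, i ≤ s → u i = u' i := fun i hi => ((hu i _).1 (h1 i hi)).symm
    exact Q.unique ⟨s, (st_congr e).trans h2, fun s' hs =>
      (st_congr fun i hi => e i (hi.trans hs.le)).trans (h3 s' hs)⟩ (hv n)
  · rintro rfl
    obtain ⟨s, h1, h2⟩ := hv n
    exact .app t h u s n _ (fun i _ => (hu i _).2 rfl) h1 h2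
  · obtain ⟨T, h1, h2⟩ := of_gat d
    obtain ⟨a', ha, h3, h4⟩ := majority h1 hc
    exact (h4 n b).1 (h2 a' ha h3)
  · obtain ⟨T, h1, h2⟩ := of_dec d
    obtain ⟨a', ha, h3, h4⟩ := majority h1 hc
    exact (h4 n b).1 (h2 a' ha h3)

end Pool.Agent.Lib.MP_fa224b_lc.C
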