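import Pool.Agent.Lib.MP_fa224b_lc.C.Basic

/-! The derivation predicate is computably enumerable in the oracle. -/

namespace Pool.Agent.Lib.MP_fa224b_lc.C

open Encodable

namespace DerCE

abbrev J : Type := List Op × List Adr × ℕ × ℕ

/-- the function with the values of a list -/
def lf (ul : List ℕ) : B := fun i => ul.getD i 0

/-- the rules that do not ask the oracle, with explicit witnesses -/
def Rw (P : Par) (D : List J) (h : List Op) (l : List Adr) (n b t s : ℕ) (h' : List Op) (a : Adr)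
    (l' T : List Adr) (ul : List ℕ) : Prop :=
  (h = gate t :: h' ∧ l = [] ∧ (∀ i ∈ List.range (s + 1), (h', [], i, ul.getD i 0) ∈ D) ∧
    st (P.prog t (P.qs h')) (lf ul) s n = some b ∧
    ∀ s' ∈ List.range s, st (P.prog t (P.qs h')) (lf ul) s' n = Option.none) ∨
  (h = gate t :: h' ∧ l = a :: l' ∧ T ∈ P.A.sublists ∧ P.A.length < 2 * T.length ∧
    ∀ a' ∈ T, (gate 0 :: gates (path P.inv P.side a' t a) (sub a' :: h'), l', n, b) ∈ D) ∨
  (h = sub a :: h' ∧ (h', a :: l, n, b) ∈ D) ∨
  (h = enc :: h' ∧ l = a :: l' ∧ (gates (ent a) h', l', n, b) ∈ D) ∨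
  (h = dec :: h' ∧ T ∈ P.A.sublists ∧ P.A.length < 2 * T.length ∧
    ∀ a' ∈ T, (gate 0 :: gates (winv P.inv (ent a')) (sub a' :: h'), l, n, b) ∈ D)

abbrev W : Type := (ℕ × ℕ) × (List Op × Adr) × (List Adr × List Adr) × List ℕ

/-- all rules -/
def Rl (P : Par) (x : B) (D : List J) (q : J) : Prop :=
  ((q.1 = [] ∧ q.2.1 = []) ∧ x q.2.2.1 = q.2.2.2) ∨
  ∃ w : W, Rw P D q.1 q.2.1 q.2.2.1 q.2.2.2 w.1.1 w.1.2 w.2.1.1 w.2.1.2 w.2.2.1.1 w.2.2.1.2 w.2.2.2

theorem rp_congr {x y : B} {k : ℕ} (h : ∀ i < k, x i = y i) : rp x k = rp y k := by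
  induction k with
  | zero => rfl
  | succ k ih => rw [rp, rp, h k (by omega), ih fun i hi => h i (by omega)]

theorem st_congr {x y : B} {k s n : ℕ} (h : ∀ i < s, x i = y i) : st k x s n = st k y s n := by
  unfold st
  rw [rp_congr fun i hi => h i (hi.trans_le (Nat.unpair_left_le s))]

theorem sub_of_cnt {A : List Adr} {T : Adr → Prop} (h : A.length < 2 * cnt A T) :
    ∃ T' ∈ A.sublists, A.length < 2 * T'.length ∧ ∀ a ∈ T', a ∈ A ∧ T a := by
  refine ⟨A.filter fun a => @decide (T a) (Classical.propDecidable _),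
    List.mem_sublists.2 List.filter_sublist, ?_, fun a ha => by simpa using ha⟩
  rwa [cnt, List.countP_eq_length_filter] at h

theorem cnt_of_sub {A T : List Adr} (h : T ∈ A.sublists) (h' : A.length < 2 * T.length) :
    A.length < 2 * cnt A fun a => a ∈ T := by
  have h1 : cnt T (fun a => a ∈ T) ≤ cnt A fun a => a ∈ T :=
    (List.mem_sublists.1 h).countP_le
  rw [cnt_all fun a ha => ha] at h1
  omega

theorem cl_of_der {P : Par} {x : B} {h : List Op} {l : List Adr} {n b : ℕ}
    (H : Der P x h l n b) : Cl (Rl P x) (h, l, n, b) := by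
  induction H with
  | base n => exact Cl.step [] _ (by simp) (Or.inl ⟨⟨rfl, rfl⟩, rfl⟩)
  | app t h u s n b _ h2 h3 ih =>
    have e : ∀ i ≤ s, ((List.range (s + 1)).map u).getD i 0 = u i := by
      intro i hi
      simp [List.getD_eq_getElem?_getD, List.getElem?_range (Nat.lt_succ_of_le hi)]
    refine Cl.step ((List.range (s + 1)).map fun i => (h, [], i, u i)) _ ?_
      (Or.inr ⟨((t, s), (h, default), ([], []), (List.range (s + 1)).map u),
        Or.inl ⟨rfl, rfl, fun i hi => ?_, ?_, fun s' hs' => ?_⟩⟩)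
    · intro d hd
      obtain ⟨i, hi, rfl⟩ := List.mem_map.1 hd
      exact ih i (Nat.lt_succ_iff.1 (List.mem_range.1 hi))
    · refine List.mem_map.2 ⟨i, hi, ?_⟩
      simp only [e i (Nat.lt_succ_iff.1 (List.mem_range.1 hi))]
    · exact (st_congr fun i hi => e i hi.le).trans h2
    · have h4 : s' < s := List.mem_range.1 hs'
      exact (st_congr fun i hi => e i (hi.trans h4).le).trans (h3 s' h4)
  | gat t h a l n b T h1 _ ih =>
    obtain ⟨T', h3, h4, h5⟩ := sub_of_cnt h1
    refine Cl.step (T'.map fun a' =>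
      (gate 0 :: gates (path P.inv P.side a' t a) (sub a' :: h), l, n, b)) _ ?_
      (Or.inr ⟨((t, 0), (h, a), (l, T'), []),
        Or.inr (Or.inl ⟨rfl, rfl, h3, h4, fun a' ha' => List.mem_map.2 ⟨a', ha', rfl⟩⟩)⟩)
    intro d hd
    obtain ⟨a', ha', rfl⟩ := List.mem_map.1 hd
    exact ih a' (h5 a' ha').1 (h5 a' ha').2
  | sub a h l n b _ ih =>
    refine Cl.step [(h, a :: l, n, b)] _ (by simpa using ih)
      (Or.inr ⟨((0, 0), (h, a), ([], []), []),
        Or.inr (Or.inr (Or.inl ⟨rfl, List.mem_singleton.2 rfl⟩))⟩)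
  | enc a h l n b _ ih =>
    refine Cl.step [(gates (ent a) h, l, n, b)] _ (by simpa using ih)
      (Or.inr ⟨((0, 0), (h, a), (l, []), []),
        Or.inr (Or.inr (Or.inr (Or.inl ⟨rfl, rfl, List.mem_singleton.2 rfl⟩)))⟩)
  | dec h l n b T h1 _ ih =>
    obtain ⟨T', h3, h4, h5⟩ := sub_of_cnt h1
    refine Cl.step (T'.map fun a' =>
      (gate 0 :: gates (winv P.inv (ent a')) (sub a' :: h), l, n, b)) _ ?_
      (Or.inr ⟨((0, 0), (h, default), ([], T'), []),
        Or.inr (Or.inr (Or.inr (Or.inr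
          ⟨rfl, h3, h4, fun a' ha' => List.mem_map.2 ⟨a', ha', rfl⟩⟩)))⟩)
    intro d hd
    obtain ⟨a', ha', rfl⟩ := List.mem_map.1 hd
    exact ih a' (h5 a' ha').1 (h5 a' ha').2

theorem der_of_cl {P : Par} {x : B} {q : J} (H : Cl (Rl P x) q) :
    Der P x q.1 q.2.1 q.2.2.1 q.2.2.2 := by
  induction H with
  | step D q _ hR ih =>
    obtain ⟨h, l, n, b⟩ := q
    rcases hR with ⟨⟨h1, h2⟩, h3⟩ | ⟨⟨⟨t, s⟩, ⟨h', a⟩, ⟨l', T⟩, ul⟩, hR⟩
    · dsimp only at h1 h2 h3 ⊢
      subst h1 h2 h3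
      exact Der.base n
    · dsimp only at hR ⊢
      rcases hR with ⟨rfl, rfl, h1, h2, h3⟩ | ⟨rfl, rfl, h1, h2, h3⟩ | ⟨rfl, h1⟩ |
        ⟨rfl, rfl, h1⟩ | ⟨rfl, h1, h2, h3⟩
      · exact Der.app t h' (lf ul) s n b
          (fun i hi => ih _ (h1 i (List.mem_range.2 (Nat.lt_succ_of_le hi)))) h2
          fun s' hs' => h3 s' (List.mem_range.2 hs')
      · exact Der.gat t h' a l' n b _ (cnt_of_sub h1 h2) fun a' _ ha' => ih _ (h3 a' ha')
      · exact Der.sub a h' l n b (ih _ h1)
      · exact Der.enc a h' l' n b (ih _ h1)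
      · exact Der.dec h' l n b _ (cnt_of_sub h1 h2) fun a' _ ha' => ih _ (h3 a' ha')

section prim

variable {α β : Type} [Primcodable α] [Primcodable β]

theorem pr_all {L : α → List β} {R : α → β → Prop} (hL : Primrec L)
    (hR : PrimrecPred fun p : α × β => R p.1 p.2) : PrimrecPred fun a => ∀ b ∈ L a, R a b :=
  (PrimrecRel.forall_mem_list (R := fun b a => R a b) (PrimrecRel.swap (r := R) hR)).comp hL
    Primrec.id

theorem pr_mem {L : α → List β} {y : α → β} (hy : Primrec y) (hL : Primrec L) :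
    PrimrecPred fun a => y a ∈ L a :=
  ((PrimrecRel.exists_mem_list (R := @Eq β) Primrec.eq).comp hL hy).of_eq fun a => by simp

theorem pr_eq {y z : α → β} (hy : Primrec y) (hz : Primrec z) : PrimrecPred fun a => y a = z a :=
  Primrec.eq.comp hy hz

theorem pr_cons {y : α → β} {L : α → List β} (hy : Primrec y) (hL : Primrec L) :
    Primrec fun a => y a :: L a := Primrec.list_cons.comp hy hL

theorem pr_app {L L' : α → List β} (hL : Primrec L) (hL' : Primrec L') :
    Primrec fun a => L a ++ L' a := Primrec.list_append.comp hL hL'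

theorem pr_gate : Primrec gate :=
  (Primrec.const 0).pair ((pr_cons Primrec.id (Primrec.const [])).pair (Primrec.const []))

theorem pr_sub : Primrec sub := (Primrec.const 1).pair Primrec.id

theorem pr_ent : Primrec ent := pr_app Primrec.snd Primrec.fst

theorem pr_gates {w : α → List ℕ} {h : α → List Op} (hw : Primrec w) (hh : Primrec h) :
    Primrec fun a => gates (w a) (h a) :=
  pr_app (Primrec.list_reverse.comp (Primrec.list_map hw (pr_gate.comp Primrec.snd).to₂)) hh

theorem pr_winv {inv : ℕ → ℕ} (hi : Primrec inv) : Primrec (winv inv) :=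
  Primrec.list_reverse.comp (Primrec.list_map Primrec.id (hi.comp Primrec.snd).to₂)

theorem pr_path {inv : ℕ → ℕ} {side : ℕ → Bool} (hi : Primrec inv) (hs : Primrec side)
    {a' a : α → Adr} {t : α → ℕ} (ha' : Primrec a') (ht : Primrec t) (ha : Primrec a) :
    Primrec fun z => path inv side (a' z) (t z) (a z) := by
  have h1 : PrimrecPred fun z => side (t z) = true := pr_eq (hs.comp ht) (Primrec.const true)
  have h2 : Primrec fun z => [t z] := pr_cons ht (Primrec.const [])
  exact pr_app (pr_app (pr_app ((pr_winv hi).comp (Primrec.fst.comp ha'))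
    (Primrec.ite h1 h2 (Primrec.const []))) (Primrec.fst.comp ha))
    (pr_app (pr_app ((pr_winv hi).comp (Primrec.snd.comp ha'))
      (Primrec.ite h1 (Primrec.const []) h2)) (Primrec.snd.comp ha))

theorem pw_eq (h : List Op) : pw h = h.reverse.flatMap fun o => ent o.2 := by
  induction h with
  | nil => rfl
  | cons o h ih => simp [pw, ih]

theorem pr_pw : Primrec pw :=
  (Primrec.list_flatMap Primrec.list_reverse
    (pr_ent.comp (Primrec.snd.comp Primrec.snd)).to₂).of_eq fun h => (pw_eq h).symm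

theorem pr_qs {P : Par} (hP : P.Comp) : Primrec P.qs :=
  Primrec.list_foldl pr_pw (Primrec.const P.q0)
    (hP.1.comp (Primrec.snd.comp Primrec.snd) (Primrec.fst.comp Primrec.snd)).to₂

theorem pr_rp {ul : α → List ℕ} {k : α → ℕ} (hu : Primrec ul) (hk : Primrec k) :
    Primrec fun z => rp (lf (ul z)) (k z) :=
  (Primrec.list_reverse.comp (Primrec.list_map (Primrec.list_range.comp hk)
    ((Primrec.list_getD 0).comp (hu.comp Primrec.fst) Primrec.snd).to₂)).of_eq fun z => by
      rw [← List.reverse_reverse (rp (lf (ul z)) (k z)), rp_reverse]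
      rfl

theorem pr_st {ul : α → List ℕ} {k s n : α → ℕ} (hk : Primrec k) (hu : Primrec ul)
    (hs : Primrec s) (hn : Primrec n) : Primrec fun z => st (k z) (lf (ul z)) (s z) (n z) :=
  Nat.Partrec.Code.primrec_evaln.comp
    (((Primrec.snd.comp (Primrec.unpair.comp hs)).pair
      ((Primrec.ofNat Nat.Partrec.Code).comp hk)).pair
      (Primrec₂.natPair.comp
        (Primrec.encode.comp (pr_rp hu (Primrec.fst.comp (Primrec.unpair.comp hs)))) hn))

theorem pr_J {h : α → List Op} {l : α → List Adr} {n b : α → ℕ} (hh : Primrec h) (hl : Primrec l)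
    (hn : Primrec n) (hb : Primrec b) : Primrec fun z => ((h z, l z, n z, b z) : J) :=
  hh.pair (hl.pair (hn.pair hb))

theorem pr_Rw {P : Par} (hP : P.Comp) {D : α → List J} {h h' : α → List Op}
    {l l' T : α → List Adr} {n b t s : α → ℕ} {a : α → Adr} {ul : α → List ℕ} (hD : Primrec D)
    (hh : Primrec h) (hl : Primrec l) (hn : Primrec n) (hb : Primrec b) (ht : Primrec t)
    (hs : Primrec s) (hh' : Primrec h') (ha : Primrec a) (hl' : Primrec l') (hT : Primrec T)
    (hu : Primrec ul) : PrimrecPred fun z =>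
      Rw P (D z) (h z) (l z) (n z) (b z) (t z) (s z) (h' z) (a z) (l' z) (T z) (ul z) := by
  have hk : Primrec fun z => P.prog (t z) (P.qs (h' z)) := hP.2.1.comp ht ((pr_qs hP).comp hh')
  have e1 : PrimrecPred fun z => h z = gate (t z) :: h' z := pr_eq hh (pr_cons (pr_gate.comp ht) hh')
  have e2 : PrimrecPred fun z => l z = a z :: l' z := pr_eq hl (pr_cons ha hl')
  have e3 : PrimrecPred fun z => T z ∈ P.A.sublists := pr_mem hT (Primrec.const _)
  have e4 : PrimrecPred fun z => P.A.length < 2 * (T z).length :=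
    Primrec.nat_lt.comp (Primrec.const _)
      (Primrec.nat_mul.comp (Primrec.const 2) (Primrec.list_length.comp hT))
  have e5 : PrimrecPred fun z => ∀ i ∈ List.range (s z + 1),
      ((h' z, [], i, (ul z).getD i 0) : J) ∈ D z :=
    pr_all (Primrec.list_range.comp (Primrec.succ.comp hs))
      (pr_mem (pr_J (hh'.comp Primrec.fst) (Primrec.const []) Primrec.snd
        ((Primrec.list_getD 0).comp (hu.comp Primrec.fst) Primrec.snd)) (hD.comp Primrec.fst))
  have e6 : PrimrecPred fun z => st (P.prog (t z) (P.qs (h' z))) (lf (ul z)) (s z) (n z) =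
      some (b z) := pr_eq (pr_st hk hu hs hn) (Primrec.option_some.comp hb)
  have e7 : PrimrecPred fun z => ∀ s' ∈ List.range (s z),
      st (P.prog (t z) (P.qs (h' z))) (lf (ul z)) s' (n z) = Option.none :=
    pr_all (Primrec.list_range.comp hs)
      (pr_eq (pr_st (hk.comp Primrec.fst) (hu.comp Primrec.fst) Primrec.snd (hn.comp Primrec.fst))
        (Primrec.const Option.none))
  have e8 : PrimrecPred fun z => ∀ a' ∈ T z, ((gate 0 :: gates (path P.inv P.side a' (t z) (a z))
      (sub a' :: h' z), l' z, n z, b z) : J) ∈ D z :=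
    pr_all hT (pr_mem (pr_J (pr_cons (Primrec.const _) (pr_gates
      (pr_path hP.2.2.1 hP.2.2.2 Primrec.snd (ht.comp Primrec.fst) (ha.comp Primrec.fst))
      (pr_cons (pr_sub.comp Primrec.snd) (hh'.comp Primrec.fst)))) (hl'.comp Primrec.fst)
      (hn.comp Primrec.fst) (hb.comp Primrec.fst)) (hD.comp Primrec.fst))
  have e9 : PrimrecPred fun z => ∀ a' ∈ T z, ((gate 0 :: gates (winv P.inv (ent a'))
      (sub a' :: h' z), l z, n z, b z) : J) ∈ D z :=
    pr_all hT (pr_mem (pr_J (pr_cons (Primrec.const _) (pr_gates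
      ((pr_winv hP.2.2.1).comp (pr_ent.comp Primrec.snd))
      (pr_cons (pr_sub.comp Primrec.snd) (hh'.comp Primrec.fst)))) (hl.comp Primrec.fst)
      (hn.comp Primrec.fst) (hb.comp Primrec.fst)) (hD.comp Primrec.fst))
  exact (e1.and ((pr_eq hl (Primrec.const [])).and (e5.and (e6.and e7)))).or
    ((e1.and (e2.and (e3.and (e4.and e8)))).or
    (((pr_eq hh (pr_cons (pr_sub.comp ha) hh')).and
      (pr_mem (pr_J hh' (pr_cons ha hl) hn hb) hD)).or
    (((pr_eq hh (pr_cons (Primrec.const enc) hh')).and (e2.and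
      (pr_mem (pr_J (pr_gates (pr_ent.comp ha) hh') hl' hn hb) hD))).or
    ((pr_eq hh (pr_cons (Primrec.const dec) hh')).and (e3.and (e4.and e9))))))

theorem ce_prim (hA : StKitA) (x : B) {p : α → Prop} (hp : PrimrecPred p) : CEin x p := by
  obtain ⟨_, hp⟩ := hp
  simpa using hA.1 α x _ hp.to_comp

end prim

theorem ce_Rl (hA : StKitA) {P : Par} (hP : P.Comp) (x : B) :
    CEin x fun q : List J × J => Rl P x q.1 q.2 := by
  have q1 : Primrec fun q : List J × J => q.2.1 := Primrec.fst.comp Primrec.snd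
  have q2 : Primrec fun q : List J × J => q.2.2.1 :=
    Primrec.fst.comp (Primrec.snd.comp Primrec.snd)
  have q3 : Primrec fun q : List J × J => q.2.2.2 :=
    Primrec.snd.comp (Primrec.snd.comp Primrec.snd)
  have h1 : CEin x fun q : List J × J => q.2.1 = [] ∧ q.2.2.1 = [] :=
    ce_prim hA x ((pr_eq q1 (Primrec.const [])).and (pr_eq q2 (Primrec.const [])))
  have h2 : CEin x fun q : List J × J => x q.2.2.2.1 = q.2.2.2.2 :=
    hA.2.2.2.2.1 _ _ x _ _ (hA.2.1 x) q3.to_comp
  have w1 : Primrec fun z : (List J × J) × W => z.2.1 := Primrec.fst.comp Primrec.snd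
  have w2 : Primrec fun z : (List J × J) × W => z.2.2.1 :=
    Primrec.fst.comp (Primrec.snd.comp Primrec.snd)
  have w3 : Primrec fun z : (List J × J) × W => z.2.2.2 :=
    Primrec.snd.comp (Primrec.snd.comp Primrec.snd)
  have h3 : PrimrecPred fun z : (List J × J) × W => Rw P z.1.1 z.1.2.1 z.1.2.2.1 z.1.2.2.2.1
      z.1.2.2.2.2 z.2.1.1 z.2.1.2 z.2.2.1.1 z.2.2.1.2 z.2.2.2.1.1 z.2.2.2.1.2 z.2.2.2.2 :=
    pr_Rw hP (Primrec.fst.comp Primrec.fst) (q1.comp Primrec.fst) (q2.comp Primrec.fst)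
      (Primrec.fst.comp (q3.comp Primrec.fst)) (Primrec.snd.comp (q3.comp Primrec.fst))
      (Primrec.fst.comp w1) (Primrec.snd.comp w1) (Primrec.fst.comp w2) (Primrec.snd.comp w2)
      (Primrec.fst.comp (Primrec.fst.comp w3)) (Primrec.snd.comp (Primrec.fst.comp w3))
      (Primrec.snd.comp w3)
  exact hA.2.2.2.1 _ x _ _ (hA.2.2.1 _ x _ _ h1 h2)
    (hA.2.2.2.2.2.1 _ _ x _ (ce_prim hA x h3))

end DerCE

theorem stDerCE (hA : StKitA) (hB : StKitB) : StDerCE := by
  intro P x hP
  obtain ⟨ρ, h1, h2⟩ := hB.1 _ x (DerCE.Rl P x) (DerCE.ce_Rl hA hP x)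
  exact ⟨ρ, h1, fun q => Iff.trans ⟨DerCE.cl_of_der, DerCE.der_of_cl⟩ (h2 q)⟩

end Pool.Agent.Lib.MP_fa224b_lc.C
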