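import Pool.Agent.Lib.MP_fa224b_lc.C.Basic

/-! Encode, move along a word, decode. -/

namespace Pool.Agent.Lib.MP_fa224b_lc.C

namespace Det

variable {Ω : Type}

theorem gates_cons (t : ℕ) (w : List ℕ) (h : List Op) :
    gates (t :: w) h = gates w (gate t :: h) := by
  simp [gates]

theorem pw_gate (t : ℕ) (h : List Op) : pw (gate t :: h) = pw h ++ [t] := rfl

theorem pw_sub (a : Adr) (h : List Op) : pw (sub a :: h) = pw h ++ ent a := rfl

theorem pw_enc (h : List Op) : pw (enc :: h) = pw h := List.append_nil _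

theorem pw_dec (h : List Op) : pw (dec :: h) = pw h := List.append_nil _

theorem at_gate {σ : Sys Ω} {y₀ y : Ω} {h : List Op} {t : ℕ} (ht : t ∈ σ.S)
    (hA : At σ y₀ h y) : At σ y₀ (gate t :: h) (σ.act t y) := by
  refine ⟨?_, ?_⟩
  · rw [pw_gate, wact_append, hA.1]; rfl
  · intro s hs
    rw [pw_gate, List.mem_append, List.mem_singleton] at hs
    rcases hs with hs | rfl
    · exact hA.2 s hs
    · exact ht

theorem at_sub {σ : Sys Ω} {y₀ y : Ω} {h : List Op} {a : Adr} (ha : ∀ t ∈ ent a, t ∈ σ.S)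
    (hA : At σ y₀ h y) : At σ y₀ (sub a :: h) (wact σ.act (ent a) y) := by
  refine ⟨?_, ?_⟩
  · rw [pw_sub, wact_append, hA.1]
  · intro s hs
    rw [pw_sub, List.mem_append] at hs
    rcases hs with hs | hs
    · exact hA.2 s hs
    · exact ha s hs

theorem at_enc {σ : Sys Ω} {y₀ y : Ω} {h : List Op} (hA : At σ y₀ h y) :
    At σ y₀ (enc :: h) y := by
  unfold At at hA ⊢
  rw [pw_enc]; exact hA

theorem at_dec {σ : Sys Ω} {y₀ y : Ω} {h : List Op} (hA : At σ y₀ h y) :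
    At σ y₀ (dec :: h) y := by
  unfold At at hA ⊢
  rw [pw_dec]; exact hA

theorem ent_mem (σ : Sys Ω) {r : ℕ} {a : Adr} (ha : a ∈ cloud σ.L σ.R r) :
    ∀ t ∈ ent a, t ∈ σ.S := by
  intro t ht
  rw [mem_cloud, mem_words, mem_words] at ha
  rcases List.mem_append.1 ht with ht | ht
  · exact σ.R_sub t (ha.2.2 t ht)
  · exact σ.L_sub t (ha.1.2 t ht)

theorem A_eq {σ : Sys Ω} {P : Par} {q : Ω → ℕ} {y₀ : Ω} (hF : Fits σ P q y₀) :
    P.A = cloud σ.L σ.R P.r := by
  unfold Par.A; rw [hF.2.2.1, hF.2.2.2.1]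

/-- a walk that avoids the bad set keeps the state good -/
theorem chain (hG : StGate) {σ : Sys Ω} {P : Par} {q : Ω → ℕ} {f : Ω → B} {y₀ : Ω}
    (hF : Fits σ P q y₀) (k : ℕ) (w : List ℕ) : ∀ (h : List Op) (y : Ω), (∀ t ∈ w, t ∈ σ.S) →
      ¬ Meets σ (Bad σ P.r (Base σ P.prog q f) k) y w → At σ y₀ h y →
      Good σ P (f y₀) f k h y →
      At σ y₀ (gates w h) (wact σ.act w y) ∧
        Good σ P (f y₀) f k (gates w h) (wact σ.act w y) := by
  induction w with
  | nil => intro h y _ _ hA hg; exact ⟨hA, hg⟩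
  | cons t w ih =>
    intro h y hw hm hA hg
    have ht : t ∈ σ.S := hw t List.mem_cons_self
    have hy : y ∉ Bad σ P.r (Base σ P.prog q f) k := fun hy => hm ⟨[], List.nil_prefix, hy⟩
    obtain ⟨Lf, h1, h2⟩ := hG Ω σ P q f y₀ hF k t ht y hy
    rw [gates_cons, wact_cons]
    refine ih _ _ (fun s hs => hw s (List.mem_cons_of_mem _ hs)) ?_ (at_gate ht hA)
      (h1 _ (h2 h hA hg))
    rintro ⟨u, hu, hz⟩
    exact hm ⟨t :: u, (List.prefix_cons_inj t).2 hu, hz⟩

/-- goodness depends on the history only through its correct leaves -/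
theorem good_congr (hC : StCorr) {σ : Sys Ω} {P : Par} {x : B} {f : Ω → B} (j : ℕ) :
    ∀ (h h' : List Op) (y : Ω), (∀ l v, Corr P x h l v ↔ Corr P x h' l v) →
      Good σ P x f j h y → Good σ P x f j h' y := by
  induction j with
  | zero => intro h h' y he hg; exact (he _ _).1 hg
  | succ j ih =>
    intro h h' y he hg
    refine le_trans hg (Nat.mul_le_mul_left _ (cnt_mono fun a _ ha => ih _ _ _ ?_ ha))
    intro l v
    rw [(hC P x).2.2.1, (hC P x).2.2.1]
    exact he _ _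

theorem good_enc (hC : StCorr) (hG : StGate) {σ : Sys Ω} {P : Par} {q : Ω → ℕ} {f : Ω → B}
    {y₀ : Ω} (hF : Fits σ P q y₀) {y : Ω} (hy : y ∉ EncBad σ P.r (Base σ P.prog q f)) (j : ℕ)
    (h : List Op) (hA : At σ y₀ h y) (hg : Good σ P (f y₀) f j h y) :
    Good σ P (f y₀) f (j + 1) (enc :: h) y := by
  have h1 : ¬ (cloud σ.L σ.R P.r).length < 10 * cnt (cloud σ.L σ.R P.r) fun a =>
      Meets σ (Bad σ P.r (Base σ P.prog q f) j) y (ent a) := fun hh => hy ⟨j, hh⟩
  have h2 := cnt_add_not (cloud σ.L σ.R P.r) fun a =>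
      Meets σ (Bad σ P.r (Base σ P.prog q f) j) y (ent a)
  have h3 : cnt (cloud σ.L σ.R P.r) (fun a =>
      ¬ Meets σ (Bad σ P.r (Base σ P.prog q f) j) y (ent a)) ≤ cnt (cloud σ.L σ.R P.r) fun a =>
      Good σ P (f y₀) f j (sub a :: enc :: h) (wact σ.act (ent a) y) := by
    refine cnt_mono fun a ha hm => ?_
    refine good_congr hC j _ _ _ ?_ (chain hG hF j (ent a) h y (ent_mem σ ha) hm hA hg).2
    intro l v
    rw [(hC P (f y₀)).2.2.1, (hC P (f y₀)).2.2.2.1]
  show 9 * P.A.length ≤ 10 * cnt P.A fun a =>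
      Good σ P (f y₀) f j (sub a :: enc :: h) (wact σ.act (ent a) y)
  rw [A_eq hF]
  omega

theorem good_dec (hC : StCorr) (hG : StGate) {σ : Sys Ω} {P : Par} {q : Ω → ℕ} {f : Ω → B}
    {y₀ : Ω} (hF : Fits σ P q y₀) {y : Ω} (hy : y ∉ DecBad σ P.r (Base σ P.prog q f)) (j : ℕ)
    (h : List Op) (hA : At σ y₀ h y) (hg : Good σ P (f y₀) f (j + 1) h y) :
    Good σ P (f y₀) f j (dec :: h) y := by
  have h1 : ¬ 3 * (cloud σ.L σ.R P.r).length ≤ 10 * cnt (cloud σ.L σ.R P.r) fun a' =>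
      Meets σ (Bad σ P.r (Base σ P.prog q f) j) (wact σ.act (ent a') y) (winv σ.inv (ent a')) :=
    fun hh => hy ⟨j, hh⟩
  have h2 := cnt_add_not (cloud σ.L σ.R P.r) fun a' =>
      Meets σ (Bad σ P.r (Base σ P.prog q f) j) (wact σ.act (ent a') y) (winv σ.inv (ent a'))
  have h3 : 9 * P.A.length ≤ 10 * cnt P.A fun a =>
      Good σ P (f y₀) f j (sub a :: h) (wact σ.act (ent a) y) := hg
  rw [A_eq hF] at h3
  have h4 := cnt_and_ge (cloud σ.L σ.R P.r)
    (fun a => Good σ P (f y₀) f j (sub a :: h) (wact σ.act (ent a) y)) fun a' =>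
      ¬ Meets σ (Bad σ P.r (Base σ P.prog q f) j) (wact σ.act (ent a') y) (winv σ.inv (ent a'))
  have h5 : (cloud σ.L σ.R P.r).length < 2 * cnt (cloud σ.L σ.R P.r) fun a =>
      Good σ P (f y₀) f j (sub a :: h) (wact σ.act (ent a) y) ∧
      ¬ Meets σ (Bad σ P.r (Base σ P.prog q f) j) (wact σ.act (ent a) y)
        (winv σ.inv (ent a)) := by omega
  have h6 : y ∉ Bad σ P.r (Base σ P.prog q f) j := by
    obtain ⟨a, ha, -, hm⟩ := cnt_pos.1 (lt_of_mul_lt_mul_left (a := 2)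
      (lt_of_le_of_lt (Nat.zero_le _) h5) (Nat.zero_le _))
    intro hb
    refine hm ⟨_, List.prefix_rfl, ?_⟩
    rw [wact_winv σ (ent_mem σ ha)]
    exact hb
  obtain ⟨Lf, g1, g2⟩ := hG Ω σ P q f y₀ hF j 0 σ.zero_mem y h6
  have g3 := g1 (dec :: h) fun l hl => by
    refine (hC P (f y₀)).2.2.2.2.2 h l _ ?_
    rw [A_eq hF, hF.1]
    refine lt_of_lt_of_le h5 (Nat.mul_le_mul_left _ (cnt_mono fun a ha hh => ?_))
    have g4 := chain hG hF j (winv σ.inv (ent a)) (sub a :: h) _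
      (mem_winv σ (ent_mem σ ha)) hh.2 (at_sub (ent_mem σ ha) hA) hh.1
    rw [wact_winv σ (ent_mem σ ha)] at g4
    exact g2 _ g4.1 g4.2 l hl
  rwa [σ.act_zero] at g3

end Det

open Det in
theorem stDet (hC : StCorr) (hG : StGate) : StDet := by
  intro Ω σ P q f y₀ hF hE k c hc hm hD
  have h1 : ∀ j, At σ y₀ (List.replicate j enc) y₀ ∧
      Good σ P (f y₀) f j (List.replicate j enc) y₀ := by
    intro j
    induction j with
    | zero => exact ⟨⟨rfl, fun t ht => absurd ht List.not_mem_nil⟩, (hC P (f y₀)).1⟩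
    | succ j ih => exact ⟨at_enc ih.1, good_enc hC hG hF hE j _ ih.1 ih.2⟩
  have h2 : ∀ (j : ℕ) (h : List Op), At σ y₀ h (wact σ.act c y₀) →
      Good σ P (f y₀) f j h (wact σ.act c y₀) →
      Corr P (f y₀) (List.replicate j dec ++ h) [] (f (wact σ.act c y₀)) := by
    intro j
    induction j with
    | zero => intro h _ hg; exact hg
    | succ j ih =>
      intro h hA hg
      rw [List.replicate_succ', List.append_assoc]
      exact ih _ (at_dec hA) (good_dec hC hG hF hD j h hA hg)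
  have h3 := chain hG hF k c _ y₀ hc hm (h1 k).1 (h1 k).2
  exact h2 k _ h3.1 h3.2

end Pool.Agent.Lib.MP_fa224b_lc.C
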