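import Pool.Agent.Lib.MP_fa224b_lc.C.Basic
import Pool.Agent.Lib.MP_fa224b_lc.C.MDefs

/-! A Borel diagonal real and the pointed tree lemma. -/

namespace Pool.Agent.Lib.MP_fa224b_lc.C

open MeasureTheory Filter

theorem stDiag : StDiag := by
  intro Ω _ μ _ e he
  let S : B → ℕ → ℕ → Set Ω := fun z n m => {y | tot n.unpair.1 (e z y) n = m}
  have Sm : ∀ n m, MeasurableSet {q : B × Ω | tot n.unpair.1 (e q.1 q.2) n = m} := fun n m =>
    ((measurable_pi_apply n).comp ((meas_tot _).comp he)) (measurableSet_singleton m)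
  have ex : ∀ z n, ∃ m, μ (S z n m) ≤ 2⁻¹ ^ n.unpair.2 := by
    intro z n
    have h1 : ∑' m, μ (S z n m) ≠ ⊤ := by
      rw [← measure_iUnion (f := S z n) (fun i j hij => Set.disjoint_left.2 fun y h1 h2 =>
        hij (h1.symm.trans h2)) fun m => measurable_prodMk_left (Sm n m)]
      exact measure_ne_top _ _
    have h2 : (0 : ENNReal) < 2⁻¹ ^ n.unpair.2 := ENNReal.pow_pos (by simp) _
    exact ((ENNReal.tendsto_atTop_zero_of_tsum_ne_top h1).eventually
      (eventually_le_nhds h2)).exists
  refine ⟨fun z n => sInf {m | μ (S z n m) ≤ 2⁻¹ ^ n.unpair.2},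
    measurable_pi_lambda _ fun n => meas_sInf fun m => measurableSet_setOfPred.1
      (measurableSet_le (measurable_measure_prodMk_left (Sm n m)) measurable_const), fun z => ?_⟩
  set d : B := fun n => sInf {m | μ (S z n m) ≤ 2⁻¹ ^ n.unpair.2} with hd
  refine measure_mono_null (t := ⋃ k, {y | tot k (e z y) = d}) (fun y hy => ?_)
    (measure_iUnion_null fun k => ?_)
  · obtain ⟨k, hk⟩ := tle_iff_ev.1 hy
    exact Set.mem_iUnion.2 ⟨k, hk.eq_tot⟩
  · refine le_antisymm (ge_of_tendsto' (ENNReal.tendsto_pow_atTop_nhds_zero_of_lt_one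
      (r := 2⁻¹) (by simp)) fun i => ?_) bot_le
    have := Nat.sInf_mem (s := {m | μ (S z (Nat.pair k i) m) ≤ 2⁻¹ ^ (Nat.pair k i).unpair.2})
      (ex z _)
    simp only [Set.mem_ofPred_eq] at this
    rw [Nat.unpair_pair] at this
    refine le_trans (measure_mono fun y hy => ?_) this
    have := congrFun hy (Nat.pair k i)
    simpa only [S, Nat.unpair_pair, Set.mem_ofPred_eq, hd] using this

theorem stPoint : StPoint := by
  intro 𝒜 h A hA hc
  let G : ℕ → Set B := fun e => {p | evens p ∈ A ∧ Ev e (evens p) (tot e (evens p)) ∧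
    RII (join (col e (tot e (evens p))) (evens p)) = odds p}
  have hG : ∀ e, Determined (G e) := by
    intro e
    have m1 := h.meas ((meas_tot e).comp tc_evens.meas)
    have m2 := h.meas tc_evens.meas
    refine h.determined _ (measurableSet_setOfPred.2 (Measurable.and
      (measurableSet_setOfPred.1 (h.preimage _ tc_evens.meas hA))
      ((meas_Ev m2 m1 e).and (meas_eq ?_ (h.meas tc_odds.meas)))))
    refine tc_RII.meas.comp (measurable_pi_lambda _ fun n => ?_)
    unfold join
    split_ifs
    · exact (measurable_pi_apply _).comp m1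
    · exact (measurable_pi_apply (n / 2)).comp m2
  by_cases hI : ∃ e σ, ∀ τ, run σ τ ∈ G e
  · obtain ⟨e, σ, hσ⟩ := hI
    obtain ⟨s, rfl⟩ := exists_strat σ
    have key : ∀ b, RI (join s b) ∈ A ∧ Ev e (RI (join s b)) (tot e (RI (join s b))) ∧
        RII (join (col e (tot e (RI (join s b)))) (RI (join s b))) = b := fun b => by
      have := hσ (blind b)
      simp only [G, Set.mem_ofPred_eq, odds_run] at this
      simpa only [RI, evens_join, odds_join] using this
    refine ⟨s, fun b => (key b).1, fun b => ?_⟩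
    obtain ⟨-, k1, k2⟩ := key b
    have := (tc_RII.tle _).trans (((tle_col e _).trans (tle_iff_ev.2 ⟨e, k1⟩)).join (TLe.refl _))
    rwa [k2] at this
  · exfalso
    have hII : ∀ e, ∃ t, ∀ σ, run σ (strat t) ∉ G e := by
      intro e
      rcases hG e with h1 | ⟨τ, hτ⟩
      · exact absurd ⟨e, h1⟩ hI
      · obtain ⟨t, rfl⟩ := exists_strat τ
        exact ⟨t, hτ⟩
    choose t ht using hII
    obtain ⟨x, hx, hz⟩ := hc fun n => t n.unpair.1 n.unpair.2
    obtain ⟨e, he⟩ := tle_iff_ev.1 hz
    refine ht e (blind x) ?_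
    simp only [G, Set.mem_ofPred_eq, evens_run, he.eq_tot]
    refine ⟨hx, he, ?_⟩
    have : col e (fun n => t n.unpair.1 n.unpair.2) = t e := funext fun n => by simp [col]
    simp only [RII, evens_join, odds_join, this]

end Pool.Agent.Lib.MP_fa224b_lc.C
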