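import Pool.Agent.Lib.MP_fa224b_lc.C.Basic
import Pool.Agent.Lib.MP_fa224b_lc.C.MDefs

/-! Steinberg relations for elementary matrices; entries of the monomial `X Y^(j+1) X`. -/

namespace Pool.Agent.Lib.MP_fa224b_lc.C

namespace Elem

variable {R : Type} [Ring R]

theorem val {a b : Fin 3} (h : a ≠ b) (r : R) :
    (elem a b r : Matrix (Fin 3) (Fin 3) R) = 1 + Matrix.single a b r := by
  simp only [elem, dif_neg h]

theorem zero (a b : Fin 3) : elem a b (0 : R) = 1 := by
  by_cases h : a = b
  · simp only [elem, dif_pos h]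
  · ext1; rw [val h]; simp

theorem add (a b : Fin 3) (r s : R) : elem a b (r + s) = elem a b r * elem a b s := by
  by_cases h : a = b
  · simp only [elem, dif_pos h, mul_one]
  · ext1
    rw [Units.val_mul, val h, val h, val h, add_mul, mul_add, mul_add, one_mul, one_mul, mul_one,
      Matrix.single_mul_single_of_ne _ _ _ _ (Ne.symm h), Matrix.single_add]
    abel

theorem comm {a b c d : Fin 3} (hab : a ≠ b) (hcd : c ≠ d) (hbc : b ≠ c) (hda : d ≠ a)
    (r s : R) : elem a b r * elem c d s = elem c d s * elem a b r := by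
  ext1
  simp only [Units.val_mul, val hab, val hcd, add_mul, mul_add, one_mul, mul_one,
    Matrix.single_mul_single_of_ne _ _ _ _ hbc, Matrix.single_mul_single_of_ne _ _ _ _ hda]
  abel

theorem heis {a b c : Fin 3} (hab : a ≠ b) (hbc : b ≠ c) (hac : a ≠ c) (r s : R) :
    elem a b r * elem b c s = elem b c s * elem a b r * elem a c (r * s) := by
  ext1
  simp only [Units.val_mul, val hab, val hbc, val hac, add_mul, mul_add, one_mul, mul_one,
    Matrix.single_mul_single_of_ne _ _ _ _ hac.symm, Matrix.single_mul_single_of_ne _ _ _ _ hab.symm,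
    Matrix.single_mul_single_same, add_zero]
  abel

theorem cancel (a b : Fin 3) (r : R) : elem a b r * elem a b (-r) = 1 := by
  rw [← add, add_neg_cancel, zero]

open Classical in
/-- shift by `n` on the positions with property `p` -/
noncomputable def sh (s n : ℕ) (p : ℕ → Prop) : Rg s :=
  Matrix.of fun u w => if u.1 = w.1 + n ∧ p w.1 then 1 else 0

theorem sh_apply {s n : ℕ} {p : ℕ → Prop} {u w : Fin (dim s)} {c : Prop} [Decidable c]
    (h : u.1 = w.1 + n ∧ p w.1 ↔ c) : sh s n p u w = if c then 1 else 0 := by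
  simp only [sh, Matrix.of_apply]
  by_cases hc : c
  · rw [if_pos hc, if_pos (h.2 hc)]
  · rw [if_neg hc, if_neg fun h' => hc (h.1 h')]

theorem sh_congr {s n n' : ℕ} {p q : ℕ → Prop} (hn : n = n') (h : ∀ w, p w ↔ q w) :
    sh s n p = sh s n' q := by
  rw [hn, show p = q from funext fun w => propext (h w)]

theorem sh_mul (s m n : ℕ) (p q : ℕ → Prop) :
    sh s m p * sh s n q = sh s (n + m) fun w => q w ∧ p (w + n) := by
  ext u w
  rw [Matrix.mul_apply]
  simp only [sh, Matrix.of_apply]
  split_ifs with h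
  · have hv : w.1 + n < dim s := by have := u.2; omega
    rw [Finset.sum_eq_single (⟨w.1 + n, hv⟩ : Fin (dim s))]
    · rw [if_pos ⟨by simp only; omega, h.2.2⟩, if_pos ⟨rfl, h.2.1⟩, one_mul]
    · intro v _ hne
      rw [if_neg (c := v.1 = w.1 + n ∧ q w.1) fun h' => hne (Fin.ext h'.1), mul_zero]
    · intro h'
      exact absurd (Finset.mem_univ _) h'
  · refine Finset.sum_eq_zero fun v _ => ?_
    split_ifs with h1 h2
    · exact absurd ⟨by omega, h2.2, h2.1 ▸ h1.2⟩ h
    · exact mul_zero _
    · exact zero_mul _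
    · exact zero_mul _

theorem mX_eq (s : ℕ) : mX s = sh s 1 (isX s) := by
  ext u w
  simp only [mX, sh, Matrix.of_apply]
  congr

theorem mY_eq (s : ℕ) : mY s = sh s 1 fun w => ¬ isX s w := by
  ext u w
  simp only [mY, sh, Matrix.of_apply]
  congr

theorem mY_pow (s n : ℕ) : mY s ^ (n + 1) = sh s (n + 1) fun w => ∀ i ≤ n, ¬ isX s (w + i) := by
  induction n with
  | zero => rw [zero_add, pow_one, mY_eq]; exact sh_congr rfl fun w => by simp
  | succ n ih =>
    rw [pow_succ', ih, mY_eq, sh_mul]
    refine sh_congr rfl fun w => ⟨fun h i hi => ?_, fun h => ⟨fun i hi => h i (by omega), h _ le_rfl⟩⟩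
    rcases Nat.le_succ_iff.1 hi with h' | rfl
    · exact h.1 i h'
    · exact h.2

end Elem

theorem stElem : StElem := by
  intro R _
  refine ⟨Elem.zero, Elem.add, fun a b c r s hab hbc hac => ?_, fun a b r s hab h => ?_⟩
  · have h1 : ∀ r s : R, elem a b r * elem a c s = elem a c s * elem a b r :=
      Elem.comm hab hac hab.symm hac.symm
    have h2 : ∀ r s : R, elem b c r * elem a c s = elem a c s * elem b c r :=
      Elem.comm hbc hac hac.symm hbc.symm
    refine ⟨Elem.heis hab hbc hac r s, ?_, h1 r s, h2 r s⟩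
    rw [Elem.heis hab hbc hac, mul_assoc (elem b c s), h1, ← mul_assoc (elem b c s), h2,
      mul_assoc _ (elem a b r), Elem.cancel, mul_one, mul_assoc, Elem.cancel, mul_one]
  · have h1 := congrArg (fun g : (Matrix (Fin 3) (Fin 3) R)ˣ => g.val a b) h
    simpa [Elem.val hab] using h1

theorem stLine : StLine := by
  intro s j u w
  rw [Elem.mX_eq, Elem.mY_pow, Elem.sh_mul, Elem.sh_mul]
  refine Elem.sh_apply ?_
  unfold isX
  generalize s.unpair.1 = J
  constructor
  · rintro ⟨hu, h0, h1, h2⟩
    have g0 := h1 0 (Nat.zero_le _)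
    by_cases hJ : J + 1 ≤ j
    · have g1 := h1 (J + 1) hJ
      omega
    · omega
  · rintro ⟨rfl, h⟩
    refine ⟨by omega, by omega, fun i hi => by omega, by omega⟩

end Pool.Agent.Lib.MP_fa224b_lc.C
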