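import Pool.Agent.Lib.MP_fa224b_lc.C.Basic

/-! The test predicate is computably enumerable in the oracle. -/

namespace Pool.Agent.Lib.MP_fa224b_lc.C

open Encodable

namespace FireCE

theorem primrec_words (L : List ℕ) : Primrec (words L) := by
  have h : Primrec fun n : ℕ => (Nat.rec [[]] (fun _ W => W.flatMap fun w => L.map fun t => t :: w)
      n : List (List ℕ)) := by
    refine Primrec.nat_rec₁ _ ?_
    refine Primrec.list_flatMap Primrec.snd ?_
    refine Primrec.list_map (Primrec.const L) ?_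
    exact Primrec.list_cons.comp Primrec.snd (Primrec.snd.comp Primrec.fst)
  refine h.of_eq fun n => ?_
  induction n with
  | zero => rfl
  | succ n ih => simp only [words, ← ih]

theorem primrec_replicate (o : Op) : Primrec fun k : ℕ => List.replicate k o := by
  have h : Primrec fun k : ℕ => (List.range k).map fun _ => o :=
    Primrec.list_map Primrec.list_range (Primrec.const o).to₂
  exact h.of_eq fun k => by simp

theorem primrec_gate : Primrec gate :=
  (Primrec.const 0).pair ((Primrec.list_cons.comp Primrec.id (Primrec.const [])).pair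
    (Primrec.const []))

theorem primrec_hist3 : Primrec₂ hist3 := by
  refine Primrec.list_append.comp ((primrec_replicate dec).comp Primrec.fst) ?_
  refine Primrec.list_append.comp (Primrec.list_reverse.comp ?_)
    ((primrec_replicate enc).comp Primrec.fst)
  exact Primrec.list_map Primrec.snd (primrec_gate.comp Primrec.snd).to₂

theorem primrec_tN (M : ℕ) : Primrec (tN M) :=
  Primrec.nat_mul.comp (Primrec.const M) (Primrec.succ.comp Primrec.encode)

theorem primrec_tK (M : ℕ) : Primrec (tK M) :=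
  Primrec.nat_add.comp (Primrec.nat_mul.comp (Primrec.const 2) (primrec_tN M)) Primrec.list_length

theorem cnt_iff (W : List (List ℕ)) (p : List ℕ → Prop) :
    W.length < 4 * cnt W p ↔ ∃ T : List (List ℕ), (∀ b ∈ T, p b) ∧
      W.length < 4 * (W.filter fun a => decide (∃ b ∈ T, b = a)).length := by
  classical
  have h : ∀ T : List (List ℕ),
      (W.filter fun a => decide (∃ b ∈ T, b = a)).length = cnt W fun a => a ∈ T := by
    intro T
    unfold cnt
    rw [List.countP_eq_length_filter]
    congr 2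
    funext a
    simp
  constructor
  · intro hp
    refine ⟨W.filter fun a => decide (p a), fun b hb => by simpa using (List.mem_filter.1 hb).2, ?_⟩
    rw [h, cnt_congr (q := p) fun a ha => by simp [ha]]
    exact hp
  · rintro ⟨T, h1, h2⟩
    rw [h] at h2
    have := cnt_mono (A := W) (p := fun a => a ∈ T) (q := p) fun a _ ha => h1 a ha
    omega

theorem primrec_test : Primrec fun q : List (List ℕ) × List (List ℕ) =>
    decide (q.1.length < 4 * (q.1.filter fun a => decide (∃ b ∈ q.2, b = a)).length) := by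
  have h1 : PrimrecRel fun (a : List ℕ) (T : List (List ℕ)) => ∃ b ∈ T, b = a :=
    (PrimrecRel.exists_mem_list (R := fun b a : List ℕ => b = a) Primrec.eq).swap
  have h2 := PrimrecRel.listFilter h1
  exact (Primrec.nat_lt.comp (Primrec.list_length.comp Primrec.fst)
    (Primrec.nat_mul.comp (Primrec.const 4) (Primrec.list_length.comp h2))).decide

theorem ce_congr {α : Type} [Primcodable α] {x : B} {E E' : α → Prop} (h : CEin x E)
    (e : ∀ a, E' a ↔ E a) : CEin x E' := by
  rwa [show E' = E from funext fun a => propext (e a)]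

end FireCE

open FireCE in
theorem stFireCE (hA : StKitA) (hD : StDerCE) : StFireCE := by
  intro P x hP
  obtain ⟨h1, -, hand, -, hpre, hex, hall⟩ := hA
  have hD := hD P x hP
  have e1 : CEin x fun q : (((List ℕ × List ℕ) × ℕ) × ℕ) × ℕ => q.1.2 ≠ q.2 :=
    ce_congr (h1 _ x (fun q : (((List ℕ × List ℕ) × ℕ) × ℕ) × ℕ => decide (¬ q.1.2 = q.2))
      ((Primrec.eq.comp (Primrec.snd.comp Primrec.fst) Primrec.snd).not.decide.to_comp))
      fun q => by simp
  have pw : Primrec fun q : (((List ℕ × List ℕ) × ℕ) × ℕ) × ℕ => q.1.1.1.1 :=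
    Primrec.fst.comp (Primrec.fst.comp (Primrec.fst.comp Primrec.fst))
  have pb : Primrec fun q : (((List ℕ × List ℕ) × ℕ) × ℕ) × ℕ => q.1.1.1.2 :=
    Primrec.snd.comp (Primrec.fst.comp (Primrec.fst.comp Primrec.fst))
  have pn : Primrec fun q : (((List ℕ × List ℕ) × ℕ) × ℕ) × ℕ => q.1.1.2 :=
    Primrec.snd.comp (Primrec.fst.comp Primrec.fst)
  have e2 : CEin x fun q : (((List ℕ × List ℕ) × ℕ) × ℕ) × ℕ =>
      Der P x (hist3 (tK P.M q.1.1.1.1) q.1.1.1.2) [] q.1.1.2 q.1.2 :=
    hpre _ _ x _ (fun q : (((List ℕ × List ℕ) × ℕ) × ℕ) × ℕ =>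
      (hist3 (tK P.M q.1.1.1.1) q.1.1.1.2, ([] : List Adr), q.1.1.2, q.1.2)) hD
      ((primrec_hist3.comp ((primrec_tK P.M).comp pw) pb).pair ((Primrec.const []).pair
        (pn.pair (Primrec.snd.comp Primrec.fst)))).to_comp
  have e3 : CEin x fun q : (((List ℕ × List ℕ) × ℕ) × ℕ) × ℕ =>
      Der P x (hist3 (tK P.M q.1.1.1.1) (q.1.1.1.2 ++ q.1.1.1.1)) [] q.1.1.2 q.2 :=
    hpre _ _ x _ (fun q : (((List ℕ × List ℕ) × ℕ) × ℕ) × ℕ =>
      (hist3 (tK P.M q.1.1.1.1) (q.1.1.1.2 ++ q.1.1.1.1), ([] : List Adr), q.1.1.2, q.2)) hD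
      ((primrec_hist3.comp ((primrec_tK P.M).comp pw) (Primrec.list_append.comp pb pw)).pair
        ((Primrec.const []).pair (pn.pair Primrec.snd))).to_comp
  have e4 := hex _ _ x _ (hex _ _ x _ (hex _ _ x _ (hand _ x _ _ e1 (hand _ x _ _ e2 e3))))
  have e5 := hall _ _ x _ e4
  have e6 : CEin x fun q : List ℕ × List (List ℕ) => (words P.L (tN P.M q.1)).length <
      4 * ((words P.L (tN P.M q.1)).filter fun a => decide (∃ b ∈ q.2, b = a)).length :=
    ce_congr (h1 _ x _ (primrec_test.comp (((primrec_words P.L).comp ((primrec_tN P.M).comp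
      Primrec.fst)).pair Primrec.snd)).to_comp) fun q => by simp only [decide_eq_true_eq]
  exact ce_congr (hex _ _ x _ (hand _ x _ _ e5 e6)) fun w => cnt_iff _ _

end Pool.Agent.Lib.MP_fa224b_lc.C
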