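import Pool.Agent.Lib.MP_fa224b_lc.C.Basic

/-! Spectral gap of random walks on a compact group. -/

namespace Pool.Agent.Lib.MP_fa224b_lc.C

open MeasureTheory Filter

namespace GapK

variable {K : Type} [Group K] [MeasurableSpace K] {μ : Measure K}

/-- the representation on `L²` given by a measure preserving right action -/
noncomputable def rep (τ : K → K → K) (hτ : ∀ g, MeasurePreserving (τ g) μ μ) (h1 : τ 1 = id)
    (hm : ∀ g h, τ (g * h) = τ h ∘ τ g) : K →* (Lp ℝ 2 μ ≃ₗᵢ[ℝ] Lp ℝ 2 μ) :=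
  have key : ∀ g h (v : Lp ℝ 2 μ), Lp.compMeasurePreserving (τ (g * h)) (hτ _) v =
      Lp.compMeasurePreserving (τ g) (hτ g) (Lp.compMeasurePreserving (τ h) (hτ h) v) :=
    fun g h v => by
      rw [← Lp.compMeasurePreserving_comp_apply]
      congr 2
      exact hm g h
  MonoidHom.mk' (fun g => LinearIsometryEquiv.ofSurjective
      (Lp.compMeasurePreservingₗᵢ ℝ (τ g) (hτ g)) fun v =>
        ⟨Lp.compMeasurePreserving (τ g⁻¹) (hτ _) v, by
          refine (key g g⁻¹ v).symm.trans (.trans ?_ (Lp.compMeasurePreserving_id_apply v))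
          congr 2
          rw [mul_inv_cancel, h1]⟩)
    fun g h => LinearIsometryEquiv.ext (key g h)

theorem rep_coe {τ : K → K → K} (hτ : ∀ g, MeasurePreserving (τ g) μ μ) (h1 : τ 1 = id)
    (hm : ∀ g h, τ (g * h) = τ h ∘ τ g) (g : K) (v : Lp ℝ 2 μ) :
    rep τ hτ h1 hm g v =ᵐ[μ] v ∘ τ g := Lp.coeFn_compMeasurePreserving v (hτ g)

omit [Group K] in
theorem norm_sq (v : Lp ℝ 2 μ) {g : K → ℝ} (h : v =ᵐ[μ] g) : ‖v‖ ^ 2 = ∫ y, g y ^ 2 ∂μ := by
  rw [← real_inner_self_eq_norm_sq, L2.inner_def]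
  refine integral_congr_ae (h.mono fun y hy => ?_)
  simp only [hy, real_inner_self_eq_norm_sq, Real.norm_eq_abs, sq_abs]

/-- one step of the walk -/
theorem step (hH : StHilb) [IsProbabilityMeasure μ] {τ : K → K → K}
    (hτ : ∀ g, MeasurePreserving (τ g) μ μ) (h1 : τ 1 = id) (hm : ∀ g h, τ (g * h) = τ h ∘ τ g)
    {a : Fin 5 → ZMod 293 → K} (ha : ∀ i u v, a i (u + v) = a i u * a i v)
    (hh : ∀ i j, i ≠ j → Heis (a i) (a j) ∨ Heis (a j) (a i))
    (erg : ∀ s, NullMeasurableSet s μ →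
      (∀ g ∈ Subgroup.closure (Set.range fun c : Fin 5 × ZMod 293 => a c.1 c.2),
        τ g ⁻¹' s =ᵐ[μ] s) → EventuallyConst s (ae μ))
    {g : K → ℝ} (hg : MemLp g 2 μ) (h0 : ∫ y, g y ∂μ = 0) {g' : K → ℝ}
    (e : ∀ y, g' y = (5 * 293 : ℝ)⁻¹ * ∑ i, ∑ u, g (τ (a i u) y)) :
    MemLp g' 2 μ ∧ ∫ y, g' y ∂μ = 0 ∧ ∫ y, g' y ^ 2 ∂μ ≤ (1 - 1 / 1250) * ∫ y, g y ^ 2 ∂μ := by
  obtain rfl := funext e
  have m : ∀ i u, MemLp (fun y => g (τ (a i u) y)) 2 μ := fun i u =>
    hg.comp_measurePreserving (hτ _)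
  have m' : ∀ i, MemLp (fun y => ∑ u, g (τ (a i u) y)) 2 μ := fun i =>
    memLp_finsetSum _ fun u _ => m i u
  refine ⟨(memLp_finsetSum _ fun i _ => m' i).const_mul _, ?_, ?_⟩
  · rw [integral_const_mul, integral_finsetSum _ fun i _ => (m' i).integrable one_le_two,
      Finset.sum_eq_zero, mul_zero]
    intro i _
    rw [integral_finsetSum _ fun u _ => (m i u).integrable one_le_two, Finset.sum_eq_zero]
    intro u _
    rw [← integral_map (hτ _).measurable.aemeasurable (by rw [(hτ _).map_eq]; exact hg.1),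
      (hτ _).map_eq, h0]
  have k := hH (Lp ℝ 2 μ) K (rep τ hτ h1 hm) a ha hh (hg.toLp g) fun v₀ hv => by
    have inv : ∀ g ∈ Subgroup.closure (Set.range fun c : Fin 5 × ZMod 293 => a c.1 c.2),
        rep τ hτ h1 hm g v₀ = v₀ := fun g hg => by
      induction hg using Subgroup.closure_induction with
      | mem x hx => obtain ⟨c, rfl⟩ := hx; exact hv _ _
      | one => rw [map_one]; rfl
      | mul x y _ _ hx hy => rw [map_mul, LinearIsometryEquiv.coe_mul, Function.comp, hy, hx]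
      | inv x _ hx =>
        rw [map_inv, LinearIsometryEquiv.coe_inv, LinearIsometryEquiv.symm_apply_eq, hx]
    obtain ⟨c, hc⟩ := exists_eventuallyEq_const_of_forall_separating (l := ae μ) (f := v₀)
      MeasurableSet fun U hU => eventuallyConst_set.1 (erg (v₀ ⁻¹' U)
        ((Lp.aestronglyMeasurable v₀).aemeasurable.nullMeasurable hU) fun g hg => by
          have := rep_coe hτ h1 hm g v₀
          rw [inv g hg] at this
          refine (this.mono fun x hx => ?_).set_eq
          rw [Set.mem_preimage, Set.mem_preimage, Set.mem_preimage, hx, Function.comp])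
    rw [L2.inner_def, integral_congr_ae (g := fun y => c * g y), integral_const_mul, h0, mul_zero]
    filter_upwards [hc, hg.coeFn_toLp] with y h2 h3
    simp [h2, h3]
  rwa [norm_sq _ hg.coeFn_toLp, norm_sq _ (g := fun y => (5 * 293 : ℝ)⁻¹ *
    ∑ i, ∑ u, g (τ (a i u) y))] at k
  have c1 : ∀ᵐ y ∂μ, ∀ i u, rep τ hτ h1 hm (a i u) (hg.toLp g) y = g (τ (a i u) y) :=
    ae_all_iff.2 fun i => ae_all_iff.2 fun u => (rep_coe hτ h1 hm _ _).trans
      ((hτ _).quasiMeasurePreserving.ae_eq_comp hg.coeFn_toLp)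
  have c2 : ∀ᵐ y ∂μ, ∀ i, (∑ u, rep τ hτ h1 hm (a i u) (hg.toLp g)) y =
      ∑ u, rep τ hτ h1 hm (a i u) (hg.toLp g) y :=
    ae_all_iff.2 fun i => Lp.coeFn_fun_finsetSum _ _
  filter_upwards [Lp.coeFn_smul (5 * 293 : ℝ)⁻¹ (∑ i, ∑ u, rep τ hτ h1 hm (a i u) (hg.toLp g)),
    Lp.coeFn_fun_finsetSum Finset.univ fun i => ∑ u, rep τ hτ h1 hm (a i u) (hg.toLp g), c1, c2]
    with y d1 d2 d3 d4
  rw [d1, Pi.smul_apply, d2, smul_eq_mul]
  simp only [d3, d4]

theorem cnt_succ (L : List ℕ) (r : ℕ) (p : List ℕ → Prop) :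
    cnt (words L (r + 1)) p = (L.map fun t => cnt (words L r) fun w => p (t :: w)).sum := by
  rw [← cnt_product' (words L r) L fun c => p (c.2 :: c.1), cnt_product, words, cnt_flatMap]
  simp only [cnt_map]

theorem gap (hH : StHilb) [IsProbabilityMeasure μ] {τ : K → K → K}
    (hτ : ∀ g, MeasurePreserving (τ g) μ μ) (h1 : τ 1 = id) (hm : ∀ g h, τ (g * h) = τ h ∘ τ g)
    {a : Fin 5 → ZMod 293 → K} (ha : ∀ i u v, a i (u + v) = a i u * a i v)
    (hh : ∀ i j, i ≠ j → Heis (a i) (a j) ∨ Heis (a j) (a i))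
    (erg : ∀ s, NullMeasurableSet s μ →
      (∀ g ∈ Subgroup.closure (Set.range fun c : Fin 5 × ZMod 293 => a c.1 c.2),
        τ g ⁻¹' s =ᵐ[μ] s) → EventuallyConst s (ae μ))
    {act : ℕ → K → K} {lab : Fin 5 × ZMod 293 → ℕ}
    (hs : ∀ (g : K → ℝ) y i, ∑ u, g (act (lab (i, u)) y) = ∑ u, g (τ (a i u) y)) :
    Gap μ act ((Finset.univ : Finset (Fin 5 × ZMod 293)).toList.map lab) (1 - 1 / 1250) := by
  intro Z hZ r
  generalize hL : (Finset.univ : Finset (Fin 5 × ZMod 293)).toList.map lab = L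
  have len : L.length = 5 * 293 := by simp [← hL]
  obtain ⟨g, hg⟩ : ∃ g : ℕ → K → ℝ, ∀ r y, g r y =
      (cnt (words L r) fun α => wact act α y ∈ Z : ℝ) / (words L r).length - μ.real Z :=
    ⟨_, fun _ _ => rfl⟩
  simp only [← hg]
  have g0 : g 0 = fun y => Z.indicator 1 y - μ.real Z := funext fun y => by
    by_cases hy : y ∈ Z <;> simp [hg, words, cnt, wact, hy]
  have i0 : MemLp (Z.indicator (1 : K → ℝ)) 2 μ := (memLp_const 1).indicator hZ
  suffices H : MemLp (g r) 2 μ ∧ ∫ y, g r y ∂μ = 0 ∧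
    ∫ y, g r y ^ 2 ∂μ ≤ (1 - 1 / 1250) ^ r * μ.real Z from H.2.2
  induction r with
  | zero =>
    have i1 := i0.integrable one_le_two
    refine ⟨g0 ▸ i0.sub (memLp_const _), ?_, ?_⟩
    · rw [g0, integral_sub i1 (integrable_const _), integral_indicator_one hZ]
      simp
    · have e : ∀ y, g 0 y ^ 2 = (1 - 2 * μ.real Z) * Z.indicator 1 y + μ.real Z ^ 2 := fun y => by
        by_cases hy : y ∈ Z <;> simp [g0, hy]
        ring
      simp only [e]
      rw [integral_add (i1.const_mul _) (integrable_const _), integral_const_mul,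
        integral_indicator_one hZ]
      simp only [integral_const, probReal_univ, one_smul]
      nlinarith [sq_nonneg (μ.real Z)]
  | succ r ih =>
    obtain ⟨k1, k2, k3⟩ := step hH hτ h1 hm ha hh erg ih.1 ih.2.1 (g' := g (r + 1)) fun y => by
      have p : (0 : ℝ) < (words L r).length := by
        rw [length_words, len]; positivity
      simp only [← hs]
      rw [← Fintype.sum_prod_type' (f := fun i u => g r (act (lab (i, u)) y)), hg, cnt_succ,
        length_words, pow_succ, ← length_words, len]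
      simp only [hg, Finset.sum_sub_distrib, ← Finset.sum_div]
      rw [← hL, List.map_map, Finset.sum_map_toList, hL]
      simp only [wact, Function.comp, Finset.sum_const, Finset.card_univ, Fintype.card_prod,
        Fintype.card_fin, ZMod.card, nsmul_eq_mul]
      push_cast
      field_simp
      ring
    refine ⟨k1, k2, k3.trans ?_⟩
    rw [pow_succ', mul_assoc]
    exact mul_le_mul_of_nonneg_left ih.2.2 (by norm_num)

end GapK

theorem stGapK (h : StHilb) : StGapK := by
  intro K _ _ _ _ _ _ _ _ μ _ _ _ a ha hh hd act lab hs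
  rcases hs with hs | hs
  · refine GapK.gap h (τ := fun g y => g⁻¹ * y) (fun g => measurePreserving_mul_left μ g⁻¹)
      (funext fun y => by simp) (fun g h => funext fun y => by simp [mul_assoc]) ha hh
      (fun s h1 h2 => aeconst_of_dense_setOfPred_preimage_smul_ae (M := K) h1
        (hd.mono fun g hg => ?_)) fun g y i => ?_
    · simpa using h2 g⁻¹ (Subgroup.inv_mem _ hg)
    · have a0 : a i 0 = 1 := by simpa using ha i 0 0
      refine Fintype.sum_equiv (Equiv.neg _) _ _ fun u => ?_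
      rw [hs, Equiv.neg_apply, eq_inv_of_mul_eq_one_right (show a i (-u) * a i u = 1 by
        rw [← ha, neg_add_cancel, a0])]
  · refine GapK.gap h (τ := fun g y => y * g) (fun g => measurePreserving_mul_right μ g)
      (funext fun y => by simp) (fun g h => funext fun y => by simp [mul_assoc]) ha hh
      (fun s h1 h2 => aeconst_of_dense_setOfPred_preimage_smul_ae (M := Kᵐᵒᵖ) h1
        ((hd.preimage MulOpposite.opHomeomorph.symm.isOpenMap).mono fun g hg => h2 g.unop hg))
      fun g y i => by simp only [hs]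

end Pool.Agent.Lib.MP_fa224b_lc.C
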