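import Pool.Agent.Lib.MP_fa224b_lc.C.Basic

/-! The majority gates keep states good. -/

namespace Pool.Agent.Lib.MP_fa224b_lc.C

namespace Gate

variable {Ω : Type} {σ : Sys Ω} {P : Par} {q : Ω → ℕ} {f : Ω → B} {y₀ : Ω}

theorem comm1 {act : ℕ → Ω → Ω} {g : Ω → Ω} {w : List ℕ}
    (h : ∀ u ∈ w, ∀ y, g (act u y) = act u (g y)) (y : Ω) : g (wact act w y) = wact act w (g y) := by
  induction w generalizing y with
  | nil => rfl
  | cons u w ih =>
    rw [wact_cons, wact_cons, ih fun s hs => h s (List.mem_cons_of_mem _ hs),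
      h u List.mem_cons_self]

theorem comm2 {v w : List ℕ} (hv : ∀ t ∈ v, t ∈ σ.L) (hw : ∀ t ∈ w, t ∈ σ.R) (y : Ω) :
    wact σ.act v (wact σ.act w y) = wact σ.act w (wact σ.act v y) :=
  comm1 (fun u hu y => (comm1 (g := σ.act u)
    (fun t ht y => (σ.comm_LR t (hv t ht) u (hw u hu) y).symm) y).symm) y

theorem cloud_mem {r : ℕ} {a : Adr} (h : a ∈ cloud σ.L σ.R r) :
    (∀ t ∈ a.1, t ∈ σ.L) ∧ ∀ t ∈ a.2, t ∈ σ.R :=
  ⟨(mem_words.1 (mem_cloud.1 h).1).2, (mem_words.1 (mem_cloud.1 h).2).2⟩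

theorem path_end {r t : ℕ} {a a' : Adr} (ht : t ∈ σ.S) (ha : a ∈ cloud σ.L σ.R r)
    (ha' : a' ∈ cloud σ.L σ.R r) (y : Ω) :
    wact σ.act (path σ.inv σ.side a' t a) (wact σ.act (ent a') y) =
      wact σ.act (ent a) (σ.act t y) := by
  obtain ⟨h1, h2⟩ := cloud_mem ha
  obtain ⟨h3, h4⟩ := cloud_mem ha'
  have h5 := wact_winv σ fun u hu => σ.L_sub u (h3 u hu)
  have h6 := wact_winv σ fun u hu => σ.R_sub u (h4 u hu)
  cases hs : σ.side t with
  | true =>
    simp only [path, ent, hs, if_true, wact_append, wact_cons, wact_nil]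
    rw [h5, comm1 (g := σ.act t) fun u hu => σ.comm_left t ht hs u (h4 u hu), comm2 h1 h4, h6,
      comm2 h1 h2]
  | false =>
    simp only [path, ent, hs, Bool.false_eq_true, if_false, wact_append, wact_cons, wact_nil]
    rw [h5, comm2 h1 h4, h6, comm1 (g := σ.act t) fun u hu => σ.comm_right t ht hs u (h1 u hu),
      comm2 h1 h2]

theorem path_mem {r t : ℕ} {a a' : Adr} (ht : t ∈ σ.S) (ha : a ∈ cloud σ.L σ.R r)
    (ha' : a' ∈ cloud σ.L σ.R r) : ∀ u ∈ path σ.inv σ.side a' t a, u ∈ σ.S := by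
  obtain ⟨h1, h2⟩ := cloud_mem ha
  obtain ⟨h3, h4⟩ := cloud_mem ha'
  have h5 := mem_winv σ fun u hu => σ.L_sub u (h3 u hu)
  have h6 := mem_winv σ fun u hu => σ.R_sub u (h4 u hu)
  have h7 : ∀ (c : Prop) [Decidable c] (u : ℕ), u ∈ (if c then [t] else []) ∨
      u ∈ (if c then [] else [t]) → u ∈ σ.S := fun c _ u hu => by
    split_ifs at hu <;> simp at hu <;> rwa [hu]
  intro u hu
  simp only [path, List.mem_append] at hu
  rcases hu with ((h | h) | h) | ((h | h) | h)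
  exacts [h5 u h, h7 _ u (.inl h), σ.L_sub u (h1 u h), h6 u h, h7 _ u (.inr h), σ.R_sub u (h2 u h)]

theorem at_cons {h : List Op} {y : Ω} (hA : At σ y₀ h y) (o : Op) (ho : ∀ t ∈ ent o.2, t ∈ σ.S) :
    At σ y₀ (o :: h) (wact σ.act (ent o.2) y) :=
  ⟨by rw [pw, wact_append, hA.1], fun t ht => (List.mem_append.1 ht).elim (hA.2 t) (ho t)⟩

theorem qs_eq (hF : Fits σ P q y₀) {h : List Op} {y : Ω} (hA : At σ y₀ h y) : P.qs h = q y := by
  have key : ∀ (w : List ℕ) (y : Ω), (∀ t ∈ w, t ∈ σ.S) →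
      w.foldl (fun q t => P.δ t q) (q y) = q (wact σ.act w y) := fun w => by
    induction w with
    | nil => exact fun _ _ => rfl
    | cons t w ih =>
      intro y hw
      rw [List.foldl_cons, ← hF.2.2.2.2.2 t (hw t List.mem_cons_self), wact_cons]
      exact ih _ fun s hs => hw s (List.mem_cons_of_mem _ hs)
  rw [Par.qs, hF.2.2.2.2.1, key _ _ hA.2, hA.1]

/-- the statement at one level -/
def Lev (σ : Sys Ω) (P : Par) (q : Ω → ℕ) (f : Ω → B) (y₀ : Ω) (k : ℕ) : Prop :=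
  ∀ t ∈ σ.S, ∀ y, y ∉ Bad σ P.r (Base σ P.prog q f) k →
    ∃ Lf : Set (List Adr),
      (∀ h, (∀ l ∈ Lf, Corr P (f y₀) h l (f (lpos σ l (σ.act t y)))) →
        Good σ P (f y₀) f k h (σ.act t y)) ∧
      (∀ h, At σ y₀ h y → Good σ P (f y₀) f k h y →
        ∀ l ∈ Lf, Corr P (f y₀) (gate t :: h) l (f (lpos σ l (σ.act t y))))

theorem chain {k : ℕ} (H : Lev σ P q f y₀ k) (w : List ℕ) (h : List Op) (y : Ω)
    (hw : ∀ t ∈ w, t ∈ σ.S) (hm : ¬ Meets σ (Bad σ P.r (Base σ P.prog q f) k) y w)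
    (hA : At σ y₀ h y) (hG : Good σ P (f y₀) f k h y) :
    At σ y₀ (gates w h) (wact σ.act w y) ∧ Good σ P (f y₀) f k (gates w h) (wact σ.act w y) := by
  induction w generalizing h y with
  | nil => exact ⟨hA, hG⟩
  | cons t w ih =>
    have ht := hw t List.mem_cons_self
    obtain ⟨Lf, h1, h2⟩ := H t ht y fun hy => hm ⟨[], List.nil_prefix, hy⟩
    have e : gates (t :: w) h = gates w (gate t :: h) := by simp [gates]
    rw [e]
    exact ih (gate t :: h) (σ.act t y) (fun s hs => hw s (List.mem_cons_of_mem _ hs))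
      (fun ⟨u, hu, hy⟩ => hm ⟨t :: u, (List.prefix_cons_inj t).2 hu, hy⟩)
      (at_cons hA (gate t) (by simpa [gate, ent] using ht)) (h1 _ (h2 h hA hG))

theorem lev_zero (hC : StCorr) (hF : Fits σ P q y₀) : Lev σ P q f y₀ 0 := by
  intro t ht y hy
  refine ⟨{[]}, fun h H => H [] rfl, fun h hA hG l hl => ?_⟩
  rw [Set.mem_singleton_iff.1 hl]
  refine (hC P (f y₀)).2.1 t h _ _ hG ?_
  rw [qs_eq hF hA]
  by_contra hc
  exact hy ⟨t, ht, hc⟩

theorem lev_succ (hC : StCorr) (hF : Fits σ P q y₀) {k : ℕ} (H : Lev σ P q f y₀ k) :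
    Lev σ P q f y₀ (k + 1) := by
  intro t ht y hy
  have hA : P.A = cloud σ.L σ.R P.r := by rw [Par.A, hF.2.2.1, hF.2.2.2.1]
  obtain ⟨-, -, c3, -, c5, -⟩ := hC P (f y₀)
  set A := cloud σ.L σ.R P.r
  set Z := Bad σ P.r (Base σ P.prog q f) k
  let M : Adr → Adr → Prop := fun a a' =>
    Meets σ Z (wact σ.act (ent a') y) (path σ.inv σ.side a' t a)
  let N : Adr → Prop := fun a => ¬ 3 * A.length ≤ 10 * cnt A (M a)
  have h1 : 9 * A.length ≤ 10 * cnt A N := by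
    have a1 : ¬ A.length < 10 * cnt A fun a => 3 * A.length ≤ 10 * cnt A (M a) :=
      fun h => hy ⟨t, ht, h⟩
    have a2 := cnt_add_not A fun a => 3 * A.length ≤ 10 * cnt A (M a)
    change _ + cnt A N = _ at a2
    omega
  have h2 : ∀ a, N a → 7 * A.length < 10 * cnt A fun a' => ¬ M a a' := fun a ha => by
    have a1 := cnt_add_not A (M a)
    have a2 : ¬ 3 * A.length ≤ 10 * cnt A (M a) := ha
    omega
  have h3 : ∀ a ∈ A, N a → wact σ.act (ent a) (σ.act t y) ∉ Z := fun a ha hN hZ => by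
    obtain ⟨a', ha', hm⟩ := cnt_pos.1 (show 0 < cnt A fun a' => ¬ M a a' by
      have := h2 a hN; omega)
    exact hm ⟨_, List.prefix_rfl, by rwa [path_end ht ha ha']⟩
  choose Lf k1 k2 using fun (a : Adr) (ha : a ∈ A) (hN : N a) => H 0 σ.zero_mem _ (h3 a ha hN)
  simp only [σ.act_zero] at k1 k2
  refine ⟨{l | ∃ a ha hN, ∃ l' ∈ Lf a ha hN, l = a :: l'}, fun h hl => ?_, ?_⟩
  · rw [Good, hA]
    exact h1.trans (Nat.mul_le_mul_left _ (cnt_mono fun a ha hN =>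
      k1 a ha hN _ fun l' hl' => (c3 _ _ _ _).2 (hl _ ⟨a, ha, hN, l', hl', rfl⟩)))
  · rintro h hAt hG _ ⟨a, ha, hN, l, hl, rfl⟩
    refine c5 _ _ _ _ _ ?_
    rw [Good, hA] at hG
    rw [hA, hF.1, hF.2.1]
    have a1 := cnt_and_ge A (fun a' => Good σ P (f y₀) f k (sub a' :: h) (wact σ.act (ent a') y))
      fun a' => ¬ M a a'
    have a2 := h2 a hN
    refine lt_of_lt_of_le (by omega) (Nat.mul_le_mul_left 2 (cnt_mono (p := fun a' =>
      Good σ P (f y₀) f k (sub a' :: h) (wact σ.act (ent a') y) ∧ ¬ M a a') fun a' ha' hg => ?_))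
    obtain ⟨b1, b2⟩ := cloud_mem ha'
    obtain ⟨b3, b4⟩ := chain H _ _ _ (path_mem ht ha ha') hg.2
      (at_cons hAt (sub a') fun u hu => (List.mem_append.1 hu).elim
        (fun h => σ.R_sub u (b2 u h)) fun h => σ.L_sub u (b1 u h)) hg.1
    rw [path_end ht ha ha'] at b3 b4
    exact k2 a ha hN _ b3 b4 l hl

end Gate

theorem stGate (hC : StCorr) : StGate := fun _ _ _ _ _ _ hF k => by
  induction k with
  | zero => exact Gate.lev_zero hC hF
  | succ k ih => exact Gate.lev_succ hC hF ih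

end Pool.Agent.Lib.MP_fa224b_lc.C
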