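import Pool.Agent.Lib.MP_fa224b_lc.C.Basic
import Pool.Agent.Lib.MP_fa224b_lc.C.MDefs

/-! The Haar probability of the profinite group and the coding map. -/

namespace Pool.Agent.Lib.MP_fa224b_lc.C

open MeasureTheory

theorem stHaar : StHaar := by
  have h0 : mu.IsHaarMeasure := Measure.isHaarMeasure_haarMeasure ⊤
  have h1 : IsProbabilityMeasure mu := ⟨Measure.haarMeasure_self (K₀ := ⊤)⟩
  refine ⟨h1, inferInstance, ⟨fun g => ?_⟩⟩
  have h2 : IsProbabilityMeasure (mu.map (· * g)) :=
    Measure.isProbabilityMeasure_map (measurable_mul_const g).aemeasurable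
  exact Measure.isHaarMeasure_eq_of_isProbabilityMeasure _ _

namespace Haar

theorem cont (s a b u v : ℕ) : Continuous fun y : KK => entry y.1 s a b u v :=
  (continuous_of_discreteTopology (f := fun g : Gs s =>
    if h : a < 3 ∧ b < 3 ∧ u < dim s ∧ v < dim s then
      (g.mat ⟨a, h.1⟩ ⟨b, h.2.1⟩ ⟨u, h.2.2.1⟩ ⟨v, h.2.2.2⟩).val else 0)).comp
    ((continuous_apply s).comp continuous_subtype_val)

theorem code_pair (y : KK) (s : ℕ) (a b : Fin 3) (u v : Fin (dim s)) :
    code y (Nat.pair s (Nat.pair a (Nat.pair b (Nat.pair u v)))) = ((y.1 s).mat a b u v).val := by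
  have h : code y (Nat.pair s (Nat.pair a (Nat.pair b (Nat.pair u v)))) = entry y.1 s a b u v := by
    simp only [code, Nat.unpair_pair]
  exact h.trans (dif_pos ⟨a.2, b.2, u.2, v.2⟩)

end Haar

theorem stCode : StCode := by
  have h1 : Continuous code := continuous_pi fun n => Haar.cont _ _ _ _ _
  refine ⟨h1, fun y y' h => ?_, fun y n => ?_, h1.measurable, measurable_pi_lambda _ fun n => ?_⟩
  · refine Subtype.ext (funext fun s => Units.ext ?_)
    ext a b u v
    refine ZMod.val_injective 293 ?_
    exact (Haar.code_pair y s a b u v).symm.trans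
      ((congrFun h _).trans (Haar.code_pair y' s a b u v))
  · unfold code entry
    split_ifs
    · exact ZMod.val_lt _
    · norm_num
  · unfold iota join
    split_ifs
    · exact (measurable_pi_apply _).comp measurable_fst
    · exact (measurable_pi_apply (n / 2)).comp (h1.measurable.comp measurable_snd)

end Pool.Agent.Lib.MP_fa224b_lc.C
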