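import Pool.Agent.Lib.MP_fa224b_lc.C.Basic

/-! A spectral gap from pairwise angles in a Hilbert space. -/

namespace Pool.Agent.Lib.MP_fa224b_lc.C

namespace Hilb

variable {V : Type} [NormedAddCommGroup V] [InnerProductSpace ℝ V]

theorem lower {x : Fin 5 → V} (h : ∀ i j, i ≠ j →
    -(249 / 1000 : ℝ) * (‖x i‖ ^ 2 + ‖x j‖ ^ 2) ≤ 2 * inner ℝ (x i) (x j)) :
    ∑ i, ‖x i‖ ^ 2 ≤ 250 * ‖∑ i, x i‖ ^ 2 := by
  have h01 := h 0 1 (by decide)
  have h02 := h 0 2 (by decide)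
  have h03 := h 0 3 (by decide)
  have h04 := h 0 4 (by decide)
  have h12 := h 1 2 (by decide)
  have h13 := h 1 3 (by decide)
  have h14 := h 1 4 (by decide)
  have h23 := h 2 3 (by decide)
  have h24 := h 2 4 (by decide)
  have h34 := h 3 4 (by decide)
  simp only [Fin.sum_univ_five, norm_add_sq_real, inner_add_left]
  linarith

theorem gap [CompleteSpace V] (E : Fin 5 → V →L[ℝ] V)
    (hE : ∀ i x y, inner ℝ (E i x) y = inner ℝ (E i x) (E i y))
    (h : ∀ v i j, i ≠ j →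
      -(249 / 1000 : ℝ) * (‖E i v‖ ^ 2 + ‖E j v‖ ^ 2) ≤ 2 * inner ℝ (E i v) (E j v))
    {w : V} (hw : ∀ v, (∀ i, E i v = 0) → inner ℝ w v = 0) :
    ‖w‖ ^ 2 ≤ 250 * ∑ i, ‖E i w‖ ^ 2 := by
  let K : Submodule ℝ V := LinearMap.range ((∑ i, E i : V →L[ℝ] V) : V →ₗ[ℝ] V)
  have hK : ∀ v, ∑ i, E i v ∈ K := fun v => ⟨v, by simp⟩
  have h1 : (K : Set V) ⊆ {w | ‖w‖ ^ 2 ≤ 250 * ∑ i, ‖E i w‖ ^ 2} := by
    rintro w ⟨v, hv⟩
    have e : ∑ i, E i v = w := by simpa using hv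
    have h2 := lower (h v)
    rw [e] at h2
    have h3 : ‖w‖ ^ 2 ≤ ∑ i, (1 / 500 * ‖E i v‖ ^ 2 + 125 * ‖E i w‖ ^ 2) := by
      rw [← real_inner_self_eq_norm_sq]
      nth_rewrite 1 [← e]
      rw [sum_inner]
      refine Finset.sum_le_sum fun i _ => ?_
      rw [hE]
      refine (real_inner_le_norm _ _).trans ?_
      nlinarith [sq_nonneg (‖E i v‖ - 250 * ‖E i w‖)]
    rw [Finset.sum_add_distrib, ← Finset.mul_sum, ← Finset.mul_sum] at h3
    change ‖w‖ ^ 2 ≤ 250 * ∑ i, ‖E i w‖ ^ 2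
    linarith
  have h2 : IsClosed {w : V | ‖w‖ ^ 2 ≤ 250 * ∑ i, ‖E i w‖ ^ 2} :=
    isClosed_le (by fun_prop) (by fun_prop)
  have h3 : w ∈ K.topologicalClosure := by
    rw [← Submodule.orthogonal_orthogonal_eq_closure, Submodule.mem_orthogonal']
    refine fun v hv => hw v fun i => ?_
    have h4 := (Submodule.mem_orthogonal K v).1 hv _ (hK v)
    rw [sum_inner] at h4
    simp only [hE _ v v, real_inner_self_eq_norm_sq] at h4
    have h5 := (Finset.sum_eq_zero_iff_of_nonneg fun i _ => sq_nonneg _).1 h4 i (Finset.mem_univ i)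
    exact norm_eq_zero.1 (pow_eq_zero_iff two_ne_zero |>.1 h5)
  exact closure_minimal h1 h2 h3

variable {G : Type} [Group G] (π : G →* (V ≃ₗᵢ[ℝ] V)) (a : ZMod 293 → G)

/-- the average over a one-parameter group -/
noncomputable def av : V →L[ℝ] V :=
  (293 : ℝ)⁻¹ • ∑ u, (π (a u)).toLinearIsometry.toContinuousLinearMap

theorem av_apply (v : V) : av π a v = (293 : ℝ)⁻¹ • ∑ u, π (a u) v := by
  simp [av]

variable {a} (ha : ∀ u v, a (u + v) = a u * a v)
include ha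

theorem act_add (s u : ZMod 293) (v : V) : π (a s) (π (a u) v) = π (a (s + u)) v := by
  rw [ha, map_mul]
  rfl

theorem act_zero (v : V) : π (a 0) v = v := by
  have h := ha 0 0
  rw [add_zero, left_eq_mul] at h
  rw [h, map_one]
  rfl

theorem act_av (s : ZMod 293) (v : V) : π (a s) (av π a v) = av π a v := by
  rw [av_apply, map_smul, map_sum]
  simp only [act_add π ha]
  exact congrArg _ (Equiv.sum_comp (Equiv.addLeft s) fun u => π (a u) v)

theorem av_av (v : V) : av π a (av π a v) = av π a v := by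
  rw [av_apply π a (av π a v)]
  simp only [act_av π ha]
  rw [Finset.sum_const, Finset.card_univ, ZMod.card, ← Nat.cast_smul_eq_nsmul ℝ, smul_smul]
  norm_num

theorem av_sa (x y : V) : inner ℝ (av π a x) y = inner ℝ x (av π a y) := by
  rw [av_apply, av_apply, real_inner_smul_left, real_inner_smul_right, sum_inner, inner_sum,
    ← Equiv.sum_comp (Equiv.neg (ZMod 293)) fun u => inner ℝ x (π (a u) y)]
  refine congrArg _ (Finset.sum_congr rfl fun u _ => ?_)
  rw [← (π (a (-u))).inner_map_map, act_add π ha, neg_add_cancel, act_zero π ha]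
  rfl

theorem av_orth (x y : V) : inner ℝ (x - av π a x) (av π a y) = 0 := by
  rw [← av_sa π ha, map_sub, av_av π ha, sub_self, inner_zero_left]

theorem av_pyth (x : V) : ‖av π a x‖ ^ 2 = ‖x‖ ^ 2 - ‖x - av π a x‖ ^ 2 := by
  have h := norm_add_sq_real (x - av π a x) (av π a x)
  rw [sub_add_cancel, av_orth π ha] at h
  linarith

end Hilb

theorem stHilb (h : StPair) : StHilb := by
  intro V _ _ _ G _ π a ha hH v hv
  have key := Hilb.gap (fun i => 1 - Hilb.av π (a i)) (w := v) (fun i x y => by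
      change inner ℝ (x - Hilb.av π (a i) x) y =
        inner ℝ (x - Hilb.av π (a i) x) (y - Hilb.av π (a i) y)
      rw [inner_sub_right, Hilb.av_orth π (ha i), sub_zero])
    (fun x i j hij => by
      change _ * (‖x - Hilb.av π (a i) x‖ ^ 2 + ‖x - Hilb.av π (a j) x‖ ^ 2) ≤
        2 * inner ℝ (x - Hilb.av π (a i) x) (x - Hilb.av π (a j) x)
      rw [Hilb.av_apply, Hilb.av_apply]
      rcases hH i j hij with h1 | h1
      · exact h V G π _ _ (ha i) (ha j) h1 x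
      · rw [add_comm, real_inner_comm]
        exact h V G π _ _ (ha j) (ha i) h1 x)
    fun x hx => hv x fun i u => by
      have e : x = Hilb.av π (a i) x := sub_eq_zero.1 (hx i)
      rw [e, Hilb.act_av π (ha i)]
  change ‖v‖ ^ 2 ≤ 250 * ∑ i, ‖v - Hilb.av π (a i) v‖ ^ 2 at key
  have e : ((5 * 293 : ℝ))⁻¹ • ∑ i, ∑ u, π (a i u) v = (5 : ℝ)⁻¹ • ∑ i, Hilb.av π (a i) v := by
    simp only [Hilb.av_apply]
    rw [← Finset.smul_sum, smul_smul, mul_inv]
  have h1 : ‖∑ i, Hilb.av π (a i) v‖ ^ 2 ≤ 5 * ∑ i, ‖Hilb.av π (a i) v‖ ^ 2 := by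
    refine (pow_le_pow_left₀ (norm_nonneg _) (norm_sum_le _ _) 2).trans ?_
    simpa using sq_sum_le_card_mul_sum_sq (s := Finset.univ) (f := fun i => ‖Hilb.av π (a i) v‖)
  have h2 : ∑ i, ‖Hilb.av π (a i) v‖ ^ 2 =
      5 * ‖v‖ ^ 2 - ∑ i, ‖v - Hilb.av π (a i) v‖ ^ 2 := by
    rw [Finset.sum_congr rfl fun i _ => Hilb.av_pyth π (ha i) v, Finset.sum_sub_distrib]
    simp
  rw [e, norm_smul, mul_pow, Real.norm_of_nonneg (by norm_num)]
  linarith

end Pool.Agent.Lib.MP_fa224b_lc.C
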