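import Pool.Agent.Lib.MP_fa224b_lc.C.Basic

/-! Closure properties of predicates that are computably enumerable in a real. -/

namespace Pool.Agent.Lib.MP_fa224b_lc.C

open Filter Encodable

namespace KitA

variable {α β γ : Type} [Primcodable α] [Primcodable β] [Primcodable γ]

theorem c_or {p q : γ → Bool} (hp : Computable p) (hq : Computable q) :
    Computable fun c => p c || q c :=
  (Computable.cond hp (Computable.const true) hq).of_eq fun c => by cases p c <;> rfl

theorem c_and {p q : γ → Bool} (hp : Computable p) (hq : Computable q) :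
    Computable fun c => p c && q c :=
  (Computable.cond hp hq (Computable.const false)).of_eq fun c => by cases p c <;> rfl

/-- bounded search -/
theorem bex {n : γ → ℕ} {p : γ → ℕ → Bool} (hn : Computable n) (hp : Computable₂ p) :
    ∃ r : γ → Bool, Computable r ∧ ∀ c, r c = true ↔ ∃ i < n c, p c i = true := by
  refine ⟨fun c => Nat.rec (motive := fun _ => Bool) false (fun i b => b || p c i) (n c),
    Computable.nat_rec (h := fun c (z : ℕ × Bool) => z.2 || p c z.1) hn (Computable.const false)
      (c_or (Computable.snd.comp Computable.snd)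
        (hp.comp Computable.fst (Computable.fst.comp Computable.snd))).to₂, fun c => ?_⟩
  beta_reduce
  induction n c with
  | zero => simp
  | succ k ih =>
    simp only [Bool.or_eq_true, ih, Nat.lt_succ_iff_lt_or_eq]
    constructor
    · rintro (⟨i, h1, h2⟩ | h)
      · exact ⟨i, Or.inl h1, h2⟩
      · exact ⟨k, Or.inr rfl, h⟩
    · rintro ⟨i, h1 | rfl, h2⟩
      · exact Or.inl ⟨i, h1, h2⟩
      · exact Or.inr h2

theorem ballr {n : γ → ℕ} {p : γ → ℕ → Bool} (hn : Computable n) (hp : Computable₂ p) :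
    ∃ r : γ → Bool, Computable r ∧ ∀ c, r c = true ↔ ∀ i < n c, p c i = true := by
  obtain ⟨r, h1, h2⟩ := bex (p := fun c i => !p c i) hn (Primrec.not.to_comp.comp hp)
  refine ⟨fun c => !r c, Primrec.not.to_comp.comp h1, fun c => ?_⟩
  rw [Bool.not_eq_true', ← Bool.not_eq_true, h2]
  simp

/-- a computable test applied to an optional value -/
theorem c_opt {o : γ → Option β} {p : γ → β → Bool} (ho : Computable o) (hp : Computable₂ p) :
    ∃ r : γ → Bool, Computable r ∧ ∀ c, r c = true ↔ ∃ b, o c = some b ∧ p c b = true :=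
  ⟨fun c => Option.casesOn (motive := fun _ => Bool) (o c) false (p c),
    Computable.option_casesOn ho (Computable.const false) hp, fun c => by
      beta_reduce
      cases o c <;> simp⟩

theorem rp_drop (x : B) (s i : ℕ) : (rp x s).drop i = rp x (s - i) := by
  induction i generalizing s with
  | zero => rfl
  | succ i ih =>
    cases s with
    | zero => simp [rp]
    | succ s => simp [rp, ih]

/-- witnesses that are eventually valid -/
def Evt (x : B) (E : α → Prop) : Prop :=
  ∃ ρ : List ℕ → α → Bool, Computable₂ ρ ∧ ∀ a, (E a → ∀ᶠ s in atTop, ρ (rp x s) a = true) ∧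
    ∀ s, ρ (rp x s) a = true → E a

theorem Evt.ce {x : B} {E : α → Prop} (h : Evt x E) : CEin x E :=
  let ⟨ρ, h1, h2⟩ := h
  ⟨ρ, h1, fun a => ⟨fun e => ((h2 a).1 e).exists, fun ⟨s, e⟩ => (h2 a).2 s e⟩⟩

theorem evt {x : B} {E : α → Prop} (h : CEin x E) : Evt x E := by
  obtain ⟨ρ, h1, h2⟩ := h
  obtain ⟨r, h3, h4⟩ := bex (γ := List ℕ × α) (n := fun c => c.1.length + 1)
    (p := fun c i => ρ (c.1.drop i) c.2)
    (Computable.succ.comp (Computable.list_length.comp Computable.fst))
    (h1.comp (Primrec.list_drop.to_comp.comp Computable.snd (Computable.fst.comp Computable.fst))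
      (Computable.snd.comp Computable.fst)).to₂
  refine ⟨fun l a => r (l, a), h3, fun a => ⟨fun e => ?_, fun s e => ?_⟩⟩
  · obtain ⟨s, hs⟩ := (h2 a).1 e
    filter_upwards [eventually_ge_atTop s] with s' hs'
    refine (h4 _).2 ⟨s' - s, ?_, ?_⟩
    · simp only [rp_length]; omega
    · simp only [rp_drop]
      rwa [Nat.sub_sub_self hs']
  · obtain ⟨i, -, hi⟩ := (h4 _).1 e
    simp only [rp_drop] at hi
    exact (h2 a).2 ⟨_, hi⟩

end KitA

open KitA in
theorem stKitA : StKitA := by
  refine ⟨fun α _ x p hp => ⟨fun _ a => p a, hp.comp Computable.snd, fun a => by simp⟩,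
    fun x => ?_, fun α _ x E E' h h' => ?_, fun α _ x E E' h h' => ?_,
    fun α β _ _ x E g h hg => ?_, fun α β _ _ x E h => ?_, fun α β _ _ x E h => ?_⟩
  · have h1 : Primrec fun c : List ℕ × ℕ × ℕ =>
        decide (c.1.length = c.2.1 + 1) && decide (c.1.getD 0 0 = c.2.2) :=
      Primrec.and.comp
        (Primrec.eq.decide.comp (Primrec.list_length.comp Primrec.fst)
          (Primrec.succ.comp (Primrec.fst.comp Primrec.snd)))
        (Primrec.eq.decide.comp ((Primrec.list_getD 0).comp Primrec.fst (Primrec.const 0))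
          (Primrec.snd.comp Primrec.snd))
    refine ⟨fun l q => decide (l.length = q.1 + 1) && decide (l.getD 0 0 = q.2), h1.to_comp,
      fun q => ⟨fun e => ⟨q.1 + 1, by simp [rp_length, rp, e]⟩, fun ⟨s, e⟩ => ?_⟩⟩
    simp only [rp_length, Bool.and_eq_true, decide_eq_true_eq] at e
    obtain ⟨rfl, e⟩ := e
    simpa [rp] using e
  · obtain ⟨ρ, h1, h2⟩ := evt h
    obtain ⟨ρ', h1', h2'⟩ := evt h'
    refine Evt.ce ⟨fun l a => ρ l a && ρ' l a, c_and h1 h1', fun a => ⟨fun e => ?_, fun s e => ?_⟩⟩
    · filter_upwards [(h2 a).1 e.1, (h2' a).1 e.2] with s e1 e2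
      rw [e1, e2]; rfl
    · rw [Bool.and_eq_true] at e
      exact ⟨(h2 a).2 s e.1, (h2' a).2 s e.2⟩
  · obtain ⟨ρ, h1, h2⟩ := h
    obtain ⟨ρ', h1', h2'⟩ := h'
    refine ⟨fun l a => ρ l a || ρ' l a, c_or h1 h1', fun a => ?_⟩
    simp only [h2, h2', Bool.or_eq_true, exists_or]
  · obtain ⟨ρ, h1, h2⟩ := h
    exact ⟨fun l a => ρ l (g a), h1.comp Computable.fst (hg.comp Computable.snd), fun a => h2 _⟩
  · obtain ⟨ρ, h1, h2⟩ := evt h
    obtain ⟨r, h3, h4⟩ := c_opt (γ := (List ℕ × α) × ℕ) (o := fun c => (decode c.2 : Option β))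
      (p := fun c b => ρ c.1.1 (c.1.2, b)) (Computable.decode.comp Computable.snd)
      (h1.comp (Computable.fst.comp (Computable.fst.comp Computable.fst))
        ((Computable.snd.comp (Computable.fst.comp Computable.fst)).pair Computable.snd)).to₂
    obtain ⟨r', h5, h6⟩ := bex (γ := List ℕ × α) (n := fun c => c.1.length)
      (p := fun c i => r (c, i)) (Computable.list_length.comp Computable.fst) h3
    refine Evt.ce ⟨fun l a => r' (l, a), h5, fun a => ⟨fun ⟨b, e⟩ => ?_, fun s e => ?_⟩⟩
    · filter_upwards [(h2 _).1 e, eventually_gt_atTop (encode b)] with s e1 e2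
      exact (h6 _).2 ⟨encode b, by simpa [rp_length] using e2, (h4 _).2 ⟨b, encodek b, e1⟩⟩
    · obtain ⟨i, -, hi⟩ := (h6 _).1 e
      obtain ⟨b, -, hb⟩ := (h4 _).1 hi
      exact ⟨b, (h2 _).2 s hb⟩
  · obtain ⟨ρ, h1, h2⟩ := evt h
    obtain ⟨r, h3, h4⟩ := c_opt (γ := (List ℕ × α × List β) × ℕ) (o := fun c => c.1.2.2[c.2]?)
      (p := fun c b => ρ c.1.1 (c.1.2.1, b))
      (Computable.list_getElem?.comp (Computable.snd.comp (Computable.snd.comp Computable.fst))
        Computable.snd)
      (h1.comp (Computable.fst.comp (Computable.fst.comp Computable.fst))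
        ((Computable.fst.comp (Computable.snd.comp (Computable.fst.comp Computable.fst))).pair
          Computable.snd)).to₂
    obtain ⟨r', h5, h6⟩ := ballr (γ := List ℕ × α × List β) (n := fun c => c.2.2.length)
      (p := fun c i => r (c, i))
      (Computable.list_length.comp (Computable.snd.comp Computable.snd)) h3
    refine Evt.ce ⟨fun l a => r' (l, a), h5, fun a => ⟨fun e => ?_, fun s e b hb => ?_⟩⟩
    · have h7 : ∀ᶠ s in atTop, ∀ b ∈ {b | b ∈ a.2}, ρ (rp x s) (a.1, b) = true :=
        (eventually_all_finite (List.finite_toSet a.2)).2 fun b hb => (h2 _).1 (e b hb)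
      filter_upwards [h7] with s hs
      exact (h6 _).2 fun i hi => (h4 _).2
        ⟨a.2[i], List.getElem?_eq_getElem hi, hs _ (List.getElem_mem hi)⟩
    · obtain ⟨i, hi, rfl⟩ := List.getElem_of_mem hb
      obtain ⟨b, e1, e2⟩ := (h4 _).1 ((h6 _).1 e i hi)
      simp only [List.getElem?_eq_getElem hi, Option.some.injEq] at e1
      rw [e1]
      exact (h2 _).2 s e2

end Pool.Agent.Lib.MP_fa224b_lc.C
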