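import Pool.Agent.Lib.MP_fa224b_lc.C.Basic

/-! Closure under finitary rules; enumerable graphs give Turing reductions. -/

namespace Pool.Agent.Lib.MP_fa224b_lc.C

open Encodable Denumerable

namespace KitB

variable {α : Type}

/-- entry `i` of `W` is justified by later entries -/
def Pt (Rl : List α → α → Prop) (W : List (List α × α)) (i : ℕ) : Prop :=
  ∃ e : List α × α, W[i]? = some e ∧ Rl e.1 e.2 ∧
    ∀ d ∈ e.1, ∃ q : ℕ × List α, W[q.1 + i + 1]? = some (q.2, d)

/-- derivations -/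
def Gd (Rl : List α → α → Prop) (W : List (List α × α)) : Prop :=
  ∀ i ∈ List.range W.length, Pt Rl W i

variable {Rl : List α → α → Prop}

theorem gd_cons {e : List α × α} {W : List (List α × α)} :
    Gd Rl (e :: W) ↔ (Rl e.1 e.2 ∧ ∀ d ∈ e.1, ∃ D, (D, d) ∈ W) ∧ Gd Rl W := by
  simp only [Gd, List.mem_range, List.length_cons]
  rw [Nat.forall_lt_succ_left]
  refine and_congr ⟨?_, ?_⟩ Iff.rfl
  · rintro ⟨e', h1, h2, h3⟩
    obtain rfl : e = e' := Option.some.inj h1
    refine ⟨h2, fun d hd => ?_⟩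
    obtain ⟨q, hq⟩ := h3 d hd
    exact ⟨q.2, List.mem_of_getElem? (l := W) (i := q.1) hq⟩
  · rintro ⟨h2, h3⟩
    refine ⟨e, rfl, h2, fun d hd => ?_⟩
    obtain ⟨D, hD⟩ := h3 d hd
    obtain ⟨j, hj⟩ := List.getElem?_of_mem hD
    exact ⟨(j, D), hj⟩

theorem gd_append {W W' : List (List α × α)} (h : Gd Rl W) (h' : Gd Rl W') : Gd Rl (W ++ W') := by
  induction W with
  | nil => exact h'
  | cons e W ih =>
    obtain ⟨⟨h1, h2⟩, h3⟩ := gd_cons.1 h
    exact gd_cons.2 ⟨⟨h1, fun d hd => (h2 d hd).imp fun D hD => List.mem_append_left _ hD⟩, ih h3⟩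

theorem cl_of_gd {W : List (List α × α)} (h : Gd Rl W) : ∀ e ∈ W, Cl Rl e.2 := by
  induction W with
  | nil => simp
  | cons e W ih =>
    obtain ⟨⟨h1, h2⟩, h3⟩ := gd_cons.1 h
    refine List.forall_mem_cons.2 ⟨.step e.1 e.2 (fun d hd => ?_) h1, ih h3⟩
    obtain ⟨D, hD⟩ := h2 d hd
    exact ih h3 _ hD

theorem collect (D : List α) (h : ∀ d ∈ D, ∃ q : List α × List (List α × α),
    Gd Rl ((q.1, d) :: q.2)) : ∃ W, Gd Rl W ∧ ∀ d ∈ D, ∃ D', (D', d) ∈ W := by
  induction D with
  | nil => exact ⟨[], by simp [Gd], by simp⟩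
  | cons d D ih =>
    obtain ⟨q, hq⟩ := h d (by simp)
    obtain ⟨W, h1, h2⟩ := ih fun d' hd' => h d' (by simp [hd'])
    exact ⟨_, gd_append hq h1, List.forall_mem_cons.2 ⟨⟨q.1, by simp⟩,
      fun d' hd' => (h2 d' hd').imp fun D' hD' => List.mem_append_right _ hD'⟩⟩

theorem cl_iff {a : α} :
    Cl Rl a ↔ ∃ q : List α × List (List α × α), Gd Rl ((q.1, a) :: q.2) := by
  refine ⟨fun h => ?_, fun ⟨q, hq⟩ => cl_of_gd hq (q.1, a) (by simp)⟩
  induction h with
  | step D a _ h2 ih =>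
    obtain ⟨W, h3, h4⟩ := collect D ih
    exact ⟨(D, W), gd_cons.2 ⟨⟨h2, h4⟩, h3⟩⟩

theorem congr [Primcodable α] {x : B} {E E' : α → Prop} (h : CEin x E) (H : ∀ a, E a ↔ E' a) :
    CEin x E' :=
  (funext fun a => propext (H a) : E = E') ▸ h

theorem of_pred (hA : StKitA) [Primcodable α] (x : B) {p : α → Prop} (hp : PrimrecPred p) :
    CEin x p := by
  obtain ⟨_, hp⟩ := hp
  exact congr (hA.1 α x _ hp.to_comp) fun a => decide_eq_true_iff

theorem ce_gd (hA : StKitA) [Primcodable α] {x : B}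
    (h : CEin x fun q : List α × α => Rl q.1 q.2) : CEin x (Gd Rl) := by
  obtain ⟨-, -, hand, -, hcomp, hex, hall⟩ := id hA
  have e3 : CEin x fun p : ((List (List α × α) × ℕ) × α) × (ℕ × List α) =>
      p.1.1.1[p.2.1 + p.1.1.2 + 1]? = some (p.2.2, p.1.2) :=
    of_pred hA x (Primrec.eq.comp
      (Primrec.list_getElem?.comp (Primrec.fst.comp (Primrec.fst.comp Primrec.fst))
        (Primrec.succ.comp (Primrec.nat_add.comp (Primrec.fst.comp Primrec.snd)
          (Primrec.snd.comp (Primrec.fst.comp Primrec.fst)))))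
      (Primrec.option_some.comp (Primrec.pair (Primrec.snd.comp Primrec.snd)
        (Primrec.snd.comp Primrec.fst))))
  have e2 := hall _ _ x _ (hex _ _ x _ e3)
  have e1 : CEin x fun p : (List (List α × α) × ℕ) × (List α × α) => p.1.1[p.1.2]? = some p.2 :=
    of_pred hA x (Primrec.eq.comp
      (Primrec.list_getElem?.comp (Primrec.fst.comp Primrec.fst) (Primrec.snd.comp Primrec.fst))
      (Primrec.option_some.comp Primrec.snd))
  have e0 : CEin x fun p : List (List α × α) × ℕ => Pt Rl p.1 p.2 :=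
    hex _ _ x _ (hand _ x _ _ e1 (hand _ x _ _ (hcomp _ _ x _ _ h Computable.snd)
      (hcomp _ _ x _ (fun p : (List (List α × α) × ℕ) × (List α × α) => (p.1, p.2.1)) e2
        (Computable.fst.pair (Computable.fst.comp Computable.snd)))))
  exact hcomp _ _ x _ (fun W : List (List α × α) => (W, List.range W.length)) (hall _ _ x _ e0)
    (Computable.id.pair (Primrec.list_range.comp Primrec.list_length).to_comp)

theorem find {g w : B} (hg : TLe g w) (h : ∀ n, ∃ m, g (Nat.pair n m) = 0) :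
    TLe (fun n => Nat.find (h n)) w := by
  refine TLe.trans (tle_iff.2 ⟨.rfind .orc, ?_⟩) hg
  funext n
  rw [ev_rfind]
  refine Part.eq_some_iff.2 ((mem_rf _ _).2 ⟨?_, fun m hm => ⟨_, Part.mem_some _,
    Nat.find_min (h n) hm⟩⟩)
  exact Part.mem_some_iff.2 (Nat.find_spec (h n)).symm

theorem tle_of_ce {x z : B} (h : CEin x fun q : ℕ × ℕ => z q.1 = q.2) : TLe z x := by
  obtain ⟨ρ, hρ, H⟩ := h
  have u1 : Computable fun p : ℕ => p.unpair.1 := Computable.fst.comp Computable.unpair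
  have u2 : Computable fun p : ℕ => p.unpair.2 := Computable.snd.comp Computable.unpair
  have hp : Computable₂ fun a p : ℕ =>
      cond (ρ (ofNat (List ℕ) a) (p.unpair.1, p.unpair.2.unpair.2)) 0 1 :=
    Computable.cond (hρ.comp ((Computable.ofNat _).comp Computable.fst)
      ((u1.comp Computable.snd).pair ((u2.comp u2).comp Computable.snd)))
      (Computable.const 0) (Computable.const 1)
  have hG := ((tc_rp.pre (u1.comp u2)).post₂ (TC.prim Computable.id) hp).tle x
  simp only [ofNat_encode, id] at hG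
  have hex : ∀ n, ∃ m, (fun p : ℕ => cond (ρ (rp x p.unpair.2.unpair.1)
      (p.unpair.1, p.unpair.2.unpair.2)) 0 1) (Nat.pair n m) = 0 := fun n => by
    obtain ⟨s, hs⟩ := (H (n, z n)).1 rfl
    exact ⟨Nat.pair s (z n), by simp [hs]⟩
  have h1 := ((TC.id.post u2).tle _).trans (find hG hex)
  have e : (fun n => (Nat.find (hex n)).unpair.2) = z := funext fun n => by
    have h2 := Nat.find_spec (hex n)
    generalize Nat.find (hex n) = m at h2 ⊢
    simp only [Nat.unpair_pair] at h2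
    refine ((H (n, _)).2 ⟨m.unpair.1, ?_⟩).symm
    by_contra h3
    rw [Bool.eq_false_iff.2 h3] at h2
    exact one_ne_zero h2
  exact e ▸ h1

end KitB

theorem stKitB (hA : StKitA) : StKitB := by
  refine ⟨fun α _ x Rl h => ?_, fun x z h => KitB.tle_of_ce h⟩
  refine KitB.congr (hA.2.2.2.2.2.1 _ _ x _ (hA.2.2.2.2.1 _ _ x _
    (fun p : α × (List α × List (List α × α)) => (p.2.1, p.1) :: p.2.2) (KitB.ce_gd hA h)
    (Computable.list_cons.comp ((Computable.fst.comp Computable.snd).pair Computable.fst)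
      (Computable.snd.comp Computable.snd)))) fun a => KitB.cl_iff.symm

end Pool.Agent.Lib.MP_fa224b_lc.C
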