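import Pool.Agent.Lib.MP_fa224b_lc.C.Basic
import Pool.Agent.Lib.MP_fa224b_lc.C.MDefs

/-! From the measure form to cones. -/

namespace Pool.Agent.Lib.MP_fa224b_lc.C

open MeasureTheory

namespace MainC

theorem le_joinl (s b : B) : TLe s (join s b) := by
  simpa using tc_evens.tle (join s b)

theorem le_joinr (s b : B) : TLe b (join s b) := by
  simpa using tc_odds.tle (join s b)

theorem cone (h4 : StPoint) {𝒜 : MeasurableSpace B} (h : Adequate 𝒜) {A : Set B}
    (hA : @MeasurableSet B 𝒜 A) (hc : ∀ z, ∃ x ∈ A, TLe z x) :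
    ∃ s, ∀ w, TLe s w → ∃ x ∈ A, TEq x w := by
  obtain ⟨s, h1, h2⟩ := h4 𝒜 h A hA hc
  exact ⟨s, fun w hw => ⟨_, h1 w, (tc_RI.tle _).trans (hw.join (TLe.refl w)), h2 w⟩⟩

theorem aemeas (h6 : StCode) (h7 : StHaar) {G : B → B}
    (hG : ∀ (ν : Measure B) [IsProbabilityMeasure ν], ν {x | ∀ n, x n < 293}ᶜ = 0 → ∀ n k,
      NullMeasurableSet {x | G x n = k} ν) : AEMeasurable (fun y => G (code y)) mu := by
  have := h7.1
  have hm : Measurable code := h6.2.2.2.1
  have : IsProbabilityMeasure (mu.map code) := Measure.isProbabilityMeasure_map hm.aemeasurable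
  have hb : MeasurableSet {x : B | ∀ n, x n < 293} :=
    measurableSet_setOfPred.2 (Measurable.forall fun n =>
      meas_prop₂ (measurable_pi_apply n) measurable_const fun a b => a < b)
  have h0 : (mu.map code) {x : B | ∀ n, x n < 293}ᶜ = 0 := by
    rw [Measure.map_apply hm hb.compl]
    convert measure_empty (μ := mu)
    ext y
    simpa using h6.2.2.1 y
  refine aemeasurable_pi_iff.2 fun n => NullMeasurable.aemeasurable ?_
  have hq : MeasurePreserving code mu (mu.map code) := ⟨hm, rfl⟩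
  refine @measurable_to_countable' ℕ (NullMeasurableSpace KK mu) _ _ _ _ fun k => ?_
  exact (hG _ h0 n k).preimage hq.quasiMeasurePreserving

theorem cofinal (h1 : StCore) (h3 : StNull) (h6 : StCode) (h7 : StHaar) {𝒜 : MeasurableSpace B}
    (h : Adequate 𝒜) {F : B → B} (hF : @Measurable B B 𝒜 MeasurableSpace.pi F)
    (hinv : ∀ x y, TEq x y → TEq (F x) (F y)) {c : B}
    (hc : ∀ v, {x | TLe c x ∧ F x = v}.Countable) (z : B) (hz : TLe c z) (N : Set KK)
    (hN : mu N = 0) : ∃ y, y ∉ N ∧ TLe z (F (iota z y)) := by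
  refine h1 z _ (aemeas (G := fun x => F (join z x)) h6 h7 fun ν _ h0 n k => h3 𝒜 h ν 293 h0 _
    ((((@measurable_pi_apply ℕ (fun _ => ℕ) _ n).comp hF).comp (h.preimage _ (meas_join z)))
      (measurableSet_singleton k))) (fun y y' => hinv _ _) (fun v => ?_) N hN
  have hi : Function.Injective (iota z) := fun y y' e =>
    h6.2.1 (by simpa [iota] using congrArg odds e)
  refine Set.Countable.mono (fun y hy => ?_) ((hc v).preimage_of_injOn hi.injOn)
  exact ⟨hz.trans (le_joinl _ _), hy⟩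

theorem ofKey (h2 : StDiag) (h4 : StPoint) (h5 : StSplit) (h6 : StCode) (h7 : StHaar)
    {𝒜 : MeasurableSpace B} (h : Adequate 𝒜) {F : B → B}
    (hF : @Measurable B B 𝒜 MeasurableSpace.pi F) (hinv : ∀ x y, TEq x y → TEq (F x) (F y))
    {c : B} (key : ∀ z, TLe c z → ∀ N : Set KK, mu N = 0 → ∃ y, y ∉ N ∧ TLe z (F (iota z y))) :
    (∃ c', ∀ x, TLe c' x → TLe x (F x)) ∧ ∃ c', ∀ w, TLe c' w → ∃ x, TEq (F x) w := by
  have := h7.1
  obtain ⟨dg, hdg, hN⟩ := h2 KK mu iota h6.2.2.2.2
  have hid : @Measurable B B 𝒜 MeasurableSpace.pi fun x => x := h.meas measurable_id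
  have hA : @MeasurableSet B 𝒜 {x | TLe (evens x) (F x) ∧ ¬ TLe (dg (evens x)) x} :=
    measurableSet_setOfPred.2 ((meas_tle (h.meas tc_evens.meas) hF).and
      (meas_tle (h.meas (hdg.comp tc_evens.meas)) hid).not)
  obtain ⟨s, hs1, hs2⟩ := h4 𝒜 h _ hA fun w => by
    obtain ⟨y, hy1, hy2⟩ := key (join w c) (le_joinr _ _) _ (hN (join w c))
    refine ⟨iota (join w c) y, ⟨?_, ?_⟩, (le_joinl w c).trans (le_joinl _ _)⟩
    · simpa [iota] using hy2
    · simpa [iota] using hy1
  have hH : TC fun x => evens (RI (join (evens x) (join (evens x) (odds x)))) :=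
    tc_evens.comp (tc_RI.comp (tc_evens.join (tc_evens.join tc_odds)))
  have hsplit : ∀ d, TLe s d → TLe d (join s (F d)) := by
    rcases h5 (fun s b => evens (RI (join s (join s b)))) hH s with ⟨b₀, n, hb⟩ | hb
    · exfalso
      set v := dg (evens (RI (join s (join s b₀)))) with hv
      let b : B := fun i => if i < n then b₀ i else v (i - n)
      have e := hb b fun i hi => if_pos hi
      refine (hs1 (join s b)).2 ?_
      rw [e, ← hv]
      refine TLe.trans ?_ ((le_joinr s b).trans (hs2 _))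
      have : TC fun x m => x (m + n) :=
        TC.id.pre (Primrec.nat_add.comp Primrec.id (Primrec.const n)).to_comp
      have e2 : (fun m => b (m + n)) = v := funext fun m => by simp [b]
      exact e2 ▸ this.tle b
    · intro d hd
      obtain ⟨b, hb1, hb2⟩ := hb d
      have hx := hs1 (join s b)
      have hsx : TLe s (RI (join s (join s b))) := (le_joinl s b).trans (hs2 _)
      have e : TEq (RI (join s (join s b))) d :=
        ⟨(tc_RI.tle _).trans (hd.join (hd.join (hb1.trans (hd.join (TLe.refl d))))),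
          hb2.trans (hsx.join (tc_evens.tle _))⟩
      exact hb2.trans ((le_joinl _ _).join ((hx.1.trans (hinv _ _ e).1).trans (le_joinr _ _)))
  obtain ⟨s', hs'⟩ := cone h4 h (A := {x | TLe s (F x)})
    (measurableSet_setOfPred.2 (meas_tle measurable_const hF)) fun w => by
      obtain ⟨y, -, hy⟩ := key (join (join w s) c) (le_joinr _ _) ∅ measure_empty
      exact ⟨_, ((le_joinr w s).trans (le_joinl _ _)).trans hy,
        ((le_joinl w s).trans (le_joinl _ _)).trans (le_joinl _ _)⟩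
  have main : ∀ x, TLe (join s s') x → TLe x (F x) := by
    intro x hx
    obtain ⟨x', h1', h2'⟩ := hs' x ((le_joinr _ _).trans hx)
    exact (hsplit x ((le_joinl _ _).trans hx)).trans
      ((TLe.trans h1' (hinv _ _ h2').1).join (TLe.refl _))
  refine ⟨⟨_, main⟩, ?_⟩
  have hR : @MeasurableSet B 𝒜 {w | ∃ e, TLe (F (tot e w)) w ∧ TLe w (F (tot e w))} :=
    measurableSet_setOfPred.2 (Measurable.exists fun e =>
      (meas_tle (hF.comp (h.preimage _ (meas_tot e))) hid).and
        (meas_tle hid (hF.comp (h.preimage _ (meas_tot e)))))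
  obtain ⟨s'', hs''⟩ := cone h4 h hR fun u => by
    have hx := main (join u (join s s')) (le_joinr _ _)
    obtain ⟨e, he⟩ := tle_iff_ev.1 hx
    refine ⟨F (join u (join s s')), ⟨e, ?_⟩, (le_joinl _ _).trans hx⟩
    rw [he.eq_tot]
    exact ⟨TLe.refl _, TLe.refl _⟩
  refine ⟨s'', fun w hw => ?_⟩
  obtain ⟨x, ⟨e, he⟩, hxw⟩ := hs'' w hw
  exact ⟨tot e x, TEq.trans he hxw⟩

end MainC

theorem stMain (h1 : StCore) (h2 : StDiag) (h3 : StNull) (h4 : StPoint) (h5 : StSplit)
    (h6 : StCode) (h7 : StHaar) : StMain := fun _ h _ hF hinv _ hc =>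
  MainC.ofKey h2 h4 h5 h6 h7 h hF hinv (MainC.cofinal h1 h3 h6 h7 h hF hinv hc)

end Pool.Agent.Lib.MP_fa224b_lc.C
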