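import Pool.Agent.Lib.MP_fa224b_lc.C.MainC
import Pool.Agent.Lib.MP_fa224b_lc.C.UDefs

/-! The dichotomy. -/

namespace Pool.Agent.Lib.MP_fa224b_lc.C

open MeasureTheory

namespace MainU

theorem null_pre {X : Type} [MeasurableSpace X] (μ : Measure X) [IsProbabilityMeasure μ]
    {φ : X → B} (hφ : Measurable φ) {q : ℕ} (hq : ∀ x n, φ x n < q) {A : Set B}
    (hA : ∀ (ν : Measure B) [IsProbabilityMeasure ν], ν {x | ∀ n, x n < q}ᶜ = 0 →
      NullMeasurableSet A ν) : NullMeasurableSet (φ ⁻¹' A) μ := by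
  have : IsProbabilityMeasure (μ.map φ) := Measure.isProbabilityMeasure_map hφ.aemeasurable
  have hb : MeasurableSet {x : B | ∀ n, x n < q} :=
    measurableSet_setOfPred.2 (Measurable.forall fun n =>
      meas_prop₂ (measurable_pi_apply n) measurable_const fun a b => a < b)
  have h0 : (μ.map φ) {x : B | ∀ n, x n < q}ᶜ = 0 := by
    rw [Measure.map_apply hφ hb.compl]
    convert measure_empty (μ := μ)
    ext y
    simpa using hq y
  have hp : MeasurePreserving φ μ (μ.map φ) := ⟨hφ, rfl⟩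
  exact (hA _ h0).preimage hp.quasiMeasurePreserving

theorem meas_vals : Measurable vals := measurable_pi_lambda _ fun n =>
  (measurable_of_countable ZMod.val).comp (measurable_pi_apply n)

theorem meas_bits : Measurable bits := measurable_pi_lambda _ fun n =>
  (measurable_of_countable Bool.toNat).comp (measurable_pi_apply n)

theorem teq_join {a a' b b' : B} (h : TEq a a') (h' : TEq b b') : TEq (join a b) (join a' b') :=
  ⟨(TLe.trans h.1 (MainC.le_joinl _ _)).join (TLe.trans h'.1 (MainC.le_joinr _ _)),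
    (TLe.trans h.2 (MainC.le_joinl _ _)).join (TLe.trans h'.2 (MainC.le_joinr _ _))⟩

theorem teq_assoc (a b c : B) : TEq (join a (join b c)) (join (join a b) c) :=
  ⟨((MainC.le_joinl a b).trans (MainC.le_joinl _ _)).join
    (((MainC.le_joinr a b).trans (MainC.le_joinl _ _)).join (MainC.le_joinr _ _)),
  ((MainC.le_joinl _ _).join ((MainC.le_joinl b c).trans (MainC.le_joinr _ _))).join
    ((MainC.le_joinr b c).trans (MainC.le_joinr _ _))⟩

end MainU

open MainU MainC in
theorem dichotomy (h1 : StCoreU) (h2 : StDiag) (h3 : StNull) (h4 : StPoint) (h5 : StSplit)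
    (h6 : StCode) (h7 : StHaar) (h8 : StRep) (h9 : StConv) (h10 : StZeroOne)
    {𝒜 : MeasurableSpace B} (h : Adequate 𝒜) {F : B → B}
    (hF : @Measurable B B 𝒜 MeasurableSpace.pi F) (hinv : ∀ x y, TEq x y → TEq (F x) (F y)) :
    ((∃ c', ∀ x, TLe c' x → TLe x (F x)) ∧ ∃ c', ∀ w, TLe c' w → ∃ x, TEq (F x) w) ∨
      ∀ c, ∃ z, TLe c z ∧ ∃ v, ∀ᵐ a ∂coin, TEq (F (join z (bits a))) v := by
  have hS : ∀ v x y, TEq x y → x ∈ {x | TEq (F x) v} → y ∈ {x | TEq (F x) v} :=
    fun v x y e hx => (hinv x y e).symm.trans hx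
  have hm : ∀ z v, @MeasurableSet B 𝒜 {x | TEq (F (join z x)) v} := fun z v =>
    measurableSet_setOfPred.2
      ((meas_tle (hF.comp (h.preimage _ (meas_join z))) measurable_const).and
        (meas_tle measurable_const (hF.comp (h.preimage _ (meas_join z)))))
  by_cases H : ∃ c, ∀ z, TLe c z → ∀ v, coin {a | TEq (F (join z (bits a))) v} = 0
  · obtain ⟨c, hc⟩ := H
    refine Or.inl (ofKey h2 h4 h5 h6 h7 h hF hinv (c := c) fun z hz N hN => ?_)
    refine h1 z _ (aemeas (G := fun x => F (join z x)) h6 h7 fun ν _ h0 n k => h3 𝒜 h ν 293 h0 _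
      ((((@measurable_pi_apply ℕ (fun _ => ℕ) _ n).comp hF).comp (h.preimage _ (meas_join z)))
        (measurableSet_singleton k))) (fun y y' => hinv _ _) (fun j κ hκ y => ?_) N hN
    obtain ⟨y₀, d, hd⟩ := h8 j κ hκ y
    have := h9 {x | TEq (F x) (F (iota z y))} (join z (code y₀)) (hS _)
      (null_pre nu meas_vals (fun c n => ZMod.val_lt (c n))
        fun ν _ h0 => h3 𝒜 h ν 293 h0 _ (hm _ _))
      (fun r => hc _ ((hz.trans (le_joinl _ _)).trans (le_joinl _ _)) _) d
    refine measure_mono_null (fun e he => ?_) this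
    have e1 := hinv _ _ ((teq_join (TEq.refl z) (hd e)).trans (teq_assoc _ _ _))
    exact e1.symm.trans (by rw [← show F (iota z (κ e * y)) = F (iota z y) from he]; exact TEq.refl _)
  · push Not at H
    refine Or.inr fun c => ?_
    obtain ⟨z, hz, v, hv⟩ := H c
    exact ⟨z, hz, v, h10 {x | TEq (F x) v} z (hS v)
      (null_pre coin meas_bits (fun a n => Bool.toNat_lt (a n))
        fun ν _ h0 => h3 𝒜 h ν 2 h0 _ (hm _ _)) hv⟩

end Pool.Agent.Lib.MP_fa224b_lc.C
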