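import Pool.Agent.Lib.MP_fa224b_lc.C.Basic
import Pool.Agent.Lib.MP_fa224b_lc.C.MDefs

/-! All letters lie in the closed group. -/

namespace Pool.Agent.Lib.MP_fa224b_lc.C

open Filter Topology

namespace Mem

/-- all elementary matrices with entry `r` lie in the group -/
def Gd (r : ∀ s, Rg s) : Prop := ∀ a b : Fin 3, a ≠ b → E a b r ∈ KK

theorem E_zero (hE : StElem) (a b : Fin 3) : E a b 0 = 1 :=
  funext fun s => (hE (Rg s)).1 a b

theorem E_add (hE : StElem) (a b : Fin 3) (r r' : ∀ s, Rg s) :
    E a b (r + r') = E a b r * E a b r' :=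
  funext fun s => (hE (Rg s)).2.1 a b (r s) (r' s)

theorem E_neg (hE : StElem) (a b : Fin 3) (r : ∀ s, Rg s) : E a b (-r) = (E a b r)⁻¹ := by
  apply eq_inv_of_mul_eq_one_left
  rw [← E_add hE, neg_add_cancel, E_zero hE]

theorem E_comm (hE : StElem) {a b c : Fin 3} {r r' : ∀ s, Rg s} (h1 : a ≠ b) (h2 : b ≠ c)
    (h3 : a ≠ c) (hr : E a b r ∈ KK) (hr' : E b c r' ∈ KK) : E a c (r * r') ∈ KK := by
  have h : E a b r * E b c r' * E a b (-r) * E b c (-r') = E a c (r * r') :=
    funext fun s => ((hE (Rg s)).2.2.1 a b c (r s) (r' s) h1 h2 h3).2.1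
  rw [← h, E_neg hE, E_neg hE]
  exact mul_mem (mul_mem (mul_mem hr hr') (inv_mem hr)) (inv_mem hr')

theorem gen_mem (i : Fin 5) (c : ZMod 293) : gen i c ∈ KK :=
  Subgroup.le_topologicalClosure _ (Subgroup.subset_closure ⟨(i, c), rfl⟩)

theorem gd_of (r : ∀ s, Rg s) (h01 : E 0 1 r ∈ KK) (h02 : E 0 2 r ∈ KK) (h10 : E 1 0 r ∈ KK)
    (h12 : E 1 2 r ∈ KK) (h20 : E 2 0 r ∈ KK) (h21 : E 2 1 r ∈ KK) : Gd r := by
  intro a b hab
  fin_cases a <;> fin_cases b <;> first | exact absurd rfl hab | assumption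

theorem gd_one (hE : StElem) : Gd 1 := by
  have e : (fun s => (1 : ZMod 293) • (1 : Rg s)) = (1 : ∀ s, Rg s) := funext fun s => one_smul _ _
  have h01 : E 0 1 1 ∈ KK := e ▸ gen_mem 0 1
  have h12 : E 1 2 1 ∈ KK := e ▸ gen_mem 1 1
  have h20 : E 2 0 1 ∈ KK := e ▸ gen_mem 2 1
  refine gd_of 1 h01 ?_ ?_ h12 h20 ?_
  · simpa using E_comm hE (by decide) (by decide) (by decide) h01 h12
  · simpa using E_comm hE (by decide) (by decide) (by decide) h12 h20
  · simpa using E_comm hE (by decide) (by decide) (by decide) h20 h01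

theorem gd_spread (hE : StElem) {r : ∀ s, Rg s} (h20 : E 2 0 r ∈ KK) : Gd r := by
  have h1 := gd_one hE
  have h21 : E 2 1 r ∈ KK := by
    simpa using E_comm hE (by decide) (by decide) (by decide) h20 (h1 0 1 (by decide))
  have h10 : E 1 0 r ∈ KK := by
    simpa using E_comm hE (by decide) (by decide) (by decide) (h1 1 2 (by decide)) h20
  have h01 : E 0 1 r ∈ KK := by
    simpa using E_comm hE (by decide) (by decide) (by decide) (h1 0 2 (by decide)) h21
  have h12 : E 1 2 r ∈ KK := by
    simpa using E_comm hE (by decide) (by decide) (by decide) h10 (h1 0 2 (by decide))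
  have h02 : E 0 2 r ∈ KK := by
    simpa using E_comm hE (by decide) (by decide) (by decide) h01 (h1 1 2 (by decide))
  exact gd_of r h01 h02 h10 h12 h20 h21

theorem gd_zero (hE : StElem) : Gd 0 := fun a b _ => by rw [E_zero hE]; exact one_mem _

theorem gd_add (hE : StElem) {r r' : ∀ s, Rg s} (h : Gd r) (h' : Gd r') : Gd (r + r') :=
  fun a b hab => by rw [E_add hE]; exact mul_mem (h a b hab) (h' a b hab)

theorem gd_mul (hE : StElem) {r r' : ∀ s, Rg s} (h : Gd r) (h' : Gd r') : Gd (r * r') :=
  gd_spread hE (E_comm hE (b := 1) (by decide) (by decide) (by decide) (h 2 1 (by decide))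
    (h' 1 0 (by decide)))

theorem gd_pow (hE : StElem) {r : ∀ s, Rg s} (h : Gd r) (n : ℕ) : Gd (r ^ n) := by
  induction n with
  | zero => rw [pow_zero]; exact gd_one hE
  | succ n ih => rw [pow_succ]; exact gd_mul hE ih h

theorem gd_sum (hE : StElem) {r : ℕ → ∀ s, Rg s} (h : ∀ j, Gd (r j)) (n : ℕ) :
    Gd (∑ j ∈ Finset.range n, r j) := by
  induction n with
  | zero => rw [Finset.sum_range_zero]; exact gd_zero hE
  | succ n ih => rw [Finset.sum_range_succ]; exact gd_add hE ih (h n)

theorem gd_X (hE : StElem) : Gd mX := by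
  have e : (fun s => (1 : ZMod 293) • mX s) = mX := funext fun s => one_smul _ _
  exact gd_spread hE (e ▸ gen_mem 3 1)

theorem gd_Y (hE : StElem) : Gd mY := by
  have e : (fun s => (1 : ZMod 293) • mY s) = mY := funext fun s => one_smul _ _
  exact gd_spread hE (e ▸ gen_mem 4 1)

theorem gd_smul (hE : StElem) {r : ∀ s, Rg s} (h : Gd r) (c : ZMod 293) :
    Gd fun s => c • r s := by
  have e : (fun s => c • r s) = (fun s => c • (1 : Rg s)) * r :=
    funext fun s => by simp
  rw [e]
  exact gd_mul hE (gd_spread hE (gen_mem 2 c)) h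

theorem gd_lim {r : ℕ → ∀ s, Rg s} {r' : ∀ s, Rg s} (h : ∀ n, Gd (r n))
    (hl : ∀ s, ∀ᶠ n in atTop, r n s = r' s) : Gd r' := by
  intro a b hab
  have ht : Tendsto (fun n => E a b (r n)) atTop (𝓝 (E a b r')) := by
    refine tendsto_pi_nhds.2 fun s => tendsto_const_nhds.congr' ?_
    filter_upwards [hl s] with n hn
    exact congrArg (elem a b) hn.symm
  exact (Subgroup.isClosed_topologicalClosure _).mem_of_tendsto ht
    (Eventually.of_forall fun n => h n a b hab)

theorem gd_T (hE : StElem) (hL : StLine) (z : B) : Gd (mT z) := by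
  refine gd_lim (r := fun n => ∑ j ∈ Finset.range n,
    if InJ z j then mX * mY ^ (j + 1) * mX else 0) (fun n => gd_sum hE (fun j => ?_) n) fun s => ?_
  · split
    · exact gd_mul hE (gd_mul hE (gd_X hE) (gd_pow hE (gd_Y hE) _)) (gd_X hE)
    · exact gd_zero hE
  · filter_upwards [eventually_gt_atTop s.unpair.1] with n hn
    rw [Finset.sum_apply, Finset.sum_eq_single s.unpair.1]
    · unfold mT
      split <;> rfl
    · intro j _ hj
      split
      · ext u w
        have := hL s j u w
        rw [if_neg fun h => hj h.1] at this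
        exact this
      · rfl
    · intro h
      exact absurd (Finset.mem_range.2 hn) h

end Mem

open Mem in
theorem stMem (hE : StElem) (hL : StLine) : StMem := by
  intro z t
  by_cases h : lA t = lB t
  · have e : el0 z t = 1 := funext fun s => by
      simp only [el0, E, elem, dif_pos h]
      rfl
    rw [e]
    exact one_mem _
  · refine gd_smul hE (r := rel z (lI t)) ?_ _ _ _ h
    have e : ∀ i, rel z i = if i = 0 then 1 else if i = 1 then mX else if i = 2 then mY else mT z :=
      fun i => funext fun s => by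
        unfold rel
        split_ifs <;> rfl
    rw [e]
    split_ifs
    · exact gd_one hE
    · exact gd_X hE
    · exact gd_Y hE
    · exact gd_T hE hL z

end Pool.Agent.Lib.MP_fa224b_lc.C
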