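import Pool.Agent.Lib.MP_fa224b_lc.C.Basic

/-! A countable-to-one function is moved by a dense set of translations. -/

namespace Pool.Agent.Lib.MP_fa224b_lc.C

open MeasureTheory Filter Topology
open scoped symmDiff

namespace Move

variable {K : Type} [Group K] [TopologicalSpace K] [IsTopologicalGroup K] [CompactSpace K]
  [T2Space K] [SecondCountableTopology K] [MeasurableSpace K] [BorelSpace K] (μ : Measure K)
  [IsProbabilityMeasure μ] [μ.IsMulRightInvariant]

/-- continuity of translations in measure -/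
theorem cont {g : ℕ → K} {g₀ : K} (hg : Tendsto g atTop (𝓝 g₀)) {A : Set K}
    (hA : MeasurableSet A) :
    Tendsto (fun n => μ.real (((· * g n) ⁻¹' A) ∆ ((· * g₀) ⁻¹' A))) atTop (𝓝 0) := by
  let F : C(K, C(K, K)) := ContinuousMap.curry ⟨fun p : K × K => p.2 * p.1, by fun_prop⟩
  exact (ENNReal.tendsto_toReal ENNReal.zero_ne_top).comp
    (tendsto_measure_symmDiff_preimage_nhds_zero (μ := μ) (ν := μ) (f := fun n => F (g n))
      (g := F g₀) ((F.continuous.tendsto g₀).comp hg)
      (Eventually.of_forall fun n => measurePreserving_mul_right μ (g n))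
      (measurePreserving_mul_right μ g₀) hA.nullMeasurableSet (measure_ne_top _ _))

/-- lower semicontinuity of the measure of the moved points -/
theorem lsc {f : K → B} (hf : Measurable f) {g : ℕ → K} {g₀ : K} (hg : Tendsto g atTop (𝓝 g₀))
    (h : μ {y | f (y * g₀) ≠ f y} = 1) : ∃ n, 1 / 2 < μ.real {y | f (y * g n) ≠ f y} := by
  let A : ℕ → Set K := fun k => {y | f y k.unpair.1 = k.unpair.2}
  have hA : ∀ k, MeasurableSet (A k) := fun k =>
    ((measurable_pi_apply k.unpair.1).comp hf) (measurableSet_singleton k.unpair.2)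
  let U : ℕ → Set K := fun n => {y | ∃ k < n, y ∈ A k ∧ y * g₀ ∉ A k}
  have hU : Monotone U := fun n m hnm y ⟨k, h1, h2⟩ => ⟨k, h1.trans_le hnm, h2⟩
  have e : ⋃ n, U n = {y | f (y * g₀) ≠ f y} := by
    ext y
    simp only [Set.mem_iUnion, U, A, Set.mem_ofPred_eq]
    constructor
    · rintro ⟨n, k, -, h1, h2⟩ e
      exact h2 (e ▸ h1)
    · intro e
      obtain ⟨i, hi⟩ := Function.ne_iff.1 e
      exact ⟨_, Nat.pair i (f y i), Nat.lt_succ_self _, by simp, by simpa using hi⟩
  have t1 := (ENNReal.tendsto_toReal ENNReal.one_ne_top).comp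
    (h ▸ e ▸ tendsto_measure_iUnion_atTop (μ := μ) hU)
  obtain ⟨N, hN⟩ := (t1.eventually (lt_mem_nhds (show (3 / 4 : ℝ) < _ by norm_num))).exists
  have t2 := tendsto_finsetSum (Finset.range N) fun k _ => cont μ hg (hA k)
  obtain ⟨n, hn⟩ := (t2.eventually (gt_mem_nhds (show _ < (1 / 4 : ℝ) by simp))).exists
  refine ⟨n, ?_⟩
  have s : U N ⊆ {y | f (y * g n) ≠ f y} ∪
      ⋃ k ∈ Finset.range N, ((· * g n) ⁻¹' A k) ∆ ((· * g₀) ⁻¹' A k) := by
    rintro y ⟨k, h1, h2, h3⟩
    by_cases e : f (y * g n) = f y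
    · exact Or.inr (Set.mem_biUnion (Finset.mem_coe.2 (Finset.mem_range.2 h1))
        (Or.inl ⟨show f (y * g n) _ = _ from e ▸ h2, h3⟩))
    · exact Or.inl e
  have := (measureReal_mono s (measure_ne_top μ _)).trans ((measureReal_union_le _ _).trans
    (add_le_add_right (measureReal_biUnion_finset_le _ _) _))
  change 3 / 4 < μ.real (U N) at hN
  linarith

end Move

open Move in
theorem stMove : StMove := by
  intro K _ _ _ _ _ _ _ _ μ _ _ _ f Ω₀ κ hf hΩ h0 hc hκ hi
  let e : ℝ ≃ᵐ (ℕ → Bool) := PolishSpace.measurableEquivNatBoolOfNotCountable not_countable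
  have hm : Measurable fun p : K × ℝ => p.1 * κ (e p.2) :=
    measurable_fst.mul (hκ.measurable.comp (e.measurable.comp measurable_snd))
  have h1 : ∀ᵐ y ∂μ, ∀ᵐ t : ℝ, ¬ (y * κ (e t) ∈ Ω₀ ∧ f (y * κ (e t)) = f y) :=
    Eventually.of_forall fun y => measure_eq_zero_iff_ae_notMem.1
      (((hc (f y)).preimage_of_injOn (f := fun t => y * κ (e t))
        fun a _ b _ h => e.injective (hi (mul_left_cancel h))).measure_zero volume)
  obtain ⟨t, ht⟩ := ((Measure.ae_ae_comm ((hΩ.preimage hm).inter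
    (measurableSet_eq_fun (hf.comp hm) (hf.comp measurable_fst))).compl).1 h1).exists
  have h2 : ∀ᵐ y ∂μ, y * κ (e t) ∈ Ω₀ :=
    (measurePreserving_mul_right μ (κ (e t))).quasiMeasurePreserving.ae (p := (· ∈ Ω₀)) h0
  have h3 : μ {y | f (y * κ (e t)) ≠ f y} = 1 := by
    rw [← measure_univ (μ := μ)]
    refine measure_congr (eventuallyEq_univ.2 ?_)
    filter_upwards [ht, h2] with y a b e' using a ⟨b, e'⟩
  have h4 : Tendsto (fun n : ℕ => fun i => (Nat.ofBits fun j : Fin n => e t j).testBit i) atTop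
      (𝓝 (e t)) := tendsto_pi_nhds.2 fun i => tendsto_const_nhds.congr' (by
    filter_upwards [eventually_gt_atTop i] with n hn
    rw [Nat.testBit_ofBits_lt _ _ hn])
  obtain ⟨n, hn⟩ := lsc μ hf ((hκ.tendsto _).comp h4) h3
  exact ⟨_, hn⟩

end Pool.Agent.Lib.MP_fa224b_lc.C
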