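import Pool.Agent.Lib.MP_fa224b_lc.C.Basic
import Pool.Agent.Lib.MP_fa224b_lc.C.UDefs

/-! A function with null fibres along cosets is moved by a dense set of left translations. -/

namespace Pool.Agent.Lib.MP_fa224b_lc.C

open MeasureTheory Filter Topology
open scoped symmDiff

namespace MoveL

variable {K : Type} [Group K] [TopologicalSpace K] [IsTopologicalGroup K] [CompactSpace K]
  [T2Space K] [SecondCountableTopology K] [MeasurableSpace K] [BorelSpace K] (μ : Measure K)
  [IsProbabilityMeasure μ] [μ.IsMulLeftInvariant]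

/-- continuity of translations in measure -/
theorem cont {g : ℕ → K} {g₀ : K} (hg : Tendsto g atTop (𝓝 g₀)) {A : Set K}
    (hA : MeasurableSet A) :
    Tendsto (fun n => μ.real (((g n * ·) ⁻¹' A) ∆ ((g₀ * ·) ⁻¹' A))) atTop (𝓝 0) := by
  let F : C(K, C(K, K)) := ContinuousMap.curry ⟨fun p : K × K => p.1 * p.2, by fun_prop⟩
  exact (ENNReal.tendsto_toReal ENNReal.zero_ne_top).comp
    (tendsto_measure_symmDiff_preimage_nhds_zero (μ := μ) (ν := μ) (f := fun n => F (g n))
      (g := F g₀) ((F.continuous.tendsto g₀).comp hg)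
      (Eventually.of_forall fun n => measurePreserving_mul_left μ (g n))
      (measurePreserving_mul_left μ g₀) hA.nullMeasurableSet (measure_ne_top _ _))

/-- lower semicontinuity of the measure of the moved points -/
theorem lsc {f : K → B} (hf : Measurable f) {g : ℕ → K} {g₀ : K} (hg : Tendsto g atTop (𝓝 g₀))
    (h : μ {y | f (g₀ * y) ≠ f y} = 1) : ∃ n, 1 / 2 < μ.real {y | f (g n * y) ≠ f y} := by
  let A : ℕ → Set K := fun k => {y | f y k.unpair.1 = k.unpair.2}
  have hA : ∀ k, MeasurableSet (A k) := fun k =>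
    ((measurable_pi_apply k.unpair.1).comp hf) (measurableSet_singleton k.unpair.2)
  let U : ℕ → Set K := fun n => {y | ∃ k < n, y ∈ A k ∧ g₀ * y ∉ A k}
  have hU : Monotone U := fun n m hnm y ⟨k, h1, h2⟩ => ⟨k, h1.trans_le hnm, h2⟩
  have e : ⋃ n, U n = {y | f (g₀ * y) ≠ f y} := by
    ext y
    simp only [Set.mem_iUnion, U, A, Set.mem_ofPred_eq]
    constructor
    · rintro ⟨n, k, -, h1, h2⟩ e
      exact h2 (e ▸ h1)
    · intro e
      obtain ⟨i, hi⟩ := Function.ne_iff.1 e
      exact ⟨_, Nat.pair i (f y i), Nat.lt_succ_self _, by simp, by simpa using hi⟩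
  have t1 := (ENNReal.tendsto_toReal ENNReal.one_ne_top).comp
    (h ▸ e ▸ tendsto_measure_iUnion_atTop (μ := μ) hU)
  obtain ⟨N, hN⟩ := (t1.eventually (lt_mem_nhds (show (3 / 4 : ℝ) < _ by norm_num))).exists
  have t2 := tendsto_finsetSum (Finset.range N) fun k _ => cont μ hg (hA k)
  obtain ⟨n, hn⟩ := (t2.eventually (gt_mem_nhds (show _ < (1 / 4 : ℝ) by simp))).exists
  refine ⟨n, ?_⟩
  have s : U N ⊆ {y | f (g n * y) ≠ f y} ∪
      ⋃ k ∈ Finset.range N, ((g n * ·) ⁻¹' A k) ∆ ((g₀ * ·) ⁻¹' A k) := by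
    rintro y ⟨k, h1, h2, h3⟩
    by_cases e : f (g n * y) = f y
    · exact Or.inr (Set.mem_biUnion (Finset.mem_coe.2 (Finset.mem_range.2 h1))
        (Or.inl ⟨show f (g n * y) _ = _ from e ▸ h2, h3⟩))
    · exact Or.inl e
  have := (measureReal_mono s (measure_ne_top μ _)).trans ((measureReal_union_le _ _).trans
    (add_le_add_right (measureReal_biUnion_finset_le _ _) _))
  change 3 / 4 < μ.real (U N) at hN
  linarith

/-- a number with prescribed first digits -/
theorem digs (n : ℕ) : ∀ c : ZZ, ∃ m, ∀ i < n, dig m i = (c i).val := by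
  induction n with
  | zero => exact fun c => ⟨0, fun i h => absurd h i.not_lt_zero⟩
  | succ n ih =>
    intro c
    obtain ⟨m, hm⟩ := ih fun i => c (i + 1)
    have h0 : (c 0).val < 293 := ZMod.val_lt _
    refine ⟨(c 0).val + 293 * m, fun i hi => ?_⟩
    cases i with
    | zero =>
      simp only [dig, pow_zero, Nat.div_one]
      omega
    | succ i =>
      rw [← hm i (by omega), dig, dig, pow_succ', ← Nat.div_div_eq_div_mul,
        show ((c 0).val + 293 * m) / 293 = m by omega]

end MoveL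

open MoveL in
theorem stMoveL : StMoveL := by
  intro K _ _ _ _ _ _ _ _ μ _ _ _ f g κ hg hfg hκ h0
  let N : Set K := toMeasurable μ {y | ¬ f y = g y}
  have hN : MeasurableSet N := measurableSet_toMeasurable _ _
  have N0 : ∀ᵐ y ∂μ, y ∉ N := measure_eq_zero_iff_ae_notMem.1
    ((measure_toMeasurable _).trans (ae_iff.1 hfg))
  have hm : Measurable fun p : ZZ × K => κ p.1 * p.2 :=
    (hκ.measurable.comp measurable_fst).mul measurable_snd
  have h1 : ∀ᵐ y ∂μ, ∀ᵐ c ∂nu, κ c * y ∉ N :=
    (Measure.ae_ae_comm (μ := nu) (ν := μ) (p := fun c y => κ c * y ∉ N)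
      (hN.preimage hm).compl).1 (Eventually.of_forall fun c =>
        (measurePreserving_mul_left μ (κ c)).quasiMeasurePreserving.ae (p := (· ∉ N)) N0)
  have h2 : ∀ᵐ y ∂μ, ∀ᵐ c ∂nu, g (κ c * y) ≠ g y := by
    filter_upwards [h1, hfg] with y a b
    filter_upwards [a, measure_eq_zero_iff_ae_notMem.1 (h0 y)] with c a' b' e
    refine b' ?_
    have : f (κ c * y) = g (κ c * y) := by
      by_contra n
      exact a' (subset_toMeasurable _ _ n)
    exact this.trans (e.trans b.symm)
  obtain ⟨c, hc⟩ := ((Measure.ae_ae_comm (μ := nu) (ν := μ) (p := fun c y => g (κ c * y) ≠ g y)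
    (measurableSet_eq_fun (hg.comp hm) (hg.comp measurable_snd)).compl).2 h2).exists
  have h3 : μ {y | g (κ c * y) ≠ g y} = 1 := by
    rw [← measure_univ (μ := μ)]
    exact measure_congr (eventuallyEq_univ.2 hc)
  choose m hm' using fun n => digs n c
  have h4 : Tendsto (fun n : ℕ => fun i => (dig (m n) i : ZMod 293)) atTop (𝓝 c) :=
    tendsto_pi_nhds.2 fun i => tendsto_const_nhds.congr' (by
      filter_upwards [eventually_gt_atTop i] with n hn
      rw [hm' n i hn, ZMod.natCast_zmod_val])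
  obtain ⟨n, hn⟩ := lsc μ hg ((hκ.tendsto _).comp h4) h3
  exact ⟨_, hn⟩

end Pool.Agent.Lib.MP_fa224b_lc.C
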