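import Pool.Agent.Lib.MP_fa224b_lc.C.Basic
import Pool.Agent.Lib.MP_fa224b_lc.C.MDefs

/-! The measure game: a winning strategy of II bounds the outer measure. -/

namespace Pool.Agent.Lib.MP_fa224b_lc.C

open MeasureTheory Encodable Filter

namespace NullII

def Legal (q : ℕ) (w : ℕ → ℝ) (v : ℚ) (c : ℕ) : Prop :=
  (∀ i, i < q → 0 ≤ mv c i ∧ (mv c i : ℝ) ≤ w i) ∧ v ≤ ∑ i ∈ Finset.range q, mv c i

theorem key {q : ℕ} {w : ℕ → ℝ} (hw : ∀ i, 0 ≤ w i) {v : ℚ} {ans : ℕ → ℕ}
    (h : ∀ c, Legal q w v c → ans c < q ∧ 0 < mv c (ans c)) {η : ℝ} (hη : 0 < η) :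
    ∃ ch : ℕ → Option ℕ, (∀ i c, ch i = some c → Legal q w v c ∧ ans c = i) ∧
      ∑ i ∈ Finset.range q, (ch i).elim (w i) (fun c => (mv c i : ℝ)) ≤ v + η := by
  let S : ℕ → Set ℝ := fun i => insert (w i) {r | ∃ c, Legal q w v c ∧ ans c = i ∧ r = mv c i}
  have bdd : ∀ i, ∀ r ∈ S i, 0 ≤ r := by
    rintro i r (rfl | ⟨c, h1, rfl, rfl⟩)
    · exact hw i
    · exact_mod_cast (h c h1).2.le
  have ne : ∀ i, (S i).Nonempty := fun i => ⟨_, Set.mem_insert _ _⟩
  have le : ∀ i, ∀ r ∈ S i, sInf (S i) ≤ r := fun i r hr => csInf_le ⟨0, bdd i⟩ hr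
  have hq : (0 : ℝ) < q + 1 := by positivity
  have hsum : ∑ i ∈ Finset.range q, sInf (S i) ≤ v := by
    by_contra hlt
    push Not at hlt
    set ε := (∑ i ∈ Finset.range q, sInf (S i) - v) / (q + 1) with hε
    have ε0 : 0 < ε := div_pos (by linarith) hq
    have : ∀ i, ∃ r : ℚ, 0 ≤ r ∧ (r : ℝ) ≤ sInf (S i) ∧ sInf (S i) - ε ≤ r ∧
        (0 < r → (r : ℝ) < sInf (S i)) := by
      intro i
      have h0 : 0 ≤ sInf (S i) := le_csInf (ne i) (bdd i)
      by_cases h1 : sInf (S i) ≤ ε
      · exact ⟨0, le_rfl, by simpa using h0, by simpa using h1, fun h => absurd h (lt_irrefl _)⟩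
      · obtain ⟨r, r1, r2⟩ := exists_rat_btwn (show sInf (S i) - ε < sInf (S i) by linarith)
        exact ⟨r, by exact_mod_cast (show (0 : ℝ) ≤ r by linarith), r2.le, r1.le, fun _ => r2⟩
    choose r r0 r1 r2 r3 using this
    have hm : ∀ i, i < q → mv (encode ((List.range q).map r)) i = r i := fun i hi => by
      simp [mv, List.getD_eq_getElem?_getD, hi]
    have hl : Legal q w v (encode ((List.range q).map r)) := by
      refine ⟨fun i hi => ?_, ?_⟩
      · rw [hm i hi]; exact ⟨r0 i, (r1 i).trans (le i _ (Set.mem_insert _ _))⟩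
      · rw [Finset.sum_congr rfl fun i hi => hm i (Finset.mem_range.1 hi)]
        have h1 := Finset.sum_le_sum fun i (_ : i ∈ Finset.range q) => r2 i
        simp only [Finset.sum_sub_distrib, Finset.sum_const, Finset.card_range,
          nsmul_eq_mul] at h1
        have h2 : ε * (q + 1) = ∑ i ∈ Finset.range q, sInf (S i) - v := by
          rw [hε]; field_simp
        have h3 : (v : ℝ) ≤ ∑ i ∈ Finset.range q, (r i : ℝ) := by nlinarith
        exact_mod_cast h3
    obtain ⟨h1, h2⟩ := h _ hl
    have h3 := le _ _ (Set.mem_insert_of_mem _ ⟨_, hl, rfl, rfl⟩)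
    rw [hm _ h1] at h2 h3
    exact absurd (r3 _ h2) (not_lt.2 h3)
  have : ∀ i, ∃ o : Option ℕ, (∀ c, o = some c → Legal q w v c ∧ ans c = i) ∧
      o.elim (w i) (fun c => (mv c i : ℝ)) ≤ sInf (S i) + η / (q + 1) := by
    intro i
    obtain ⟨r, hr, hlt⟩ := exists_lt_of_csInf_lt (ne i)
      (show sInf (S i) < sInf (S i) + η / (q + 1) by linarith [div_pos hη hq])
    rcases hr with rfl | ⟨c, h1, h2, rfl⟩
    · exact ⟨none, by simp, hlt.le⟩
    · exact ⟨some c, by rintro _ ⟨⟩; exact ⟨h1, h2⟩, hlt.le⟩
  choose ch c1 c2 using this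
  refine ⟨ch, c1, (Finset.sum_le_sum fun i _ => c2 i).trans ?_⟩
  simp only [Finset.sum_add_distrib, Finset.sum_const, Finset.card_range, nsmul_eq_mul]
  have : q * (η / (q + 1)) ≤ η := by
    rw [← mul_div_assoc, div_le_iff₀ hq]; nlinarith
  linarith

theorem rp_congr {x y : B} {n : ℕ} (h : ∀ i < n, x i = y i) : rp x n = rp y n := by
  induction n with
  | zero => rfl
  | succ n ih => simp only [rp, h n (by omega), ih fun i hi => h i (by omega)]

theorem play_congr (τ : List ℕ → ℕ) {m m' : B} {n : ℕ} (h : ∀ k < n, m k = m' k) :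
    ∀ i < 2 * n, run (blind m) τ i = run (blind m') τ i := by
  have : ∀ j, j ≤ 2 * n → hist (blind m) τ j = hist (blind m') τ j := by
    intro j hj
    induction j with
    | zero => rfl
    | succ j ih =>
      simp only [hist, ih (by omega), blind, hist_length, h (j / 2) (by omega)]
  intro i hi
  simp only [run, this (i + 1) hi]

theorem gval_congr (a : ℚ) {x y : B} {n : ℕ} (h : ∀ i < 2 * n, x i = y i) :
    gval a x n = gval a y n := by
  cases n with
  | zero => rfl
  | succ n => simp only [gval, h (2 * n) (by omega), h (2 * n + 1) (by omega)]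

theorem odds_congr {x y : B} {n : ℕ} (h : ∀ i < 2 * n, x i = y i) :
    rp (odds x) n = rp (odds y) n := rp_congr fun i hi => h _ (by omega)

theorem legI_congr {ν : Measure B} {q : ℕ} {a : ℚ} {x y : B} {n k : ℕ}
    (h : ∀ i < 2 * n, x i = y i) (hk : k < n) (hx : LegI ν q a x k) : LegI ν q a y k := by
  unfold LegI at hx ⊢
  rwa [← h (2 * k) (by omega), ← gval_congr a (n := k) fun i hi => h i (by omega),
    ← odds_congr (n := k) fun i hi => h i (by omega)]

theorem meas_ncyl (l : List ℕ) : MeasurableSet (ncyl l) := by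
  have := meas_rp l.length (measurableSet_singleton (encode l))
  convert this using 1
  ext x; simp [ncyl]

theorem sum_ncyl (ν : Measure B) [IsProbabilityMeasure ν] (q : ℕ) (l : List ℕ) :
    ∑ i ∈ Finset.range q, ν.real (ncyl (i :: l)) ≤ ν.real (ncyl l) := by
  rw [← measureReal_biUnion_finset (fun i _ j _ hij => ?_) fun i _ => meas_ncyl _]
  · refine measureReal_mono (Set.iUnion₂_subset fun i _ x hx => ?_) (measure_ne_top _ _)
    exact (List.cons.inj hx).2
  · refine Set.disjoint_left.2 fun x h1 h2 => hij ?_
    exact (List.cons.inj h1).1.symm.trans (List.cons.inj h2).1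

theorem real_list {ν : Measure B} [IsProbabilityMeasure ν] (L : List (List ℕ))
    (T : List ℕ → Set B) : ν.real {x | ∃ l ∈ L, x ∈ T l} ≤ (L.map fun l => ν.real (T l)).sum := by
  induction L with
  | nil => simp
  | cons l L ih =>
    have : {x | ∃ l' ∈ l :: L, x ∈ T l'} = T l ∪ {x | ∃ l' ∈ L, x ∈ T l'} := by ext x; simp
    rw [this, List.map_cons, List.sum_cons]
    linarith [measureReal_union_le (μ := ν) (T l) {x | ∃ l' ∈ L, x ∈ T l'}]

/-- the moves of I chosen along a list of moves of II -/
def sta (ch : B → ℕ → ℕ → Option ℕ) : List ℕ → Option B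
  | [] => some 0
  | i :: l => (sta ch l).bind fun m => (ch m l.length i).map (Function.update m l.length)

end NullII

open NullII in
theorem stNullII : StNullII := by
  classical
  intro ν _ q a A τ ha hτ δ hδ
  let p : B → B := fun m => run (blind m) τ
  have pe : ∀ m n, p m (2 * n) = m n := fun m n => congrFun (evens_run τ m) n
  have k1 : ∀ m n, (∀ k ≤ n, LegI ν q a (p m) k) → LegII q (p m) n := by
    intro m n h
    by_contra hn
    exact hτ (blind m) ⟨fun n' h' => h n' (not_lt.1 fun hl => hn (h' n hl)),
      fun h' => absurd (h' n) hn⟩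
  let η : ℕ → ℝ := fun n => δ / 2 ^ (n + 1) / (q + 1) ^ n
  have upd : ∀ m n c, ∀ i < 2 * n, p m i = p (Function.update m n c) i := fun m n c =>
    play_congr τ fun k hk => (Function.update_of_ne hk.ne _ _).symm
  have step : ∀ (m : B) (n : ℕ), ∃ ch : ℕ → Option ℕ, (∀ k < n, LegI ν q a (p m) k) →
      (∀ i c, ch i = some c → (∀ k < n + 1, LegI ν q a (p (Function.update m n c)) k) ∧
        p (Function.update m n c) (2 * n + 1) = i) ∧
      ∑ i ∈ Finset.range q, (ch i).elim (ν.real (ncyl (i :: rp (odds (p m)) n)))
        (fun c => (mv c i : ℝ)) ≤ gval a (p m) n + η n := by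
    intro m n
    by_cases h : ∀ k < n, LegI ν q a (p m) k
    swap
    · exact ⟨fun _ => none, fun h' => absurd h' h⟩
    have leg : ∀ c, Legal q (fun i => ν.real (ncyl (i :: rp (odds (p m)) n))) (gval a (p m) n) c →
        ∀ k < n + 1, LegI ν q a (p (Function.update m n c)) k := by
      intro c hc k hk
      rcases Nat.lt_succ_iff_lt_or_eq.1 hk with hk | rfl
      · exact legI_congr (upd m n c) hk (h k hk)
      · unfold LegI
        rw [pe, Function.update_self, ← gval_congr a (upd m k c), ← odds_congr (upd m k c)]
        exact hc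
    obtain ⟨ch, c1, c2⟩ := key (q := q) (w := fun i => ν.real (ncyl (i :: rp (odds (p m)) n)))
      (fun i => measureReal_nonneg) (v := gval a (p m) n)
      (ans := fun c => p (Function.update m n c) (2 * n + 1)) (fun c hc => by
        have := k1 _ n fun k hk => leg c hc k (by omega)
        unfold LegII at this
        rwa [pe, Function.update_self] at this) (η := η n) (by positivity)
    exact ⟨ch, fun _ => ⟨fun i c hc => ⟨leg c (c1 i c hc).1, (c1 i c hc).2⟩, c2⟩⟩
  choose ch hch using step
  have inv : ∀ l m, sta ch l = some m → (∀ k < l.length, LegI ν q a (p m) k) ∧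
      rp (odds (p m)) l.length = l := by
    intro l
    induction l with
    | nil => exact fun m _ => ⟨fun k hk => absurd hk (Nat.not_lt_zero k), rfl⟩
    | cons i l ih =>
      intro m hm
      simp only [sta, Option.bind_eq_some_iff, Option.map_eq_some_iff] at hm
      obtain ⟨m', h1, c, h2, rfl⟩ := hm
      obtain ⟨i1, i2⟩ := ih m' h1
      obtain ⟨j1, j2⟩ := (hch m' _ i1).1 i c h2
      refine ⟨j1, ?_⟩
      simp only [List.length_cons, rp]
      rw [← odds_congr (upd m' _ c), i2]
      exact congrArg (· :: l) j2
  let W : List ℕ → ℝ := fun l =>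
    (sta ch l).elim (ν.real (ncyl l)) fun m => gval a (p m) l.length
  have hW : ∀ l, ∑ i ∈ Finset.range q, W (i :: l) ≤ W l + η l.length := by
    intro l
    cases h : sta ch l with
    | none =>
      simp only [W, sta, h, Option.bind_none, Option.elim_none]
      have : 0 ≤ η l.length := by positivity
      linarith [sum_ncyl ν q l]
    | some m =>
      obtain ⟨i1, i2⟩ := inv l m h
      obtain ⟨j1, j2⟩ := hch m _ i1
      rw [i2] at j2
      simp only [W, sta, h, Option.bind_some, Option.elim_some]
      refine le_trans (le_of_eq (Finset.sum_congr rfl fun i _ => ?_)) j2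
      cases h' : ch m l.length i with
      | none => rfl
      | some c =>
        simp only [Option.map_some, Option.elim_some, List.length_cons, gval, pe,
          Function.update_self, (j1 i c h').2]
  have hS : ∀ n, ((words (List.range q) n).map W).sum ≤ a + δ - δ / 2 ^ n := by
    intro n
    induction n with
    | zero => simp [words, W, sta, gval]
    | succ n ih =>
      have h1 : ((words (List.range q) (n + 1)).map W).sum =
          ((words (List.range q) n).map fun l => ∑ i ∈ Finset.range q, W (i :: l)).sum := by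
        simp only [words]
        induction words (List.range q) n with
        | nil => rfl
        | cons l L ih =>
          simp only [List.flatMap_cons, List.map_append, List.sum_append, ih, List.map_cons,
            List.sum_cons, List.map_map]
          rfl
      have h2 := List.sum_le_sum (l := words (List.range q) n)
        (f := fun l => ∑ i ∈ Finset.range q, W (i :: l)) (g := fun l => W l + η n)
        fun l hl => (mem_words.1 hl).1 ▸ hW l
      simp only [List.sum_map_add, List.map_const', List.sum_replicate, length_words,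
        List.length_range, nsmul_eq_mul] at h2
      have h3 : ((q ^ n : ℕ) : ℝ) * η n ≤ δ / 2 ^ (n + 1) := by
        simp only [η]
        rw [← mul_div_assoc, div_le_iff₀ (by positivity), mul_comm]
        push_cast
        gcongr
        linarith
      have h4 : δ / 2 ^ n = 2 * (δ / 2 ^ (n + 1)) := by field_simp; ring
      linarith
  let U : ℕ → Set B := fun n => {x | (∀ k, x k < q) ∧ sta ch (rp x n) = none}
  have Um : ∀ n, MeasurableSet (U n) := fun n => by
    refine measurableSet_setOfPred.2 ((Measurable.forall fun k =>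
      meas_prop₂ (measurable_pi_apply k) measurable_const fun a b => a < b).and ?_)
    simpa using meas_prop₂ (meas_rp n) (meas_rp n)
      fun a _ => sta ch (Denumerable.ofNat (List ℕ) a) = none
  have Ub : ∀ n, ν.real (U n) ≤ a + δ := fun n => by
    have h1 := real_list (ν := ν) (words (List.range q) n)
      fun l => if sta ch l = none then ncyl l else ∅
    have h2 := List.sum_le_sum (l := words (List.range q) n)
      (f := fun l => ν.real (if sta ch l = none then ncyl l else ∅)) (g := W) fun l _ => by
        cases h : sta ch l with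
        | none => simp [W, h]
        | some m =>
          simp only [W, h, reduceCtorEq, if_false, measureReal_empty, Option.elim_some]
          cases l with
          | nil => exact_mod_cast ha
          | cons i l =>
            have := k1 m l.length fun k hk => (inv _ m h).1 k (Nat.lt_succ_of_le hk)
            exact_mod_cast this.2.le
    have h3 : ν.real (U n) ≤ ν.real {x | ∃ l ∈ words (List.range q) n,
        x ∈ if sta ch l = none then ncyl l else ∅} := by
      refine measureReal_mono (fun x hx => ⟨rp x n, mem_words.2 ⟨rp_length x n, fun t ht => ?_⟩,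
        ?_⟩) (measure_ne_top _ _)
      · rw [← List.mem_reverse, rp_reverse, List.mem_map] at ht
        obtain ⟨k, -, rfl⟩ := ht
        exact List.mem_range.2 (hx.1 k)
      · rw [if_pos hx.2]
        simp [ncyl, rp_length]
    have h4 : 0 ≤ δ / 2 ^ n := by positivity
    linarith [hS n]
  refine ⟨⋃ n, U n, MeasurableSet.iUnion Um, fun x hx hb => ?_, ?_⟩
  · by_contra hn
    simp only [Set.mem_iUnion, not_exists] at hn
    have : ∀ n, ∃ m, sta ch (rp x n) = some m := fun n =>
      Option.ne_none_iff_exists'.1 fun h => hn n ⟨hb, h⟩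
    choose M hM using this
    have stab : ∀ n k, k < n → M n k = M (k + 1) k := by
      intro n k hk
      induction n with
      | zero => omega
      | succ n ih =>
        rcases Nat.lt_succ_iff_lt_or_eq.1 hk with hk | rfl
        · have := hM (n + 1)
          simp only [rp, sta, hM n, Option.bind_some, Option.map_eq_some_iff, rp_length] at this
          obtain ⟨c, -, h⟩ := this
          rw [← h, Function.update_of_ne hk.ne, ih hk]
        · rfl
    have ag : ∀ n, ∀ i < 2 * n, p (M n) i = p (fun k => M (k + 1) k) i := fun n =>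
      play_congr τ (stab n)
    have leg : ∀ k, LegI ν q a (p fun k => M (k + 1) k) k := fun k =>
      legI_congr (ag (k + 1)) (Nat.lt_succ_self k)
        ((inv _ _ (hM (k + 1))).1 k (by rw [rp_length]; omega))
    refine hτ (blind fun k => M (k + 1) k) ⟨fun n _ => leg n, fun _ => ?_⟩
    convert hx
    funext k
    have := (inv _ _ (hM (k + 1))).2
    rw [rp_length, odds_congr (ag (k + 1))] at this
    exact (List.cons.inj this).1
  · have mono : Monotone U := monotone_nat_of_le_succ fun n x hx =>
      ⟨hx.1, by simp only [rp, sta, hx.2, Option.bind_none]⟩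
    have := (ENNReal.tendsto_toReal (measure_ne_top ν _)).comp
      (tendsto_measure_iUnion_atTop (μ := ν) mono)
    exact le_of_tendsto' this Ub

end Pool.Agent.Lib.MP_fa224b_lc.C
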