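import Pool.Agent.Lib.MP_fa224b_lc.C.Basic

/-! Two averaging projections in Heisenberg position. -/

namespace Pool.Agent.Lib.MP_fa224b_lc.C

namespace Pair

open scoped RealInnerProductSpace

variable {V : Type} [NormedAddCommGroup V] [InnerProductSpace ℝ V] {G : Type} [Group G]
  (π : G →* (V ≃ₗᵢ[ℝ] V))

/-- the average over a family -/
noncomputable def av (a : ZMod 293 → G) : V →ₗ[ℝ] V where
  toFun v := (293 : ℝ)⁻¹ • ∑ u, π (a u) v
  map_add' x y := by simp [Finset.sum_add_distrib]
  map_smul' r x := by simp [← Finset.smul_sum, smul_comm r]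

theorem av_apply (a : ZMod 293 → G) (v : V) : av π a v = (293 : ℝ)⁻¹ • ∑ u, π (a u) v := rfl

theorem mul_ap (g h : G) (v : V) : π (g * h) v = π g (π h v) := by
  rw [map_mul]; rfl

variable {a b c : ZMod 293 → G}

theorem hom_zero (ha : ∀ u v, a (u + v) = a u * a v) : a 0 = 1 := by
  have := ha 0 0
  rw [add_zero] at this
  exact left_eq_mul.1 this

theorem const_av {v x : V} (h : ∀ u, π (a u) v = x) : av π a v = x := by
  rw [av_apply]
  simp only [h, Finset.sum_const, Finset.card_univ, ZMod.card]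
  rw [← Nat.cast_smul_eq_nsmul ℝ, smul_smul]
  norm_num

theorem map_av (g : G) (v : V) : π g (av π a v) = (293 : ℝ)⁻¹ • ∑ u, π (g * a u) v := by
  simp only [av_apply, map_smul, map_sum, mul_ap]

theorem fix_av (ha : ∀ u v, a (u + v) = a u * a v) (s : ZMod 293) (v : V) :
    π (a s) (av π a v) = av π a v := by
  rw [map_av, av_apply]
  congr 1
  exact Fintype.sum_equiv (Equiv.addLeft s) _ _ fun u => by simp [ha]

theorem av_av (ha : ∀ u v, a (u + v) = a u * a v) (v : V) : av π a (av π a v) = av π a v :=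
  const_av π fun s => fix_av π ha s v

theorem av_adj (ha : ∀ u v, a (u + v) = a u * a v) (x y : V) : ⟪av π a x, y⟫ = ⟪x, av π a y⟫ := by
  simp only [av_apply, real_inner_smul_left, real_inner_smul_right, sum_inner, inner_sum]
  congr 1
  refine Fintype.sum_equiv (Equiv.neg _) _ _ fun u => ?_
  rw [← (π (a u)).inner_map_map x, ← mul_ap, ← ha]
  simp [hom_zero ha]

theorem av_comm (h : ∀ u v, a u * c v = c v * a u) (x : V) :
    av π c (av π a x) = av π a (av π c x) := by
  simp only [av_apply π c (av π a x), av_apply π a (av π c x), map_av, ← Finset.smul_sum, h]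
  rw [Finset.sum_comm]

theorem orth (ha : ∀ u v, a (u + v) = a u * a v) (x y : V) : ⟪x - av π a x, av π a y⟫ = 0 := by
  rw [← av_adj π ha, map_sub, av_av π ha, sub_self, inner_zero_left]

theorem sq_av (ha : ∀ u v, a (u + v) = a u * a v) (x : V) : ⟪x, av π a x⟫ = ‖av π a x‖ ^ 2 := by
  have := orth π ha x x
  rw [inner_sub_left, real_inner_self_eq_norm_sq] at this
  linarith

/-- the part fixed by the centre -/
theorem fixed (ha : ∀ u v, a (u + v) = a u * a v) (hb : ∀ u v, b (u + v) = b u * b v)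
    (h : ∀ u v, a u * b v = b v * a u * c (u * v)) {y : V} (hy : ∀ s, π (c s) y = y) :
    0 ≤ ⟪y - av π a y, y - av π b y⟫ := by
  have h1 : av π a (av π b y) = av π b (av π a y) := by
    simp only [av_apply π b (av π a y), av_apply π a (av π b y), map_av, ← Finset.smul_sum, h,
      mul_ap π _ (c _), hy]
    rw [Finset.sum_comm]
  have h2 := orth π hb y (y - av π a y)
  have h3 := orth π ha (y - av π b y) (y - av π b y)
  have h4 : y - av π a y = ((y - av π b y) - av π a (y - av π b y)) + av π b (y - av π a y) := by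
    rw [map_sub, map_sub, h1]; abel
  have h5 : ∀ z : V, ⟪z - av π a z, av π a z⟫ = 0 → 0 ≤ ⟪z - av π a z, z⟫ := fun z hz => by
    have := real_inner_self_nonneg (x := z - av π a z)
    rw [inner_sub_right (z - av π a z), hz] at this
    linarith
  rw [real_inner_comm] at h2
  rw [h4, inner_add_left, h2, add_zero]
  exact h5 _ h3

/-- the part killed by the centre -/
theorem killed (hb : ∀ u v, b (u + v) = b u * b v) (hac : ∀ u v, a u * c v = c v * a u)
    (h : ∀ u v, a u * b v = b v * a u * c (u * v)) {x : V} (hx : ∀ s, π (a s) x = x)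
    (hc : av π c x = 0) : ‖av π b x‖ ^ 2 = ‖x‖ ^ 2 / 293 := by
  have : Fact (Nat.Prime 293) := ⟨by norm_num⟩
  have h1 : ∀ u : ZMod 293, u ≠ 0 → ⟪x, π (b u) x⟫ = 0 := fun u hu => by
    have h2 : ∀ s, ⟪x, π (b u) x⟫ = ⟪x, π (b u * c (s * u)) x⟫ := fun s => by
      rw [← (π (a s)).inner_map_map, hx, ← mul_ap, h, mul_assoc, hac, ← mul_assoc, mul_ap, hx]
    have h3 : ⟪x, π (b u) (av π c x)⟫ = ⟪x, π (b u) x⟫ := by
      rw [map_av, real_inner_smul_right, inner_sum,
        ← Fintype.sum_equiv (Equiv.mulRight₀ u hu) (fun _ => ⟪x, π (b u) x⟫) _ fun s => h2 s]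
      simp only [Finset.sum_const, Finset.card_univ, ZMod.card, nsmul_eq_mul]
      push_cast
      field_simp
    rw [← h3, hc, map_zero, inner_zero_right]
  rw [← sq_av π hb, av_apply, real_inner_smul_right, inner_sum,
    Finset.sum_eq_single 0 (fun u _ hu => h1 u hu) (by simp), hom_zero hb, map_one]
  simp only [LinearIsometryEquiv.coe_one, id, real_inner_self_eq_norm_sq]
  ring

theorem arith {n s g : ℝ} (h0 : 0 ≤ n) (h2 : |g| ≤ s / 34)
    (h3 : s ^ 2 ≤ n * (s + 2 * g)) : -(249 / 1000) * (2 * n - s) ≤ 2 * (n - s + g) := by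
  obtain ⟨h4, h5⟩ := abs_le.1 h2
  have h6 : s ≤ 18 / 17 * n := by
    by_contra h
    nlinarith
  rcases h0.eq_or_lt with rfl | h0
  · nlinarith
  · refine le_of_mul_le_mul_left ?_ h0
    nlinarith [mul_nonneg (show 0 ≤ 2 * n - s by linarith)
      (show 0 ≤ n - s + 249 / 1000 * n by linarith)]

theorem killed' (ha : ∀ u v, a (u + v) = a u * a v) (hb : ∀ u v, b (u + v) = b u * b v)
    (hac : ∀ u v, a u * c v = c v * a u) (h : ∀ u v, a u * b v = b v * a u * c (u * v)) {w : V}
    (hw : av π c w = 0) : -(249 / 1000 : ℝ) * (‖w - av π a w‖ ^ 2 + ‖w - av π b w‖ ^ 2) ≤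
      2 * ⟪w - av π a w, w - av π b w⟫ := by
  have h1 := killed π hb hac h (fun s => fix_av π ha s w) (by rw [av_comm π hac, hw, map_zero])
  have h2 := sq_av π ha w
  have h3 := sq_av π hb w
  have h4 : ⟪av π a w, av π b w⟫ = ⟪av π b (av π a w), av π b w⟫ := by
    rw [av_adj π hb (av π a w), av_av π hb]
  have h5 := abs_real_inner_le_norm (av π b (av π a w)) (av π b w)
  rw [← h4] at h5
  have h6 := real_inner_le_norm w (av π a w + av π b w)
  have h7 := norm_add_sq_real (av π a w) (av π b w)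
  rw [inner_add_right, h2, h3] at h6
  have h8 : 17 * ‖av π b (av π a w)‖ ≤ ‖av π a w‖ :=
    le_of_sq_le_sq (by rw [mul_pow, h1]; nlinarith) (norm_nonneg _)
  have h9 := arith (n := ‖w‖ ^ 2) (s := ‖av π a w‖ ^ 2 + ‖av π b w‖ ^ 2)
    (g := ⟪av π a w, av π b w⟫) (by positivity)
    (by nlinarith [norm_nonneg (av π b w), sq_nonneg (‖av π a w‖ - ‖av π b w‖)]) (by
      have := pow_le_pow_left₀ (by positivity) h6 2
      rw [mul_pow, h7] at this
      linarith)
  rw [norm_sub_sq_real, norm_sub_sq_real, inner_sub_left, inner_sub_right, inner_sub_right,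
    real_inner_self_eq_norm_sq, real_inner_comm w (av π a w), h2, h3]
  linarith

end Pair

open Pair in
theorem stPair : StPair := by
  intro V _ _ G _ π a b ha hb ⟨c, hc, hac, hbc, h⟩ v
  simp only [← av_apply]
  have h1 := fixed π ha hb h (fun s => fix_av π hc s v)
  have h0 : av π c (v - av π c v) = 0 := by rw [map_sub, av_av π hc, sub_self]
  have h2 := killed' π ha hb hac h h0
  have key : ∀ d : ZMod 293 → G, (∀ u v, d u * c v = c v * d u) →
      v - av π d v = (av π c v - av π d (av π c v)) +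
        ((v - av π c v) - av π d (v - av π c v)) ∧
      av π c v - av π d (av π c v) = av π c (v - av π d v) ∧
      av π c ((v - av π c v) - av π d (v - av π c v)) = 0 := fun d hd =>
    ⟨by rw [map_sub]; abel, by rw [map_sub, av_comm π hd],
      by rw [map_sub, h0, av_comm π hd, h0, map_zero, sub_zero]⟩
  obtain ⟨a1, a2, a3⟩ := key a hac
  obtain ⟨b1, b2, b3⟩ := key b hbc
  have o : ∀ x z : V, av π c z = 0 → inner ℝ (av π c x) z = 0 := fun x z hz => by
    rw [av_adj π hc, hz, inner_zero_right]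
  have o1 := o (v - av π a v) _ a3
  have o2 := o (v - av π a v) _ b3
  have o3 := o (v - av π b v) _ a3
  have o4 := o (v - av π b v) _ b3
  rw [← a2] at o1 o2
  rw [← b2] at o3 o4
  rw [real_inner_comm] at o3
  rw [a1, b1]
  generalize av π c v - av π a (av π c v) = y1 at *
  generalize av π c v - av π b (av π c v) = y2 at *
  generalize (v - av π c v) - av π a (v - av π c v) = w1 at *
  generalize (v - av π c v) - av π b (v - av π c v) = w2 at *
  rw [norm_add_sq_real, norm_add_sq_real, inner_add_left, inner_add_right, inner_add_right,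
    o1, o2, o3, o4]
  nlinarith [sq_nonneg ‖y1‖, sq_nonneg ‖y2‖]

end Pool.Agent.Lib.MP_fa224b_lc.C
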