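import Pool.Agent.Lib.MP_fa224b_lc.C.Basic

/-! Second moment bound from the spectral gap. -/

namespace Pool.Agent.Lib.MP_fa224b_lc.C

open MeasureTheory

namespace Spread

variable {Ω : Type} [MeasurableSpace Ω] {μ : Measure Ω}

/-- deviation of the frequency of visits from the measure -/
noncomputable def dev (μ : Measure Ω) (act : ℕ → Ω → Ω) (W : List (List ℕ)) (Z : Set Ω) (y : Ω) :
    ℝ :=
  (cnt W fun α => wact act α y ∈ Z : ℝ) / W.length - μ.real Z

theorem meas_dev {act : ℕ → Ω → Ω} {L : List ℕ} (h : ∀ t ∈ L, MeasurePreserving (act t) μ μ)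
    (r : ℕ) {Z : Set Ω} (hZ : MeasurableSet Z) : Measurable (dev μ act (words L r) Z) := by
  have h1 := measurable_cnt (words L r) (fun α y => wact act α y ∈ Z) fun α hα =>
    (measurePreserving_wact fun t ht => h t ((mem_words.1 hα).2 t ht)).measurable hZ
  exact (((measurable_from_top (f := fun n : ℕ => (n : ℝ))).comp h1).div_const _).sub_const _

theorem dev_sq_le [IsProbabilityMeasure μ] (act : ℕ → Ω → Ω) (W : List (List ℕ)) (Z : Set Ω)
    (y : Ω) : dev μ act W Z y ^ 2 ≤ 1 := by
  have h1 : (cnt W fun α => wact act α y ∈ Z : ℝ) / W.length ≤ 1 :=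
    div_le_one_of_le₀ (Nat.cast_le.2 (cnt_le _ _)) (Nat.cast_nonneg _)
  have h2 : 0 ≤ (cnt W fun α => wact act α y ∈ Z : ℝ) / W.length := by positivity
  have h3 : μ.real Z ≤ 1 := measureReal_le_one
  have h4 : 0 ≤ μ.real Z := measureReal_nonneg
  rw [sq_le_one_iff_abs_le_one, abs_le, dev]
  constructor <;> linarith

end Spread

open Spread in
theorem stSpread : StSpread := by
  intro Ω _ μ _ act L lam hL hlam hmp hgap ι Ξ Z T r p τ hΞ hτ h
  have hn : (0 : ℝ) < Ξ.length := Nat.cast_pos.2 (List.length_pos_iff.2 hΞ)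
  have hw : (0 : ℝ) < (words L r).length := Nat.cast_pos.2 (length_words_pos hL r)
  let G : Fin Ξ.length → Ω → ℝ := fun i y => dev μ act (words L r) (Z Ξ[i.1]) (T Ξ[i.1] y)
  have hi : ∀ i : Fin Ξ.length, Ξ[i.1] ∈ Ξ := fun i => List.getElem_mem _
  have hm : ∀ i : Fin Ξ.length, Measurable fun y => dev μ act (words L r) (Z Ξ[i.1]) y ^ 2 :=
    fun i => (meas_dev hmp r (h _ (hi i)).1).pow_const 2
  have hint : ∀ i, Integrable (fun y => G i y ^ 2) μ := fun i =>
    Integrable.of_bound ((hm i).comp (h _ (hi i)).2.2.measurable).aestronglyMeasurable 1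
      (Filter.Eventually.of_forall fun y => by
        rw [Real.norm_of_nonneg (sq_nonneg _)]
        exact dev_sq_le _ _ _ _)
  have hle : ∀ i, ∫ y, G i y ^ 2 ∂μ ≤ lam ^ r * p := fun i => by
    obtain ⟨h1, h2, h3⟩ := h _ (hi i)
    have h4 := integral_map (μ := μ) h3.measurable.aemeasurable
      (f := fun y => dev μ act (words L r) (Z Ξ[i.1]) y ^ 2) (hm i).aestronglyMeasurable
    rw [h3.map_eq] at h4
    exact (h4.symm.trans_le (hgap _ h1 r)).trans (mul_le_mul_of_nonneg_left h2 (pow_nonneg hlam r))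
  have h1 := mul_meas_ge_le_integral_of_nonneg (μ := μ) (f := fun y => ∑ i, G i y ^ 2)
    (Filter.Eventually.of_forall fun y => Finset.sum_nonneg fun i _ => sq_nonneg _)
    (integrable_finsetSum _ fun i _ => hint i) (τ ^ 2 * Ξ.length)
  rw [integral_finsetSum _ fun i _ => hint i] at h1
  have h2 : ∑ i, ∫ y, G i y ^ 2 ∂μ ≤ Ξ.length * (lam ^ r * p) := by
    simpa using Finset.sum_le_sum fun i (_ : i ∈ Finset.univ) => hle i
  refine (measureReal_mono (fun y hy => ?_) (measure_ne_top μ
    {y | τ ^ 2 * Ξ.length ≤ ∑ i, G i y ^ 2})).trans ?_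
  · have k1 : (cnt (Ξ.product (words L r)) fun c => wact act c.2 (T c.1 y) ∈ Z c.1 : ℝ) ≤
        ∑ i, (G i y + p) * (words L r).length := by
      rw [cnt_product, ← Fin.sum_univ_fun_getElem, Nat.cast_sum]
      refine Finset.sum_le_sum fun i _ => ?_
      rw [← div_le_iff₀ hw]
      have := (h _ (hi i)).2.1
      simp only [G, dev]
      linarith
    have k2 := lt_of_lt_of_le hy k1
    rw [← Finset.sum_mul, ← mul_assoc, mul_lt_mul_iff_left₀ hw, Finset.sum_add_distrib] at k2
    simp only [Finset.sum_const, Finset.card_univ, Fintype.card_fin, nsmul_eq_mul] at k2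
    have k3 : τ * Ξ.length ≤ ∑ i, G i y := by linarith
    have k4 := (pow_le_pow_left₀ (by positivity) k3 2).trans
      (sq_sum_le_card_mul_sum_sq (s := Finset.univ) (f := fun i => G i y))
    rw [Finset.card_univ, Fintype.card_fin] at k4
    refine le_of_mul_le_mul_left ?_ hn
    linarith
  · rw [le_div_iff₀ (by positivity)]
    refine le_of_mul_le_mul_left ?_ hn
    linarith

end Pool.Agent.Lib.MP_fa224b_lc.C
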