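import Pool.Agent.Lib.MP_fa224b_lc.C.Basic
import Pool.Agent.Lib.MP_fa224b_lc.C.MDefs

/-! The letters form a system of moves with a spectral gap. -/

namespace Pool.Agent.Lib.MP_fa224b_lc.C

open MeasureTheory

namespace SysM

theorem el_coe (hM : StMem) (z : B) (t : ℕ) : (el z t : GG) = el0 z t := by
  rw [el, dif_pos (hM z t)]

theorem E_zero (hE : StElem) (a b : Fin 3) : E a b (fun _ => 0) = 1 :=
  funext fun s => (hE (Rg s)).1 a b

theorem E_add (hE : StElem) (a b : Fin 3) (r r' : ∀ s, Rg s) :
    E a b (fun s => r s + r' s) = E a b r * E a b r' :=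
  funext fun s => (hE (Rg s)).2.1 a b (r s) (r' s)

theorem E_smul (hE : StElem) (a b : Fin 3) (r : ∀ s, Rg s) (u v : ZMod 293) :
    E a b (fun s => (u + v) • r s) = E a b (fun s => u • r s) * E a b fun s => v • r s := by
  rw [← E_add hE]
  simp only [add_smul]

theorem el0_mkL (z : B) {sd i : ℕ} (hs : sd < 2) (a b : Fin 3) (hi : i < 4) (c : ZMod 293) :
    el0 z (mkL sd a b i c.val) = E a b fun s => c • rel z i s := by
  have ha := a.2
  have hb := b.2
  have h1 : lA (mkL sd a b i c.val) = a := Fin.ext (by simp only [lA, mkL]; omega)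
  have h2 : lB (mkL sd a b i c.val) = b := Fin.ext (by simp only [lB, mkL]; omega)
  have h3 : lI (mkL sd a b i c.val) = i := by simp only [lI, mkL]; omega
  have h4 : lC (mkL sd a b i c.val) = c.val := by simp only [lC, mkL]; omega
  rw [el0, h1, h2, h3, h4, ZMod.natCast_zmod_val]

theorem el0_wlab (z : B) {sd : ℕ} (hs : sd < 2) (c : Fin 5 × ZMod 293) :
    el0 z (wlab sd c) = gen c.1 c.2 := by
  obtain ⟨i, c⟩ := c
  fin_cases i
  · exact el0_mkL z hs 0 1 (i := 0) (by norm_num) c
  · exact el0_mkL z hs 1 2 (i := 0) (by norm_num) c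
  · exact el0_mkL z hs 2 0 (i := 0) (by norm_num) c
  · exact el0_mkL z hs 2 0 (i := 1) (by norm_num) c
  · exact el0_mkL z hs 2 0 (i := 2) (by norm_num) c

theorem wlab_bd {sd : ℕ} (hs : sd < 2) (c : Fin 5 × ZMod 293) :
    wlab sd c % 2 = sd ∧ wlab sd c < nL := by
  obtain ⟨i, c⟩ := c
  have := ZMod.val_lt c
  fin_cases i <;> simp only [wlab, mkL, nL] <;> omega

theorem mem_wlist {sd : ℕ} (hs : sd < 2) {t : ℕ} (h : t ∈ wlist sd) : t % 2 = sd ∧ t < nL := by
  obtain ⟨c, -, rfl⟩ := List.mem_map.1 h
  exact wlab_bd hs c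

theorem wlist_ne (sd : ℕ) : wlist sd ≠ [] :=
  List.ne_nil_of_mem (List.mem_map.2 ⟨(0, 0), Finset.mem_toList.2 (Finset.mem_univ _), rfl⟩)

theorem mact_left (z : B) {t : ℕ} (h : t % 2 = 0) (y : KK) : mact z t y = el z t * y := by
  simp [mact, lSide, h]

theorem mact_right (z : B) {t : ℕ} (h : t % 2 = 1) (y : KK) : mact z t y = y * el z t := by
  simp [mact, lSide, h]

theorem mact_comm (z : B) {t u : ℕ} (ht : t % 2 = 0) (hu : u % 2 = 1) (y : KK) :
    mact z t (mact z u y) = mact z u (mact z t y) := by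
  rw [mact_left z ht, mact_right z hu, mact_right z hu, mact_left z ht, mul_assoc]

theorem el_inv (hE : StElem) (hM : StMem) (z : B) {t : ℕ} (ht : t < nL) :
    el z (lInv t) * el z t = 1 := by
  have h1 : lA (lInv t) = lA t := Fin.ext (by simp only [lA, lInv]; omega)
  have h2 : lB (lInv t) = lB t := Fin.ext (by simp only [lB, lInv]; omega)
  have h3 : lI (lInv t) = lI t := by simp only [lI, lInv]; omega
  have h4 : ((lC (lInv t) : ℕ) : ZMod 293) + (lC t : ℕ) = 0 := by
    rw [← Nat.cast_add, ZMod.natCast_eq_zero_iff]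
    simp only [lC, lInv, nL] at ht ⊢
    omega
  refine Subtype.ext ?_
  rw [Subgroup.coe_mul, el_coe hM, el_coe hM, el0, el0, h1, h2, h3, ← E_smul hE, h4]
  simp only [zero_smul]
  exact E_zero hE _ _

theorem heis (hE : StElem) (hM : StMem) (z : B) {a b c : Fin 3} (hab : a ≠ b) (hbc : b ≠ c)
    (hac : a ≠ c) {r r' : ∀ s, Rg s} {k : ℕ} (hk : k < 4) (hr : ∀ s, r s * r' s = rel z k s)
    {f g : ZMod 293 → KK} (hf : ∀ u, (f u : GG) = E a b fun s => u • r s)
    (hg : ∀ u, (g u : GG) = E b c fun s => u • r' s) : Heis f g := by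
  have hc : ∀ u : ZMod 293, (el z (mkL 0 a c k u.val) : GG) = E a c fun s => u • rel z k s :=
    fun u => by rw [el_coe hM, el0_mkL z two_pos a c hk]
  refine ⟨fun u => el z (mkL 0 a c k u.val), fun u v => Subtype.ext ?_, fun u v => Subtype.ext ?_,
    fun u v => Subtype.ext ?_, fun u v => Subtype.ext ?_⟩ <;>
    simp only [Subgroup.coe_mul, hc, hf, hg]
  · exact E_smul hE _ _ _ u v
  · exact funext fun s => ((hE (Rg s)).2.2.1 a b c _ _ hab hbc hac).2.2.1
  · exact funext fun s => ((hE (Rg s)).2.2.1 a b c _ _ hab hbc hac).2.2.2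
  · refine funext fun s => ((hE (Rg s)).2.2.1 a b c _ _ hab hbc hac).1.trans ?_
    rw [smul_mul_smul_comm, hr]
    rfl

theorem heis' (hE : StElem) {a b : Fin 3} {r r' : ∀ s, Rg s} {f g : ZMod 293 → KK}
    (hf : ∀ u, (f u : GG) = E a b fun s => u • r s)
    (hg : ∀ u, (g u : GG) = E a b fun s => u • r' s) : Heis f g := by
  refine ⟨fun _ => 1, by simp, by simp, by simp, fun u v => Subtype.ext ?_⟩
  simp only [mul_one, Subgroup.coe_mul, hf, hg]
  rw [← E_add hE, ← E_add hE]
  simp only [add_comm]

end SysM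

open SysM in
theorem stSys (hE : StElem) (hM : StMem) (hH : StHaar) : StSys := by
  intro z
  obtain ⟨_, _, _⟩ := hH
  have side : ∀ t, lInv t % 2 = t % 2 := fun t => by simp only [lInv]; omega
  refine ⟨{
    act := mact z
    S := List.range nL
    L := wlist 0
    R := wlist 1
    inv := lInv
    side := lSide
    zero_mem := by simp [nL]
    act_zero := fun y => ?_
    L_sub := fun t ht => List.mem_range.2 (mem_wlist two_pos ht).2
    R_sub := fun t ht => List.mem_range.2 (mem_wlist one_lt_two ht).2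
    L_ne := wlist_ne 0
    R_ne := wlist_ne 1
    inv_mem := fun t _ => List.mem_range.2 (by simp only [lInv, nL]; omega)
    act_inv := fun t ht y => ?_
    comm_LR := fun t ht u hu y =>
      mact_comm z (mem_wlist two_pos ht).1 (mem_wlist one_lt_two hu).1 y
    comm_left := fun t _ ht u hu y =>
      mact_comm z (of_decide_eq_true ht) (mem_wlist one_lt_two hu).1 y
    comm_right := fun t _ ht u hu y =>
      (mact_comm z (mem_wlist two_pos hu).1 (by
        have := of_decide_eq_false ht
        omega) y).symm }, rfl, by dsimp only, rfl, rfl, rfl, rfl, ?_, ?_, fun t => ?_⟩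
  · have : el z 0 = 1 := Subtype.ext (by
      rw [el_coe hM, el0, show lC 0 = 0 from rfl, Nat.cast_zero]
      simp only [zero_smul]
      exact E_zero hE _ _)
    rw [mact_left z rfl, this, one_mul]
  · have h := el_inv hE hM z (List.mem_range.1 ht)
    rcases Nat.mod_two_eq_zero_or_one t with h0 | h0
    · rw [mact_left z h0, mact_left z ((side t).trans h0), ← mul_assoc, h, one_mul]
    · rw [mact_right z h0, mact_right z ((side t).trans h0), mul_assoc, mul_eq_one_comm.1 h,
        mul_one]
  · exact Primrec.nat_add.comp (Primrec.nat_mod.comp Primrec.id (Primrec.const 72))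
      (Primrec.nat_mul.comp (Primrec.const 72) (Primrec.nat_mod.comp
        (Primrec.nat_sub.comp (Primrec.const 293)
          (Primrec.nat_div.comp Primrec.id (Primrec.const 72))) (Primrec.const 293)))
  · exact pr_even.decide
  · rcases Nat.mod_two_eq_zero_or_one t with h0 | h0
    · rw [funext (mact_left z h0)]
      exact measurePreserving_mul_left mu _
    · rw [funext (mact_right z h0)]
      exact measurePreserving_mul_right mu _

open SysM in
theorem stGapM (hE : StElem) (hM : StMem) (hH : StHaar) (hG : StGapK) : StGapM := by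
  intro z
  obtain ⟨_, _, _⟩ := hH
  let a : Fin 5 → ZMod 293 → KK := fun i c => el z (wlab 0 (i, c))
  have ha : ∀ i c, (a i c : GG) = gen i c := fun i c => by
    rw [el_coe hM, el0_wlab z two_pos]
  have h1 : ∀ i u v, a i (u + v) = a i u * a i v := fun i u v => Subtype.ext (by
    rw [Subgroup.coe_mul, ha, ha, ha]
    fin_cases i <;> exact E_smul hE _ _ _ u v)
  have p01 : Heis (a 0) (a 1) :=
    heis hE hM z (k := 0) (by decide) (by decide) (by decide) (by decide)
      (fun _ => one_mul _) (ha 0) (ha 1)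
  have p12 : Heis (a 1) (a 2) :=
    heis hE hM z (k := 0) (by decide) (by decide) (by decide) (by decide)
      (fun _ => one_mul _) (ha 1) (ha 2)
  have p13 : Heis (a 1) (a 3) :=
    heis hE hM z (k := 1) (by decide) (by decide) (by decide) (by decide)
      (fun _ => one_mul _) (ha 1) (ha 3)
  have p14 : Heis (a 1) (a 4) :=
    heis hE hM z (k := 2) (by decide) (by decide) (by decide) (by decide)
      (fun _ => one_mul _) (ha 1) (ha 4)
  have p20 : Heis (a 2) (a 0) :=
    heis hE hM z (k := 0) (by decide) (by decide) (by decide) (by decide)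
      (fun _ => mul_one _) (ha 2) (ha 0)
  have p30 : Heis (a 3) (a 0) :=
    heis hE hM z (k := 1) (by decide) (by decide) (by decide) (by decide)
      (fun _ => mul_one _) (ha 3) (ha 0)
  have p40 : Heis (a 4) (a 0) :=
    heis hE hM z (k := 2) (by decide) (by decide) (by decide) (by decide)
      (fun _ => mul_one _) (ha 4) (ha 0)
  have p23 : Heis (a 2) (a 3) := heis' hE (ha 2) (ha 3)
  have p24 : Heis (a 2) (a 4) := heis' hE (ha 2) (ha 4)
  have p34 : Heis (a 3) (a 4) := heis' hE (ha 3) (ha 4)
  have h2 : ∀ i j, i ≠ j → Heis (a i) (a j) ∨ Heis (a j) (a i) := by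
    clear_value a
    intro i j hij
    fin_cases i <;> fin_cases j
    exacts [absurd rfl hij, .inl p01, .inr p20, .inr p30, .inr p40,
      .inr p01, absurd rfl hij, .inl p12, .inl p13, .inl p14,
      .inl p20, .inr p12, absurd rfl hij, .inl p23, .inl p24,
      .inl p30, .inr p13, .inr p23, absurd rfl hij, .inl p34,
      .inl p40, .inr p14, .inr p24, .inr p34, absurd rfl hij]
  have h3 : Dense ((Subgroup.closure (Set.range fun c : Fin 5 × ZMod 293 => a c.1 c.2) :
      Subgroup KK) : Set KK) := by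
    rw [Subtype.dense_iff]
    have e : (Subgroup.closure (Set.range fun c : Fin 5 × ZMod 293 => a c.1 c.2)).map KK.subtype =
        Subgroup.closure (Set.range fun c : Fin 5 × ZMod 293 => gen c.1 c.2) := by
      rw [MonoidHom.map_closure, ← Set.range_comp]
      exact congrArg (fun f => Subgroup.closure (Set.range f)) (funext fun c => ha c.1 c.2)
    have e' := congrArg (fun H : Subgroup GG => closure (H : Set GG)) e
    exact fun x hx => e'.ge hx
  refine ⟨hG KK mu a h1 h2 h3 _ _ (.inl fun c y => mact_left z (wlab_bd two_pos c).1 y),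
    hG KK mu a h1 h2 h3 _ _ (.inr fun c y => ?_)⟩
  rw [mact_right z (wlab_bd one_lt_two c).1]
  congr 1
  exact Subtype.ext (by rw [ha, el_coe hM, el0_wlab z one_lt_two])

end Pool.Agent.Lib.MP_fa224b_lc.C
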