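import Pool.Agent.Lib.MP_fa224b_lc.C.Basic

/-! Most base points are good for all tests. -/

namespace Pool.Agent.Lib.MP_fa224b_lc.C

open MeasureTheory Encodable

namespace Test

variable {Ω : Type} [MeasurableSpace Ω] {μ : Measure Ω} [IsProbabilityMeasure μ]

theorem integral_cnt {α : Type} (A : List α) (E : α → Set Ω) {ε : ℝ}
    (h : ∀ a ∈ A, MeasurableSet (E a) ∧ μ.real (E a) ≤ ε) :
    Integrable (fun y => (cnt A (fun a => y ∈ E a) : ℝ)) μ ∧
      ∫ y, (cnt A (fun a => y ∈ E a) : ℝ) ∂μ ≤ A.length * ε := by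
  classical
  induction A with
  | nil => simp
  | cons a A ih =>
    obtain ⟨h1, h2⟩ := ih fun b hb => h b (List.mem_cons_of_mem _ hb)
    obtain ⟨h3, h4⟩ := h a List.mem_cons_self
    have e : (fun y => (cnt (a :: A) (fun a => y ∈ E a) : ℝ)) =
        fun y => (cnt A (fun a => y ∈ E a) : ℝ) + (E a).indicator 1 y := by
      funext y
      rw [cnt_cons]
      by_cases hy : y ∈ E a <;> simp [hy]
    have h5 : Integrable ((E a).indicator (1 : Ω → ℝ)) μ := (integrable_const 1).indicator h3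
    rw [e]
    refine ⟨h1.add h5, ?_⟩
    rw [integral_add h1 h5, integral_indicator_one h3, List.length_cons]
    push_cast
    linarith

theorem markov {α : Type} {A : List α} (hA : 0 < A.length) (E : α → Set Ω) {ε : ℝ} (c : ℕ)
    (h : ∀ a ∈ A, MeasurableSet (E a) ∧ μ.real (E a) ≤ ε) :
    μ.real {y | A.length < c * cnt A fun a => y ∈ E a} ≤ c * ε := by
  obtain ⟨h1, h2⟩ := integral_cnt (μ := μ) A E h
  have h3 := mul_meas_ge_le_integral_of_nonneg (μ := μ)
    (f := fun y => (c : ℝ) * (cnt A (fun a => y ∈ E a) : ℝ))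
    (Filter.Eventually.of_forall fun y => by positivity) (h1.const_mul c) A.length
  rw [integral_const_mul] at h3
  have h4 : μ.real {y | A.length < c * cnt A fun a => y ∈ E a} ≤
      μ.real {y | (A.length : ℝ) ≤ (c : ℝ) * (cnt A (fun a => y ∈ E a) : ℝ)} :=
    measureReal_mono fun y hy => by
      have : A.length < c * cnt A fun a => y ∈ E a := hy
      show (A.length : ℝ) ≤ _
      exact_mod_cast this.le
  have h5 : (0 : ℝ) < A.length := by exact_mod_cast hA
  have h6 := mul_le_mul_of_nonneg_left h2 (Nat.cast_nonneg (α := ℝ) c)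
  refine h4.trans (le_of_mul_le_mul_left (h3.trans (h6.trans (le_of_eq ?_))) h5)
  ring

omit [IsProbabilityMeasure μ] in
theorem meets (σ : Sys Ω) (hm : ∀ t ∈ σ.S, MeasurePreserving (σ.act t) μ μ) {Z : Set Ω}
    (hZ : MeasurableSet Z) {c : List ℕ} (hc : ∀ t ∈ c, t ∈ σ.S) :
    MeasurableSet {y | Meets σ Z y c} ∧ μ.real {y | Meets σ Z y c} ≤ (c.length + 1) * μ.real Z := by
  induction c with
  | nil =>
    have e : {y | Meets σ Z y []} = Z := by
      ext y; simp [Meets]
    rw [e]
    exact ⟨hZ, by simp⟩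
  | cons t c ih =>
    obtain ⟨h1, h2⟩ := ih fun s hs => hc s (List.mem_cons_of_mem _ hs)
    have ht := hm t (hc t List.mem_cons_self)
    have e : {y | Meets σ Z y (t :: c)} = Z ∪ σ.act t ⁻¹' {y | Meets σ Z y c} := by
      ext y
      constructor
      · rintro ⟨u, hu, h⟩
        cases u with
        | nil => exact Or.inl h
        | cons s u =>
          obtain ⟨rfl, hu'⟩ := List.cons_prefix_cons.1 hu
          exact Or.inr ⟨u, hu', h⟩
      · rintro (h | ⟨u, ⟨v, hv⟩, h⟩)
        · exact ⟨[], ⟨_, rfl⟩, h⟩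
        · exact ⟨t :: u, ⟨v, by rw [← hv]; rfl⟩, h⟩
    rw [e]
    refine ⟨hZ.union (ht.measurable h1), (measureReal_union_le _ _).trans ?_⟩
    rw [ht.measureReal_preimage h1.nullMeasurableSet, List.length_cons]
    push_cast
    linarith

theorem spread (hS : StSpread) (σ : Sys Ω) {lam : ℝ} (h0 : 0 ≤ lam)
    (hm : ∀ t ∈ σ.S, MeasurePreserving (σ.act t) μ μ) (hg : Gap μ σ.act σ.L lam) {Z : Set Ω}
    (hZ : MeasurableSet Z) {p : ℝ} (hp : μ.real Z ≤ p) (n : ℕ) :
    μ.real {y | (p + 1 / 20) * ((words σ.L n).length : ℝ) <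
      cnt (words σ.L n) fun b => wact σ.act b y ∈ Z} ≤ 400 * p * lam ^ n := by
  have h := hS Ω μ σ.act σ.L lam σ.L_ne h0 (fun t ht => hm t (σ.L_sub t ht)) hg Unit [()]
    (fun _ => Z) (fun _ => id) n p (1 / 20) (by simp) (by norm_num)
    fun _ _ => ⟨hZ, hp, MeasurePreserving.id μ⟩
  simp only [cnt_product, List.map_cons, List.map_nil, List.sum_cons, List.sum_nil, add_zero,
    List.length_singleton, Nat.cast_one, one_mul, id] at h
  refine h.trans (le_of_eq ?_)
  ring

/-- the four properties for one word -/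
def Ok (μ : Measure Ω) (σ : Sys Ω) (Z D : Set Ω) (f : Ω → B) (n : ℕ) (w : List ℕ) (y : Ω) : Prop :=
  20 * cnt (words σ.L n) (fun b => Meets σ Z y (b ++ w)) ≤ (words σ.L n).length ∧
    100 * cnt (words σ.L n) (fun b => wact σ.act b y ∈ D) ≤ 6 * (words σ.L n).length ∧
    100 * cnt (words σ.L n) (fun b => wact σ.act (b ++ w) y ∈ D) ≤ 6 * (words σ.L n).length ∧
    (1 / 2 < μ.real {y' | f (wact σ.act w y') ≠ f y'} →
      45 * (words σ.L n).length ≤ 100 * cnt (words σ.L n) fun b =>
        f (wact σ.act (b ++ w) y) ≠ f (wact σ.act b y))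

theorem word (hS : StSpread) (σ : Sys Ω) {lam l : ℝ} (h0 : 0 ≤ lam) (hl : lam ≤ l)
    (hl' : 1 / 2 ≤ l) (hm : ∀ t ∈ σ.S, MeasurePreserving (σ.act t) μ μ)
    (hg : Gap μ σ.act σ.L lam) {Z D : Set Ω} {f : Ω → B} (hf : Measurable f)
    (hD : MeasurableSet D) (hD' : μ.real D ≤ 1 / 100) (n : ℕ) {w : List ℕ}
    (hw : ∀ t ∈ w, t ∈ σ.S) (hZ : MeasurableSet Z) (hZ' : μ.real Z ≤ (1 / 2) ^ (2 * n + w.length)) :
    μ.real {y | ¬ Ok μ σ Z D f n w y} ≤ 228 * l ^ n := by
  have hmw : MeasurePreserving (wact σ.act w) μ μ := measurePreserving_wact fun t ht => hm t (hw t ht)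
  have p1 : lam ^ n ≤ l ^ n := pow_le_pow_left₀ h0 hl n
  have p2 : (1 / 2 : ℝ) ^ n ≤ l ^ n := pow_le_pow_left₀ (by norm_num) hl' n
  have b1 := markov (μ := μ) (length_words_pos σ.L_ne n) (fun b => {y | Meets σ Z y (b ++ w)})
    (ε := (1 / 2) ^ n) 20 fun b hb => by
      obtain ⟨h1, h2⟩ := mem_words.1 hb
      obtain ⟨h3, h4⟩ := meets σ hm hZ (c := b ++ w) fun t ht =>
        (List.mem_append.1 ht).elim (fun h => σ.L_sub t (h2 t h)) (hw t)
      refine ⟨h3, h4.trans ?_⟩
      have h5 : ((b ++ w).length + 1 : ℝ) ≤ 2 ^ (n + w.length) := by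
        rw [List.length_append, h1]
        exact_mod_cast Nat.lt_two_pow_self
      refine (mul_le_mul h5 hZ' measureReal_nonneg (by positivity)).trans (le_of_eq ?_)
      rw [show 2 * n + w.length = (n + w.length) + n by ring, pow_add (1 / 2 : ℝ), ← mul_assoc,
        ← mul_pow]
      norm_num
  have b2 := spread hS σ h0 hm hg hD hD' n
  have b3 := spread hS σ h0 hm hg (hmw.measurable hD)
    ((hmw.measureReal_preimage hD.nullMeasurableSet).le.trans hD') n
  have b4 : μ.real {y | 1 / 2 < μ.real {y' | f (wact σ.act w y') ≠ f y'} ∧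
      100 * (cnt (words σ.L n) fun b => f (wact σ.act (b ++ w) y) ≠ f (wact σ.act b y)) <
        45 * (words σ.L n).length} ≤ 200 * lam ^ n := by
    by_cases hc : 1 / 2 < μ.real {y' | f (wact σ.act w y') ≠ f y'}
    · have hE : MeasurableSet {y' | f (wact σ.act w y') = f y'} :=
        measurableSet_eq_fun (hf.comp hmw.measurable) hf
      have hE' : μ.real {y' | f (wact σ.act w y') = f y'} ≤ 1 / 2 := by
        have := probReal_compl_eq_one_sub (μ := μ) hE
        have e : {y' | f (wact σ.act w y') = f y'}ᶜ = {y' | f (wact σ.act w y') ≠ f y'} := rfl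
        rw [e] at this
        linarith
      refine le_trans (measureReal_mono fun y hy => ?_)
        ((spread hS σ h0 hm hg hE hE' n).trans (le_of_eq (by ring)))
      have h1 := cnt_add_not (words σ.L n) fun b => f (wact σ.act (b ++ w) y) = f (wact σ.act b y)
      have h2 := hy.2
      simp only [wact_append] at h1 h2
      have h3 : 55 * (words σ.L n).length < 100 * cnt (words σ.L n) fun b =>
          f (wact σ.act w (wact σ.act b y)) = f (wact σ.act b y) := by
        simp only [ne_eq] at h2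
        omega
      have h4 : (55 : ℝ) * (words σ.L n).length < 100 * (cnt (words σ.L n) fun b =>
          f (wact σ.act w (wact σ.act b y)) = f (wact σ.act b y) : ℕ) := by exact_mod_cast h3
      show (1 / 2 + 1 / 20 : ℝ) * _ < (cnt (words σ.L n) fun b =>
          f (wact σ.act w (wact σ.act b y)) = f (wact σ.act b y) : ℕ)
      linarith
    · simp only [hc, false_and, Set.ofPred_false, measureReal_empty]
      positivity
  refine le_trans (measureReal_mono (fun y hy => ?_)) ((measureReal_union_le _ _).trans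
    (le_trans (add_le_add ((measureReal_union_le _ _).trans (add_le_add b1 b2))
      ((measureReal_union_le _ _).trans (add_le_add b3 b4))) (by push_cast; linarith)))
  by_contra hn
  simp only [Set.mem_union, Set.mem_ofPred_eq, not_or, not_lt, not_and, Set.mem_preimage] at hn
  obtain ⟨⟨h1, h2⟩, h3, h4⟩ := hn
  refine hy ⟨h1, ?_, ?_, h4⟩
  · have : (100 : ℝ) * (cnt (words σ.L n) fun b => wact σ.act b y ∈ D : ℕ) ≤
        6 * (words σ.L n).length := by linarith
    exact_mod_cast this
  · simp only [wact_append]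
    have : (100 : ℝ) * (cnt (words σ.L n) fun b => wact σ.act w (wact σ.act b y) ∈ D : ℕ) ≤
        6 * (words σ.L n).length := by linarith
    exact_mod_cast this

theorem union_le (N : List ℕ → Set Ω) {a : ℝ} (ha : 0 ≤ a)
    (h : ∀ w, μ.real (N w) ≤ a / 2 / 2 ^ encode w) : μ.real (⋃ w, N w) ≤ a := by
  refine ENNReal.toReal_le_of_le_ofReal ha ((measure_iUnion_le N).trans ?_)
  have h1 : ∀ w, μ (N w) ≤ ENNReal.ofReal (a / 2 / 2 ^ encode w) := fun w => by
    rw [← ofReal_measureReal]
    exact ENNReal.ofReal_le_ofReal (h w)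
  refine (ENNReal.tsum_le_tsum h1).trans ((ENNReal.tsum_comp_le_tsum_of_injective encode_injective
    fun e : ℕ => ENNReal.ofReal (a / 2 / 2 ^ e)).trans (le_of_eq ?_))
  rw [← ENNReal.ofReal_tsum_of_nonneg (fun e => by positivity) (summable_geometric_two' a),
    tsum_geometric_two']

end Test

open Test in
theorem stTest (hS : StSpread) : StTest := by
  intro Ω _ μ _ σ lam h0 h1 hm hg Z D f hf hZ hD hD'
  have hl0 : (0 : ℝ) ≤ max lam (1 / 2) := le_max_of_le_left h0
  obtain ⟨M, hM⟩ := exists_pow_lt_of_lt_one (show (0 : ℝ) < 1 / 5000 by norm_num)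
    (max_lt h1 (show (1 / 2 : ℝ) < 1 by norm_num))
  refine ⟨M, ⋃ w : List ℕ,
    {y | (∀ t ∈ w, t ∈ σ.S) ∧ ¬ Ok μ σ (Z (tK M w)) D f (tN M w) w y}, ?_, fun y hy w hw => ?_⟩
  · refine union_le _ (by norm_num) fun w => ?_
    by_cases hw : ∀ t ∈ w, t ∈ σ.S
    · refine le_trans (measureReal_mono fun y hy => hy.2) ((word hS σ h0 (le_max_left _ _)
        (le_max_right _ _) hm hg hf hD hD' (tN M w) hw (hZ _).1 (hZ _).2).trans ?_)
      have h2 : (max lam (1 / 2) ^ M) ^ encode w ≤ (1 / 2) ^ encode w :=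
        pow_le_pow_left₀ (pow_nonneg hl0 M) (by linarith) _
      have h3 := mul_le_mul h2 hM.le (pow_nonneg hl0 M) (by positivity)
      have h4 : (0 : ℝ) ≤ (1 / 2) ^ encode w := by positivity
      rw [tN, pow_mul, pow_succ, div_eq_mul_one_div _ (2 ^ encode w), ← one_div_pow]
      linarith
    · simp only [hw, false_and, Set.ofPred_false, measureReal_empty]
      positivity
  · by_contra hn
    exact hy (Set.mem_iUnion.2 ⟨w, hw, hn⟩)

end Pool.Agent.Lib.MP_fa224b_lc.C
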