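import Pool.Agent.Lib.MP_fa224b_lc.C.Basic
import Pool.Agent.Lib.MP_fa224b_lc.C.MDefs

/-! The test words are primitive recursive; the value of the word of a monomial. -/

namespace Pool.Agent.Lib.MP_fa224b_lc.C

namespace TwComp

open Primrec

theorem p_rowN : Primrec rowN :=
  Primrec.ite (Primrec.eq.comp (nat_mod.comp .id (const 2)) (const 1)) (const 0) (const 2)

theorem p_lInv : Primrec lInv :=
  nat_add.comp (nat_mod.comp .id (const 72)) (nat_mul.comp (const 72)
    (nat_mod.comp (nat_sub.comp (const 293) (nat_div.comp .id (const 72))) (const 293)))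

theorem p_let (c : ℕ) :
    Primrec₂ fun (i : ℕ) (l : List ℕ) => [mkL 1 (rowN (l.length + 1)) (rowN l.length) i c] :=
  list_cons.comp (nat_add.comp (const 1) (nat_mul.comp (const 2) (nat_add.comp
    (p_rowN.comp (succ.comp (list_length.comp snd))) (nat_mul.comp (const 3) (nat_add.comp
      (p_rowN.comp (list_length.comp snd)) (nat_mul.comp (const 3)
        (nat_add.comp fst (const (4 * c))))))))) (const [])

theorem p_winv : Primrec (winv lInv) :=
  list_reverse.comp (list_map .id (p_lInv.comp snd).to₂)

theorem p_step : Primrec fun q : ℕ × List ℕ × List ℕ => if q.2.1 = [] then [mkL 1 0 1 q.1 1] else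
    [mkL 1 (rowN (q.2.1.length + 1)) (rowN q.2.1.length) q.1 1] ++ q.2.2 ++
      ([mkL 1 (rowN (q.2.1.length + 1)) (rowN q.2.1.length) q.1 292] ++ winv lInv q.2.2) :=
  Primrec.ite (Primrec.eq.comp (fst.comp snd) (const []))
    (list_cons.comp ((nat_add.comp (const 79) (nat_mul.comp (const 18) fst)).of_eq fun q => by
      unfold mkL; omega) (const []))
    (list_append.comp (list_append.comp ((p_let 1).comp fst (fst.comp snd)) (snd.comp snd))
      (list_append.comp ((p_let 292).comp fst (fst.comp snd)) (p_winv.comp (snd.comp snd))))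

theorem p_mword : Primrec mword :=
  (list_rec .id (const []) (p_step.comp snd).to₂).of_eq fun l => by
    induction l with
    | nil => rfl
    | cons i l ih => rw [mword, ← ih]; rfl

theorem p_rep : Primrec fun k : ℕ => List.replicate k 2 :=
  (list_map list_range (const 2).to₂).of_eq fun k => by simp

theorem p_mono : Primrec₂ mono :=
  list_append.comp (p_rep.comp (nat_double.comp snd)) (list_cons.comp (const 1)
    (list_append.comp (p_rep.comp (succ.comp fst)) (const [1, 3])))

theorem p_tw : Primrec₂ tw := by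
  have h : PrimrecPred fun q : (ℕ × ℕ) × ℕ => q.1.2 / 2 ^ q.2 % 2 = 1 :=
    Primrec.eq.comp (nat_mod.comp (nat_div.comp (snd.comp fst)
      ((Primrec₂.unpaired'.1 Nat.Primrec.pow).comp (const 2) snd)) (const 2)) (const 1)
  exact (list_flatMap (list_range.comp snd) (Primrec.ite h
    (p_mword.comp (p_mono.comp (fst.comp fst) snd)) (const [])).to₂).of_eq fun q => by
      simp only [tw, Nat.testBit_eq_decide_div_mod_eq, decide_eq_true_eq]

theorem rowN_lt (n : ℕ) : rowN n < 3 := by unfold rowN; split <;> omega

theorem letters {l : List ℕ} (h : ∀ i ∈ l, i < 4) : ∀ t ∈ mword l, t % 2 = 1 ∧ t < nL := by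
  induction l with
  | nil => simp [mword]
  | cons i l ih =>
    have hi := h i List.mem_cons_self
    have h1 := rowN_lt (l.length + 1)
    have h2 := rowN_lt l.length
    have ih := ih fun j hj => h j (List.mem_cons_of_mem _ hj)
    intro t ht
    rw [mword] at ht
    split_ifs at ht
    · rw [List.mem_singleton.1 ht, mkL, nL]
      omega
    simp only [winv, List.mem_append, List.mem_singleton, List.mem_reverse, List.mem_map] at ht
    rcases ht with (rfl | ht) | rfl | ⟨u, hu, rfl⟩
    · rw [mkL, nL]
      omega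
    · exact ih t ht
    · rw [mkL, nL]
      omega
    · have := ih u hu
      rw [lInv, nL]
      omega

theorem act (hM : StMem) (z : B) {w : List ℕ} (h : ∀ t ∈ w, t % 2 = 1) (y : KK) :
    ((wact (mact z) w y : KK) : GG) = y.1 * (w.map (el0 z)).prod := by
  induction w generalizing y with
  | nil => simp
  | cons t w ih =>
    have := h t List.mem_cons_self
    rw [wact_cons, ih fun u hu => h u (List.mem_cons_of_mem _ hu), mact,
      if_neg (by simp [lSide, this]), el, dif_pos (hM z t), List.map_cons, List.prod_cons, ← mul_assoc]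
    rfl

theorem el0_inv (hE : StElem) (z : B) {t : ℕ} (h : t < nL) : el0 z (lInv t) = (el0 z t)⁻¹ := by
  rw [nL] at h
  have e1 : lA (lInv t) = lA t := Fin.ext (by simp only [lA, lInv]; omega)
  have e2 : lB (lInv t) = lB t := Fin.ext (by simp only [lB, lInv]; omega)
  have e3 : lI (lInv t) = lI t := by simp only [lI, lInv]; omega
  have e4 : (lC (lInv t) : ZMod 293) + lC t = 0 := by
    rw [← Nat.cast_add, ZMod.natCast_eq_zero_iff]
    simp only [lC, lInv]
    omega
  refine eq_inv_of_mul_eq_one_left (funext fun s => ?_)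
  rw [el0, el0, e1, e2, e3]
  exact ((hE _).2.1 _ _ _ _).symm.trans (by rw [← add_smul, e4, zero_smul]; exact (hE _).1 _ _)

theorem el0_mkL (z : B) {a b i : ℕ} (ha : a < 3) (hb : b < 3) (hi : i < 4) (c : ℕ) :
    el0 z (mkL 1 a b i c) = E ⟨a, ha⟩ ⟨b, hb⟩ fun s => (c : ZMod 293) • rel z i s := by
  have e1 : lA (mkL 1 a b i c) = ⟨a, ha⟩ := Fin.ext (by simp only [lA, mkL]; omega)
  have e2 : lB (mkL 1 a b i c) = ⟨b, hb⟩ := Fin.ext (by simp only [lB, mkL]; omega)
  have e3 : lI (mkL 1 a b i c) = i := by simp only [lI, mkL]; omega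
  have e4 : lC (mkL 1 a b i c) = c := by simp only [lC, mkL]; omega
  rw [el0, e1, e2, e3, e4]

theorem comm (hE : StElem) {a b c : Fin 3} (h1 : a ≠ b) (h2 : b ≠ c) (h3 : a ≠ c)
    (r r' : ∀ s, Rg s) : E a b r * E b c r' * (E a b (fun s => -r s) * (E b c r')⁻¹) =
      E a c fun s => r s * r' s := by
  have k : E b c (fun s => -r' s) = (E b c r')⁻¹ := eq_inv_of_mul_eq_one_left (funext fun s =>
    ((hE _).2.1 _ _ _ _).symm.trans (by rw [neg_add_cancel]; exact (hE _).1 _ _))
  rw [← k, ← mul_assoc]
  exact funext fun s => ((hE _).2.2.1 a b c (r s) (r' s) h1 h2 h3).2.1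

theorem val (hE : StElem) (z : B) {l : List ℕ} (h0 : l ≠ []) (h : ∀ i ∈ l, i < 4) :
    ((mword l).map (el0 z)).prod =
      E ⟨rowN l.length, rowN_lt _⟩ 1 fun s => (l.map fun i => rel z i s).prod := by
  induction l with
  | nil => exact absurd rfl h0
  | cons i l ih =>
    have hi := h i List.mem_cons_self
    have h' : ∀ j ∈ l, j < 4 := fun j hj => h j (List.mem_cons_of_mem _ hj)
    rw [mword]
    split_ifs with c
    · subst c
      simp [el0_mkL z (a := 0) (b := 1) (by omega) (by omega) hi, rowN]
    have e : ((winv lInv (mword l)).map (el0 z)).prod = (((mword l).map (el0 z)).prod)⁻¹ := by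
      rw [List.prod_inv_reverse, winv, List.map_reverse, List.map_map, List.map_map]
      exact congrArg (fun x : List GG => x.reverse.prod)
        (List.map_congr_left fun t ht => el0_inv hE z (letters h' t ht).2)
    have e' : ((292 : ℕ) : ZMod 293) = -1 := by decide
    have n1 : rowN (l.length + 1) ≠ rowN l.length := by unfold rowN; split <;> split <;> omega
    have n2 : ∀ n, rowN n ≠ 1 := fun n => by unfold rowN; split <;> omega
    simp only [List.map_append, List.prod_append, e, ih c h', List.map_nil, List.prod_nil, mul_one,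
      el0_mkL z (rowN_lt _) (rowN_lt _) hi, e', Nat.cast_one, one_smul, neg_smul, List.map_cons,
      List.prod_cons, List.length_cons]
    exact comm hE (Fin.ne_of_val_ne n1) (Fin.ne_of_val_ne (n2 _)) (Fin.ne_of_val_ne (n2 _)) _ _

end TwComp

open TwComp

theorem stTwComp : StTwComp := by
  refine ⟨p_tw, fun j m t ht => ?_⟩
  obtain ⟨i, -, hi⟩ := List.mem_flatMap.1 ht
  split_ifs at hi
  · refine (letters (fun a ha => ?_) t hi).2
    simp only [mono, List.mem_append, List.mem_cons, List.mem_replicate, List.not_mem_nil,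
      or_false] at ha
    omega
  · simp at hi

theorem stMword (hE : StElem) (hM : StMem) : StMword := fun z l y h0 h => by
  rw [act hM z fun t ht => (letters h t ht).1, val hE z h0 h]

end Pool.Agent.Lib.MP_fa224b_lc.C
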