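import Pool.Agent.Lib.MP_fa224b_lc.C.UDefs
import Pool.Agent.Lib.MP_fa224b_lc.C.TwComp

/-! The left test words are primitive recursive. -/

namespace Pool.Agent.Lib.MP_fa224b_lc.C

namespace TvComp

open Primrec

theorem p_dig : Primrec₂ dig :=
  nat_mod.comp (nat_div.comp fst ((Primrec₂.unpaired'.1 Nat.Primrec.pow).comp (const 293) snd))
    (const 293)

theorem p_lw : Primrec lw :=
  list_reverse.comp (list_map .id (nat_sub.comp snd (const 1)).to₂)

theorem p_rep : Primrec₂ fun (k : ℕ) (w : List ℕ) => List.replicate k w :=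
  (list_map (list_range.comp fst) (snd.comp fst).to₂).of_eq fun q => by simp

end TvComp

open TvComp TwComp Primrec in
theorem stTvComp : StTvComp := by
  refine ⟨list_flatMap (list_range.comp snd) (list_flatten.comp (TvComp.p_rep.comp
    (p_dig.comp (snd.comp fst) snd)
    (p_lw.comp (p_mword.comp (p_mono.comp (fst.comp fst) snd))))).to₂, fun j m t ht => ?_⟩
  obtain ⟨i, -, hi⟩ := List.mem_flatMap.1 ht
  obtain ⟨w, h1, h2⟩ := List.mem_flatten.1 hi
  rw [List.eq_of_mem_replicate h1, lw, List.mem_reverse] at h2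
  obtain ⟨u, h3, rfl⟩ := List.mem_map.1 h2
  refine (Nat.sub_le _ _).trans_lt (letters (fun a ha => ?_) u h3).2
  simp only [mono, List.mem_append, List.mem_cons, List.mem_replicate, List.not_mem_nil,
    or_false] at ha
  omega

end Pool.Agent.Lib.MP_fa224b_lc.C
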