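import Pool.Agent.Lib.MP_fa224b_lc.C.TwVal
import Pool.Agent.Lib.MP_fa224b_lc.C.UDefs

/-! The value of the left test words. -/

namespace Pool.Agent.Lib.MP_fa224b_lc.C

open Filter Topology TwVal

namespace TvVal

theorem odd_mword (l : List ℕ) : ∀ t ∈ mword l, t % 2 = 1 := by
  induction l with
  | nil => simp [mword]
  | cons i l ih =>
    intro t ht
    rw [mword] at ht
    split_ifs at ht
    · rw [List.mem_singleton.1 ht, mkL]; omega
    · simp only [winv, List.mem_append, List.mem_singleton, List.mem_reverse, List.mem_map] at ht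
      rcases ht with (rfl | ht) | rfl | ⟨u, hu, rfl⟩
      · rw [mkL]; omega
      · exact ih t ht
      · rw [mkL]; omega
      · have := ih u hu
        rw [lInv]; omega

theorem el_pred (z : B) {t : ℕ} (ht : t % 2 = 1) : el z (t - 1) = el z t := by
  have h1 : lA (t - 1) = lA t := Fin.ext (by simp only [lA]; omega)
  have h2 : lB (t - 1) = lB t := Fin.ext (by simp only [lB]; omega)
  have h3 : lI (t - 1) = lI t := by simp only [lI]; omega
  have h4 : lC (t - 1) = lC t := by simp only [lC]; omega
  have h : el0 z (t - 1) = el0 z t := by rw [el0, el0, h1, h2, h3, h4]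
  rw [el, el]
  generalize el0 z (t - 1) = g at h ⊢
  rw [h]

theorem act_right (z : B) {w : List ℕ} (hw : ∀ t ∈ w, t % 2 = 1) (y : KK) :
    wact (mact z) w y = y * wact (mact z) w 1 := by
  induction w generalizing y with
  | nil => exact (mul_one y).symm
  | cons t w ih =>
    have h := fun y => ih (fun u hu => hw u (List.mem_cons_of_mem _ hu)) y
    have e : ∀ y, mact z t y = y * el z t := fun y => by simp [mact, lSide, hw t (by simp)]
    rw [wact, wact, h, h (mact z t 1), e, e, one_mul, mul_assoc]

theorem act_left (z : B) {w : List ℕ} (hw : ∀ t ∈ w, t % 2 = 1) (y : KK) :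
    wact (mact z) (lw w) y = wact (mact z) w 1 * y := by
  induction w with
  | nil => exact (one_mul y).symm
  | cons t w ih =>
    have hw' : ∀ u ∈ w, u % 2 = 1 := fun u hu => hw u (List.mem_cons_of_mem _ hu)
    have ht := hw t (by simp)
    have e : mact z t 1 = el z t := by simp [mact, lSide, ht]
    have e' : ∀ y, mact z (t - 1) y = el z t * y := fun y => by
      have : (t - 1) % 2 = 0 := by omega
      simp [mact, lSide, this, el_pred z ht]
    have h : lw (t :: w) = lw w ++ [t - 1] := by simp [lw]
    rw [h, wact_append, ih hw', wact, wact, wact, e', e, act_right z hw' (el z t), mul_assoc]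

theorem act_rep (hE : StElem) (hW : StMword) (z : B) (j i n : ℕ) (y : KK) :
    ((wact (mact z) (List.replicate n (lw (mword (mono j i)))).flatten y : KK) : GG) =
      E (row j) 1 (fun s => (n : ZMod 293) • W z j i s) * y.1 := by
  induction n generalizing y with
  | zero =>
    have h : E (row j) 1 (fun s => ((0 : ℕ) : ZMod 293) • W z j i s) = 1 := funext fun s => by
      simp only [E, Nat.cast_zero, zero_smul]
      exact (hE (Rg s)).1 _ _
    rw [h, one_mul]
    rfl
  | succ n ih =>
    have h : E (row j) 1 (fun s => ((n + 1 : ℕ) : ZMod 293) • W z j i s) =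
        E (row j) 1 (fun s => (n : ZMod 293) • W z j i s) * E (row j) 1 (W z j i) :=
      funext fun s => by
        simp only [E, Nat.cast_succ, add_smul, one_smul]
        exact (hE (Rg s)).2.1 _ _ _ _
    rw [List.replicate_succ, List.flatten_cons, wact_append, ih, act_left z (odd_mword _),
      Subgroup.coe_mul, act_mono hW, OneMemClass.coe_one, one_mul, h, mul_assoc]

/-- finite sums of multiples of monomials -/
def T (z : B) (j : ℕ) (c : ZZ) (m s : ℕ) : Rg s := ∑ i ∈ Finset.range m, c i • W z j i s

theorem act_fin (hE : StElem) (hW : StMword) (z : B) (j : ℕ) (n : ℕ → ℕ) (m : ℕ) (y : KK) :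
    ((wact (mact z) ((List.range m).flatMap fun i =>
      (List.replicate (n i) (lw (mword (mono j i)))).flatten) y : KK) : GG) =
      E (row j) 1 (T z j (fun i => n i) m) * y.1 := by
  induction m with
  | zero =>
    have h : E (row j) 1 (T z j (fun i => n i) 0) = 1 := funext fun s => (hE (Rg s)).1 _ _
    rw [h, one_mul]
    rfl
  | succ m ih =>
    have h : E (row j) 1 (T z j (fun i => n i) (m + 1)) =
        E (row j) 1 (fun s => (n m : ZMod 293) • W z j m s) *
          E (row j) 1 (T z j (fun i => n i) m) := funext fun s => by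
      simp only [E, T, Finset.sum_range_succ_comm]
      exact (hE (Rg s)).2.1 _ _ _ _
    rw [List.range_succ, List.flatMap_append, wact_append, List.flatMap_singleton, act_rep hE hW,
      ih, h, mul_assoc]

theorem kap_eq (hL : StLine) {z : B} {j : ℕ} (h : InJ z j) (c : ZZ) :
    kap j c = E (row j) 1 fun s => T z j c (s + 1) s := by
  refine congrArg (E (row j) 1) (funext fun s => Matrix.ext fun u w => ?_)
  have h1 : u.1 < 2 * s.unpair.1 + 7 + s.unpair.2 := u.2
  have h2 := Nat.unpair_right_le s
  rw [Matrix.of_apply, T, Matrix.sum_apply]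
  simp only [Matrix.smul_apply, W_apply hL, smul_eq_mul, mul_ite, mul_one, mul_zero]
  split_ifs with h3
  · rw [Finset.sum_eq_single ((u.1 - (2 * j + 6)) / 2), if_pos ⟨h3.1.symm, h, h3.2.1, by omega⟩]
    · exact fun i _ h4 => if_neg fun h5 => h4 (by omega)
    · exact fun h4 => absurd (Finset.mem_range.2 (by omega)) h4
  · exact (Finset.sum_eq_zero fun i _ => if_neg fun h5 => h3 (by omega)).symm

theorem T_stab (hL : StLine) (z : B) (j : ℕ) (c : ZZ) {m s : ℕ}
    (h : s + 1 ≤ m ∨ ∀ i, m ≤ i → c i = 0) : T z j c (s + 1) s = T z j c m s :=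
  sum_stab (fun i hi => by rw [W_big hL z j hi, smul_zero]) fun i hi => by
    rcases h with h | h
    · rw [W_big hL z j (h.trans hi), smul_zero]
    · rw [h i hi, zero_smul]

theorem kap_mem (hE : StElem) (hL : StLine) (hW : StMword) {z : B} {j : ℕ} (h : InJ z j) (c : ZZ) :
    kap j c ∈ KK := by
  have h1 : ∀ m, E (row j) 1 (T z j c m) ∈ KK := fun m => by
    have h := act_fin hE hW z j (fun i => (c i).val) m 1
    simp only [OneMemClass.coe_one, mul_one, ZMod.natCast_zmod_val] at h
    exact h ▸ SetLike.coe_mem _
  have h2 : Tendsto (fun m => E (row j) 1 (T z j c m)) atTop (𝓝 (kap j c)) := by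
    rw [kap_eq hL h]
    refine tendsto_pi_nhds.2 fun s => tendsto_const_nhds.congr' ?_
    filter_upwards [eventually_ge_atTop (s + 1)] with m hm
    simp only [E, T_stab hL z j c (.inl hm)]
  exact (Subgroup.isClosed_topologicalClosure _).mem_of_tendsto h2 (.of_forall h1)

theorem kap_cont (hL : StLine) {z : B} {j : ℕ} (h : InJ z j) : Continuous (kap j) := by
  refine continuous_pi fun s => ?_
  let g : (Fin (s + 1) → ZMod 293) → Gs s := fun η =>
    elem (row j) 1 (∑ i : Fin (s + 1), η i • W z j i s)
  have h1 : Continuous g := continuous_of_discreteTopology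
  refine (h1.comp (continuous_pi fun i : Fin (s + 1) => continuous_apply i.1)).congr fun c => ?_
  simp only [kap_eq hL h, E, T, Finset.sum_range]
  rfl

end TvVal

theorem stTvVal (hE : StElem) (hL : StLine) (_hM : StMem) (hW : StMword) : StTvVal := by
  refine fun z j => ⟨fun h m y => Subtype.ext ?_, fun h => ⟨fun c => ⟨_, TvVal.kap_mem hE hL hW h c⟩,
    fun _ => rfl, (TvVal.kap_cont hL h).subtype_mk _, fun m y => Subtype.ext ?_⟩⟩
  · have h1 : E (row j) 1 (TvVal.T z j (fun i => dig m i) m) = 1 := funext fun s => by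
      have h2 : TvVal.T z j (fun i => dig m i) m s = 0 :=
        Finset.sum_eq_zero fun i _ => by rw [W_zero hL h, smul_zero]
      simp only [E, h2]
      exact (hE (Rg s)).1 _ _
    rw [tv, TvVal.act_fin hE hW, h1, one_mul]
  · have h1 : (fun s => TvVal.T z j (fun i => dig m i) (s + 1) s) =
        TvVal.T z j (fun i => dig m i) m := funext fun s =>
      TvVal.T_stab hL z j _ (.inr fun i hi => by
        rw [dig, Nat.div_eq_of_lt (hi.trans_lt (Nat.lt_pow_self (by norm_num)))]
        rfl)
    rw [tv, TvVal.act_fin hE hW, ← h1, ← TvVal.kap_eq hL h]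
    rfl

end Pool.Agent.Lib.MP_fa224b_lc.C
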