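import Pool.Agent.Lib.MP_fa224b_lc.C.Basic
import Pool.Agent.Lib.MP_fa224b_lc.C.MDefs

/-! The value of the test words. -/

namespace Pool.Agent.Lib.MP_fa224b_lc.C

open Filter Topology

namespace TwVal

theorem mul_ite01 {n R : Type} [Fintype n] [DecidableEq n] [Semiring R] {M N : Matrix n n R}
    {u w : n} {p q : n → Prop} [DecidablePred p] [DecidablePred q] {c : Prop} [Decidable c]
    (hM : ∀ v, M u v = if p v then 1 else 0) (hN : ∀ v, N v w = if q v then 1 else 0)
    (hu : ∀ v v', p v → q v → p v' → q v' → v = v') (hc : c ↔ ∃ v, p v ∧ q v) :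
    (M * N) u w = if c then 1 else 0 := by
  rw [Matrix.mul_apply]
  split_ifs with h
  · obtain ⟨v, h1, h2⟩ := hc.1 h
    rw [Finset.sum_eq_single v, hM, hN, if_pos h1, if_pos h2, one_mul]
    · intro v' _ hv
      rw [hM, hN]
      by_cases h3 : p v'
      · rw [if_neg fun h4 => hv (hu v' v h3 h4 h1 h2), mul_zero]
      · rw [if_neg h3, zero_mul]
    · exact fun h3 => absurd (Finset.mem_univ v) h3
  · refine Finset.sum_eq_zero fun v _ => ?_
    rw [hM, hN]
    by_cases h3 : p v
    · rw [if_neg fun h4 => h (hc.2 ⟨v, h3, h4⟩), mul_zero]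
    · rw [if_neg h3, zero_mul]

theorem sum_stab {M : Type} [AddCommMonoid M] {g : ℕ → M} {a b : ℕ} (ha : ∀ i, a ≤ i → g i = 0)
    (hb : ∀ i, b ≤ i → g i = 0) : ∑ i ∈ Finset.range a, g i = ∑ i ∈ Finset.range b, g i := by
  have k : ∀ {a c : ℕ}, a ≤ c → (∀ i, a ≤ i → g i = 0) →
      ∑ i ∈ Finset.range a, g i = ∑ i ∈ Finset.range c, g i := fun h1 h2 =>
    Finset.sum_subset (Finset.range_mono h1) fun i _ h3 => h2 i (by simpa using h3)
  rw [k (Nat.le_add_right a b) ha, k (Nat.le_add_left b a) hb]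

/-- the product of a monomial -/
def W (z : B) (j i s : ℕ) : Rg s := ((mono j i).map fun i => rel z i s).prod

theorem W_eq (z : B) (j i s : ℕ) :
    W z j i s = mY s ^ (2 * i) * (mX s * mY s ^ (j + 1) * mX s * mT z s) := by
  simp [W, mono, rel, mul_assoc]

theorem pow_apply (hL : StLine) (z : B) (j s n : ℕ) (u w : Fin (dim s)) :
    (mY s ^ n * (mX s * mY s ^ (j + 1) * mX s * mT z s)) u w =
      if j = s.unpair.1 ∧ InJ z j ∧ w.1 = 0 ∧ u.1 = 2 * j + 6 + n then 1 else 0 := by
  induction n generalizing u with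
  | zero =>
    rw [pow_zero, one_mul]
    by_cases h : j = s.unpair.1 ∧ InJ z j
    · obtain ⟨rfl, h⟩ := h
      rw [mT, if_pos h]
      refine mul_ite01 (hL s _ u) (fun v => hL s _ v w) (fun v v' h1 h2 h3 h4 => Fin.ext ?_) ?_
      · omega
      · refine ⟨fun h1 => ⟨⟨s.unpair.1 + 3, by unfold dim; omega⟩, ?_, ?_⟩, fun ⟨v, h1, h2⟩ =>
          ⟨rfl, h, ?_⟩⟩
        · exact ⟨rfl, .inr ⟨rfl, h1.2.2.2⟩⟩
        · exact ⟨rfl, .inl ⟨h1.2.2.1, rfl⟩⟩
        · omega
    · rw [if_neg fun h1 => h ⟨h1.1, h1.2.1⟩]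
      by_cases h1 : j = s.unpair.1
      · rw [mT, if_neg fun h2 => h ⟨h1, h1 ▸ h2⟩, mul_zero, Matrix.zero_apply]
      · have h2 : mX s * mY s ^ (j + 1) * mX s = 0 :=
          Matrix.ext fun u w => by rw [hL, if_neg fun h2 => h1 h2.1, Matrix.zero_apply]
        rw [h2, zero_mul, Matrix.zero_apply]
  | succ n ih =>
    rw [pow_succ', mul_assoc]
    refine mul_ite01 (p := fun v => u.1 = v.1 + 1 ∧ ¬ isX s v.1) (fun _ => rfl) ih
      (fun v v' h1 _ h3 _ => Fin.ext (by omega)) ?_
    have hu := u.2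
    refine ⟨fun h1 => ⟨⟨2 * j + 6 + n, by omega⟩, ⟨h1.2.2.2, ?_⟩, h1.1, h1.2.1, h1.2.2.1, rfl⟩,
      fun ⟨v, h1, h2⟩ => ⟨h2.1, h2.2.1, h2.2.2.1, by omega⟩⟩
    have h2 := h1.1
    simp only [isX]
    omega

theorem W_apply (hL : StLine) (z : B) (j i s : ℕ) (u w : Fin (dim s)) : W z j i s u w =
    if j = s.unpair.1 ∧ InJ z j ∧ w.1 = 0 ∧ u.1 = 2 * j + 6 + 2 * i then 1 else 0 := by
  rw [W_eq, pow_apply hL]

theorem W_zero (hL : StLine) {z : B} {j : ℕ} (h : ¬ InJ z j) (i s : ℕ) : W z j i s = 0 :=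
  Matrix.ext fun u w => by rw [W_apply hL, if_neg fun h1 => h h1.2.1, Matrix.zero_apply]

theorem W_big (hL : StLine) (z : B) (j : ℕ) {i s : ℕ} (h : s + 1 ≤ i) : W z j i s = 0 :=
  Matrix.ext fun u w => by
    have h1 : u.1 < 2 * s.unpair.1 + 7 + s.unpair.2 := u.2
    have h2 := Nat.unpair_right_le s
    rw [W_apply hL, if_neg fun h3 => by omega, Matrix.zero_apply]

/-- the row of the elementary matrices -/
def row (j : ℕ) : Fin 3 := ⟨rowN j, by unfold rowN; split <;> omega⟩

theorem row_ne (j : ℕ) : row j ≠ 1 := fun h => by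
  have h1 : rowN j = 1 := congrArg Fin.val h
  unfold rowN at h1
  split at h1 <;> omega

/-- finite sums of monomials -/
def S (z : B) (j : ℕ) (ξ : ℕ → Bool) (m s : ℕ) : Rg s :=
  ∑ i ∈ Finset.range m, if ξ i = true then W z j i s else 0

theorem act_mono (hW : StMword) (z : B) (j i : ℕ) (y : KK) :
    ((wact (mact z) (mword (mono j i)) y : KK) : GG) = y.1 * E (row j) 1 (W z j i) := by
  rw [hW z (mono j i) y (by simp [mono]) (by
    intro t ht
    simp only [mono, List.mem_append, List.mem_replicate, List.mem_cons, List.not_mem_nil,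
      or_false] at ht
    omega)]
  have h : rowN (mono j i).length = rowN j := by
    simp only [mono, List.length_append, List.length_replicate, List.length_cons, List.length_nil,
      rowN]
    split <;> split <;> omega
  congr 2
  exact Fin.ext h

theorem act_fin (hE : StElem) (hW : StMword) (z : B) (j : ℕ) (ξ : ℕ → Bool) (m : ℕ) (y : KK) :
    ((wact (mact z) ((List.range m).flatMap fun i =>
      if ξ i = true then mword (mono j i) else []) y : KK) : GG) =
      y.1 * E (row j) 1 (S z j ξ m) := by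
  induction m with
  | zero =>
    have h : E (row j) 1 (S z j ξ 0) = 1 := funext fun s => (hE (Rg s)).1 _ _
    rw [h, mul_one]
    rfl
  | succ m ih =>
    have h : E (row j) 1 (S z j ξ (m + 1)) = E (row j) 1 (S z j ξ m) *
        E (row j) 1 fun s => if ξ m = true then W z j m s else 0 := funext fun s => by
      simp only [E, S, Finset.sum_range_succ]
      exact (hE (Rg s)).2.1 _ _ _ _
    rw [List.range_succ, List.flatMap_append, wact_append, List.flatMap_singleton, h, ← mul_assoc,
      ← ih]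
    by_cases h1 : ξ m = true
    · simp only [if_pos h1]
      exact act_mono hW z j m _
    · simp only [if_neg h1]
      have h2 : (E (row j) 1 fun _ => 0) = 1 := funext fun s => (hE (Rg s)).1 _ _
      rw [h2, mul_one]
      rfl

/-- the limit of the finite sums -/
noncomputable def K0 (z : B) (j : ℕ) (ξ : ℕ → Bool) : GG := E (row j) 1 fun s => S z j ξ (s + 1) s

theorem K0_mem (hE : StElem) (hL : StLine) (hW : StMword) (z : B) (j : ℕ) (ξ : ℕ → Bool) :
    K0 z j ξ ∈ KK := by
  have h1 : ∀ m, E (row j) 1 (S z j ξ m) ∈ KK := fun m => by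
    have h := act_fin hE hW z j ξ m 1
    rw [OneMemClass.coe_one, one_mul] at h
    exact h ▸ SetLike.coe_mem _
  have h2 : Tendsto (fun m => E (row j) 1 (S z j ξ m)) atTop (𝓝 (K0 z j ξ)) := by
    refine tendsto_pi_nhds.2 fun s => tendsto_const_nhds.congr' ?_
    filter_upwards [eventually_ge_atTop (s + 1)] with m hm
    have h3 : S z j ξ (s + 1) s = S z j ξ m s :=
      sum_stab (fun i hi => by rw [W_big hL z j hi, ite_self])
        fun i hi => by rw [W_big hL z j (hm.trans hi), ite_self]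
    simp only [K0, E, h3]
  exact (Subgroup.isClosed_topologicalClosure _).mem_of_tendsto h2 (.of_forall h1)

theorem K0_cont (z : B) (j : ℕ) : Continuous (K0 z j) := by
  refine continuous_pi fun s => ?_
  let g : (Fin (s + 1) → Bool) → Gs s := fun η =>
    elem (row j) 1 (∑ i : Fin (s + 1), if η i = true then W z j i s else 0)
  have h1 : Continuous g := continuous_of_discreteTopology
  refine (h1.comp (continuous_pi fun i : Fin (s + 1) => continuous_apply i.1)).congr fun ξ => ?_
  simp only [K0, E, S, Finset.sum_range]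
  rfl

theorem K0_inj (hE : StElem) (hL : StLine) {z : B} {j : ℕ} (h : InJ z j) :
    Function.Injective (K0 z j) := fun ξ ξ' e => funext fun i => by
  have h1 := (hE (Rg (j.pair (2 * i)))).2.2.2 _ _ _ _ (row_ne j) (congrFun e (j.pair (2 * i)))
  have h2 := Nat.right_le_pair j (2 * i)
  have key : ∀ ξ : ℕ → Bool, S z j ξ (j.pair (2 * i) + 1) (j.pair (2 * i))
      ⟨2 * j + 6 + 2 * i, by simp only [dim, Nat.unpair_pair]; omega⟩
      ⟨0, by simp only [dim]; omega⟩ = if ξ i = true then 1 else 0 := fun ξ => by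
    rw [S, Matrix.sum_apply, Finset.sum_eq_single i]
    · split_ifs
      · rw [W_apply hL, if_pos ⟨by simp, h, rfl, rfl⟩]
      · rfl
    · intro i' _ h3
      split_ifs
      · rw [W_apply hL, if_neg fun h4 => h3 (by have := h4.2.2.2; simp only at this; omega)]
      · rfl
    · exact fun h3 => absurd (Finset.mem_range.2 (by omega)) h3
  have h3 := key ξ
  beta_reduce at h1
  rw [h1, key ξ'] at h3
  have h4 : (1 : ZMod 293) ≠ 0 := by decide
  cases h5 : ξ i <;> cases h6 : ξ' i <;> simp_all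

end TwVal

theorem stTwVal (hE : StElem) (hL : StLine) (hW : StMword) : StTwVal := by
  refine fun z j => ⟨fun h m y => Subtype.ext ?_, fun h => ⟨fun ξ => ⟨_, TwVal.K0_mem hE hL hW z j ξ⟩,
    (TwVal.K0_cont z j).subtype_mk _, fun ξ ξ' e => TwVal.K0_inj hE hL h (congrArg Subtype.val e),
    fun m y => Subtype.ext ?_⟩⟩
  · have h1 : E (TwVal.row j) 1 (TwVal.S z j m.testBit m) = 1 := funext fun s => by
      have h2 : TwVal.S z j m.testBit m s = 0 :=
        Finset.sum_eq_zero fun i _ => by rw [TwVal.W_zero hL h, ite_self]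
      simp only [E, h2]
      exact (hE (Rg s)).1 _ _
    rw [tw, TwVal.act_fin hE hW, h1, mul_one]
  · have h1 : TwVal.S z j m.testBit m = fun s => TwVal.S z j m.testBit (s + 1) s := funext fun s =>
      TwVal.sum_stab (fun i hi => if_neg (by
          rw [Nat.testBit_lt_two_pow (hi.trans_lt Nat.lt_two_pow_self)]
          exact Bool.false_ne_true))
        fun i hi => by rw [TwVal.W_big hL z j hi, ite_self]
    rw [tw, TwVal.act_fin hE hW, h1]
    rfl

end Pool.Agent.Lib.MP_fa224b_lc.C
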