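import Pool.Agent.Lib.MP_fa224b_lc.C.ApproxM
import Pool.Agent.Lib.MP_fa224b_lc.C.Bad
import Pool.Agent.Lib.MP_fa224b_lc.C.BadStep
import Pool.Agent.Lib.MP_fa224b_lc.C.Comp
import Pool.Agent.Lib.MP_fa224b_lc.C.Core
import Pool.Agent.Lib.MP_fa224b_lc.C.Corr
import Pool.Agent.Lib.MP_fa224b_lc.C.DerCE
import Pool.Agent.Lib.MP_fa224b_lc.C.Det
import Pool.Agent.Lib.MP_fa224b_lc.C.Diag
import Pool.Agent.Lib.MP_fa224b_lc.C.Elem
import Pool.Agent.Lib.MP_fa224b_lc.C.FT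
import Pool.Agent.Lib.MP_fa224b_lc.C.FireCE
import Pool.Agent.Lib.MP_fa224b_lc.C.GapK
import Pool.Agent.Lib.MP_fa224b_lc.C.Gate
import Pool.Agent.Lib.MP_fa224b_lc.C.Haar
import Pool.Agent.Lib.MP_fa224b_lc.C.Hilb
import Pool.Agent.Lib.MP_fa224b_lc.C.KitA
import Pool.Agent.Lib.MP_fa224b_lc.C.KitB
import Pool.Agent.Lib.MP_fa224b_lc.C.MainC
import Pool.Agent.Lib.MP_fa224b_lc.C.Mem
import Pool.Agent.Lib.MP_fa224b_lc.C.Move
import Pool.Agent.Lib.MP_fa224b_lc.C.NullI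
import Pool.Agent.Lib.MP_fa224b_lc.C.NullII
import Pool.Agent.Lib.MP_fa224b_lc.C.Pair
import Pool.Agent.Lib.MP_fa224b_lc.C.Split
import Pool.Agent.Lib.MP_fa224b_lc.C.Spread
import Pool.Agent.Lib.MP_fa224b_lc.C.SysM
import Pool.Agent.Lib.MP_fa224b_lc.C.Test
import Pool.Agent.Lib.MP_fa224b_lc.C.TwComp
import Pool.Agent.Lib.MP_fa224b_lc.C.TwVal
import Pool.Agent.Lib.MP_fa224b_lc.C.TvComp
import Pool.Agent.Lib.MP_fa224b_lc.C.TvVal
import Pool.Agent.Lib.MP_fa224b_lc.C.Rep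
import Pool.Agent.Lib.MP_fa224b_lc.C.MoveL
import Pool.Agent.Lib.MP_fa224b_lc.C.Conv
import Pool.Agent.Lib.MP_fa224b_lc.C.ZeroOne
import Pool.Agent.Lib.MP_fa224b_lc.C.CoreU
import Pool.Agent.Lib.MP_fa224b_lc.C.MainU

/-! Assembly. -/

namespace Pool.Agent.Lib.MP_fa224b_lc.C

theorem allFT : StFT :=
  stFT (stFireCE stKitA (stDerCE stKitA (stKitB stKitA))) (stDet stCorr (stGate stCorr))
    (stBad (stBadStep stSpread)) (stTest stSpread)

theorem allMem : StMem := stMem stElem stLine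

theorem allCore : StCore :=
  stCore allFT (stSys stElem allMem stHaar) (stGapM stElem allMem stHaar (stGapK (stHilb stPair)))
    (stApproxM stHaar) (stComp allMem stLine) stTwComp (stTwVal stElem stLine (stMword stElem allMem))
    stMove stKitA (stKitB stKitA) stHaar

theorem allMain : StMain :=
  stMain allCore stDiag (stNull stNullI stNullII) stPoint stSplit stCode stHaar

theorem allCoreU : StCoreU :=
  stCoreU allFT (stSys stElem allMem stHaar) (stGapM stElem allMem stHaar (stGapK (stHilb stPair)))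
    (stApproxM stHaar) (stComp allMem stLine) stTvComp
    (stTvVal stElem stLine allMem (stMword stElem allMem)) stMoveL stKitA (stKitB stKitA) stHaar

end Pool.Agent.Lib.MP_fa224b_lc.C
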