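import Pool.Agent.Lib.MP_fa224b_lc.C.UDefs

/-! Statements for the cone form of the dichotomy. -/

namespace Pool.Agent.Lib.MP_fa224b_lc.C

open MeasureTheory

/-- the degree of `F (z ⊕ a)` is the same for almost all `a` -/
def Flt (F : B → B) (z : B) : Prop := ∃ v, ∀ᵐ a ∂coin, TEq (F (join z (bits a))) v

/-- measurability hypothesis -/
def NM (F : B → B) : Prop := ∀ φ ψ : (ℕ → Bool) → B, Measurable φ → Measurable ψ →
  NullMeasurableSet {a | TEq (F (φ a)) (F (ψ a))} coin

/-- interleaving of binary sequences -/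
def il (p : (ℕ → Bool) × (ℕ → Bool)) : ℕ → Bool :=
  fun n => if n % 2 = 0 then p.1 (n / 2) else p.2 (n / 2)

/-- isomorphism theorem for atomless probability measures -/
def StIso : Prop := ∀ (m : Measure B) [IsProbabilityMeasure m], (∀ x, m {x} = 0) →
  ∃ (θ : B → ℕ → Bool) (ψ : (ℕ → Bool) → B), MeasurePreserving θ m coin ∧ Measurable ψ ∧
    ∀ᵐ x ∂m, ψ (θ x) = x

/-- measurable maps are almost everywhere computable in a parameter -/
def StAeComp : Prop := ∀ (m : Measure B) [IsProbabilityMeasure m] (θ : B → B), Measurable θ →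
  ∃ e, ∀ᵐ x ∂m, TLe (θ x) (join e x)

def StIl : Prop := MeasurePreserving il (coin.prod coin) coin ∧
  MeasurePreserving (fun a : ℕ → Bool => (fun n => a (2 * n), fun n => a (2 * n + 1))) coin
    (coin.prod coin)

/-- random extensions of a non-flat real are non-flat -/
def StSwap : Prop := ∀ F : B → B, (∀ x y, TEq x y → TEq (F x) (F y)) → NM F → ∀ z, ¬ Flt F z →
  coin {u | Flt F (join z (bits u))} = 0

/-- the same for an arbitrary measure, above a parameter -/
def StAsc : Prop := ∀ (ρ : Measure B) [IsProbabilityMeasure ρ], ∃ e, ∀ F : B → B,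
  (∀ x y, TEq x y → TEq (F x) (F y)) → NM F → ∀ z, TLe e z → ¬ Flt F z →
    ρ {p | Flt F (join z p)} = 0

end Pool.Agent.Lib.MP_fa224b_lc.C
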