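import Pool.Agent.Lib.MP_fa224b_lc.C.Basic
import Pool.Agent.Lib.MP_fa224b_lc.C.VDefs
import Pool.Agent.Lib.MP_fa224b_lc.C.MainU

/-! Non-flatness ascends along random extensions, for every measure. -/

namespace Pool.Agent.Lib.MP_fa224b_lc.C

open MeasureTheory ProbabilityTheory Filter Topology

namespace Asc

open MainU MainC

theorem coin_single (a : ℕ → Bool) : coin {a} = 0 := by
  have h : ∀ n : ℕ, coin {a} ≤ (2⁻¹ : ENNReal) ^ n := fun n => by
    have e : coin (Set.pi (Finset.range n) fun i => {a i}) = 2⁻¹ ^ n := by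
      rw [coin, Measure.infinitePi_pi _ fun _ _ => MeasurableSet.singleton _]
      simp only [uniformOn_univ, Measure.count_singleton, Fintype.card_bool, Finset.prod_const,
        Finset.card_range, Nat.cast_ofNat, one_div]
    rw [← e]
    exact measure_mono (Set.singleton_subset_iff.2 fun _ _ => rfl)
  exact le_zero_iff.1 (ge_of_tendsto'
    (ENNReal.tendsto_pow_atTop_nhds_zero_of_lt_one (by norm_num)) h)

theorem dec_bits (a : ℕ → Bool) : (fun n => decide (bits a n = 1)) = a := by
  funext n
  unfold bits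
  cases a n <;> rfl

theorem meas_J : Measurable fun q : B × (ℕ → Bool) => join q.1 (bits q.2) := by
  refine measurable_pi_lambda _ fun n => ?_
  unfold join
  split_ifs
  · exact (measurable_pi_apply _).comp measurable_fst
  · exact (measurable_pi_apply (n / 2)).comp (meas_bits.comp measurable_snd)

theorem bits_il (a b : ℕ → Bool) : bits (il (a, b)) = join (bits a) (bits b) := by
  funext n
  simp only [bits, il, join]
  split_ifs <;> rfl

theorem flt_congr {F : B → B} (hF : ∀ x y, TEq x y → TEq (F x) (F y)) {z z' : B} (h : TEq z z')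
    (hz : Flt F z) : Flt F z' :=
  hz.imp fun _ k => k.mono fun _ e => (hF _ _ (teq_join h.symm (TEq.refl _))).trans e

end Asc

open MainU MainC Asc in
theorem stAsc (h1 : StIso) (h2 : StAeComp) (h3 : StIl) (h4 : StSwap) : StAsc := by
  intro ρ _
  set m := (ρ.prod coin).map fun q : B × (ℕ → Bool) => join q.1 (bits q.2) with hm
  have : IsProbabilityMeasure m := Measure.isProbabilityMeasure_map meas_J.aemeasurable
  have : IsProbabilityMeasure (coin.map bits) :=
    Measure.isProbabilityMeasure_map meas_bits.aemeasurable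
  have at0 : ∀ x, m {x} = 0 := fun x => by
    rw [hm, Measure.map_apply meas_J (MeasurableSet.singleton x)]
    refine measure_mono_null (t := Set.univ ×ˢ {fun n => decide (odds x n = 1)}) (fun q hq => ?_) ?_
    · refine ⟨trivial, ?_⟩
      rw [← show join q.1 (bits q.2) = x from hq, odds_join, dec_bits]
      rfl
    · rw [Measure.prod_prod, coin_single, mul_zero]
  obtain ⟨θ, ψ, hθ, hψ, hi⟩ := h1 m at0
  have md : Measurable fun (w : B) (n : ℕ) => decide (w n = 1) := measurable_pi_lambda _ fun n =>
    (measurable_of_countable fun k : ℕ => decide (k = 1)).comp (measurable_pi_apply n)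
  obtain ⟨e1, he1⟩ := h2 m _ (meas_bits.comp hθ.measurable)
  obtain ⟨e2, he2⟩ := h2 (coin.map bits) _ (hψ.comp md)
  have he3 := hθ.quasiMeasurePreserving.ae (ae_of_ae_map meas_bits.aemeasurable he2)
  refine ⟨join e1 e2, fun F hF hN z hz hn => ?_⟩
  have k1 : ∀ᵐ u ∂coin, ¬ Flt F (join z (bits u)) := measure_eq_zero_iff_ae_notMem.1 (h4 F hF hN z hn)
  have k2 : ∀ᵐ x ∂m, ¬ Flt F (join z x) := by
    filter_upwards [hθ.quasiMeasurePreserving.ae k1, he1, he3, hi] with x a1 a2 a3 a4
    simp only [Function.comp, dec_bits, a4] at a2 a3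
    refine fun k => a1 (flt_congr hF ⟨(le_joinl _ _).join (a3.trans ?_),
      (le_joinl _ _).join (a2.trans ?_)⟩ k)
    · exact (((le_joinr e1 e2).trans hz).trans (le_joinl _ _)).join (le_joinr _ _)
    · exact (((le_joinl e1 e2).trans hz).trans (le_joinl _ _)).join (le_joinr _ _)
  have k3 := Measure.ae_ae_of_ae_prod (ae_of_ae_map meas_J.aemeasurable k2)
  refine measure_eq_zero_iff_ae_notMem.2 (k3.mono fun p hp ⟨v, hv⟩ => ?_)
  obtain ⟨a, a1, a2⟩ := (hp.and (Measure.ae_ae_of_ae_prod
    (h3.1.quasiMeasurePreserving.ae hv))).exists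
  refine a1 ⟨v, a2.mono fun b e => TEq.trans (hF _ _ ?_) e⟩
  rw [bits_il]
  exact (teq_join (teq_assoc _ _ _) (TEq.refl _)).trans (teq_assoc _ _ _).symm

end Pool.Agent.Lib.MP_fa224b_lc.C
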