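import Pool.Agent.Lib.MP_fa224b_lc.C.FStmts

/-! Basic facts on counting and on words. -/

namespace Pool.Agent.Lib.MP_fa224b_lc.C

open MeasureTheory

section count

variable {α β : Type}

@[simp] theorem cnt_nil (p : α → Prop) : cnt [] p = 0 := rfl

open Classical in
theorem cnt_cons (a : α) (A : List α) (p : α → Prop) :
    cnt (a :: A) p = cnt A p + if p a then 1 else 0 := by
  unfold cnt; rw [List.countP_cons]; simp

theorem cnt_append (A A' : List α) (p : α → Prop) : cnt (A ++ A') p = cnt A p + cnt A' p :=
  List.countP_append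

theorem cnt_le (A : List α) (p : α → Prop) : cnt A p ≤ A.length := List.countP_le_length

theorem cnt_mono {A : List α} {p q : α → Prop} (h : ∀ a ∈ A, p a → q a) : cnt A p ≤ cnt A q :=
  List.countP_mono_left fun a ha => by simpa using h a ha

theorem cnt_congr {A : List α} {p q : α → Prop} (h : ∀ a ∈ A, p a ↔ q a) : cnt A p = cnt A q :=
  le_antisymm (cnt_mono fun a ha => (h a ha).1) (cnt_mono fun a ha => (h a ha).2)

theorem cnt_or_and (A : List α) (p q : α → Prop) :
    cnt A (fun a => p a ∨ q a) + cnt A (fun a => p a ∧ q a) = cnt A p + cnt A q := by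
  induction A with
  | nil => rfl
  | cons a A ih =>
    simp only [cnt_cons]
    by_cases hp : p a <;> by_cases hq : q a <;> simp [hp, hq] <;> omega

theorem cnt_or_le (A : List α) (p q : α → Prop) :
    cnt A (fun a => p a ∨ q a) ≤ cnt A p + cnt A q := by
  have := cnt_or_and A p q; omega

theorem cnt_and_ge (A : List α) (p q : α → Prop) :
    cnt A p + cnt A q ≤ A.length + cnt A (fun a => p a ∧ q a) := by
  have := cnt_or_and A p q; have := cnt_le A fun a => p a ∨ q a; omega

theorem cnt_add_not (A : List α) (p : α → Prop) : cnt A p + cnt A (fun a => ¬ p a) = A.length := by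
  induction A with
  | nil => rfl
  | cons a A ih => simp only [cnt_cons, List.length_cons]; by_cases hp : p a <;> simp [hp] <;> omega

theorem cnt_pos {A : List α} {p : α → Prop} : 0 < cnt A p ↔ ∃ a ∈ A, p a := by
  unfold cnt; simp [List.countP_pos_iff]

theorem cnt_all {A : List α} {p : α → Prop} (h : ∀ a ∈ A, p a) : cnt A p = A.length := by
  unfold cnt; exact List.countP_eq_length.2 fun a ha => by simpa using h a ha

theorem majority {A : List α} {p q : α → Prop} (hp : A.length < 2 * cnt A p)
    (hq : A.length < 2 * cnt A q) : ∃ a ∈ A, p a ∧ q a :=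
  cnt_pos.1 (by have := cnt_and_ge A p q; omega)

theorem cnt_map (A : List α) (g : α → β) (p : β → Prop) :
    cnt (A.map g) p = cnt A fun a => p (g a) := by
  unfold cnt; rw [List.countP_map]; rfl

theorem cnt_flatMap (A : List α) (g : α → List β) (p : β → Prop) :
    cnt (A.flatMap g) p = (A.map fun a => cnt (g a) p).sum := by
  induction A with
  | nil => rfl
  | cons a A ih => simp [List.flatMap_cons, cnt_append, ih]

theorem cnt_product (A : List α) (A' : List β) (p : α × β → Prop) :
    cnt (A.product A') p = (A.map fun a => cnt A' fun b => p (a, b)).sum := by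
  unfold List.product; rw [cnt_flatMap]; simp only [cnt_map]

open Classical in
theorem cnt_eq_sum (A : List α) (p : α → Prop) :
    cnt A p = (A.map fun a => if p a then 1 else 0).sum := by
  induction A with
  | nil => rfl
  | cons a A ih => simp [cnt_cons, ih, add_comm]

theorem cnt_product' (A : List α) (A' : List β) (p : α × β → Prop) :
    cnt (A.product A') p = (A'.map fun b => cnt A fun a => p (a, b)).sum := by
  rw [cnt_product]
  induction A with
  | nil => simp
  | cons a A ih =>
    simp only [List.map_cons, List.sum_cons, ih, cnt_cons, List.sum_map_add]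
    rw [add_comm, cnt_eq_sum]

theorem measurable_cnt {Ω : Type} [MeasurableSpace Ω] (A : List α) (p : α → Ω → Prop)
    (h : ∀ a ∈ A, MeasurableSet {y | p a y}) : Measurable fun y => cnt A fun a => p a y := by
  classical
  induction A with
  | nil => exact measurable_const
  | cons a A ih =>
    simp only [cnt_cons]
    exact (ih fun b hb => h b (List.mem_cons_of_mem _ hb)).add
      (Measurable.ite (h a List.mem_cons_self) measurable_const measurable_const)

end count

variable {Ω : Type}

@[simp] theorem wact_nil (act : ℕ → Ω → Ω) (y : Ω) : wact act [] y = y := rfl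
@[simp] theorem wact_cons (act : ℕ → Ω → Ω) (t : ℕ) (w : List ℕ) (y : Ω) :
    wact act (t :: w) y = wact act w (act t y) := rfl

theorem wact_append (act : ℕ → Ω → Ω) (u w : List ℕ) (y : Ω) :
    wact act (u ++ w) y = wact act w (wact act u y) := by
  induction u generalizing y with
  | nil => rfl
  | cons t u ih => exact ih _

theorem mem_words {L : List ℕ} {r : ℕ} {w : List ℕ} :
    w ∈ words L r ↔ w.length = r ∧ ∀ t ∈ w, t ∈ L := by
  induction r generalizing w with
  | zero =>
    simp only [words, List.mem_singleton, List.length_eq_zero_iff]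
    exact ⟨fun h => ⟨h, by simp [h]⟩, fun h => h.1⟩
  | succ r ih =>
    simp only [words, List.mem_flatMap, List.mem_map, ih]
    constructor
    · rintro ⟨u, ⟨h1, h2⟩, t, ht, rfl⟩
      exact ⟨by simp [h1], by simpa using ⟨ht, h2⟩⟩
    · rintro ⟨h1, h2⟩
      cases w with
      | nil => simp at h1
      | cons t u =>
        exact ⟨u, ⟨by simpa using h1, fun s hs => h2 s (List.mem_cons_of_mem _ hs)⟩, t,
          h2 t List.mem_cons_self, rfl⟩

theorem length_words (L : List ℕ) (r : ℕ) : (words L r).length = L.length ^ r := by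
  induction r with
  | zero => rfl
  | succ r ih => simp [words, List.length_flatMap, ih, pow_succ]

theorem length_words_pos {L : List ℕ} (h : L ≠ []) (r : ℕ) : 0 < (words L r).length := by
  rw [length_words]; exact pow_pos (List.length_pos_iff.2 h) r

theorem length_cloud (L R : List ℕ) (r : ℕ) :
    (cloud L R r).length = (words L r).length * (words R r).length := List.length_product _ _

theorem mem_cloud {L R : List ℕ} {r : ℕ} {a : Adr} :
    a ∈ cloud L R r ↔ a.1 ∈ words L r ∧ a.2 ∈ words R r := List.mem_product (a := a.1) (b := a.2)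

theorem length_cloud_pos (σ : Sys Ω) (r : ℕ) : 0 < (cloud σ.L σ.R r).length := by
  rw [length_cloud]; exact mul_pos (length_words_pos σ.L_ne r) (length_words_pos σ.R_ne r)

theorem mem_winv (σ : Sys Ω) {w : List ℕ} (h : ∀ t ∈ w, t ∈ σ.S) : ∀ t ∈ winv σ.inv w, t ∈ σ.S := by
  intro t ht
  simp only [winv, List.mem_reverse, List.mem_map] at ht
  obtain ⟨s, hs, rfl⟩ := ht
  exact σ.inv_mem s (h s hs)

theorem wact_winv (σ : Sys Ω) {w : List ℕ} (h : ∀ t ∈ w, t ∈ σ.S) (y : Ω) :
    wact σ.act (winv σ.inv w) (wact σ.act w y) = y := by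
  induction w generalizing y with
  | nil => rfl
  | cons t w ih =>
    have e : winv σ.inv (t :: w) = winv σ.inv w ++ [σ.inv t] := by simp [winv]
    rw [e, wact_append, wact_cons σ.act t, ih fun s hs => h s (List.mem_cons_of_mem _ hs)]
    exact σ.act_inv t (h t List.mem_cons_self) y

theorem measurePreserving_wact [MeasurableSpace Ω] {μ : Measure Ω} {act : ℕ → Ω → Ω}
    {w : List ℕ} (h : ∀ t ∈ w, MeasurePreserving (act t) μ μ) :
    MeasurePreserving (wact act w) μ μ := by
  induction w with
  | nil => exact MeasurePreserving.id μ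
  | cons t w ih =>
    exact (ih fun s hs => h s (List.mem_cons_of_mem _ hs)).comp (h t List.mem_cons_self)

theorem meets_iff (σ : Sys Ω) (Z : Set Ω) (y : Ω) (w : List ℕ) :
    Meets σ Z y w ↔ ∃ i, i ≤ w.length ∧ wact σ.act (w.take i) y ∈ Z := by
  constructor
  · rintro ⟨u, hu, h⟩
    exact ⟨u.length, hu.length_le, by rwa [← List.prefix_iff_eq_take.1 hu]⟩
  · rintro ⟨i, -, h⟩
    exact ⟨_, List.take_prefix i w, h⟩

end Pool.Agent.Lib.MP_fa224b_lc.C
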