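import Pool.Agent.Lib.MP_fa224b_lc.C.UDefs
import Pool.Agent.Lib.MP_fa224b_lc.C.Comp
import Pool.Agent.Lib.MP_fa224b_lc.C.Split

/-! Computable coordinates along the cosets of the test subgroup. -/

namespace Pool.Agent.Lib.MP_fa224b_lc.C

open CompL

namespace RepL

/-- the entry of the elementary matrix -/
def mk (j : ℕ) (c : ZZ) (s : ℕ) : Rg s := Matrix.of fun u w =>
  if s.unpair.1 = j ∧ w.1 = 0 ∧ 2 * j + 6 ≤ u.1 ∧ u.1 % 2 = 0 then c ((u.1 - (2 * j + 6)) / 2) else 0

theorem kap_eq (j : ℕ) (c : ZZ) (s : ℕ) : kap j c s = elem (rowJ j) 1 (mk j c s) := rfl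

theorem row_ne (j : ℕ) : rowN j ≠ 1 := by unfold rowN; split <;> omega

theorem kap_add (hE : StElem) (j : ℕ) (c d : ZZ) : kap j (c + d) = kap j c * kap j d := by
  funext s
  have : mk j (c + d) s = mk j c s + mk j d s := by
    ext u w
    simp only [mk, Matrix.add_apply, Matrix.of_apply, Pi.add_apply]
    split_ifs <;> simp
  rw [kap_eq, this]
  exact (hE _).2.1 _ _ _ _

theorem kap_zero (hE : StElem) (j : ℕ) : kap j 0 = 1 := by
  funext s
  have : mk j 0 s = 0 := by
    ext u w
    simp [mk]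
  rw [kap_eq, this]
  exact (hE _).1 _ _

theorem dim_pos (s : ℕ) : 0 < dim s := by unfold dim; omega

/-- the positions that change -/
def Ch (j s a b u v : ℕ) : Prop :=
  a = rowN j ∧ b < 3 ∧ u < dim s ∧ v < dim s ∧ s.unpair.1 = j ∧ 2 * j + 6 ≤ u ∧ u % 2 = 0

instance (j s a b u v : ℕ) : Decidable (Ch j s a b u v) := by unfold Ch; infer_instance

theorem entry_kap (j : ℕ) (e : ZZ) (y : GG) (s a b u v : ℕ) : entry (kap j e * y) s a b u v =
    (entry y s a b u v + (if Ch j s a b u v then (e ((u - (2 * j + 6)) / 2)).val else 0) *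
      entry y s 1 b 0 v) % 293 := by
  refine entry_new (fun h0 => if_neg fun h1 => h0 ⟨h1.1.trans_lt (rowJ j).2, h1.2.1, h1.2.2.1,
    h1.2.2.2.1⟩) fun ⟨ha, hb, hu, hv⟩ => ?_
  have h1 : ((kap j e * y) s).mat =
      (y s).mat + Matrix.single (rowJ j) 1 (mk j e s) * (y s).mat := by
    have : ((kap j e * y) s).mat = (kap j e s).mat * (y s).mat := rfl
    rw [this, kap_eq, elem, dif_neg fun h => row_ne j (congrArg Fin.val h)]
    simp only [Gs.mat, add_mul, one_mul]
  rw [h1, Matrix.add_apply, Matrix.add_apply]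
  congr 1
  by_cases h : a = rowN j
  · subst h
    have h2 := cast_entry y s 1 ⟨b, hb⟩ ⟨0, dim_pos s⟩ ⟨v, hv⟩
    rw [show (⟨rowN j, ha⟩ : Fin 3) = rowJ j from rfl, Matrix.single_mul_apply_same,
      Matrix.mul_apply, Finset.sum_eq_single ⟨0, dim_pos s⟩ (fun w _ hw => by
        rw [mk, Matrix.of_apply, if_neg fun h1 => hw (Fin.ext h1.2.1), zero_mul]) (by simp), ← h2]
    simp [mk, Ch, hb, hu, hv]
  · rw [Matrix.single_mul_apply_of_ne _ _ _ _ _ fun h1 => h (congrArg Fin.val h1)]
    simp [Ch, h]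

theorem entry_lt (y : GG) (s a b u v : ℕ) : entry y s a b u v < 293 := by
  unfold entry
  split_ifs
  · exact ZMod.val_lt _
  · omega

theorem tle_left (a b : B) : TLe a (join a b) := by simpa using tc_evens.tle (join a b)

theorem tle_right (a b : B) : TLe b (join a b) := by simpa using tc_odds.tle (join a b)

open Split in
theorem lemA {j : ℕ} {e : ZZ} {y y' : KK} (h : y'.1 = kap j e * y.1) :
    TLe (code y') (join (code y) (vals e)) := by
  have q1 := pr1.comp (Primrec.fst (α := ℕ) (β := ℕ))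
  have q2 := pr2.comp (Primrec.fst (α := ℕ) (β := ℕ))
  have q3 := pr3.comp (Primrec.fst (α := ℕ) (β := ℕ))
  have q4 := pr4.comp (Primrec.fst (α := ℕ) (β := ℕ))
  have q5 := pr5.comp (Primrec.fst (α := ℕ) (β := ℕ))
  have h1 : PrimrecPred fun q : ℕ × ℕ => Ch j (p1 q.1) (p2 q.1) (p3 q.1) (p4 q.1) (p5 q.1) :=
    (Primrec.eq.comp q2 (Primrec.const _)).and ((Primrec.nat_lt.comp q3 (Primrec.const 3)).and
      ((Primrec.nat_lt.comp q4 (pr_dim q1)).and ((Primrec.nat_lt.comp q5 (pr_dim q1)).and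
      ((Primrec.eq.comp (pl.comp q1) (Primrec.const _)).and
      ((Primrec.nat_le.comp (Primrec.const _) q4).and (pr_even.comp q4))))))
  have t1 := post₂ (prim Primrec.id _) (app (tle_right (code y) (vals e))
    (prim (pr_half.comp (Primrec.nat_sub.comp pr4 (Primrec.const (2 * j + 6)))) _))
    (p := fun n x => if Ch j (p1 n) (p2 n) (p3 n) (p4 n) (p5 n) then x else 0)
    (Primrec.ite h1 Primrec.snd (Primrec.const 0))
  have t2 := post₂ t1 (app (tle_left (code y) (vals e))
    (prim (pr_e5 pr1 (Primrec.const 1) pr3 (Primrec.const 0) pr5) _)) Primrec.nat_mul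
  have t3 := post₂ (tle_left (code y) (vals e)) t2 (p := fun a b => (a + b) % 293)
    (Primrec.nat_mod.comp Primrec.nat_add (Primrec.const 293))
  convert t3 using 2 with n
  rw [code_eq, h, entry_kap, code_e5]
  rfl

/-- the entries of the middle row -/
def mid (j : ℕ) (y : GG) (i m : ℕ) : ℕ := entry y (Nat.pair j (2 * i)) 1 m.unpair.1 0 m.unpair.2

theorem mid_kap (j : ℕ) (e : ZZ) (y : GG) : mid j (kap j e * y) = mid j y := by
  funext i m
  rw [mid, entry_kap, if_neg fun h => row_ne j h.1.symm, zero_mul, add_zero,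
    Nat.mod_eq_of_lt (entry_lt _ _ _ _ _ _), mid]

theorem exists_mid (j : ℕ) (y : GG) (i : ℕ) : ∃ m, 1 - mid j y i m = 0 := by
  have : Fact (Nat.Prime 293) := ⟨by norm_num⟩
  by_contra! h
  have h1 : (y (Nat.pair j (2 * i))).mat * ((y (Nat.pair j (2 * i)))⁻¹).mat = 1 :=
    Units.mul_inv (α := Matrix (Fin 3) (Fin 3) (Rg (Nat.pair j (2 * i)))) _
  have h2 := congrFun₂ (congrFun₂ h1 1 1) ⟨0, dim_pos _⟩ ⟨0, dim_pos _⟩
  rw [Matrix.mul_apply, Matrix.sum_apply, Finset.sum_eq_zero fun b _ => by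
    rw [Matrix.mul_apply]
    refine Finset.sum_eq_zero fun v _ => ?_
    have h3 := h (Nat.pair b v)
    rw [mid, Nat.unpair_pair] at h3
    have h4 := cast_entry y _ 1 b ⟨0, dim_pos _⟩ v
    rw [← h4, show entry y (Nat.pair j (2 * i)) (1 : Fin 3) b (⟨0, dim_pos _⟩ : Fin _) v = 0 from
      by_contra fun h5 => h3 (Nat.sub_eq_zero_of_le (Nat.pos_of_ne_zero h5)), Nat.cast_zero,
      zero_mul]] at h2
  simp at h2

/-- the pivot -/
noncomputable def piv (j : ℕ) (y : GG) (i : ℕ) : ℕ := Nat.find (exists_mid j y i)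

/-- the entry above or below the pivot -/
noncomputable def top (j : ℕ) (y : GG) (i : ℕ) : ℕ := entry y (Nat.pair j (2 * i)) (rowN j)
  (piv j y i).unpair.1 (2 * j + 6 + 2 * i) (piv j y i).unpair.2

/-- the coordinate along the coset -/
noncomputable def dd (j : ℕ) (y : GG) : ZZ := fun i =>
  ((top j y i * mid j y i (piv j y i) ^ 291 : ℕ) : ZMod 293)

theorem dd_kap (j : ℕ) (e : ZZ) (y : GG) : dd j (kap j e * y) = dd j y + e := by
  have : Fact (Nat.Prime 293) := ⟨by norm_num⟩
  funext i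
  have h1 : piv j (kap j e * y) i = piv j y i := Nat.find_congr' (by rw [mid_kap])
  have h2 : 1 - mid j y i (piv j y i) = 0 := Nat.find_spec (exists_mid j y i)
  have h3 : mid j y i (piv j y i) < 293 := entry_lt _ _ _ _ _ _
  have h4 : (mid j y i (piv j y i) : ZMod 293) ^ 292 = 1 := ZMod.pow_card_sub_one_eq_one
    fun h => by
      have := Nat.le_of_dvd (by omega) ((ZMod.natCast_eq_zero_iff _ _).1 h)
      omega
  have h5 : Ch j (Nat.pair j (2 * i)) (rowN j) (piv j y i).unpair.1 (2 * j + 6 + 2 * i)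
      (piv j y i).unpair.2 := by
    unfold mid entry at h2
    split_ifs at h2 with h
    refine ⟨rfl, h.2.1, ?_, h.2.2.2, by simp, by omega, by omega⟩
    simp only [dim, Nat.unpair_pair]
    omega
  simp only [dd, top, h1, mid_kap, Pi.add_apply]
  rw [entry_kap, if_pos h5, show (2 * j + 6 + 2 * i - (2 * j + 6)) / 2 = i by omega]
  change (((_ + _ * mid j y i (piv j y i)) % 293 * _ : ℕ) : ZMod 293) = _
  push_cast [ZMod.natCast_mod, ZMod.natCast_zmod_val]
  linear_combination e i * h4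

open Split in
theorem lemB (j : ℕ) (y : KK) : TLe (vals (dd j y.1)) (code y) := by
  have s1 : Primrec fun i : ℕ => Nat.pair j (2 * i) :=
    Primrec₂.natPair.comp (Primrec.const j) pr_double
  have t1 : TLe (fun p => mid j y.1 p.unpair.1 p.unpair.2) (code y) := by
    simpa only [code_e5, mid] using app (TLe.refl (code y)) (prim (pr_e5 (s1.comp u1)
      (Primrec.const 1) (u1.comp u2) (Primrec.const 0) (u2.comp u2)) _)
  have t2 : TLe (piv j y.1) (code y) := by
    have := find (app (prim (Primrec.nat_sub.comp (Primrec.const 1) Primrec.id) _) t1)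
      fun n => by simpa only [Nat.unpair_pair, id] using exists_mid j y.1 n
    convert this using 2 with n
    exact Nat.find_congr' (by simp only [Nat.unpair_pair, id, implies_true])
  have t3 := post₂ (prim Primrec.id _) t2 Primrec₂.natPair
  have t4 := app t1 t3
  have t5 := app (app (TLe.refl (code y)) (prim (pr_e5 (s1.comp u1) (Primrec.const (rowN j))
    (u1.comp u2) (Primrec.nat_add.comp (Primrec.const (2 * j + 6)) (pr_double.comp u1))
    (u2.comp u2)) _)) t3
  have pw : Primrec₂ fun a b : ℕ => a ^ b := Primrec₂.unpaired'.1 Nat.Primrec.pow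
  have t6 := post₂ t5 t4 (p := fun a b => a * b ^ 291 % 293) (Primrec.nat_mod.comp
    (Primrec.nat_mul.comp Primrec.fst (pw.comp Primrec.snd (Primrec.const 291)))
    (Primrec.const 293))
  convert t6 using 2 with n
  simp only [vals, dd, ZMod.val_natCast, code_e5, Nat.unpair_pair, id, top]

end RepL

open RepL Split in
theorem stRep (hE : StElem) : StRep := by
  intro j κ hκ y
  refine ⟨κ (-dd j y.1) * y, dd j y.1, fun c => ?_⟩
  have h1 : (κ c * y).1 = kap j (c + dd j y.1) * (κ (-dd j y.1) * y).1 := by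
    rw [Subgroup.coe_mul, Subgroup.coe_mul, hκ, hκ, ← mul_assoc, ← kap_add hE,
      add_neg_cancel_right]
  have h2 : (κ (-dd j y.1) * y).1 = kap j (-(c + dd j y.1)) * (κ c * y).1 := by
    rw [h1, ← mul_assoc, ← kap_add hE, neg_add_cancel, kap_zero hE, one_mul]
  have h3 : TLe (vals (c + dd j y.1)) (code (κ c * y)) := by
    have := lemB j (κ c * y)
    rwa [Subgroup.coe_mul, hκ, dd_kap, add_comm] at this
  refine ⟨lemA h1, TLe.join ((lemA h2).trans (TLe.join (TLe.refl _) ?_)) h3⟩
  convert app (prim (Primrec.nat_mod.comp (Primrec.nat_sub.comp (Primrec.const 293) Primrec.id)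
    (Primrec.const 293)) _) h3 using 2 with n
  exact ZMod.neg_val' _

end Pool.Agent.Lib.MP_fa224b_lc.C
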