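import Pool.Agent.Lib.MP_fa224b_lc.C.VDefs
import Pool.Agent.Lib.MP_fa224b_lc.C.Conv
import Pool.Agent.Lib.MP_fa224b_lc.C.MoveL
import Pool.Agent.Lib.MP_fa224b_lc.C.Rep

/-! Almost everywhere forms of the steps of the measure argument. -/

namespace Pool.Agent.Lib.MP_fa224b_lc.C

open MeasureTheory ProbabilityTheory Filter Topology

open Conv in
theorem convA (S : Set B) (z : B) (hS : ∀ x y, TEq x y → x ∈ S → y ∈ S)
    (hm : NullMeasurableSet {c | join z (vals c) ∈ S} nu)
    (h0 : ∀ᵐ c ∂nu, coin {a | join (join z fun n => (c n).val / 2) (bits a) ∈ S} = 0) (d : ZZ) :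
    nu {c | join z (vals (c + d)) ∈ S} = 0 := by
  suffices H : nu {c | join z (vals c) ∈ S} = 0 from
    (pres (f := fun n t => t + d n) fun n => add_left_injective _).quasiMeasurePreserving.preimage_null
      H
  obtain ⟨T, t1, t2, t3⟩ := hm.exists_measurable_subset_ae_eq
  rw [← measure_congr t3]
  have m : Measurable fun q : ZZ × (ℕ → Bool) => fun n => sg (q.2 n) (q.1 n) :=
    measurable_pi_lambda _ fun n => (Measurable.of_discrete (f := fun p : Bool × ZMod 293 =>
      sg p.1 p.2)).comp (f := fun q : ZZ × (ℕ → Bool) => (q.2 n, q.1 n)) (by fun_prop)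
  have h1 : ∀ᵐ c ∂nu, ∀ᵐ a ∂coin, (fun n => sg (a n) (c n)) ∉ T := by
    filter_upwards [ae_inf, h0] with c hc h0
    have p1 : MeasurePreserving (fun (a : ℕ → Bool) k =>
        a (Nat.nth (fun n => (c n).val / 2 < 146) k)) coin coin :=
      ⟨by fun_prop, Measure.map_infinitePi_infinitePi_of_inj (Nat.nth_injective hc)⟩
    have p2 : MeasurePreserving _ coin coin := pres (f := fun k b =>
      xor b ((c (Nat.nth (fun n => (c n).val / 2 < 146) k)).val % 2 = 1)) fun k a b h => by
        simpa using h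
    refine measure_mono_null (fun a ha => ?_)
      ((p2.comp p1).quasiMeasurePreserving.preimage_null h0)
    have h2 := hS _ _ (teq z (x := vals fun n => sg (a n) (c n)) (fun n => ZMod.val_lt _)
      (fun n => sg_half _ _) hc) (t1 (not_not.1 ha))
    convert h2 using 1
    refine Iff.of_eq (congrArg (fun b => join _ b ∈ S) (funext fun k => ?_))
    exact (sg_par _ (Nat.nth_mem_of_infinite hc k)).symm
  obtain ⟨a, ha⟩ := ((Measure.ae_ae_comm (m t2).compl).1 h1).exists
  have p3 : MeasurePreserving _ nu nu := pres (f := fun n => sg (a n)) fun n => sg_inj _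
  rw [← p3.measure_preimage t2.nullMeasurableSet]
  exact measure_mono_null (fun c hc => not_not.2 hc) (ae_iff.1 ha)

open MoveL in
theorem moveA {K : Type} [Group K] [TopologicalSpace K] [IsTopologicalGroup K]
    [CompactSpace K] [T2Space K] [SecondCountableTopology K] [MeasurableSpace K] [BorelSpace K]
    (μ : Measure K) [IsProbabilityMeasure μ] [μ.IsMulLeftInvariant]
    (f g : K → B) (κ : ZZ → K) (hg : Measurable g) (hfg : f =ᵐ[μ] g) (hκ : Continuous κ)
    (h0 : ∀ᵐ y ∂μ, nu {c | f (κ c * y) = f y} = 0) :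
    ∃ m : ℕ, 1 / 2 < μ.real {y | g (κ (fun i => (dig m i : ZMod 293)) * y) ≠ g y} := by
  let N : Set K := toMeasurable μ {y | ¬ f y = g y}
  have hN : MeasurableSet N := measurableSet_toMeasurable _ _
  have N0 : ∀ᵐ y ∂μ, y ∉ N := measure_eq_zero_iff_ae_notMem.1
    ((measure_toMeasurable _).trans (ae_iff.1 hfg))
  have hm : Measurable fun p : ZZ × K => κ p.1 * p.2 :=
    (hκ.measurable.comp measurable_fst).mul measurable_snd
  have h1 : ∀ᵐ y ∂μ, ∀ᵐ c ∂nu, κ c * y ∉ N :=
    (Measure.ae_ae_comm (μ := nu) (ν := μ) (p := fun c y => κ c * y ∉ N)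
      (hN.preimage hm).compl).1 (Eventually.of_forall fun c =>
        (measurePreserving_mul_left μ (κ c)).quasiMeasurePreserving.ae (p := (· ∉ N)) N0)
  have h2 : ∀ᵐ y ∂μ, ∀ᵐ c ∂nu, g (κ c * y) ≠ g y := by
    filter_upwards [h1, hfg, h0] with y a b h0
    filter_upwards [a, measure_eq_zero_iff_ae_notMem.1 h0] with c a' b' e
    refine b' ?_
    have : f (κ c * y) = g (κ c * y) := by
      by_contra n
      exact a' (subset_toMeasurable _ _ n)
    exact this.trans (e.trans b.symm)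
  obtain ⟨c, hc⟩ := ((Measure.ae_ae_comm (μ := nu) (ν := μ) (p := fun c y => g (κ c * y) ≠ g y)
    (measurableSet_eq_fun (hg.comp hm) (hg.comp measurable_snd)).compl).2 h2).exists
  have h3 : μ {y | g (κ c * y) ≠ g y} = 1 := by
    rw [← measure_univ (μ := μ)]
    exact measure_congr (eventuallyEq_univ.2 hc)
  choose m hm' using fun n => digs n c
  have h4 : Tendsto (fun n : ℕ => fun i => (dig (m n) i : ZMod 293)) atTop (𝓝 c) :=
    tendsto_pi_nhds.2 fun i => tendsto_const_nhds.congr' (by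
      filter_upwards [eventually_gt_atTop i] with n hn
      rw [hm' n i hn, ZMod.natCast_zmod_val])
  obtain ⟨n, hn⟩ := lsc μ hg ((hκ.tendsto _).comp h4) h3
  exact ⟨_, hn⟩

open RepL Split in
theorem repM (hE : StElem) (j : ℕ) (κ : ZZ → KK) (hκ : ∀ c, (κ c : GG) = kap j c)
    (hc : Continuous κ) : ∃ rep : KK → KK, Measurable rep ∧ ∀ y, ∃ d : ZZ, ∀ c,
      TEq (code (κ c * y)) (join (code (rep y)) (vals (c + d))) := by
  have md : Measurable fun y : KK => dd j y.1 := by
    refine measurable_pi_lambda _ fun i => ?_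
    have e : ∀ y : GG, dd j y i = dd j (Function.update 1 (Nat.pair j (2 * i))
        (y (Nat.pair j (2 * i)))) i := fun y => by
      have e1 : ∀ a b u v, entry y (Nat.pair j (2 * i)) a b u v = entry (Function.update 1
          (Nat.pair j (2 * i)) (y (Nat.pair j (2 * i)))) (Nat.pair j (2 * i)) a b u v :=
        fun a b u v => by simp only [entry, Function.update_self]
      have e2 : piv j y i = piv j (Function.update 1 (Nat.pair j (2 * i))
          (y (Nat.pair j (2 * i)))) i := Nat.find_congr' (by simp only [mid, e1, implies_true])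
      simp only [dd, top, mid, e1, e2]
    rw [funext fun y : KK => e y.1]
    exact (Measurable.of_discrete (f := fun g : Gs (Nat.pair j (2 * i)) =>
      dd j (Function.update 1 (Nat.pair j (2 * i)) g) i)).comp
      ((measurable_pi_apply _).comp measurable_subtype_coe)
  refine ⟨fun y => κ (-dd j y.1) * y, (hc.measurable.comp md.neg).mul measurable_id,
    fun y => ⟨dd j y.1, fun c => ?_⟩⟩
  have h1 : (κ c * y).1 = kap j (c + dd j y.1) * (κ (-dd j y.1) * y).1 := by
    rw [Subgroup.coe_mul, Subgroup.coe_mul, hκ, hκ, ← mul_assoc, ← kap_add hE,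
      add_neg_cancel_right]
  have h2 : (κ (-dd j y.1) * y).1 = kap j (-(c + dd j y.1)) * (κ c * y).1 := by
    rw [h1, ← mul_assoc, ← kap_add hE, neg_add_cancel, kap_zero hE, one_mul]
  have h3 : TLe (vals (c + dd j y.1)) (code (κ c * y)) := by
    have := lemB j (κ c * y)
    rwa [Subgroup.coe_mul, hκ, dd_kap, add_comm] at this
  refine ⟨lemA h1, TLe.join ((lemA h2).trans (TLe.join (TLe.refl _) ?_)) h3⟩
  convert app (prim (Primrec.nat_mod.comp (Primrec.nat_sub.comp (Primrec.const 293) Primrec.id)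
    (Primrec.const 293)) _) h3 using 2 with n
  exact ZMod.neg_val' _

theorem coreA (h1 : StFT) (h2 : StSys) (h3 : StGapM) (h4 : StApproxM) (h5 : StComp)
    (h6 : StTvComp) (h7 : StTvVal) (hA : StKitA) (hB : StKitB) (hH : StHaar) (z : B) (f : KK → B)
    (hf : AEMeasurable f mu) (hinv : ∀ y y', TEq (iota z y) (iota z y') → TEq (f y) (f y'))
    (hc : ∀ (j : ℕ) (κ : ZZ → KK), (∀ c, (κ c : GG) = kap j c) → Continuous κ →
      ∀ᵐ y ∂mu, nu {c | f (κ c * y) = f y} = 0) (N : Set KK) (hN : mu N = 0) :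
    ∃ y, y ∉ N ∧ TLe z (f y) := by
  obtain ⟨hp, hl, hr⟩ := hH
  obtain ⟨σ, e1, e2, e3, e4, e5, e6, p1, p2, mp⟩ := h2 z
  set g := hf.mk f with hg
  have gm : Measurable g := hf.measurable_mk
  have gae : mu {y | f y = g y}ᶜ = 0 := hf.ae_eq_mk
  set O : Set KK := (toMeasurable mu {y | f y = g y}ᶜ)ᶜ with hO
  have Om : MeasurableSet O := (measurableSet_toMeasurable _ _).compl
  have O0 : mu Oᶜ = 0 := by rw [hO, compl_compl, measure_toMeasurable]; exact gae
  have Oe : ∀ y ∈ O, f y = g y := fun y hy => by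
    by_contra h
    exact hy (subset_toMeasurable _ _ h)
  have hOae : ∀ᵐ y ∂mu, y ∈ O := O0
  have hT : ∀ t ∈ σ.S, ∀ᵐ y ∂mu, TLe (g (σ.act t y)) (g y) := by
    intro t ht
    have h' : ∀ᵐ y ∂mu, σ.act t y ∈ O := by
      rw [e1]; exact (mp t).quasiMeasurePreserving.ae hOae
    filter_upwards [hOae, h'] with y hy hy'
    rw [← Oe _ hy, ← Oe _ hy']
    refine (hinv _ _ ⟨?_, ?_⟩).1
    · rw [e1]; exact h5 z t y
    · have := h5 z (σ.inv t) (σ.act t y)
      rwa [← e1, σ.act_inv t ht] at this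
  obtain ⟨N', hN', hE⟩ := h1 KK mu σ (1 - 1 / 1250) (by norm_num) (by norm_num)
    (fun t _ => e1 ▸ mp t) (by rw [e1, e3]; exact (h3 z).1) (by rw [e1, e4]; exact (h3 z).2)
    (h4 z σ e1) (e5 ▸ p1) (e6 ▸ p2) g gm hT
  obtain ⟨y, hy⟩ : ∃ y, y ∉ N' ∪ (N ∪ Oᶜ) := by
    by_contra h
    push Not at h
    have h0 : mu.real (N ∪ Oᶜ) = 0 := by
      rw [measureReal_def, measure_union_null hN O0]; rfl
    have h1 : mu.real (Set.univ : Set KK) ≤ mu.real N' + mu.real (N ∪ Oᶜ) :=
      (measureReal_mono (fun y _ => h y) (measure_ne_top _ _)).trans (measureReal_union_le _ _)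
    rw [probReal_univ, h0] at h1
    linarith
  simp only [Set.mem_union, Set.mem_compl_iff, not_or, not_not] at hy
  obtain ⟨E, hce, hE⟩ := hE y hy.1
  refine ⟨y, hy.2.1, ?_⟩
  rw [Oe y hy.2.2]
  have hS : ∀ j m, ∀ t ∈ tv j m, t ∈ σ.S := fun j m t ht => by
    rw [e2]; exact List.mem_range.2 (h6.2 j m t ht)
  have hJ : ∀ j, InJ z j ↔ ∃ m, E (tv j m) := by
    intro j
    constructor
    · intro hj
      obtain ⟨κ, k1, k2, k3⟩ := (h7 z j).2 hj
      obtain ⟨m, hm⟩ := moveA mu f g κ gm hf.ae_eq_mk k2 (hc j κ k1 k2)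
      refine ⟨m, (hE _ (hS j m)).2 ?_⟩
      simpa only [e1, k3] using hm
    · rintro ⟨m, hm⟩
      by_contra hj
      exact (hE _ (hS j m)).1 (fun y' => by rw [e1]; exact (h7 z j).1 hj m y') hm
  have c1 : Computable fun q : (ℕ × ℕ) × ℕ => tv (Nat.pair q.1.1 q.1.2) q.2 :=
    (h6.1.comp (Primrec₂.natPair.comp (Primrec.fst.comp Primrec.fst)
      (Primrec.snd.comp Primrec.fst)) Primrec.snd).to_comp
  have c2 := hA.2.2.2.2.2.1 _ _ _ _ (hA.2.2.2.2.1 _ _ _ _ _ hce c1)
  refine hB.2 _ _ ?_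
  convert c2 using 2 with q
  simp only [← hJ]
  simp [InJ]

end Pool.Agent.Lib.MP_fa224b_lc.C
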