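import Pool.Agent.Lib.MP_fa224b_lc.Main

/-! Fault tolerant composition of Turing reductions: definitions and statements. -/

namespace Pool.Agent.Lib.MP_fa224b_lc.C

open MeasureTheory Encodable

/-- number of list entries with a property -/
noncomputable def cnt {α : Type} (A : List α) (p : α → Prop) : ℕ :=
  A.countP fun a => @decide (p a) (Classical.propDecidable _)

/-- action of a word, first letter first -/
def wact {Ω : Type} (act : ℕ → Ω → Ω) : List ℕ → Ω → Ω
  | [], y => y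
  | t :: w, y => wact act w (act t y)

/-- all words of length `r` in the letters `L` (with multiplicity) -/
def words (L : List ℕ) : ℕ → List (List ℕ)
  | 0 => [[]]
  | r + 1 => (words L r).flatMap fun w => L.map fun t => t :: w

def winv (inv : ℕ → ℕ) (w : List ℕ) : List ℕ := (w.map inv).reverse

/-- computably enumerable in the real `x` -/
def CEin {α : Type} [Primcodable α] (x : B) (E : α → Prop) : Prop :=
  ∃ ρ : List ℕ → α → Bool, Computable₂ ρ ∧ ∀ a, E a ↔ ∃ s, ρ (rp x s) a = true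

/-- closure under a finitary rule -/
inductive Cl {α : Type} (Rl : List α → α → Prop) : α → Prop
  | step (D : List α) (a : α) : (∀ d ∈ D, Cl Rl d) → Rl D a → Cl Rl a

abbrev Adr : Type := List ℕ × List ℕ
abbrev Op : Type := ℕ × Adr

def ent (a : Adr) : List ℕ := a.2 ++ a.1
def gate (t : ℕ) : Op := (0, ([t], []))
def sub (a : Adr) : Op := (1, a)
def enc : Op := (2, ([], []))
def dec : Op := (3, ([], []))

/-- the word leading to the position reached by a history (last operation first) -/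
def pw : List Op → List ℕ
  | [] => []
  | o :: h => pw h ++ ent o.2

def gates (w : List ℕ) (h : List Op) : List Op := (w.map gate).reverse ++ h

def cloud (L R : List ℕ) (r : ℕ) : List Adr := (words L r).product (words R r)

/-- the word leading from entry `a'` of the cloud at `y` to entry `a` of the cloud at `t y` -/
def path (inv : ℕ → ℕ) (side : ℕ → Bool) (a' : Adr) (t : ℕ) (a : Adr) : List ℕ :=
  winv inv a'.1 ++ (if side t = true then [t] else []) ++ a.1 ++
    (winv inv a'.2 ++ (if side t = true then [] else [t]) ++ a.2)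

/-- the finite data of the decoder -/
structure Par where
  δ : ℕ → ℕ → ℕ
  prog : ℕ → ℕ → ℕ
  inv : ℕ → ℕ
  side : ℕ → Bool
  q0 : ℕ
  L : List ℕ
  R : List ℕ
  r : ℕ
  M : ℕ

def Par.A (P : Par) : List Adr := cloud P.L P.R P.r
def Par.qs (P : Par) (h : List Op) : ℕ := (pw h).foldl (fun q t => P.δ t q) P.q0
def Par.Comp (P : Par) : Prop :=
  Primrec₂ P.δ ∧ Primrec₂ P.prog ∧ Primrec P.inv ∧ Primrec P.side

/-- `Der P x h l n b`: with oracle `x`, leaf `l` of the state with history `h` gets value `b` at `n` -/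
inductive Der (P : Par) (x : B) : List Op → List Adr → ℕ → ℕ → Prop
  | base (n : ℕ) : Der P x [] [] n (x n)
  | app (t : ℕ) (h : List Op) (u : B) (s n b : ℕ) : (∀ i, i ≤ s → Der P x h [] i (u i)) →
      st (P.prog t (P.qs h)) u s n = some b →
      (∀ s', s' < s → st (P.prog t (P.qs h)) u s' n = Option.none) → Der P x (gate t :: h) [] n b
  | gat (t : ℕ) (h : List Op) (a : Adr) (l : List Adr) (n b : ℕ) (T : Adr → Prop) :
      P.A.length < 2 * cnt P.A T →
      (∀ a', a' ∈ P.A → T a' →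
        Der P x (gate 0 :: gates (path P.inv P.side a' t a) (sub a' :: h)) l n b) →
      Der P x (gate t :: h) (a :: l) n b
  | sub (a : Adr) (h : List Op) (l : List Adr) (n b : ℕ) : Der P x h (a :: l) n b →
      Der P x (sub a :: h) l n b
  | enc (a : Adr) (h : List Op) (l : List Adr) (n b : ℕ) : Der P x (gates (ent a) h) l n b →
      Der P x (enc :: h) (a :: l) n b
  | dec (h : List Op) (l : List Adr) (n b : ℕ) (T : Adr → Prop) :
      P.A.length < 2 * cnt P.A T →
      (∀ a', a' ∈ P.A → T a' →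
        Der P x (gate 0 :: gates (winv P.inv (ent a')) (sub a' :: h)) l n b) →
      Der P x (dec :: h) l n b

def Corr (P : Par) (x : B) (h : List Op) (l : List Adr) (v : B) : Prop :=
  ∀ n b, Der P x h l n b ↔ b = v n

def tN (M : ℕ) (w : List ℕ) : ℕ := M * (encode w + 1)
def tK (M : ℕ) (w : List ℕ) : ℕ := 2 * tN M w + w.length
def hist3 (k : ℕ) (c : List ℕ) : List Op := List.replicate k dec ++ gates c (List.replicate k enc)

/-- the test for the word `w` fires -/
def Fire (P : Par) (x : B) (w : List ℕ) : Prop :=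
  (words P.L (tN P.M w)).length < 4 * cnt (words P.L (tN P.M w)) fun b => ∃ n b₁ b₂, b₁ ≠ b₂ ∧
    Der P x (hist3 (tK P.M w) b) [] n b₁ ∧ Der P x (hist3 (tK P.M w) (b ++ w)) [] n b₂

/-- two commuting families of invertible moves -/
structure Sys (Ω : Type) where
  act : ℕ → Ω → Ω
  S : List ℕ
  L : List ℕ
  R : List ℕ
  inv : ℕ → ℕ
  side : ℕ → Bool
  zero_mem : 0 ∈ S
  act_zero : ∀ y, act 0 y = y
  L_sub : ∀ t ∈ L, t ∈ S
  R_sub : ∀ t ∈ R, t ∈ S
  L_ne : L ≠ []
  R_ne : R ≠ []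
  inv_mem : ∀ t ∈ S, inv t ∈ S
  act_inv : ∀ t ∈ S, ∀ y, act (inv t) (act t y) = y
  comm_LR : ∀ t ∈ L, ∀ u ∈ R, ∀ y, act t (act u y) = act u (act t y)
  comm_left : ∀ t ∈ S, side t = true → ∀ u ∈ R, ∀ y, act t (act u y) = act u (act t y)
  comm_right : ∀ t ∈ S, side t = false → ∀ u ∈ L, ∀ y, act t (act u y) = act u (act t y)

variable {Ω : Type}

/-- the walk along `w` started at `y` meets `Z` -/
def Meets (σ : Sys Ω) (Z : Set Ω) (y : Ω) (w : List ℕ) : Prop :=
  ∃ u, u <+: w ∧ wact σ.act u y ∈ Z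

/-- positions where the gates of level `k` may fail -/
def Bad (σ : Sys Ω) (r : ℕ) (B0 : Set Ω) : ℕ → Set Ω
  | 0 => B0
  | k + 1 => {y | ∃ t ∈ σ.S, (cloud σ.L σ.R r).length < 10 * cnt (cloud σ.L σ.R r) fun a =>
      3 * (cloud σ.L σ.R r).length ≤ 10 * cnt (cloud σ.L σ.R r) fun a' =>
        Meets σ (Bad σ r B0 k) (wact σ.act (ent a') y) (path σ.inv σ.side a' t a)}

def EncBad (σ : Sys Ω) (r : ℕ) (B0 : Set Ω) : Set Ω :=
  {y | ∃ k, (cloud σ.L σ.R r).length < 10 * cnt (cloud σ.L σ.R r) fun a =>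
    Meets σ (Bad σ r B0 k) y (ent a)}

def DecBad (σ : Sys Ω) (r : ℕ) (B0 : Set Ω) : Set Ω :=
  {y | ∃ k, 3 * (cloud σ.L σ.R r).length ≤ 10 * cnt (cloud σ.L σ.R r) fun a' =>
    Meets σ (Bad σ r B0 k) (wact σ.act (ent a') y) (winv σ.inv (ent a'))}

/-- positions where a predicted program fails -/
def Base (σ : Sys Ω) (prog : ℕ → ℕ → ℕ) (q : Ω → ℕ) (f : Ω → B) : Set Ω :=
  {y | ∃ t ∈ σ.S, ¬ Ev (prog t (q y)) (f y) (f (σ.act t y))}

def Fits (σ : Sys Ω) (P : Par) (q : Ω → ℕ) (y₀ : Ω) : Prop :=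
  P.inv = σ.inv ∧ P.side = σ.side ∧ P.L = σ.L ∧ P.R = σ.R ∧ P.q0 = q y₀ ∧
    ∀ t ∈ σ.S, ∀ y, q (σ.act t y) = P.δ t (q y)

def At (σ : Sys Ω) (y₀ : Ω) (h : List Op) (y : Ω) : Prop :=
  wact σ.act (pw h) y₀ = y ∧ ∀ t ∈ pw h, t ∈ σ.S

def lpos (σ : Sys Ω) : List Adr → Ω → Ω
  | [], y => y
  | a :: l, y => lpos σ l (wact σ.act (ent a) y)

def Good (σ : Sys Ω) (P : Par) (x : B) (f : Ω → B) : ℕ → List Op → Ω → Prop
  | 0, h, y => Corr P x h [] (f y)
  | k + 1, h, y => 9 * P.A.length ≤ 10 * cnt P.A fun a =>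
      Good σ P x f k (sub a :: h) (wact σ.act (ent a) y)

/-- spectral gap of the random walk with steps `L` -/
def Gap [MeasurableSpace Ω] (μ : Measure Ω) (act : ℕ → Ω → Ω) (L : List ℕ) (lam : ℝ) : Prop :=
  ∀ Z : Set Ω, MeasurableSet Z → ∀ r : ℕ,
    ∫ y, ((cnt (words L r) fun α => wact act α y ∈ Z : ℝ) / (words L r).length - μ.real Z) ^ 2 ∂μ
      ≤ lam ^ r * μ.real Z

/-- measurable functions are approximated by functions of the state of a finite automaton -/
def Approx [MeasurableSpace Ω] (μ : Measure Ω) (σ : Sys Ω) : Prop :=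
  ∀ u : ℕ → Ω → ℕ, (∀ t, Measurable (u t)) → ∀ ε : ℝ, 0 < ε →
    ∃ (q : Ω → ℕ) (δ prog : ℕ → ℕ → ℕ), Measurable q ∧ Primrec₂ δ ∧ Primrec₂ prog ∧
      (∀ t ∈ σ.S, ∀ y, q (σ.act t y) = δ t (q y)) ∧
      μ.real {y | ∃ t ∈ σ.S, u t y ≠ prog t (q y)} ≤ ε

end Pool.Agent.Lib.MP_fa224b_lc.C
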