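import Pool.Agent.Lib.MP_fa224b_lc.C.FDefs

/-! Statements of the abstract part. -/

namespace Pool.Agent.Lib.MP_fa224b_lc.C

open MeasureTheory Encodable

/-- closure properties of c.e. predicates, first part -/
def StKitA : Prop :=
  (∀ (α : Type) [Primcodable α] (x : B) (p : α → Bool), Computable p →
    CEin x fun a => p a = true) ∧
  (∀ x : B, CEin x fun q : ℕ × ℕ => x q.1 = q.2) ∧
  (∀ (α : Type) [Primcodable α] (x : B) (E E' : α → Prop), CEin x E → CEin x E' →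
    CEin x fun a => E a ∧ E' a) ∧
  (∀ (α : Type) [Primcodable α] (x : B) (E E' : α → Prop), CEin x E → CEin x E' →
    CEin x fun a => E a ∨ E' a) ∧
  (∀ (α β : Type) [Primcodable α] [Primcodable β] (x : B) (E : β → Prop) (g : α → β),
    CEin x E → Computable g → CEin x fun a => E (g a)) ∧
  (∀ (α β : Type) [Primcodable α] [Primcodable β] (x : B) (E : α × β → Prop),
    CEin x E → CEin x fun a => ∃ b, E (a, b)) ∧
  (∀ (α β : Type) [Primcodable α] [Primcodable β] (x : B) (E : α × β → Prop),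
    CEin x E → CEin x fun q : α × List β => ∀ b ∈ q.2, E (q.1, b))

/-- closure under finitary rules; functions with c.e. graph are computable -/
def StKitB : Prop :=
  (∀ (α : Type) [Primcodable α] (x : B) (Rl : List α → α → Prop),
    (CEin x fun q : List α × α => Rl q.1 q.2) → CEin x (Cl Rl)) ∧
  (∀ x z : B, (CEin x fun q : ℕ × ℕ => z q.1 = q.2) → TLe z x)

def StDerCE : Prop := ∀ (P : Par) (x : B), P.Comp →
  CEin x fun q : List Op × List Adr × ℕ × ℕ => Der P x q.1 q.2.1 q.2.2.1 q.2.2.2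

def StFireCE : Prop := ∀ (P : Par) (x : B), P.Comp → CEin x (Fire P x)

/-- the rules for correct leaves -/
def StCorr : Prop := ∀ (P : Par) (x : B),
  Corr P x [] [] x ∧
  (∀ t h u v, Corr P x h [] u → Ev (P.prog t (P.qs h)) u v → Corr P x (gate t :: h) [] v) ∧
  (∀ a h l v, Corr P x (sub a :: h) l v ↔ Corr P x h (a :: l) v) ∧
  (∀ a h l v, Corr P x (enc :: h) (a :: l) v ↔ Corr P x (gates (ent a) h) l v) ∧
  (∀ t h a l v, P.A.length < 2 * cnt P.A (fun a' =>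
      Corr P x (gate 0 :: gates (path P.inv P.side a' t a) (sub a' :: h)) l v) →
    Corr P x (gate t :: h) (a :: l) v) ∧
  (∀ h l v, P.A.length < 2 * cnt P.A (fun a' =>
      Corr P x (gate 0 :: gates (winv P.inv (ent a')) (sub a' :: h)) l v) →
    Corr P x (dec :: h) l v)

/-- gates keep states good and produce canonical correct leaves -/
def StGate : Prop := ∀ (Ω : Type) (σ : Sys Ω) (P : Par) (q : Ω → ℕ) (f : Ω → B) (y₀ : Ω),
  Fits σ P q y₀ → ∀ k, ∀ t ∈ σ.S, ∀ y, y ∉ Bad σ P.r (Base σ P.prog q f) k →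
    ∃ Lf : Set (List Adr),
      (∀ h, (∀ l ∈ Lf, Corr P (f y₀) h l (f (lpos σ l (σ.act t y)))) →
        Good σ P (f y₀) f k h (σ.act t y)) ∧
      (∀ h, At σ y₀ h y → Good σ P (f y₀) f k h y →
        ∀ l ∈ Lf, Corr P (f y₀) (gate t :: h) l (f (lpos σ l (σ.act t y))))

/-- encode, move along `c`, decode -/
def StDet : Prop := ∀ (Ω : Type) (σ : Sys Ω) (P : Par) (q : Ω → ℕ) (f : Ω → B) (y₀ : Ω),
  Fits σ P q y₀ → y₀ ∉ EncBad σ P.r (Base σ P.prog q f) → ∀ (k : ℕ) (c : List ℕ),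
    (∀ t ∈ c, t ∈ σ.S) → ¬ Meets σ (Bad σ P.r (Base σ P.prog q f) k) y₀ c →
    wact σ.act c y₀ ∉ DecBad σ P.r (Base σ P.prog q f) →
    Corr P (f y₀) (hist3 k c) [] (f (wact σ.act c y₀))

/-- second moment bound -/
def StSpread : Prop := ∀ (Ω : Type) [MeasurableSpace Ω] (μ : Measure Ω) [IsProbabilityMeasure μ]
  (act : ℕ → Ω → Ω) (L : List ℕ) (lam : ℝ), L ≠ [] → 0 ≤ lam →
  (∀ t ∈ L, MeasurePreserving (act t) μ μ) → Gap μ act L lam →
  ∀ (ι : Type) (Ξ : List ι) (Z : ι → Set Ω) (T : ι → Ω → Ω) (r : ℕ) (p τ : ℝ), Ξ ≠ [] → 0 < τ →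
    (∀ ξ ∈ Ξ, MeasurableSet (Z ξ) ∧ μ.real (Z ξ) ≤ p ∧ MeasurePreserving (T ξ) μ μ) →
    μ.real {y | (p + τ) * ((Ξ.length : ℝ) * (words L r).length) <
      cnt (Ξ.product (words L r)) fun c => wact act c.2 (T c.1 y) ∈ Z c.1} ≤ lam ^ r * p / τ ^ 2

/-- one step of the recursion for the bad sets -/
def StBadStep : Prop := ∀ (Ω : Type) [MeasurableSpace Ω] (μ : Measure Ω) [IsProbabilityMeasure μ]
  (σ : Sys Ω) (lam : ℝ), 0 ≤ lam → (∀ t ∈ σ.S, MeasurePreserving (σ.act t) μ μ) →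
  Gap μ σ.act σ.L lam → Gap μ σ.act σ.R lam → ∀ (r : ℕ) (B0 : Set Ω) (k : ℕ) (p : ℝ),
    MeasurableSet (Bad σ r B0 k) → μ.real (Bad σ r B0 k) ≤ p → p * (100 * (4 * r + 3)) ≤ 1 →
    MeasurableSet (Bad σ r B0 (k + 1)) ∧ μ.real (Bad σ r B0 (k + 1)) ≤
      σ.S.length * (4 * r + 3) * (lam ^ r * p * (100 * (4 * r + 3)) ^ 2)

/-- threshold theorem -/
def StBad : Prop := ∀ (Ω : Type) [MeasurableSpace Ω] (μ : Measure Ω) [IsProbabilityMeasure μ]
  (σ : Sys Ω) (lam : ℝ), 0 ≤ lam → lam < 1 → (∀ t ∈ σ.S, MeasurePreserving (σ.act t) μ μ) →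
  Gap μ σ.act σ.L lam → Gap μ σ.act σ.R lam →
  ∃ (r : ℕ) (ε : ℝ), 0 < ε ∧ ∀ B0 : Set Ω, MeasurableSet B0 → μ.real B0 ≤ ε →
    (∀ k, MeasurableSet (Bad σ r B0 k) ∧ μ.real (Bad σ r B0 k) ≤ (1 / 2) ^ k) ∧
    MeasurableSet (EncBad σ r B0) ∧ μ.real (EncBad σ r B0) ≤ 1 / 10 ∧
    MeasurableSet (DecBad σ r B0) ∧ μ.real (DecBad σ r B0) ≤ 1 / 100

/-- most base points are good for all tests -/
def StTest : Prop := ∀ (Ω : Type) [MeasurableSpace Ω] (μ : Measure Ω) [IsProbabilityMeasure μ]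
  (σ : Sys Ω) (lam : ℝ), 0 ≤ lam → lam < 1 → (∀ t ∈ σ.S, MeasurePreserving (σ.act t) μ μ) →
  Gap μ σ.act σ.L lam → ∀ (Z : ℕ → Set Ω) (D : Set Ω) (f : Ω → B), Measurable f →
  (∀ k, MeasurableSet (Z k) ∧ μ.real (Z k) ≤ (1 / 2) ^ k) → MeasurableSet D →
  μ.real D ≤ 1 / 100 →
  ∃ (M : ℕ) (N : Set Ω), μ.real N ≤ 1 / 10 ∧ ∀ y, y ∉ N → ∀ w : List ℕ, (∀ t ∈ w, t ∈ σ.S) →
    20 * cnt (words σ.L (tN M w)) (fun b => Meets σ (Z (tK M w)) y (b ++ w)) ≤
      (words σ.L (tN M w)).length ∧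
    100 * cnt (words σ.L (tN M w)) (fun b => wact σ.act b y ∈ D) ≤
      6 * (words σ.L (tN M w)).length ∧
    100 * cnt (words σ.L (tN M w)) (fun b => wact σ.act (b ++ w) y ∈ D) ≤
      6 * (words σ.L (tN M w)).length ∧
    (1 / 2 < μ.real {y' | f (wact σ.act w y') ≠ f y'} →
      45 * (words σ.L (tN M w)).length ≤ 100 * cnt (words σ.L (tN M w)) fun b =>
        f (wact σ.act (b ++ w) y) ≠ f (wact σ.act b y))

/-- the fault tolerance theorem -/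
def StFT : Prop := ∀ (Ω : Type) [MeasurableSpace Ω] (μ : Measure Ω) [IsProbabilityMeasure μ]
  (σ : Sys Ω) (lam : ℝ), 0 ≤ lam → lam < 1 → (∀ t ∈ σ.S, MeasurePreserving (σ.act t) μ μ) →
  Gap μ σ.act σ.L lam → Gap μ σ.act σ.R lam → Approx μ σ → Primrec σ.inv → Primrec σ.side →
  ∀ f : Ω → B, Measurable f → (∀ t ∈ σ.S, ∀ᵐ y ∂μ, TLe (f (σ.act t y)) (f y)) →
  ∃ N : Set Ω, μ.real N ≤ 1 / 2 ∧ ∀ y, y ∉ N → ∃ E : List ℕ → Prop, CEin (f y) E ∧
    ∀ w : List ℕ, (∀ t ∈ w, t ∈ σ.S) → ((∀ y', wact σ.act w y' = y') → ¬ E w) ∧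
      (1 / 2 < μ.real {y' | f (wact σ.act w y') ≠ f y'} → E w)

/-- three families of group elements with Heisenberg relations -/
def Heis {G : Type} [Group G] {p : ℕ} (a b : ZMod p → G) : Prop :=
  ∃ c : ZMod p → G, (∀ u v, c (u + v) = c u * c v) ∧ (∀ u v, a u * c v = c v * a u) ∧
    (∀ u v, b u * c v = c v * b u) ∧ ∀ u v, a u * b v = b v * a u * c (u * v)

/-- two averaging projections in Heisenberg position -/
def StPair : Prop := ∀ (V : Type) [NormedAddCommGroup V] [InnerProductSpace ℝ V] (G : Type)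
  [Group G] (π : G →* (V ≃ₗᵢ[ℝ] V)) (a b : ZMod 293 → G), (∀ u v, a (u + v) = a u * a v) →
  (∀ u v, b (u + v) = b u * b v) → Heis a b → ∀ v : V,
    -(249 / 1000 : ℝ) * (‖v - (293 : ℝ)⁻¹ • ∑ u, π (a u) v‖ ^ 2 +
      ‖v - (293 : ℝ)⁻¹ • ∑ u, π (b u) v‖ ^ 2) ≤
    2 * inner ℝ (v - (293 : ℝ)⁻¹ • ∑ u, π (a u) v) (v - (293 : ℝ)⁻¹ • ∑ u, π (b u) v)

/-- spectral gap in a Hilbert space -/
def StHilb : Prop := ∀ (V : Type) [NormedAddCommGroup V] [InnerProductSpace ℝ V] [CompleteSpace V]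
  (G : Type) [Group G] (π : G →* (V ≃ₗᵢ[ℝ] V)) (a : Fin 5 → ZMod 293 → G),
  (∀ i u v, a i (u + v) = a i u * a i v) → (∀ i j, i ≠ j → Heis (a i) (a j) ∨ Heis (a j) (a i)) →
  ∀ v : V, (∀ v₀ : V, (∀ i u, π (a i u) v₀ = v₀) → inner ℝ v v₀ = 0) →
    ‖((5 * 293 : ℝ))⁻¹ • ∑ i, ∑ u, π (a i u) v‖ ^ 2 ≤ (1 - 1 / 1250) * ‖v‖ ^ 2

/-- spectral gap of the left and of the right random walk on a compact group -/
def StGapK : Prop := ∀ (K : Type) [Group K] [TopologicalSpace K] [IsTopologicalGroup K]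
  [CompactSpace K] [T2Space K] [SecondCountableTopology K] [MeasurableSpace K] [BorelSpace K]
  (μ : Measure K) [IsProbabilityMeasure μ] [μ.IsMulLeftInvariant] [μ.IsMulRightInvariant]
  (a : Fin 5 → ZMod 293 → K), (∀ i u v, a i (u + v) = a i u * a i v) →
  (∀ i j, i ≠ j → Heis (a i) (a j) ∨ Heis (a j) (a i)) →
  Dense ((Subgroup.closure (Set.range fun c : Fin 5 × ZMod 293 => a c.1 c.2) : Subgroup K) :
    Set K) →
  ∀ (act : ℕ → K → K) (lab : Fin 5 × ZMod 293 → ℕ),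
    ((∀ c y, act (lab c) y = a c.1 c.2 * y) ∨ ∀ c y, act (lab c) y = y * a c.1 c.2) →
    Gap μ act ((Finset.univ : Finset (Fin 5 × ZMod 293)).toList.map lab) (1 - 1 / 1250)

/-- a countable-to-one function is moved by a dense set of translations -/
def StMove : Prop := ∀ (K : Type) [Group K] [TopologicalSpace K] [IsTopologicalGroup K]
  [CompactSpace K] [T2Space K] [SecondCountableTopology K] [MeasurableSpace K] [BorelSpace K]
  (μ : Measure K) [IsProbabilityMeasure μ] [μ.IsMulLeftInvariant] [μ.IsMulRightInvariant]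
  (f : K → B) (Ω₀ : Set K) (κ : (ℕ → Bool) → K), Measurable f → MeasurableSet Ω₀ → μ Ω₀ᶜ = 0 →
  (∀ v, {y | y ∈ Ω₀ ∧ f y = v}.Countable) → Continuous κ → Function.Injective κ →
  ∃ m : ℕ, 1 / 2 < μ.real {y | f (y * κ fun i => m.testBit i) ≠ f y}

end Pool.Agent.Lib.MP_fa224b_lc.C
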