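import Pool.Agent.Lib.MP_fa224b_lc.C.Basic

/-! The fault tolerance theorem. -/

namespace Pool.Agent.Lib.MP_fa224b_lc.C

open MeasureTheory

namespace FT

variable {Ω : Type} [MeasurableSpace Ω]

theorem meas_base (σ : Sys Ω) (prog : ℕ → ℕ → ℕ) {q : Ω → ℕ} {f : Ω → B} (hq : Measurable q)
    (hf : Measurable f) (ha : ∀ t ∈ σ.S, Measurable (σ.act t)) :
    MeasurableSet (Base σ prog q f) := by
  have e : Base σ prog q f = ⋃ t ∈ {t | t ∈ σ.S}, ⋃ k : ℕ, {y | q y = k} ∩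
      {y | Ev (prog t k) (f y) (f (σ.act t y))}ᶜ := by
    ext y; simp [Base]
  rw [e]
  refine MeasurableSet.biUnion (Set.to_countable _) fun t ht => MeasurableSet.iUnion fun k =>
    (hq (measurableSet_singleton k)).inter ?_
  exact (measurableSet_setOfPred.2 (meas_Ev hf (hf.comp (ha t ht)) _)).compl

omit [MeasurableSpace Ω] in
theorem meets_left {σ : Sys Ω} {Z : Set Ω} {y : Ω} {b w : List ℕ} (h : Meets σ Z y b) :
    Meets σ Z y (b ++ w) := by
  obtain ⟨u, hu, h⟩ := h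
  exact ⟨u, hu.trans (List.prefix_append b w), h⟩

end FT

open FT in
theorem stFT (h1 : StFireCE) (h2 : StDet) (h3 : StBad) (h4 : StTest) : StFT := by
  classical
  intro Ω _ μ _ σ lam l0 l1 mp gL gR hap pi ps f hf hT
  obtain ⟨r, ε, ε0, hr⟩ := h3 Ω μ σ lam l0 l1 mp gL gR
  let u : ℕ → Ω → ℕ := fun t y =>
    if t ∈ σ.S then sInf {k | Ev k (f y) (f (σ.act t y))} else 0
  have hu : ∀ t, Measurable (u t) := fun t => by
    by_cases ht : t ∈ σ.S
    · simp only [u, if_pos ht]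
      exact meas_sInf fun k => meas_Ev hf (hf.comp (mp t ht).measurable) k
    · simp only [u, if_neg ht]; exact measurable_const
  obtain ⟨q, δ, prog, qm, pδ, pp, hq, hε⟩ := hap u hu ε ε0
  have bm := meas_base σ prog qm hf fun t ht => (mp t ht).measurable
  have hae : ∀ᵐ y ∂μ, ∀ t ∈ σ.S, TLe (f (σ.act t y)) (f y) :=
    (ae_ball_iff (S := {t | t ∈ σ.S}) (Set.to_countable _)).2 hT
  have bε : μ.real (Base σ prog q f) ≤ ε := by
    refine le_trans ?_ hε
    refine ENNReal.toReal_mono (measure_ne_top _ _) (measure_mono_ae ?_)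
    filter_upwards [hae] with y hy
    rintro ⟨t, ht, h⟩
    refine ⟨t, ht, fun e => h ?_⟩
    rw [← e]
    simp only [u, if_pos ht]
    exact Nat.sInf_mem (s := {k | Ev k (f y) (f (σ.act t y))}) (tle_iff_ev.1 (hy t ht))
  obtain ⟨hZ, -, hE, dm, hD⟩ := hr _ bm bε
  obtain ⟨M, N, hN, hy⟩ := h4 Ω μ σ lam l0 l1 mp gL _ _ f hf hZ dm hD
  refine ⟨EncBad σ r (Base σ prog q f) ∪ N, (measureReal_union_le _ _).trans (by linarith),
    fun y hy0 => ?_⟩
  simp only [Set.mem_union, not_or] at hy0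
  let P : Par := ⟨δ, prog, σ.inv, σ.side, q y, σ.L, σ.R, r, M⟩
  have fit : Fits σ P q y := ⟨rfl, rfl, rfl, rfl, rfl, hq⟩
  refine ⟨Fire P (f y), h1 P _ ⟨pδ, pp, pi, ps⟩, fun w hw => ?_⟩
  obtain ⟨a1, a2, a3, a4⟩ := hy y hy0.2 w hw
  have pos := length_words_pos σ.L_ne (tN M w)
  set W := words σ.L (tN M w) with hW
  set bad : List ℕ → Prop := fun b => (Meets σ (Bad σ r (Base σ prog q f) (tK M w)) y (b ++ w) ∨
    wact σ.act b y ∈ DecBad σ r (Base σ prog q f)) ∨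
      wact σ.act (b ++ w) y ∈ DecBad σ r (Base σ prog q f) with hbad
  have hb : 100 * cnt W bad ≤ 17 * W.length := by
    have b1 := cnt_or_le W (fun b => Meets σ (Bad σ r (Base σ prog q f) (tK M w)) y (b ++ w) ∨
      wact σ.act b y ∈ DecBad σ r (Base σ prog q f))
      fun b => wact σ.act (b ++ w) y ∈ DecBad σ r (Base σ prog q f)
    have b2 := cnt_or_le W (fun b => Meets σ (Bad σ r (Base σ prog q f) (tK M w)) y (b ++ w))
      fun b => wact σ.act b y ∈ DecBad σ r (Base σ prog q f)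
    rw [hbad]
    omega
  have good : ∀ b ∈ W, ¬ bad b → Corr P (f y) (hist3 (tK M w) b) [] (f (wact σ.act b y)) ∧
      Corr P (f y) (hist3 (tK M w) (b ++ w)) [] (f (wact σ.act (b ++ w) y)) := by
    intro b hbW hn
    simp only [hbad, not_or] at hn
    have hS : ∀ t ∈ b, t ∈ σ.S := fun t ht => σ.L_sub t ((mem_words.1 hbW).2 t ht)
    refine ⟨h2 Ω σ P q f y fit hy0.1 _ b hS (fun h => hn.1.1 (meets_left h)) hn.1.2,
      h2 Ω σ P q f y fit hy0.1 _ _ (fun t ht => ?_) hn.1.1 hn.2⟩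
    rcases List.mem_append.1 ht with h | h
    exacts [hS t h, hw t h]
  constructor
  · intro htriv hfire
    have : cnt W (fun b => ∃ n b₁ b₂, b₁ ≠ b₂ ∧ Der P (f y) (hist3 (tK M w) b) [] n b₁ ∧
        Der P (f y) (hist3 (tK M w) (b ++ w)) [] n b₂) ≤ cnt W bad := by
      refine cnt_mono fun b hbW ⟨n, b₁, b₂, hne, d1, d2⟩ => ?_
      by_contra hn
      obtain ⟨c1, c2⟩ := good b hbW hn
      rw [wact_append, htriv] at c2
      exact hne (((c1 n b₁).1 d1).trans ((c2 n b₂).1 d2).symm)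
    have hf' : W.length < 4 * cnt W (fun b => ∃ n b₁ b₂, b₁ ≠ b₂ ∧
        Der P (f y) (hist3 (tK M w) b) [] n b₁ ∧
        Der P (f y) (hist3 (tK M w) (b ++ w)) [] n b₂) := hfire
    omega
  · intro hm
    have a5 := a4 hm
    have b1 := cnt_and_ge W (fun b => f (wact σ.act (b ++ w) y) ≠ f (wact σ.act b y))
      fun b => ¬ bad b
    have b2 := cnt_add_not W bad
    have : cnt W (fun b => f (wact σ.act (b ++ w) y) ≠ f (wact σ.act b y) ∧ ¬ bad b) ≤
        cnt W (fun b => ∃ n b₁ b₂, b₁ ≠ b₂ ∧ Der P (f y) (hist3 (tK M w) b) [] n b₁ ∧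
        Der P (f y) (hist3 (tK M w) (b ++ w)) [] n b₂) := by
      refine cnt_mono fun b hbW ⟨hne, hn⟩ => ?_
      obtain ⟨c1, c2⟩ := good b hbW hn
      obtain ⟨n, hn'⟩ := Function.ne_iff.1 hne
      exact ⟨n, _, _, hn'.symm, (c1 n _).2 rfl, (c2 n _).2 rfl⟩
    change W.length < 4 * cnt W (fun b => ∃ n b₁ b₂, b₁ ≠ b₂ ∧
        Der P (f y) (hist3 (tK M w) b) [] n b₁ ∧
        Der P (f y) (hist3 (tK M w) (b ++ w)) [] n b₂)
    omega

end Pool.Agent.Lib.MP_fa224b_lc.C
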