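import Pool.Agent.Lib.MP_fa224b_lc.C.Basic
import Pool.Agent.Lib.MP_fa224b_lc.C.VDefs

/-! Isomorphism theorem for atomless probability measures on standard Borel spaces. -/

namespace Pool.Agent.Lib.MP_fa224b_lc.C

open MeasureTheory ProbabilityTheory Filter Topology Set

namespace Iso

/-- Lebesgue measure on the unit interval, as a measure on the line -/
noncomputable def lam : Measure ℝ := volume.restrict (Icc 0 1)

theorem lam_single (c : ℝ) : lam {c} = 0 :=
  le_zero_iff.1 ((Measure.restrict_le_self _).trans_eq Real.volume_singleton)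

theorem cont_cdf (μ : Measure ℝ) [IsProbabilityMeasure μ] (h : ∀ x, μ {x} = 0) :
    Continuous (cdf μ) := by
  refine continuous_iff_continuousAt.2 fun x => ?_
  rw [(monotone_cdf μ).continuousAt_iff_leftLim_eq_rightLim, (cdf μ).rightLim_eq]
  have h1 := (cdf μ).measure_singleton x
  rw [measure_cdf, h x, eq_comm, ENNReal.ofReal_eq_zero, sub_nonpos] at h1
  exact le_antisymm ((monotone_cdf μ).leftLim_le le_rfl) h1

theorem meas_sub (μ : Measure ℝ) [IsProbabilityMeasure μ] (h : ∀ x, μ {x} = 0) {u : ℝ}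
    (h0 : 0 ≤ u) (h1 : u < 1) : μ (cdf μ ⁻¹' Iic u) = ENNReal.ofReal u := by
  have hc := cont_cdf μ h
  rcases (cdf μ ⁻¹' Iic u).eq_empty_or_nonempty with he | hne
  · have hu : u ≤ 0 := ge_of_tendsto' (tendsto_cdf_atBot μ) fun x => by
      by_contra hx
      have : x ∈ cdf μ ⁻¹' Iic u := (not_le.1 hx).le
      rw [he] at this
      exact this
    rw [he, measure_empty, le_antisymm hu h0, ENNReal.ofReal_zero]
  · obtain ⟨b, hb⟩ := eventually_atTop.1 ((tendsto_cdf_atTop μ).eventually (lt_mem_nhds h1))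
    have hbd : BddAbove (cdf μ ⁻¹' Iic u) :=
      ⟨b, fun x hx => le_of_not_gt fun k => absurd (hb x k.le) (not_lt.2 hx)⟩
    have hm : sSup (cdf μ ⁻¹' Iic u) ∈ cdf μ ⁻¹' Iic u :=
      (isClosed_Iic.preimage hc).csSup_mem hne hbd
    set x₀ := sSup (cdf μ ⁻¹' Iic u) with hx₀
    have e1 : cdf μ ⁻¹' Iic u = Iic x₀ :=
      Subset.antisymm (fun x hx => le_csSup hbd hx) fun x hx => (monotone_cdf μ hx).trans hm
    have e2 : cdf μ x₀ = u := by
      refine le_antisymm hm (le_of_not_gt fun k => ?_)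
      have h2 : ∀ᶠ x in 𝓝[>] x₀, cdf μ x < u :=
        nhdsWithin_le_nhds (hc.continuousAt.eventually (gt_mem_nhds k))
      obtain ⟨x, hx1, hx2⟩ := (h2.and self_mem_nhdsWithin).exists
      have : x ∈ cdf μ ⁻¹' Iic u := hx1.le
      rw [e1] at this
      exact absurd this (not_le.2 hx2)
    rw [e1, ← ofReal_cdf, e2]

theorem map_cdf (μ : Measure ℝ) [IsProbabilityMeasure μ] (h : ∀ x, μ {x} = 0) :
    μ.map (cdf μ) = lam := by
  have hm : Measurable (cdf μ) := (monotone_cdf μ).measurable
  refine Measure.ext_of_Iic _ _ fun u => ?_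
  rw [Measure.map_apply hm measurableSet_Iic, lam, Measure.restrict_apply measurableSet_Iic]
  rcases lt_or_ge u 0 with h0 | h0
  · have e1 : cdf μ ⁻¹' Iic u = ∅ :=
      eq_empty_of_forall_notMem fun x hx => absurd ((cdf_nonneg μ x).trans hx) (not_le.2 h0)
    have e2 : Iic u ∩ Icc 0 1 = ∅ :=
      eq_empty_of_forall_notMem fun x hx => absurd (hx.2.1.trans hx.1) (not_le.2 h0)
    rw [e1, e2, measure_empty, measure_empty]
  rcases lt_or_ge u 1 with h1 | h1
  · have e2 : Iic u ∩ Icc 0 1 = Icc 0 u :=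
      Subset.antisymm (fun x hx => ⟨hx.2.1, hx.1⟩) fun x hx => ⟨hx.2, hx.1, hx.2.trans h1.le⟩
    rw [meas_sub μ h h0 h1, e2, Real.volume_Icc, sub_zero]
  · have e1 : cdf μ ⁻¹' Iic u = univ := eq_univ_of_forall fun x => (cdf_le_one μ x).trans h1
    have e2 : Iic u ∩ Icc 0 1 = Icc 0 1 := inter_eq_right.2 fun x hx => hx.2.trans h1
    rw [e1, e2, measure_univ, Real.volume_Icc, sub_zero, ENNReal.ofReal_one]

/-- an atomless probability space on a standard Borel space is the unit interval, up to null sets -/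
theorem unif {X : Type} [MeasurableSpace X] [StandardBorelSpace X] [Nonempty X] (m : Measure X)
    [IsProbabilityMeasure m] (h : ∀ x, m {x} = 0) : ∃ (t : X → ℝ) (s : ℝ → X),
    MeasurePreserving t m lam ∧ Measurable s ∧ ∀ᵐ x ∂m, s (t x) = x := by
  obtain ⟨i, hi⟩ := exists_measurableEmbedding_real X
  have : IsProbabilityMeasure (m.map i) :=
    Measure.isProbabilityMeasure_map hi.measurable.aemeasurable
  have ha : ∀ y, (m.map i) {y} = 0 := fun y => by
    rw [hi.map_apply]
    rcases (subsingleton_singleton.preimage hi.injective).eq_empty_or_singleton with e | ⟨x, e⟩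
    · rw [e, measure_empty]
    · rw [e, h]
  have hG : Measurable (cdf (m.map i)) := (monotone_cdf _).measurable
  have hp : MeasurePreserving (fun x => cdf (m.map i) (i x)) m lam :=
    (⟨hG, map_cdf _ ha⟩ : MeasurePreserving _ (m.map i) lam).comp ⟨hi.measurable, rfl⟩
  set G := cdf (m.map i) with hGd
  let C : Set X := ⋂ q : ℚ, (fun x => G (i x)) ⁻¹' {G q}ᶜ
  have hC : MeasurableSet C :=
    MeasurableSet.iInter fun q => hp.measurable (measurableSet_singleton _).compl
  have hC1 : ∀ᵐ x ∂m, x ∈ C := by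
    simp only [C, mem_iInter]
    refine ae_all_iff.2 fun q => hp.quasiMeasurePreserving.ae (p := fun u => u ∈ ({G q}ᶜ : Set ℝ)) ?_
    exact compl_mem_ae_iff.2 (lam_single _)
  have key : ∀ x y : X, y ∈ C → i x < i y → G (i x) ≠ G (i y) := fun x y hy hxy e => by
    obtain ⟨q, hq1, hq2⟩ := exists_rat_btwn hxy
    exact mem_iInter.1 hy q (le_antisymm (e.ge.trans (G.mono hq1.le)) (G.mono hq2.le))
  have hinj : InjOn (fun x => G (i x)) C := fun x hx y hy e => by
    rcases lt_trichotomy (i x) (i y) with k | k | k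
    · exact absurd e (key x y hy k)
    · exact hi.injective k
    · exact absurd (Eq.symm e) (key y x hx k)
  have := hC.standardBorel
  have hE : MeasurableEmbedding fun x : C => G (i x) :=
    (hp.measurable.comp measurable_subtype_coe).measurableEmbedding hinj.injective
  refine ⟨_, Function.extend (fun x : C => G (i x)) Subtype.val fun _ => Classical.arbitrary X,
    hp, hE.measurable_extend measurable_subtype_coe measurable_const, ?_⟩
  filter_upwards [hC1] with x hx
  exact hE.injective.extend_apply _ _ ⟨x, hx⟩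

theorem coin_single (a : ℕ → Bool) : coin {a} = 0 := by
  have h : ∀ n : ℕ, coin {a} ≤ (2⁻¹ : ENNReal) ^ n := fun n => by
    have e : coin (Set.pi (Finset.range n) fun i => {a i}) = 2⁻¹ ^ n := by
      rw [coin, Measure.infinitePi_pi _ fun _ _ => MeasurableSet.singleton _]
      simp only [uniformOn_univ, Measure.count_singleton, Fintype.card_bool, Finset.prod_const,
        Finset.card_range, Nat.cast_ofNat, one_div]
    rw [← e]
    exact measure_mono (Set.singleton_subset_iff.2 fun _ _ => rfl)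
  exact le_zero_iff.1 (ge_of_tendsto'
    (ENNReal.tendsto_pow_atTop_nhds_zero_of_lt_one (by norm_num)) h)

end Iso

theorem stIso : StIso := by
  intro m _ h
  obtain ⟨t₁, s₁, ht₁, hs₁, h₁⟩ := Iso.unif m h
  obtain ⟨t₂, s₂, ht₂, hs₂, h₂⟩ := Iso.unif coin Iso.coin_single
  have hp : MeasurePreserving s₂ Iso.lam coin := by
    refine ⟨hs₂, ?_⟩
    rw [← ht₂.map_eq, Measure.map_map hs₂ ht₂.measurable]
    exact (Measure.map_congr (g := id) h₂).trans Measure.map_id
  have hr : ∀ᵐ u ∂Iso.lam, t₂ (s₂ u) = u := by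
    rw [← ht₂.map_eq]
    refine (ae_map_iff ht₂.measurable.aemeasurable
      (measurableSet_eq_fun (ht₂.measurable.comp hs₂) measurable_id)).2 ?_
    filter_upwards [h₂] with a ha
    show t₂ (s₂ (t₂ a)) = t₂ a
    rw [ha]
  refine ⟨s₂ ∘ t₁, s₁ ∘ t₂, hp.comp ht₁, hs₁.comp ht₂.measurable, ?_⟩
  filter_upwards [h₁, ht₁.quasiMeasurePreserving.ae hr] with x h1 h2
  simp only [Function.comp_apply, h2, h1]

end Pool.Agent.Lib.MP_fa224b_lc.C
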