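import Pool.Agent.Lib.MP_fa224b_lc.C.CoreA
import Pool.Agent.Lib.MP_fa224b_lc.C.MainU

/-! The cone form of the dichotomy. -/

namespace Pool.Agent.Lib.MP_fa224b_lc.C

open MeasureTheory

namespace MainV

open MainC MainU

theorem ofKey' (h2 : StDiag) (h4 : StPoint) (h5 : StSplit) (h6 : StCode) (h7 : StHaar)
    {𝒜 : MeasurableSpace B} (h : Adequate 𝒜) {F : B → B}
    (hF : @Measurable B B 𝒜 MeasurableSpace.pi F) (hinv : ∀ x y, TEq x y → TEq (F x) (F y))
    (key : ∀ w, ∃ z, TLe w z ∧ ∀ N : Set KK, mu N = 0 → ∃ y, y ∉ N ∧ TLe z (F (iota z y))) :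
    ∃ c', ∀ x, TLe c' x → TLe x (F x) := by
  have := h7.1
  obtain ⟨dg, hdg, hN⟩ := h2 KK mu iota h6.2.2.2.2
  have hid : @Measurable B B 𝒜 MeasurableSpace.pi fun x => x := h.meas measurable_id
  have hA : @MeasurableSet B 𝒜 {x | TLe (evens x) (F x) ∧ ¬ TLe (dg (evens x)) x} :=
    measurableSet_setOfPred.2 ((meas_tle (h.meas tc_evens.meas) hF).and
      (meas_tle (h.meas (hdg.comp tc_evens.meas)) hid).not)
  obtain ⟨s, hs1, hs2⟩ := h4 𝒜 h _ hA fun w => by
    obtain ⟨z, hz, key⟩ := key w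
    obtain ⟨y, hy1, hy2⟩ := key _ (hN z)
    refine ⟨iota z y, ⟨?_, ?_⟩, hz.trans (le_joinl _ _)⟩
    · simpa [iota] using hy2
    · simpa [iota] using hy1
  have hH : TC fun x => evens (RI (join (evens x) (join (evens x) (odds x)))) :=
    tc_evens.comp (tc_RI.comp (tc_evens.join (tc_evens.join tc_odds)))
  have hsplit : ∀ d, TLe s d → TLe d (join s (F d)) := by
    rcases h5 (fun s b => evens (RI (join s (join s b)))) hH s with ⟨b₀, n, hb⟩ | hb
    · exfalso
      set v := dg (evens (RI (join s (join s b₀)))) with hv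
      let b : B := fun i => if i < n then b₀ i else v (i - n)
      have e := hb b fun i hi => if_pos hi
      refine (hs1 (join s b)).2 ?_
      rw [e, ← hv]
      refine TLe.trans ?_ ((le_joinr s b).trans (hs2 _))
      have : TC fun x m => x (m + n) :=
        TC.id.pre (Primrec.nat_add.comp Primrec.id (Primrec.const n)).to_comp
      have e2 : (fun m => b (m + n)) = v := funext fun m => by simp [b]
      exact e2 ▸ this.tle b
    · intro d hd
      obtain ⟨b, hb1, hb2⟩ := hb d
      have hx := hs1 (join s b)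
      have hsx : TLe s (RI (join s (join s b))) := (le_joinl s b).trans (hs2 _)
      have e : TEq (RI (join s (join s b))) d :=
        ⟨(tc_RI.tle _).trans (hd.join (hd.join (hb1.trans (hd.join (TLe.refl d))))),
          hb2.trans (hsx.join (tc_evens.tle _))⟩
      exact hb2.trans ((le_joinl _ _).join ((hx.1.trans (hinv _ _ e).1).trans (le_joinr _ _)))
  obtain ⟨s', hs'⟩ := cone h4 h (A := {x | TLe s (F x)})
    (measurableSet_setOfPred.2 (meas_tle measurable_const hF)) fun w => by
      obtain ⟨z, hz, key⟩ := key (join w s)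
      obtain ⟨y, -, hy⟩ := key ∅ measure_empty
      exact ⟨_, ((le_joinr w s).trans hz).trans hy,
        ((le_joinl w s).trans hz).trans (le_joinl _ _)⟩
  have main : ∀ x, TLe (join s s') x → TLe x (F x) := by
    intro x hx
    obtain ⟨x', h1', h2'⟩ := hs' x ((le_joinr _ _).trans hx)
    exact (hsplit x ((le_joinl _ _).trans hx)).trans
      ((TLe.trans h1' (hinv _ _ h2').1).join (TLe.refl _))
  exact ⟨_, main⟩

theorem meas_un {φ : (ℕ → Bool) → B} (hφ : Measurable φ) :
    Measurable fun w : B => φ fun n => decide (w n = 1) :=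
  hφ.comp (measurable_pi_lambda _ fun n =>
    (measurable_of_countable fun k : ℕ => decide (k = 1)).comp (measurable_pi_apply n))

theorem nm (h3 : StNull) {𝒜 : MeasurableSpace B} (h : Adequate 𝒜) {F : B → B}
    (hF : @Measurable B B 𝒜 MeasurableSpace.pi F) : NM F := by
  intro φ ψ hφ hψ
  have m1 := hF.comp (h.preimage _ (meas_un hφ))
  have m2 := hF.comp (h.preimage _ (meas_un hψ))
  have := null_pre coin meas_bits (fun a n => Bool.toNat_lt (a n)) fun ν _ h0 =>
    h3 𝒜 h ν 2 h0 _ (measurableSet_setOfPred.2 ((meas_tle m1 m2).and (meas_tle m2 m1)))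
  convert this using 1
  have e : ∀ a : ℕ → Bool, (fun n => decide (bits a n = 1)) = a := fun a => funext fun n => by
    cases h : a n <;> simp [bits, h]
  ext a
  simp only [Set.mem_preimage, Set.mem_ofPred_eq, Function.comp, e]
  rfl

theorem params (hE : StElem) (h6 : StCode) (h7 : StHaar) (h11 : StAsc) : ∃ e, ∀ F : B → B,
    (∀ x y, TEq x y → TEq (F x) (F y)) → NM F → ∀ z, TLe e z → ¬ Flt F z →
    ∀ (j : ℕ) (κ : ZZ → KK), (∀ c, (κ c : GG) = kap j c) → Continuous κ → ∀ᵐ y ∂mu,
      ∃ (y₀ : KK) (d : ZZ), (∀ c, TEq (code (κ c * y)) (join (code y₀) (vals (c + d)))) ∧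
        ∀ᵐ c ∂nu, ¬ Flt F (join (join z (code y₀)) fun n => (c n).val / 2) := by
  have := h7.1
  have mh : Measurable fun (c : ZZ) (n : ℕ) => (c n).val / 2 := measurable_pi_lambda _ fun n =>
    (measurable_of_countable fun t : ZMod 293 => t.val / 2).comp (measurable_pi_apply n)
  have := Measure.isProbabilityMeasure_map (μ := nu) mh.aemeasurable
  obtain ⟨e', he'⟩ := h11 (nu.map fun (c : ZZ) (n : ℕ) => (c n).val / 2)
  have : ∀ j, ∃ e, ∀ F : B → B, (∀ x y, TEq x y → TEq (F x) (F y)) → NM F → ∀ z, TLe e z →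
      ¬ Flt F z → ∀ κ : ZZ → KK, (∀ c, (κ c : GG) = kap j c) → Continuous κ → ∀ᵐ y ∂mu,
      ∃ (y₀ : KK) (d : ZZ), (∀ c, TEq (code (κ c * y)) (join (code y₀) (vals (c + d)))) ∧
        ¬ Flt F (join z (code y₀)) := by
    intro j
    by_cases hk : ∃ κ : ZZ → KK, (∀ c, (κ c : GG) = kap j c) ∧ Continuous κ
    swap
    · exact ⟨0, fun _ _ _ _ _ _ κ k1 k2 => absurd ⟨κ, k1, k2⟩ hk⟩
    obtain ⟨κ, k1, k2⟩ := hk
    obtain ⟨rep, r1, r2⟩ := repM hE j κ k1 k2
    have mr := h6.2.2.2.1.comp r1
    have := Measure.isProbabilityMeasure_map (μ := mu) mr.aemeasurable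
    obtain ⟨e, he⟩ := h11 (mu.map (code ∘ rep))
    refine ⟨e, fun F hinv hm z hz hn κ' k1' _ => ?_⟩
    obtain rfl : κ = κ' := funext fun c => Subtype.ext ((k1 c).trans (k1' c).symm)
    have h0 := le_zero_iff.1 ((Measure.le_map_apply mr.aemeasurable _).trans
      (he F hinv hm z hz hn).le)
    filter_upwards [measure_eq_zero_iff_ae_notMem.1 h0] with y hy
    obtain ⟨d, hd⟩ := r2 y
    exact ⟨rep y, d, hd, hy⟩
  choose e he using this
  refine ⟨join e' fun n => e n.unpair.1 n.unpair.2, fun F hinv hm z hz hn j κ k1 k2 => ?_⟩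
  have hj : TLe (e j) z := by
    refine TLe.trans ?_ ((le_joinr _ _).trans hz)
    convert tle_col j fun n => e n.unpair.1 n.unpair.2 using 1
    funext n
    simp [col]
  filter_upwards [he j F hinv hm z hj hn κ k1 k2] with y ⟨y₀, d, hd, hy⟩
  exact ⟨y₀, d, hd, measure_eq_zero_iff_ae_notMem.1 (le_zero_iff.1
    ((Measure.le_map_apply mh.aemeasurable _).trans
      (he' F hinv hm _ (((le_joinl _ _).trans hz).trans (le_joinl _ _)) hy).le))⟩

/-- above a flat real some fibre is uncountable -/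
theorem fibre {F : B → B} {c z : B} (hz : TLe c z) (hf : Flt F z) :
    ∃ v, ¬ {x | TLe c x ∧ F x = v}.Countable := by
  by_contra hc
  push Not at hc
  obtain ⟨v, hv⟩ := hf
  have hi : Function.Injective fun a => join z (bits a) := fun a a' e => funext fun n => by
    have := congrFun (congrArg odds e) n
    simp only [odds_join, bits] at this
    revert this
    cases a n <;> cases a' n <;> simp
  have h1 : {a | TEq (F (join z (bits a))) v}.Countable := by
    refine Set.Countable.mono (fun a ha => ?_) (Set.countable_iUnion fun p : ℕ × ℕ =>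
      (hc (phi p v)).preimage_of_injOn hi.injOn)
    obtain ⟨p, hp⟩ := teq_iff_phi.1 (TEq.symm ha)
    exact Set.mem_iUnion.2 ⟨p, hz.trans (le_joinl _ _), hp.symm⟩
  have h2 : ∀ a, coin {a} = 0 := fun a => by
    have l : ∀ b : Bool, ProbabilityTheory.uniformOn (Set.univ : Set Bool) {b} = 2⁻¹ := fun b => by
      rw [ProbabilityTheory.uniformOn_univ, Measure.count_singleton]; simp
    refine le_zero_iff.1 (ge_of_tendsto' (ENNReal.tendsto_pow_atTop_nhds_zero_of_lt_one
      (r := 2⁻¹) (by simp)) fun k => ?_)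
    have e := Measure.infinitePi_pi (fun _ : ℕ => ProbabilityTheory.uniformOn (Set.univ : Set Bool))
      (s := Finset.range k) (t := fun n => {a n}) fun _ _ => .of_discrete
    simp only [l, Finset.prod_const, Finset.card_range] at e
    exact e ▸ measure_mono fun c hc n _ => congrFun hc n
  have h3 : coin {a | TEq (F (join z (bits a))) v} = 0 := by
    rw [← Set.biUnion_of_singleton {a | TEq (F (join z (bits a))) v}]
    exact (measure_biUnion_null_iff h1).2 fun a _ => h2 a
  obtain ⟨a, h4, h5⟩ := (hv.and (measure_eq_zero_iff_ae_notMem.1 h3)).exists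
  exact h5 h4

end MainV

open MainV MainU MainC in
theorem coneForm (h1 : StFT) (h1a : StSys) (h1b : StGapM) (h1c : StApproxM) (h1d : StComp)
    (h1e : StTvComp) (h1f : StTvVal) (hA : StKitA) (hB : StKitB) (hE : StElem) (h2 : StDiag)
    (h3 : StNull) (h4 : StPoint) (h5 : StSplit) (h6 : StCode) (h7 : StHaar) (h10 : StZeroOne)
    (h11 : StAsc) {𝒜 : MeasurableSpace B} (h : Adequate 𝒜) {F : B → B}
    (hF : @Measurable B B 𝒜 MeasurableSpace.pi F) (hinv : ∀ x y, TEq x y → TEq (F x) (F y))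
    (hn : ¬ ∃ c', ∀ x, TLe c' x → TLe x (F x)) : ∃ c, ∀ z, TLe c z → Flt F z := by
  by_contra H
  push Not at H
  obtain ⟨e, he⟩ := params hE h6 h7 h11
  have hS : ∀ v x y, TEq x y → x ∈ {x | TEq (F x) v} → y ∈ {x | TEq (F x) v} :=
    fun v x y e hx => (hinv x y e).symm.trans hx
  have hm : ∀ z v, @MeasurableSet B 𝒜 {x | TEq (F (join z x)) v} := fun z v =>
    measurableSet_setOfPred.2
      ((meas_tle (hF.comp (h.preimage _ (meas_join z))) measurable_const).and
        (meas_tle measurable_const (hF.comp (h.preimage _ (meas_join z)))))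
  refine hn (ofKey' h2 h4 h5 h6 h7 h hF hinv fun w => ?_)
  obtain ⟨z, hz, hf⟩ := H (join w e)
  refine ⟨z, (le_joinl _ _).trans hz, fun N hN => ?_⟩
  refine coreA h1 h1a h1b h1c h1d h1e h1f hA hB h7 z _
    (aemeas (G := fun x => F (join z x)) h6 h7 fun ν _ h0 n k => h3 𝒜 h ν 293 h0 _
      ((((@measurable_pi_apply ℕ (fun _ => ℕ) _ n).comp hF).comp (h.preimage _ (meas_join z)))
        (measurableSet_singleton k))) (fun y y' => hinv _ _) (fun j κ k1 k2 => ?_) N hN
  filter_upwards [he F hinv (nm h3 h hF) z ((le_joinr _ _).trans hz) hf j κ k1 k2]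
    with y ⟨y₀, d, hd, hy⟩
  have := convA {x | TEq (F x) (F (iota z y))} (join z (code y₀)) (hS _)
    (null_pre nu meas_vals (fun c n => ZMod.val_lt (c n))
      fun ν _ h0 => h3 𝒜 h ν 293 h0 _ (hm _ _))
    (hy.mono fun c hc => by_contra fun h0 => hc ⟨_, h10 _ _ (hS _)
      (null_pre coin meas_bits (fun a n => Bool.toNat_lt (a n))
        fun ν _ h0 => h3 𝒜 h ν 2 h0 _ (hm _ _)) h0⟩) d
  refine measure_mono_null (fun e he => ?_) this
  have e1 := hinv _ _ ((teq_join (TEq.refl z) (hd e)).trans (teq_assoc _ _ _))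
  exact e1.symm.trans (by rw [← show F (iota z (κ e * y)) = F (iota z y) from he]; exact TEq.refl _)

end Pool.Agent.Lib.MP_fa224b_lc.C
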