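import Pool.Agent.Lib.MP_fa224b_lc.C.Basic
import Pool.Agent.Lib.MP_fa224b_lc.C.MDefs

/-! The measure game: a winning strategy of I bounds the inner measure; measurability. -/

namespace Pool.Agent.Lib.MP_fa224b_lc.C

open MeasureTheory Encodable Filter

namespace NullI

theorem rp_congr {x y : B} {n : ℕ} (h : ∀ i < n, x i = y i) : rp x n = rp y n := by
  induction n with
  | zero => rfl
  | succ n ih => simp only [rp, h n (by omega), ih fun i hi => h i (by omega)]

theorem meas_fin {P : B → Prop} (n : ℕ) (h : ∀ x y, (∀ i < n, x i = y i) → P x → P y) :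
    Measurable P := by
  have := meas_prop₂ (meas_rp n) (meas_rp n)
    fun a _ => P fun i => (Denumerable.ofNat (List ℕ) a).reverse.getD i 0
  convert this using 2 with x
  have e : ∀ i < n, x i = (Denumerable.ofNat (List ℕ) (encode (rp x n))).reverse.getD i 0 :=
    fun i hi => by simp [rp_reverse, List.getD_eq_getElem?_getD, hi]
  exact ⟨h _ _ e, h _ _ fun i hi => (e i hi).symm⟩

theorem play_congr (σ : List ℕ → ℕ) {m m' : B} {n : ℕ} (h : ∀ k < n, m k = m' k) :
    ∀ i < 2 * n + 1, run σ (blind m) i = run σ (blind m') i := by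
  have : ∀ j, j ≤ 2 * n + 1 → hist σ (blind m) j = hist σ (blind m') j := by
    intro j hj
    induction j with
    | zero => rfl
    | succ j ih =>
      simp only [hist, ih (by omega), blind, hist_length]
      split_ifs
      · rfl
      · rw [h (j / 2) (by omega)]
  intro i hi
  simp only [run, this (i + 1) hi]

theorem meas_ncyl (l : List ℕ) : MeasurableSet (ncyl l) :=
  measurableSet_setOfPred.2 (meas_fin l.length fun _ _ h hx => (rp_congr h).symm.trans hx)

theorem sum_ncyl (ν : Measure B) [IsProbabilityMeasure ν] (q : ℕ) (l : List ℕ) {T : Set B}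
    (hT : MeasurableSet T) :
    ∑ i ∈ Finset.range q, ν.real (ncyl (i :: l) ∩ T) ≤ ν.real (ncyl l ∩ T) := by
  rw [← measureReal_biUnion_finset (fun i _ j _ hij => ?_) fun i _ => (meas_ncyl _).inter hT]
  · refine measureReal_mono (Set.iUnion₂_subset fun i _ x hx => ?_) (measure_ne_top _ _)
    exact ⟨(List.cons.inj hx.1).2, hx.2⟩
  · refine Set.disjoint_left.2 fun x h1 h2 => hij ?_
    exact (List.cons.inj h1.1).1.symm.trans (List.cons.inj h2.1).1

theorem legII_congr {q n k : ℕ} {x y : B} (h : ∀ i < 2 * n + 1, x i = y i) (hk : k < n)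
    (hx : LegII q x k) : LegII q y k := by
  unfold LegII at hx ⊢
  rwa [← h (2 * k) (by omega), ← h (2 * k + 1) (by omega)]

theorem legI_congr {ν : Measure B} {q : ℕ} {a : ℚ} {x y : B} {k : ℕ}
    (h : ∀ i < 2 * k + 1, x i = y i) (hx : LegI ν q a x k) : LegI ν q a y k := by
  unfold LegI at hx ⊢
  have e : gval a x k = gval a y k := by
    cases k with
    | zero => rfl
    | succ k => simp only [gval, h (2 * k) (by omega), h (2 * k + 1) (by omega)]
  rwa [← h (2 * k) (by omega), ← e,
    ← rp_congr (x := odds x) (y := odds y) (n := k) fun i hi => h _ (by omega)]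

theorem null (h1 : StNullI) (h2 : StNullII) (ν : Measure B) [IsProbabilityMeasure ν] (q : ℕ)
    (hq : ν {x | ∀ n, x n < q}ᶜ = 0) (A : Set B) (h : ∀ a, Determined (NG ν q a A)) :
    NullMeasurableSet A ν := by
  have : ∀ a : ℚ, ∃ C, C ⊆ A ∧ MeasurableSet C ∧ ((a : ℝ) < ν.real A → (a : ℝ) ≤ ν.real C) := by
    intro a
    by_cases ha : (a : ℝ) < ν.real A ∧ 0 ≤ a
    swap
    · refine ⟨∅, Set.empty_subset _, MeasurableSet.empty, fun h' => ?_⟩
      have : a < 0 := not_le.1 fun h'' => ha ⟨h', h''⟩
      simpa using this.le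
    rcases h a with ⟨σ, hσ⟩ | ⟨τ, hτ⟩
    · obtain ⟨C, c1, c2, c3⟩ := h1 ν q a A σ (ha.1.le.trans measureReal_le_one) hσ
      exact ⟨C, c1, c2, fun _ => c3⟩
    · exfalso
      obtain ⟨U, -, u2, u3⟩ := h2 ν q a A τ ha.2 hτ ((ν.real A - a) / 2) (by linarith [ha.1])
      have e : ν.real A ≤ ν.real U := ENNReal.toReal_mono (measure_ne_top _ _)
        (measure_mono_ae (by
          filter_upwards [show ∀ᵐ x ∂ν, x ∈ {x : B | ∀ n, x n < q} from hq] with x hx hA
          exact u2 x hA hx))
      linarith [ha.1]
  choose C c1 c2 c3 using this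
  have m := (MeasurableSet.iUnion c2).nullMeasurableSet (μ := ν)
  refine m.congr (ae_eq_of_subset_of_measure_ge (Set.iUnion_subset c1) ?_ m (measure_ne_top _ _))
  rw [← ENNReal.toReal_le_toReal (measure_ne_top _ _) (measure_ne_top _ _)]
  by_contra hlt
  obtain ⟨a, a1, a2⟩ := exists_rat_btwn (not_le.1 hlt)
  exact absurd ((c3 a a2).trans (measureReal_mono (Set.subset_iUnion C a) (measure_ne_top _ _)))
    (not_le.2 a1)

theorem meas_leg (ν : Measure B) (q : ℕ) (a : ℚ) :
    (Measurable fun x => ∀ n, (∀ m, m < n → LegII q x m) → LegI ν q a x n) ∧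
      Measurable fun x => ∀ n, LegII q x n :=
  ⟨Measurable.forall fun n => meas_fin (2 * n + 1) fun _ _ h hx hy => legI_congr h
    (hx fun m hm => legII_congr (fun i hi => (h i hi).symm) hm (hy m hm)),
  Measurable.forall fun n => meas_fin (2 * (n + 1) + 1) fun _ _ h =>
    legII_congr h (Nat.lt_succ_self n)⟩

end NullI

open NullI in
theorem stNullI : StNullI := by
  intro ν _ q a A σ ha hσ
  let p : B → B := fun x => run σ (blind x)
  have po : ∀ x, odds (p x) = x := odds_run σ
  let T : ℕ → Set B := fun n => {x | ∀ m, m < n → LegII q (p x) m}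
  have tc : ∀ n x y, (∀ i < n, x i = y i) → x ∈ T n → y ∈ T n := fun n x y h hx m hm =>
    legII_congr (play_congr σ h) hm (hx m hm)
  have Tm : ∀ n, MeasurableSet (T n) := fun n => measurableSet_setOfPred.2 (meas_fin n (tc n))
  have key : ∀ n x k, x ∈ T k → (gval a (p x) k : ℝ) ≤ ν.real (ncyl (rp x k)) →
      (gval a (p x) k : ℝ) ≤ ν.real (ncyl (rp x k) ∩ T (k + n)) := by
    intro n
    induction n with
    | zero =>
      intro x k hx h
      rwa [add_zero, Set.inter_eq_left.2 fun y hy => tc k x y (fun i hi => ?_) hx]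
      simp only [ncyl, rp_length, Set.mem_ofPred_eq] at hy
      exact (rp_eq hy i hi).symm
    | succ n ih =>
      intro x k hx _
      obtain ⟨l1, l2⟩ := (hσ (blind x)).1 k hx
      refine le_trans ?_ (sum_ncyl ν q _ (Tm _))
      have l3 : (gval a (p x) k : ℝ) ≤ ∑ i ∈ Finset.range q, (mv (p x (2 * k)) i : ℝ) := by
        exact_mod_cast l2
      refine le_trans l3 (Finset.sum_le_sum fun i hi => ?_)
      obtain ⟨m1, m2⟩ := l1 i (Finset.mem_range.1 hi)
      rcases m1.eq_or_lt with m0 | m0
      · rw [← m0]; simp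
      have e : ∀ j < k, x j = Function.update x k i j := fun j hj =>
        (Function.update_of_ne hj.ne _ _).symm
      have e1 : p (Function.update x k i) (2 * k) = p x (2 * k) :=
        (play_congr σ e _ (by omega)).symm
      have e2 : p (Function.update x k i) (2 * k + 1) = i := by
        simpa [odds] using congrFun (po (Function.update x k i)) k
      have e3 : rp (Function.update x k i) (k + 1) = i :: rp x k := by
        simp only [rp, Function.update_self, rp_congr e]
      have := ih (Function.update x k i) (k + 1) (fun m hm => by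
        rcases Nat.lt_succ_iff_lt_or_eq.1 hm with hm | rfl
        · exact tc k x _ e hx m hm
        · unfold LegII
          rw [e1, e2]
          exact ⟨Finset.mem_range.1 hi, m0⟩) (by
        simp only [gval, e1, e2, e3]
        rwa [odds_run] at m2)
      simp only [gval, e1, e2, e3] at this
      rwa [add_right_comm, add_assoc] at this
  refine ⟨⋂ n, T n, fun x hx => ?_, MeasurableSet.iInter Tm, ?_⟩
  · have := (hσ (blind x)).2 fun n => Set.mem_iInter.1 hx (n + 1) n (Nat.lt_succ_self n)
    rwa [odds_run] at this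
  · have anti : Antitone T := fun n m h x hx k hk => hx k (lt_of_lt_of_le hk h)
    have := (ENNReal.tendsto_toReal (measure_ne_top ν _)).comp
      (tendsto_measure_iInter_atTop (μ := ν) (fun n => (Tm n).nullMeasurableSet) anti
        ⟨0, measure_ne_top _ _⟩)
    refine ge_of_tendsto' this fun n => ?_
    have h := key n 0 0 (fun m hm => absurd hm (Nat.not_lt_zero m)) (by simpa [gval, rp, ncyl])
    simpa [gval, rp, ncyl, measureReal_def] using h

theorem stNull (h1 : StNullI) (h2 : StNullII) : StNull := by
  intro 𝒜 h ν _ q hq A hA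
  refine NullI.null h1 h2 ν q hq A fun a => h.determined _ (measurableSet_setOfPred.2 ?_)
  exact ((NullI.meas_leg ν q a).1.mono h.borel_le le_rfl).and
    (((NullI.meas_leg ν q a).2.mono h.borel_le le_rfl).imp
      (measurableSet_setOfPred.1 (h.preimage _ tc_odds.meas hA)))

end Pool.Agent.Lib.MP_fa224b_lc.C
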