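import Pool.Agent.Lib.MP_fa224b_lc.C.ApproxM
import Pool.Agent.Lib.MP_fa224b_lc.C.Bad
import Pool.Agent.Lib.MP_fa224b_lc.C.BadStep
import Pool.Agent.Lib.MP_fa224b_lc.C.Comp
import Pool.Agent.Lib.MP_fa224b_lc.C.Corr
import Pool.Agent.Lib.MP_fa224b_lc.C.DerCE
import Pool.Agent.Lib.MP_fa224b_lc.C.Det
import Pool.Agent.Lib.MP_fa224b_lc.C.Diag
import Pool.Agent.Lib.MP_fa224b_lc.C.Elem
import Pool.Agent.Lib.MP_fa224b_lc.C.FT
import Pool.Agent.Lib.MP_fa224b_lc.C.FireCE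
import Pool.Agent.Lib.MP_fa224b_lc.C.GapK
import Pool.Agent.Lib.MP_fa224b_lc.C.Gate
import Pool.Agent.Lib.MP_fa224b_lc.C.Haar
import Pool.Agent.Lib.MP_fa224b_lc.C.Hilb
import Pool.Agent.Lib.MP_fa224b_lc.C.KitA
import Pool.Agent.Lib.MP_fa224b_lc.C.KitB
import Pool.Agent.Lib.MP_fa224b_lc.C.Mem
import Pool.Agent.Lib.MP_fa224b_lc.C.NullI
import Pool.Agent.Lib.MP_fa224b_lc.C.NullII
import Pool.Agent.Lib.MP_fa224b_lc.C.Pair
import Pool.Agent.Lib.MP_fa224b_lc.C.Split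
import Pool.Agent.Lib.MP_fa224b_lc.C.Spread
import Pool.Agent.Lib.MP_fa224b_lc.C.SysM
import Pool.Agent.Lib.MP_fa224b_lc.C.Test
import Pool.Agent.Lib.MP_fa224b_lc.C.TwComp
import Pool.Agent.Lib.MP_fa224b_lc.C.TvComp
import Pool.Agent.Lib.MP_fa224b_lc.C.TvVal
import Pool.Agent.Lib.MP_fa224b_lc.C.ZeroOne
import Pool.Agent.Lib.MP_fa224b_lc.C.MainV
import Pool.Agent.Lib.MP_fa224b_lc.C.Iso
import Pool.Agent.Lib.MP_fa224b_lc.C.AeComp
import Pool.Agent.Lib.MP_fa224b_lc.C.Swap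
import Pool.Agent.Lib.MP_fa224b_lc.C.Asc
import Pool.Agent.Lib.MP_fa224b_lc.BD.Borel

/-! Assembly of the cone form. -/

namespace Pool.Agent.Lib.MP_fa224b_lc.C

theorem finalForm {𝒜 : MeasurableSpace B} (h : Adequate 𝒜) {F : B → B}
    (hF : @Measurable B B 𝒜 MeasurableSpace.pi F) (hinv : ∀ x y, TEq x y → TEq (F x) (F y))
    (hn : ¬ ∃ c', ∀ x, TLe c' x → TLe x (F x)) : ∃ c, ∀ z, TLe c z → Flt F z :=
  have hM := stMem stElem stLine
  coneForm (stFT (stFireCE stKitA (stDerCE stKitA (stKitB stKitA))) (stDet stCorr (stGate stCorr))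
    (stBad (stBadStep stSpread)) (stTest stSpread)) (stSys stElem hM stHaar)
    (stGapM stElem hM stHaar (stGapK (stHilb stPair))) (stApproxM stHaar) (stComp hM stLine)
    stTvComp (stTvVal stElem stLine hM (stMword stElem hM)) stKitA (stKitB stKitA) stElem stDiag
    (stNull stNullI stNullII) stPoint stSplit stCode stHaar stZeroOne
    (stAsc stIso stAeComp stIl (stSwap stIl)) h hF hinv hn

end Pool.Agent.Lib.MP_fa224b_lc.C
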