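import Pool.Agent.Lib.MP_fa224b_lc.C.ZeroOne
import Pool.Agent.Lib.MP_fa224b_lc.C.VDefs

/-! Interleaving of coins and the swap argument. -/

namespace Pool.Agent.Lib.MP_fa224b_lc.C

open MeasureTheory ProbabilityTheory Filter

namespace Swap

/-- the even and the odd half of a binary sequence -/
def sp (a : ℕ → Bool) : (ℕ → Bool) × (ℕ → Bool) := (fun n => a (2 * n), fun n => a (2 * n + 1))

theorem il_sp (a : ℕ → Bool) : il (sp a) = a := by
  funext n
  simp only [il, sp]
  split_ifs with h <;> congr 1 <;> omega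

theorem sp_il (p : (ℕ → Bool) × (ℕ → Bool)) : sp (il p) = p := by
  refine Prod.ext (funext fun n => ?_) (funext fun n => ?_)
  · simp [il, sp]
  · simp only [il, sp]
    rw [if_neg (by omega), show (2 * n + 1) / 2 = n by omega]

theorem bits_il (p : (ℕ → Bool) × (ℕ → Bool)) : bits (il p) = join (bits p.1) (bits p.2) := by
  funext n
  simp only [il, bits, join]
  split_ifs <;> rfl

theorem meas_il : Measurable il := measurable_pi_lambda _ fun n => by
  unfold il
  split_ifs <;> fun_prop

theorem meas_bits : Measurable bits := measurable_pi_lambda _ fun n =>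
  (measurable_of_countable Bool.toNat).comp (measurable_pi_apply n)

theorem meas_join₂ {X : Type} [MeasurableSpace X] {φ ψ : X → B} (hφ : Measurable φ)
    (hψ : Measurable ψ) : Measurable fun x => join (φ x) (ψ x) :=
  measurable_pi_lambda _ fun n => by
    unfold join
    split_ifs
    · exact (measurable_pi_apply _).comp hφ
    · exact (measurable_pi_apply _).comp hψ

theorem pres_sp : MeasurePreserving sp coin (coin.prod coin) := by
  have hf : Function.Injective fun p : Fin 2 × ℕ => 2 * p.2 + p.1.1 := by
    rintro ⟨i, n⟩ ⟨j, m⟩ h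
    simp only [Prod.mk.injEq, Fin.ext_iff] at h ⊢
    omega
  have h1 : MeasurePreserving (fun (a : ℕ → Bool) (p : Fin 2 × ℕ) => a (2 * p.2 + p.1.1)) coin
      (Measure.infinitePi fun _ => uniformOn (Set.univ : Set Bool)) :=
    ⟨by fun_prop, Measure.map_infinitePi_infinitePi_of_inj hf⟩
  have h2 : MeasurePreserving (MeasurableEquiv.curry (Fin 2) ℕ Bool)
      (Measure.infinitePi fun _ => uniformOn (Set.univ : Set Bool))
      (Measure.infinitePi fun _ => coin) :=
    ⟨MeasurableEquiv.measurable _,
      Measure.infinitePi_map_curry fun _ _ => uniformOn (Set.univ : Set Bool)⟩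
  have h3 : MeasurePreserving (fun w : Fin 2 → ℕ → Bool => (w 0, w 1))
      (Measure.infinitePi fun _ => coin) (coin.prod coin) :=
    ⟨by fun_prop, Measure.infinitePi_map_eval_prod (P := fun _ : Fin 2 => coin) zero_ne_one⟩
  exact (h3.comp h2).comp h1

theorem pres_il : MeasurePreserving il (coin.prod coin) coin := by
  refine ⟨meas_il, ?_⟩
  rw [← pres_sp.map_eq, Measure.map_map meas_il pres_sp.measurable,
    show il ∘ sp = id from funext il_sp, Measure.map_id]

theorem le_l (a b : B) : TLe a (join a b) := by simpa using tc_evens.tle (join a b)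

theorem le_r (a b : B) : TLe b (join a b) := by simpa using tc_odds.tle (join a b)

theorem le_comm (z a b : B) : TLe (join (join z a) b) (join (join z b) a) :=
  (((le_l z b).trans (le_l _ a)).join (le_r _ a)).join ((le_r z b).trans (le_l _ a))

theorem teq_assoc (a b c : B) : TEq (join (join a b) c) (join a (join b c)) :=
  ⟨((le_l _ _).join ((le_l b c).trans (le_r _ _))).join ((le_r b c).trans (le_r _ _)),
    ((le_l a b).trans (le_l _ _)).join (((le_r a b).trans (le_l _ _)).join (le_r _ _))⟩

theorem teq_tail (z : B) {u u' b b' : ℕ → Bool} {N : ℕ} (h : ∀ n, N ≤ n → u n = u' n)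
    (h' : ∀ n, N ≤ n → b n = b' n) :
    TEq (join (join z (bits u)) (bits b)) (join (join z (bits u')) (bits b')) := by
  have key : ∀ n, 4 * N ≤ n →
      join (join z (bits u)) (bits b) n = join (join z (bits u')) (bits b') n := fun n hn => by
    simp only [join, bits, h (n / 2 / 2) (by omega), h' (n / 2) (by omega)]
  exact ⟨ZeroOne.tle_of_tail key, ZeroOne.tle_of_tail fun n hn => (key n hn).symm⟩

end Swap

theorem stIl : StIl := ⟨Swap.pres_il, Swap.pres_sp⟩

open Swap in
theorem stSwap (_h : StIl) : StSwap := by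
  intro F hF hN z hz
  let H : (ℕ → Bool) → (ℕ → Bool) → B := fun u b => F (join (join z (bits u)) (bits b))
  have hs := pres_sp.measurable
  have hc : EventuallyConst
      {a | TEq (H (sp a).1 (sp (sp a).2).1) (H (sp a).1 (sp (sp a).2).2)} (ae coin) := by
    refine aeconst_of_dense_setOfPred_preimage_vadd_eq (M := ℕ → Bool)
      (hN _ _ (meas_join₂ (meas_join₂ measurable_const (meas_bits.comp hs.fst))
          (meas_bits.comp (hs.comp hs.snd).fst))
        (meas_join₂ (meas_join₂ measurable_const (meas_bits.comp hs.fst))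
          (meas_bits.comp (hs.comp hs.snd).snd)))
      (ZeroOne.dense_fin.mono ?_)
    rintro g ⟨N, hg⟩
    have e : ∀ (a : ℕ → Bool) n, N ≤ n → (g + a) n = a n := fun a n hn => by
      rw [Pi.add_apply, hg n hn, zero_add]
    have e1 : ∀ a, TEq (H (sp (g + a)).1 (sp (sp (g + a)).2).1) (H (sp a).1 (sp (sp a).2).1) :=
      fun a => hF _ _ (teq_tail z (N := N) (fun n hn => e a _ (by omega))
        fun n hn => e a _ (by omega))
    have e2 : ∀ a, TEq (H (sp (g + a)).1 (sp (sp (g + a)).2).2) (H (sp a).1 (sp (sp a).2).2) :=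
      fun a => hF _ _ (teq_tail z (N := N) (fun n hn => e a _ (by omega))
        fun n hn => e a _ (by omega))
    ext a
    exact ⟨fun h => ((e1 a).symm.trans h).trans (e2 a),
      fun h => ((e1 a).trans h).trans (e2 a).symm⟩
  have t := (pres_il.comp ((MeasurePreserving.id coin).prod pres_il)).quasiMeasurePreserving
  rcases eventuallyConst_set.1 hc with h | h
  · exfalso
    have h1 : ∀ᵐ p ∂coin.prod (coin.prod coin), TEq (H p.1 p.2.1) (H p.1 p.2.2) := by
      filter_upwards [t.ae h] with p hp
      simpa only [Set.mem_ofPred_eq, Function.comp, sp_il, Prod.map, id] using hp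
    have h2 := Measure.ae_ae_of_ae_prod (((measurePreserving_prodAssoc coin coin coin).comp
      Measure.measurePreserving_swap).quasiMeasurePreserving.ae h1)
    obtain ⟨w, w1, w2⟩ := ((Measure.ae_ae_of_ae_prod h1).and h2).exists
    obtain ⟨b, hb⟩ := (Measure.ae_ae_of_ae_prod w1).exists
    have h3 : ∀ᵐ q ∂coin.prod coin, TEq (H q.1 q.2) (H w b) := by
      filter_upwards [w2, Measure.quasiMeasurePreserving_fst.ae hb] with q q1 q2
      exact (TEq.trans q1 (hF _ _ ⟨le_comm _ _ _, le_comm _ _ _⟩)).trans (TEq.symm q2)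
    refine hz ⟨H w b, ?_⟩
    filter_upwards [pres_sp.quasiMeasurePreserving.ae h3] with a ha
    refine (hF _ _ ?_).trans ha
    conv_lhs => rw [← il_sp a, bits_il]
    exact (teq_assoc _ _ _).symm
  · have h1 : ∀ᵐ p ∂coin.prod (coin.prod coin), ¬ TEq (H p.1 p.2.1) (H p.1 p.2.2) := by
      filter_upwards [t.ae h] with p hp
      simpa only [Set.mem_ofPred_eq, Function.comp, sp_il, Prod.map, id] using hp
    refine measure_eq_zero_iff_ae_notMem.2 ?_
    filter_upwards [Measure.ae_ae_of_ae_prod h1] with u hu ⟨v, hv⟩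
    obtain ⟨q, q1, q2, q3⟩ := (hu.and ((Measure.quasiMeasurePreserving_fst.ae hv).and
      (Measure.quasiMeasurePreserving_snd.ae hv))).exists
    exact q1 (TEq.trans q2 (TEq.symm q3))

end Pool.Agent.Lib.MP_fa224b_lc.C
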